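import Pool.Agent.DGP.Stmts

set_option autoImplicit false

open Finset

namespace Pool.Agent.DGP

namespace Base

/-! ### Integers -/

theorem isZ_iff {x : ℚ} : IsZ x ↔ x ∈ (Int.castRingHom ℚ).range := by
  constructor
  · rintro ⟨a, rfl⟩
    exact ⟨a, rfl⟩
  · rintro ⟨a, ha⟩
    exact ⟨a, ha.symm⟩

theorem isZ_mul {x y : ℚ} (hx : IsZ x) (hy : IsZ y) : IsZ (x * y) := by
  obtain ⟨a, rfl⟩ := hx
  obtain ⟨b, rfl⟩ := hy
  exact ⟨a * b, by push_cast; ring⟩

theorem isZ_add {x y : ℚ} (hx : IsZ x) (hy : IsZ y) : IsZ (x + y) := by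
  obtain ⟨a, rfl⟩ := hx
  obtain ⟨b, rfl⟩ := hy
  exact ⟨a + b, by push_cast; ring⟩

theorem isZ_nat (n : ℕ) : IsZ (n : ℚ) := ⟨n, by simp⟩

theorem isZ_pow {x : ℚ} (hx : IsZ x) (n : ℕ) : IsZ (x ^ n) := by
  obtain ⟨a, rfl⟩ := hx
  exact ⟨a ^ n, by push_cast; ring⟩

theorem isZ_sum {ι : Type} (s : Finset ι) (f : ι → ℚ) (h : ∀ i ∈ s, IsZ (f i)) :
    IsZ (∑ i ∈ s, f i) := by
  rw [isZ_iff]
  exact Subring.sum_mem _ (fun i hi => isZ_iff.1 (h i hi))

/-- Polynomials with integer coefficients. -/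
def PZ (p : Polynomial ℚ) : Prop := ∀ l, IsZ (p.coeff l)

theorem pz_iff {p : Polynomial ℚ} : PZ p ↔ p ∈ Polynomial.lifts (Int.castRingHom ℚ) := by
  rw [Polynomial.lifts_iff_coeff_lifts]
  constructor
  · intro h n
    obtain ⟨a, ha⟩ := h n
    exact ⟨a, ha.symm⟩
  · intro h n
    obtain ⟨a, ha⟩ := h n
    exact ⟨a, ha.symm⟩

theorem pz_mul {p q : Polynomial ℚ} (hp : PZ p) (hq : PZ q) : PZ (p * q) :=
  pz_iff.2 (mul_mem (pz_iff.1 hp) (pz_iff.1 hq))

theorem pz_add {p q : Polynomial ℚ} (hp : PZ p) (hq : PZ q) : PZ (p + q) :=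
  pz_iff.2 (add_mem (pz_iff.1 hp) (pz_iff.1 hq))

theorem pz_pow {p : Polynomial ℚ} (hp : PZ p) (n : ℕ) : PZ (p ^ n) :=
  pz_iff.2 (pow_mem (pz_iff.1 hp) n)

theorem pz_sum {ι : Type} (s : Finset ι) (f : ι → Polynomial ℚ) (h : ∀ i ∈ s, PZ (f i)) :
    PZ (∑ i ∈ s, f i) :=
  pz_iff.2 (sum_mem (fun i hi => pz_iff.1 (h i hi)))

theorem pz_C {x : ℚ} (hx : IsZ x) : PZ (Polynomial.C x) := by
  intro l
  rw [Polynomial.coeff_C]
  split_ifs
  · exact hx
  · exact ⟨0, by simp⟩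

theorem pz_X : PZ Polynomial.X := by
  intro l
  rw [Polynomial.coeff_X]
  split_ifs
  · exact ⟨1, by simp⟩
  · exact ⟨0, by simp⟩

theorem pz_neg {p : Polynomial ℚ} (hp : PZ p) : PZ (-p) := by
  intro l
  obtain ⟨a, ha⟩ := hp l
  exact ⟨-a, by rw [Polynomial.coeff_neg, ha]; push_cast; ring⟩

/-! ### The sum of the absolute values of the coefficients -/

/-- The sum of the absolute values of the coefficients. -/
noncomputable def l1 (p : Polynomial ℚ) : ℚ := ∑ i ∈ p.support, |p.coeff i|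

theorem l1_eq (p : Polynomial ℚ) (s : Finset ℕ) (h : p.support ⊆ s) :
    l1 p = ∑ i ∈ s, |p.coeff i| := by
  unfold l1
  apply Finset.sum_subset h
  intro i _ hi
  rw [Polynomial.notMem_support_iff.1 hi, abs_zero]

theorem l1_nonneg (p : Polynomial ℚ) : 0 ≤ l1 p :=
  Finset.sum_nonneg (fun _ _ => abs_nonneg _)

theorem coeff_le_l1 (p : Polynomial ℚ) (i : ℕ) : |p.coeff i| ≤ l1 p := by
  by_cases hi : i ∈ p.support
  · exact Finset.single_le_sum (f := fun i => |p.coeff i|) (fun _ _ => abs_nonneg _) hi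
  · rw [Polynomial.notMem_support_iff.1 hi, abs_zero]
    exact l1_nonneg p

theorem l1_add (p q : Polynomial ℚ) : l1 (p + q) ≤ l1 p + l1 q := by
  rw [l1_eq (p + q) (p.support ∪ q.support) Polynomial.support_add,
    l1_eq p (p.support ∪ q.support) Finset.subset_union_left,
    l1_eq q (p.support ∪ q.support) Finset.subset_union_right, ← Finset.sum_add_distrib]
  apply Finset.sum_le_sum
  intro i _
  rw [Polynomial.coeff_add]
  exact abs_add_le _ _

theorem l1_zero : l1 0 = 0 := by simp [l1]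

theorem l1_sum {ι : Type} (s : Finset ι) (f : ι → Polynomial ℚ) :
    l1 (∑ i ∈ s, f i) ≤ ∑ i ∈ s, l1 (f i) := by
  classical
  induction s using Finset.induction_on with
  | empty => simp [l1_zero]
  | insert a s ha ih =>
    rw [Finset.sum_insert ha, Finset.sum_insert ha]
    exact (l1_add _ _).trans (add_le_add le_rfl ih)

theorem l1_monomial_mul (n : ℕ) (a : ℚ) (q : Polynomial ℚ) :
    l1 (Polynomial.monomial n a * q) = |a| * l1 q := by
  have hc : ∀ i, (Polynomial.monomial n a * q).coeff i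
      = if n ≤ i then a * q.coeff (i - n) else 0 := by
    intro i
    rw [← Polynomial.C_mul_X_pow_eq_monomial, mul_assoc, Polynomial.coeff_C_mul,
      Polynomial.coeff_X_pow_mul']
    split_ifs
    · rfl
    · rw [mul_zero]
  have h1 : (Polynomial.monomial n a * q).support ⊆
      q.support.map ⟨fun i => i + n, fun x y h => Nat.add_right_cancel h⟩ := by
    intro i hi
    rw [Polynomial.mem_support_iff, hc i] at hi
    split_ifs at hi with hni
    · rw [Finset.mem_map]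
      refine ⟨i - n, ?_, ?_⟩
      · rw [Polynomial.mem_support_iff]
        intro h0
        exact hi (by rw [h0, mul_zero])
      · exact Nat.sub_add_cancel hni
    · exact absurd rfl hi
  rw [l1_eq _ _ h1, Finset.sum_map]
  unfold l1
  rw [Finset.mul_sum]
  apply Finset.sum_congr rfl
  intro i _
  change |(Polynomial.monomial n a * q).coeff (i + n)| = _
  rw [hc, if_pos (Nat.le_add_left n i), Nat.add_sub_cancel, abs_mul]

theorem l1_mul (p q : Polynomial ℚ) : l1 (p * q) ≤ l1 p * l1 q := by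
  conv_lhs => rw [← Polynomial.sum_monomial_eq p, Polynomial.sum_def, Finset.sum_mul]
  refine (l1_sum _ _).trans ?_
  rw [l1, Finset.sum_mul]
  apply Finset.sum_le_sum
  intro i _
  rw [l1_monomial_mul]

theorem l1_C (a : ℚ) : l1 (Polynomial.C a) = |a| := by
  rw [l1_eq (Polynomial.C a) {0} (Polynomial.support_C_subset a)]
  simp

theorem l1_X : l1 Polynomial.X = 1 := by
  rw [l1, Polynomial.support_X]
  simp

theorem l1_pow (p : Polynomial ℚ) (n : ℕ) : l1 (p ^ n) ≤ l1 p ^ n := by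
  induction n with
  | zero =>
    rw [pow_zero, pow_zero, ← Polynomial.C_1, l1_C]
    simp
  | succ n ih =>
    rw [pow_succ, pow_succ]
    exact (l1_mul _ _).trans (mul_le_mul_of_nonneg_right ih (l1_nonneg _))

/-! ### Composition -/

theorem comp_eq (p s : Polynomial ℚ) (k : ℕ) (hk : p.natDegree ≤ k) :
    p.comp s = ∑ m ∈ range (k + 1), Polynomial.C (p.coeff m) * s ^ m := by
  rw [Polynomial.comp, Polynomial.eval₂_eq_sum_range' Polynomial.C (Nat.lt_succ_of_le hk)]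

theorem l1_comp (p s : Polynomial ℚ) (k : ℕ) (hk : p.natDegree ≤ k) (M S : ℚ) (hS : 1 ≤ S)
    (hs : l1 s ≤ S) (hp : ∀ l, |p.coeff l| ≤ M) : l1 (p.comp s) ≤ (k + 1) * M * S ^ k := by
  rw [comp_eq p s k hk]
  refine (l1_sum _ _).trans ?_
  have hM : 0 ≤ M := (abs_nonneg _).trans (hp 0)
  have h1 : ∀ m ∈ range (k + 1), l1 (Polynomial.C (p.coeff m) * s ^ m) ≤ M * S ^ k := by
    intro m hm
    refine (l1_mul _ _).trans ?_
    rw [l1_C]
    apply mul_le_mul (hp m) _ (l1_nonneg _) hM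
    refine (l1_pow _ _).trans ?_
    refine (pow_le_pow_left₀ (l1_nonneg _) hs m).trans ?_
    exact pow_le_pow_right₀ hS (by simpa [Nat.lt_succ_iff] using hm)
  refine (Finset.sum_le_card_nsmul _ _ _ h1).trans ?_
  rw [Finset.card_range, nsmul_eq_mul]
  push_cast
  exact le_of_eq (by ring)

theorem pz_comp (p s : Polynomial ℚ) (k : ℕ) (hk : p.natDegree ≤ k) (q D : ℕ)
    (hs : PZ (Polynomial.C (D : ℚ) * s)) (hp : ∀ l, IsZ (q * p.coeff l)) :
    PZ (Polynomial.C ((D : ℚ) ^ k * q) * p.comp s) := by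
  rw [comp_eq p s k hk, Finset.mul_sum]
  apply pz_sum
  intro m hm
  have hmk : m ≤ k := by simpa [Nat.lt_succ_iff] using hm
  have h1 : Polynomial.C ((D : ℚ) ^ k * q) * (Polynomial.C (p.coeff m) * s ^ m)
      = Polynomial.C (q * p.coeff m) * Polynomial.C ((D : ℚ) ^ (k - m))
        * (Polynomial.C (D : ℚ) * s) ^ m := by
    have h2 : (D : ℚ) ^ k = (D : ℚ) ^ (k - m) * (D : ℚ) ^ m := by
      rw [← pow_add, Nat.sub_add_cancel hmk]
    rw [mul_pow, ← Polynomial.C_pow, h2]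
    simp only [Polynomial.C_mul]
    ring
  rw [h1]
  exact pz_mul (pz_mul (pz_C (hp m)) (pz_C (isZ_pow (isZ_nat D) _))) (pz_pow hs m)

/-! ### Normalised derivatives of the solution -/

theorem coeff_hd (k i : ℕ) (f : PowerSeries ℚ) :
    PowerSeries.coeff i (hd k f) = ((i + k).choose k : ℚ) * PowerSeries.coeff (i + k) f := by
  rw [hd, PowerSeries.coeff_mk]

theorem coeff_X_hd (k i : ℕ) (y : ℕ → ℚ) :
    PowerSeries.coeff i (PowerSeries.X * hd (k + 1) (PowerSeries.mk y))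
      = ((i + k).choose (k + 1) : ℚ) * y (i + k) := by
  cases i with
  | zero => simp
  | succ i =>
    rw [PowerSeries.coeff_succ_X_mul, coeff_hd, PowerSeries.coeff_mk]
    rw [show i + 1 + k = i + (k + 1) by ring]

theorem coeff_XX_hd (k i : ℕ) (y : ℕ → ℚ) :
    PowerSeries.coeff i (PowerSeries.X * (PowerSeries.X * hd (k + 2) (PowerSeries.mk y)))
      = ((i + k).choose (k + 2) : ℚ) * y (i + k) := by
  cases i with
  | zero =>
    rw [PowerSeries.coeff_zero_X_mul, zero_add, Nat.choose_eq_zero_of_lt (by omega)]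
    simp
  | succ i =>
    rw [PowerSeries.coeff_succ_X_mul, coeff_X_hd]
    rw [show i + 1 + k = i + (k + 1) by ring]

theorem ch1 (i k : ℕ) : ((i + k + 1).choose (k + 1) : ℚ) * (k + 1)
    = (i + k + 1) * ((i + k).choose k : ℚ) := by
  have h := Nat.add_one_mul_choose_eq (i + k) k
  have h2 : ((i + k + 1 : ℕ) : ℚ) * ((i + k).choose k : ℚ)
      = ((i + k + 1).choose (k + 1) : ℚ) * ((k + 1 : ℕ) : ℚ) := by
    exact_mod_cast h
  push_cast at h2
  linarith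

theorem ch2 (i k : ℕ) : ((i + k).choose (k + 1) : ℚ) * (k + 1)
    = i * ((i + k).choose k : ℚ) := by
  have h := Nat.choose_succ_right_eq (i + k) k
  rw [Nat.add_sub_cancel] at h
  have h2 : ((i + k).choose (k + 1) : ℚ) * ((k + 1 : ℕ) : ℚ)
      = ((i + k).choose k : ℚ) * (i : ℚ) := by
    exact_mod_cast h
  push_cast at h2
  linarith

theorem ch3 (i k : ℕ) : ((i + k).choose (k + 2) : ℚ) * (k + 2)
    = (i - 1) * ((i + k).choose (k + 1) : ℚ) := by
  cases i with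
  | zero =>
    rw [zero_add, Nat.choose_eq_zero_of_lt (by omega), Nat.choose_eq_zero_of_lt (by omega)]
    simp
  | succ i =>
    have h := ch2 i (k + 1)
    rw [show i + 1 + k = i + (k + 1) by ring]
    push_cast at h ⊢
    rw [show (i : ℚ) + 1 - 1 = i by ring, ← h]
    ring

/-- The recursion. -/
def Rec (t₀ : ℚ) (y : ℕ → ℚ) : Prop := ∀ j : ℕ, (1 - t₀ ^ 2) * ((j + 1) * (j + 2)) * y (j + 2)
  = 2 * t₀ * (j + 1) ^ 2 * y (j + 1) + ((2 * j + 1) ^ 2 / 4) * y j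

theorem hd_rec (t₀ : ℚ) (y : ℕ → ℚ) (hy : Rec t₀ y) (k : ℕ) :
    (1 - (PowerSeries.C t₀ + PowerSeries.X) ^ 2) *
        (PowerSeries.C ((k + 2 : ℚ) * (k + 1)) * hd (k + 2) (PowerSeries.mk y))
      = PowerSeries.C (2 * (k + 1 : ℚ) ^ 2) * (PowerSeries.C t₀ + PowerSeries.X)
          * hd (k + 1) (PowerSeries.mk y)
        + PowerSeries.C ((2 * k + 1 : ℚ) ^ 2 / 4) * hd k (PowerSeries.mk y) := by
  have e1 : (1 - (PowerSeries.C t₀ + PowerSeries.X) ^ 2) *
        (PowerSeries.C ((k + 2 : ℚ) * (k + 1)) * hd (k + 2) (PowerSeries.mk y))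
      = PowerSeries.C ((1 - t₀ ^ 2) * ((k + 2 : ℚ) * (k + 1))) * hd (k + 2) (PowerSeries.mk y)
        - PowerSeries.C (2 * t₀ * ((k + 2 : ℚ) * (k + 1)))
          * (PowerSeries.X * hd ((k + 1) + 1) (PowerSeries.mk y))
        - PowerSeries.C ((k + 2 : ℚ) * (k + 1))
          * (PowerSeries.X * (PowerSeries.X * hd (k + 2) (PowerSeries.mk y))) := by
    have h2 : (2 : PowerSeries ℚ) = PowerSeries.C (2 : ℚ) := (map_ofNat (PowerSeries.C (R := ℚ)) 2).symm
    simp only [map_mul, map_sub, map_one, map_pow]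
    rw [← h2]
    ring
  have e2 : PowerSeries.C (2 * (k + 1 : ℚ) ^ 2) * (PowerSeries.C t₀ + PowerSeries.X)
          * hd (k + 1) (PowerSeries.mk y)
      = PowerSeries.C (2 * (k + 1 : ℚ) ^ 2 * t₀) * hd (k + 1) (PowerSeries.mk y)
        + PowerSeries.C (2 * (k + 1 : ℚ) ^ 2) * (PowerSeries.X * hd (k + 1) (PowerSeries.mk y)) := by
    simp only [map_mul]
    ring
  rw [e1, e2]
  ext i
  simp only [map_add, map_sub, PowerSeries.coeff_C_mul]
  rw [coeff_XX_hd, coeff_X_hd, coeff_X_hd, coeff_hd, coeff_hd, coeff_hd,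
    PowerSeries.coeff_mk, PowerSeries.coeff_mk, PowerSeries.coeff_mk]
  have hr := hy (i + k)
  rw [show i + (k + 2) = i + k + 2 by ring, show i + (k + 1) = i + k + 1 by ring]
  -- binomials
  have a1 := ch1 i k
  have a2 := ch2 i k
  have a3 := ch3 i k
  have a4 := ch1 i (k + 1)
  have a5 := ch2 i (k + 1)
  rw [show i + (k + 1) + 1 = i + k + 2 by ring, show i + (k + 1) = i + k + 1 by ring,
    show k + 1 + 1 = k + 2 by ring] at a4
  rw [show i + (k + 1) = i + k + 1 by ring, show k + 1 + 1 = k + 2 by ring] at a5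
  rw [show k + 1 + 1 = k + 2 by ring]
  push_cast at a4 a5 hr ⊢
  generalize ((i + k + 2).choose (k + 2) : ℚ) = P at *
  generalize ((i + k + 1).choose (k + 2) : ℚ) = Q at *
  generalize ((i + k).choose (k + 2) : ℚ) = R at *
  generalize ((i + k + 1).choose (k + 1) : ℚ) = P1 at *
  generalize ((i + k).choose (k + 1) : ℚ) = Q1 at *
  generalize ((i + k).choose k : ℚ) = c0 at *
  generalize y (i + k + 2) = y2 at *
  generalize y (i + k + 1) = y1 at *
  generalize y (i + k) = y0 at *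
  generalize (i : ℚ) = ii at *
  generalize (k : ℚ) = kk at *
  have b1 : P * (kk + 2) * (kk + 1) = (ii + kk + 2) * (ii + kk + 1) * c0 := by
    linear_combination (kk + 1) * a4 + (ii + kk + 2) * a1
  have b2 : Q * (kk + 2) * (kk + 1) = ii * (ii + kk + 1) * c0 := by
    linear_combination (kk + 1) * a5 + ii * a1
  have b3 : R * (kk + 2) * (kk + 1) = ii * (ii - 1) * c0 := by
    linear_combination (kk + 1) * a3 + (ii - 1) * a2
  linear_combination ((1 - t₀ ^ 2) * y2) * b1 - 2 * t₀ * y1 * b2 - y0 * b3 + c0 * hr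
    - 2 * (kk + 1) * t₀ * y1 * a1 - 2 * (kk + 1) * y0 * a2

theorem coe_comp_pc (a b : Polynomial ℚ) (s : Polynomial ℚ) (j : ℕ) :
    (pc a b (j + 2)).comp s
      = Polynomial.C (2 * (j + 2 : ℚ) ^ 2 / ((j + 3) * (j + 2))) * s * (pc a b (j + 1)).comp s
        + Polynomial.C ((2 * j + 3 : ℚ) ^ 2 / 4 / ((j + 3) * (j + 2))) * (1 - s ^ 2)
          * (pc a b j).comp s := by
  rw [pc]
  simp only [Polynomial.add_comp, Polynomial.mul_comp, Polynomial.C_comp, Polynomial.X_comp,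
    Polynomial.sub_comp, Polynomial.one_comp, Polynomial.pow_comp]

theorem hd_rec' (t₀ : ℚ) (y : ℕ → ℚ) (hy : Rec t₀ y) (k : ℕ) :
    (1 - (PowerSeries.C t₀ + PowerSeries.X) ^ 2) * hd (k + 2) (PowerSeries.mk y)
      = PowerSeries.C (2 * (k + 1 : ℚ) ^ 2 / ((k + 2) * (k + 1)))
          * (PowerSeries.C t₀ + PowerSeries.X) * hd (k + 1) (PowerSeries.mk y)
        + PowerSeries.C ((2 * k + 1 : ℚ) ^ 2 / 4 / ((k + 2) * (k + 1)))
          * hd k (PowerSeries.mk y) := by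
  have h := hd_rec t₀ y hy k
  have hk : ((k : ℚ) + 2) * (k + 1) ≠ 0 := by positivity
  have h1 : PowerSeries.C ((((k : ℚ) + 2) * (k + 1))⁻¹)
      * PowerSeries.C (((k : ℚ) + 2) * (k + 1)) = 1 := by
    rw [← map_mul, inv_mul_cancel₀ hk, map_one]
  have h2 : PowerSeries.C (2 * (k + 1 : ℚ) ^ 2 / ((k + 2) * (k + 1)))
      = PowerSeries.C ((((k : ℚ) + 2) * (k + 1))⁻¹) * PowerSeries.C (2 * (k + 1 : ℚ) ^ 2) := by
    rw [← map_mul, div_eq_inv_mul]
  have h3 : PowerSeries.C ((2 * k + 1 : ℚ) ^ 2 / 4 / ((k + 2) * (k + 1)))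
      = PowerSeries.C ((((k : ℚ) + 2) * (k + 1))⁻¹) * PowerSeries.C ((2 * k + 1 : ℚ) ^ 2 / 4) := by
    rw [← map_mul, div_eq_inv_mul]
  rw [h2, h3]
  linear_combination PowerSeries.C ((((k : ℚ) + 2) * (k + 1))⁻¹) * h
    - (1 - (PowerSeries.C t₀ + PowerSeries.X) ^ 2) * hd (k + 2) (PowerSeries.mk y) * h1

theorem hd_rep (t₀ : ℚ) (y : ℕ → ℚ) (hy : Rec t₀ y) (k : ℕ) :
    (1 - (PowerSeries.C t₀ + PowerSeries.X) ^ 2) ^ k * hd (k + 1) (PowerSeries.mk y)
      = (((pa k).comp (Polynomial.C t₀ + Polynomial.X) : Polynomial ℚ) : PowerSeries ℚ)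
          * PowerSeries.mk y
        + (((pb k).comp (Polynomial.C t₀ + Polynomial.X) : Polynomial ℚ) : PowerSeries ℚ)
          * hd 1 (PowerSeries.mk y) := by
  have hh0 : hd 0 (PowerSeries.mk y) = PowerSeries.mk y := by
    ext i
    rw [coeff_hd]
    simp
  induction k using Nat.twoStepInduction with
  | zero =>
    simp [pa, pb, pc]
  | one =>
    have h := hd_rec' t₀ y hy 0
    rw [hh0] at h
    norm_num at h
    simp only [pa, pb, pc, Polynomial.C_comp, Polynomial.X_comp, Polynomial.coe_C,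
      Polynomial.coe_add, Polynomial.coe_X, pow_one]
    rw [show 1 + 1 = 2 by norm_num, h]
    ring
  | more k ih0 ih1 =>
    have h := hd_rec' t₀ y hy (k + 1)
    have e1 : (1 - (PowerSeries.C t₀ + PowerSeries.X) ^ 2) ^ (k + 2)
        * hd (k + 2 + 1) (PowerSeries.mk y)
        = (1 - (PowerSeries.C t₀ + PowerSeries.X) ^ 2) ^ (k + 1)
          * ((1 - (PowerSeries.C t₀ + PowerSeries.X) ^ 2) * hd (k + 1 + 2) (PowerSeries.mk y)) := by
      rw [show k + 2 + 1 = k + 1 + 2 by ring]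
      ring
    have c1 : (2 * ((k + 1 : ℕ) + 1 : ℚ) ^ 2 / (((k + 1 : ℕ) + 2) * ((k + 1 : ℕ) + 1)))
        = 2 * (k + 2 : ℚ) ^ 2 / ((k + 3) * (k + 2)) := by
      push_cast
      ring
    have c2 : ((2 * (k + 1 : ℕ) + 1 : ℚ) ^ 2 / 4 / (((k + 1 : ℕ) + 2) * ((k + 1 : ℕ) + 1)))
        = (2 * k + 3 : ℚ) ^ 2 / 4 / ((k + 3) * (k + 2)) := by
      push_cast
      ring
    rw [c1, c2] at h
    rw [e1, h, pa, pb, coe_comp_pc, coe_comp_pc]
    simp only [Polynomial.coe_add, Polynomial.coe_mul, Polynomial.coe_C, Polynomial.coe_sub,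
      Polynomial.coe_one, Polynomial.coe_pow, Polynomial.coe_X]
    rw [pa, pb] at ih0 ih1
    linear_combination (PowerSeries.C (2 * (k + 2 : ℚ) ^ 2 / ((k + 3) * (k + 2)))
      * (PowerSeries.C t₀ + PowerSeries.X)) * ih1
      + (PowerSeries.C ((2 * k + 3 : ℚ) ^ 2 / 4 / ((k + 3) * (k + 2)))
        * (1 - (PowerSeries.C t₀ + PowerSeries.X) ^ 2)) * ih0

/-! ### Rescaling -/

theorem hd_rescale (k : ℕ) (c : ℚ) (f : PowerSeries ℚ) :
    hd k (PowerSeries.rescale c f) = PowerSeries.C (c ^ k) * PowerSeries.rescale c (hd k f) := by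
  ext i
  rw [coeff_hd, PowerSeries.coeff_rescale, PowerSeries.coeff_C_mul, PowerSeries.coeff_rescale,
    coeff_hd, pow_add]
  ring

theorem hd_hd_one (k : ℕ) (f : PowerSeries ℚ) :
    hd k (hd 1 f) = PowerSeries.C (k + 1 : ℚ) * hd (k + 1) f := by
  ext i
  rw [coeff_hd, coeff_hd, PowerSeries.coeff_C_mul, coeff_hd]
  have h := ch1 i k
  rw [Nat.choose_one_right]
  push_cast
  rw [show i + k + 1 = i + (k + 1) by ring] at *
  linear_combination (-(PowerSeries.coeff (i + (k + 1)) f)) * h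

theorem rescale_coe (c : ℚ) (p : Polynomial ℚ) :
    PowerSeries.rescale c (p : PowerSeries ℚ)
      = ((p.comp (Polynomial.C c * Polynomial.X) : Polynomial ℚ) : PowerSeries ℚ) := by
  ext i
  rw [PowerSeries.coeff_rescale, Polynomial.coeff_coe, Polynomial.coeff_coe,
    Polynomial.comp_C_mul_X_coeff]
  ring

/-- The rescaled variable `t₀ + c z`. -/
noncomputable def sv (t₀ c : ℚ) : Polynomial ℚ :=
  Polynomial.C t₀ + Polynomial.C c * Polynomial.X

theorem comp_sv (t₀ c : ℚ) (p : Polynomial ℚ) :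
    (p.comp (Polynomial.C t₀ + Polynomial.X)).comp (Polynomial.C c * Polynomial.X)
      = p.comp (sv t₀ c) := by
  rw [Polynomial.comp_assoc]
  congr 1
  simp [sv]

theorem res_rep (t₀ c : ℚ) (y : ℕ → ℚ) (hy : Rec t₀ y) (k : ℕ) :
    ((((1 - sv t₀ c ^ 2) ^ k : Polynomial ℚ)) : PowerSeries ℚ)
        * PowerSeries.rescale c (hd (k + 1) (PowerSeries.mk y))
      = (((pa k).comp (sv t₀ c) : Polynomial ℚ) : PowerSeries ℚ)
          * PowerSeries.rescale c (PowerSeries.mk y)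
        + (((pb k).comp (sv t₀ c) : Polynomial ℚ) : PowerSeries ℚ)
          * PowerSeries.rescale c (hd 1 (PowerSeries.mk y)) := by
  have h := congrArg (PowerSeries.rescale c) (hd_rep t₀ y hy k)
  rw [map_add, map_mul, map_mul, map_mul, rescale_coe, rescale_coe, comp_sv, comp_sv] at h
  rw [← h]
  congr 1
  rw [map_pow, map_sub, map_pow, map_add, map_one]
  rw [Polynomial.coe_pow, Polynomial.coe_sub, Polynomial.coe_pow, Polynomial.coe_one, sv,
    Polynomial.coe_add, Polynomial.coe_mul, Polynomial.coe_C, Polynomial.coe_C, Polynomial.coe_X,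
    PowerSeries.rescale_X]
  congr 4
  ext i
  rw [PowerSeries.coeff_rescale, PowerSeries.coeff_C]
  split_ifs with hi
  · rw [hi]
    simp
  · simp

/-! ### The data -/

theorem num_eq (t₀ : ℚ) : (t₀.num : ℚ) = t₀.den * t₀ := by
  rw [mul_comm]
  exact (Rat.mul_den_eq_num t₀).symm

theorem Tb_eq (t₀ : ℚ) (c : ℕ) :
    Tb t₀ c = Polynomial.C ((t₀.den : ℚ) ^ 2) * (1 - sv t₀ c ^ 2) := by
  rw [Tb, num_eq, sv]
  simp only [Polynomial.C_mul, Polynomial.C_pow]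
  ring

theorem Tb_pz (t₀ : ℚ) (c : ℕ) : PZ (Tb t₀ c) := by
  rw [Tb, sub_eq_add_neg]
  refine pz_add (pz_C (isZ_pow (isZ_nat _) 2)) (pz_neg (pz_pow (pz_add (pz_C ⟨t₀.num, rfl⟩) ?_) 2))
  exact pz_mul (pz_C (isZ_mul (isZ_nat _) (isZ_nat _))) pz_X

theorem sv_natDegree (t₀ c : ℚ) : (sv t₀ c).natDegree ≤ 1 := by
  rw [sv]
  compute_degree

theorem Tb_natDegree (t₀ : ℚ) (c : ℕ) : (Tb t₀ c).natDegree ≤ 2 := by
  rw [Tb]
  compute_degree

section

variable {t₀ : ℚ} (h1 : -1 < t₀) (h2 : t₀ < 1)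
include h1 h2

theorem sq_lt : t₀ ^ 2 < 1 := by nlinarith

theorem exN : ∃ N : ℕ, (N : ℚ) = (t₀.den : ℚ) ^ 2 * (1 - t₀ ^ 2) ∧ 1 ≤ N ∧ N ≤ t₀.den ^ 2 := by
  have h3 := sq_lt h1 h2
  have hD : (0 : ℚ) < t₀.den := by exact_mod_cast t₀.den_pos
  have h4 : (((t₀.den : ℤ) ^ 2 - t₀.num ^ 2 : ℤ) : ℚ) = (t₀.den : ℚ) ^ 2 * (1 - t₀ ^ 2) := by
    push_cast
    rw [num_eq]
    ring
  have h5 : (0 : ℤ) < (t₀.den : ℤ) ^ 2 - t₀.num ^ 2 := by
    have : (0 : ℚ) < (((t₀.den : ℤ) ^ 2 - t₀.num ^ 2 : ℤ) : ℚ) := by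
      rw [h4]
      exact mul_pos (by positivity) (by linarith)
    exact_mod_cast this
  refine ⟨((t₀.den : ℤ) ^ 2 - t₀.num ^ 2).toNat, ?_, ?_, ?_⟩
  · rw [← h4]
    have h6 := Int.toNat_of_nonneg h5.le
    exact_mod_cast congrArg (Int.cast : ℤ → ℚ) h6
  · omega
  · have h7 : ((t₀.den : ℤ) ^ 2 - t₀.num ^ 2).toNat ≤ (t₀.den : ℤ) ^ 2 := by
      rw [Int.toNat_of_nonneg h5.le]
      have : 0 ≤ t₀.num ^ 2 := sq_nonneg _
      linarith
    exact_mod_cast h7

theorem one_div_den : 1 ≤ (t₀.den : ℚ) ^ 2 * (1 - t₀ ^ 2) := by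
  obtain ⟨N, hN, hN1, _⟩ := exN h1 h2
  rw [← hN]
  exact_mod_cast hN1

theorem l1_sv (c : ℕ) (hc : 1 ≤ c) : l1 (sv t₀ c) ≤ 2 * c := by
  rw [sv]
  refine (l1_add _ _).trans ?_
  rw [l1_C]
  have e1 : l1 (Polynomial.C (c : ℚ) * Polynomial.X) ≤ c := by
    refine (l1_mul _ _).trans ?_
    rw [l1_C, l1_X, mul_one]
    exact le_of_eq (abs_of_nonneg (Nat.cast_nonneg c))
  have e2 : |t₀| ≤ 1 := abs_le.2 ⟨h1.le, h2.le⟩
  have e3 : (1 : ℚ) ≤ c := by exact_mod_cast hc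
  linarith

theorem l1_Tb (c : ℕ) (hc : 1 ≤ c) : l1 (Tb t₀ c) ≤ 5 * ((t₀.den : ℚ) ^ 2 * c ^ 2) := by
  rw [Tb_eq]
  refine (l1_mul _ _).trans ?_
  rw [l1_C, abs_of_nonneg (by positivity)]
  have e1 : l1 (1 - sv t₀ c ^ 2) ≤ 1 + (2 * c) ^ 2 := by
    have e2 : (1 : Polynomial ℚ) - sv t₀ c ^ 2
        = Polynomial.C 1 + Polynomial.C (-1) * sv t₀ c ^ 2 := by
      simp
      ring
    rw [e2]
    refine (l1_add _ _).trans ?_
    rw [l1_C, abs_one]
    refine add_le_add le_rfl ((l1_mul _ _).trans ?_)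
    rw [l1_C, abs_neg, abs_one, one_mul]
    exact (l1_pow _ _).trans (pow_le_pow_left₀ (l1_nonneg _) (l1_sv h1 h2 c hc) 2)
  have e3 : (1 : ℚ) ≤ c := by exact_mod_cast hc
  have e4 : (1 : ℚ) + (2 * c) ^ 2 ≤ 5 * c ^ 2 := by nlinarith
  calc (t₀.den : ℚ) ^ 2 * l1 (1 - sv t₀ c ^ 2) ≤ (t₀.den : ℚ) ^ 2 * (5 * c ^ 2) :=
        mul_le_mul_of_nonneg_left (e1.trans e4) (by positivity)
    _ = _ := by ring

end

/-! ### The Taylor coefficients -/

theorem yc_rec (t₀ a b : ℚ) (h1 : -1 < t₀) (h2 : t₀ < 1) : Rec t₀ (yc t₀ a b) := by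
  intro j
  rw [yc]
  have h3 : 1 - t₀ ^ 2 ≠ 0 := by
    have := sq_lt h1 h2
    exact ne_of_gt (by linarith)
  have h4 : (j : ℚ) + 1 ≠ 0 := by positivity
  have h5 : (j : ℚ) + 2 ≠ 0 := by positivity
  field_simp

theorem yc_bound (t₀ a b : ℚ) (h1 : -1 < t₀) (h2 : t₀ < 1) (ha : |a| ≤ 1) (hb : |b| ≤ 1) (j : ℕ) :
    |yc t₀ a b j| ≤ (3 * (t₀.den : ℚ) ^ 2) ^ j := by
  have hD : (1 : ℚ) ≤ (t₀.den : ℚ) ^ 2 := by
    have : (1 : ℚ) ≤ t₀.den := by exact_mod_cast t₀.den_pos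
    nlinarith
  have hR : (1 : ℚ) ≤ 3 * (t₀.den : ℚ) ^ 2 := by linarith
  have hq := one_div_den h1 h2
  have h3 : 0 < 1 - t₀ ^ 2 := by
    have := sq_lt h1 h2
    linarith
  have ht : |t₀| ≤ 1 := abs_le.2 ⟨h1.le, h2.le⟩
  induction j using Nat.twoStepInduction with
  | zero => simpa [yc] using ha
  | one =>
    rw [yc, pow_one]
    exact hb.trans hR
  | more j ih0 ih1 =>
    set R : ℚ := 3 * (t₀.den : ℚ) ^ 2 with hRd
    rw [yc, abs_div]
    have hden : 0 < (1 - t₀ ^ 2) * ((j : ℚ) + 1) * ((j : ℚ) + 2) := by positivity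
    rw [abs_of_pos hden, div_le_iff₀ hden]
    have e1 : |2 * t₀ * ((j : ℚ) + 1) ^ 2 * yc t₀ a b (j + 1)
        + ((2 * (j : ℚ) + 1) ^ 2 / 4) * yc t₀ a b j|
        ≤ 2 * ((j : ℚ) + 1) ^ 2 * R ^ (j + 1) + ((j : ℚ) + 1) ^ 2 * R ^ (j + 1) := by
      refine (abs_add_le _ _).trans (add_le_add ?_ ?_)
      · rw [abs_mul, abs_mul, abs_mul, abs_of_pos (by norm_num : (0 : ℚ) < 2),
          abs_of_nonneg (by positivity : (0 : ℚ) ≤ ((j : ℚ) + 1) ^ 2)]
        have : 2 * |t₀| * ((j : ℚ) + 1) ^ 2 ≤ 2 * ((j : ℚ) + 1) ^ 2 := by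
          have h0 : (0 : ℚ) ≤ ((j : ℚ) + 1) ^ 2 := by positivity
          nlinarith
        exact mul_le_mul this ih1 (abs_nonneg _) (by positivity)
      · rw [abs_mul, abs_of_nonneg (by positivity : (0 : ℚ) ≤ ((2 * (j : ℚ) + 1) ^ 2 / 4))]
        have h5 : (2 * (j : ℚ) + 1) ^ 2 / 4 ≤ ((j : ℚ) + 1) ^ 2 := by
          have : (0 : ℚ) ≤ j := Nat.cast_nonneg j
          nlinarith
        have h6 : |yc t₀ a b j| ≤ R ^ (j + 1) :=
          ih0.trans (pow_le_pow_right₀ hR (Nat.le_succ j))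
        exact mul_le_mul h5 h6 (abs_nonneg _) (by positivity)
    refine e1.trans ?_
    have e2 : R ^ (j + 2) = R * R ^ (j + 1) := by ring
    have hP : 0 < R ^ (j + 1) := by positivity
    have hj : (0 : ℚ) ≤ j := Nat.cast_nonneg j
    have e3 : 3 * ((j : ℚ) + 1) ^ 2 ≤ R * ((1 - t₀ ^ 2) * ((j : ℚ) + 1) * ((j : ℚ) + 2)) := by
      have e4 : R * ((1 - t₀ ^ 2) * ((j : ℚ) + 1) * ((j : ℚ) + 2))
          = 3 * ((t₀.den : ℚ) ^ 2 * (1 - t₀ ^ 2)) * (((j : ℚ) + 1) * ((j : ℚ) + 2)) := by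
        rw [hRd]
        ring
      rw [e4]
      have e5 : ((j : ℚ) + 1) ^ 2 ≤ ((j : ℚ) + 1) * ((j : ℚ) + 2) := by nlinarith
      have e6 : 0 ≤ ((j : ℚ) + 1) * ((j : ℚ) + 2) := by positivity
      nlinarith
    rw [e2]
    nlinarith

theorem y_rep (t₀ : ℚ) (y : ℕ → ℚ) (hy : Rec t₀ y) (k : ℕ) :
    (1 - t₀ ^ 2) ^ k * y (k + 1) = (pa k).eval t₀ * y 0 + (pb k).eval t₀ * y 1 := by
  have h := congrArg (PowerSeries.constantCoeff (R := ℚ)) (hd_rep t₀ y hy k)
  simp only [map_add, map_mul, map_pow, map_sub, map_one, PowerSeries.constantCoeff_C,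
    PowerSeries.constantCoeff_X, add_zero] at h
  have e : ∀ p : Polynomial ℚ, PowerSeries.constantCoeff
      (((p.comp (Polynomial.C t₀ + Polynomial.X) : Polynomial ℚ)) : PowerSeries ℚ)
      = p.eval t₀ := by
    intro p
    rw [← PowerSeries.coeff_zero_eq_constantCoeff_apply, Polynomial.coeff_coe,
      Polynomial.coeff_zero_eq_eval_zero, Polynomial.eval_comp]
    simp
  rw [e, e] at h
  rw [← PowerSeries.coeff_zero_eq_constantCoeff_apply,
    ← PowerSeries.coeff_zero_eq_constantCoeff_apply,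
    ← PowerSeries.coeff_zero_eq_constantCoeff_apply, coeff_hd, coeff_hd,
    PowerSeries.coeff_mk, PowerSeries.coeff_mk, PowerSeries.coeff_mk] at h
  simpa using h

/-! ### Assembly -/

/-- The hypotheses on one of the two families of polynomials. -/
structure Fam (C1 : ℕ) (q : ℕ → ℕ) (p : ℕ → Polynomial ℚ) : Prop where
  deg : ∀ k, (p k).natDegree ≤ k
  int : ∀ k l, IsZ (q k * (p k).coeff l)
  size : ∀ k l, |(p k).coeff l| ≤ (C1 : ℚ) ^ (k + 1)

/-- The entries of the first kind. -/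
noncomputable def rr (t₀ : ℚ) (c : ℕ) (x : Polynomial ℚ) (p : ℕ → Polynomial ℚ) :
    ℕ → Polynomial ℚ
  | 0 => x
  | (k + 1) => Polynomial.C ((c : ℚ) ^ (k + 1) * (t₀.den : ℚ) ^ (2 * k)) * Tb t₀ c
      * (p k).comp (sv t₀ c)

/-- The entries of the second kind. -/
noncomputable def dd (t₀ : ℚ) (c : ℕ) (p : ℕ → Polynomial ℚ) (k : ℕ) : Polynomial ℚ :=
  Polynomial.C ((c : ℚ) ^ k * (t₀.den : ℚ) ^ (2 * k) * (k + 1)) * (p k).comp (sv t₀ c)

/-- The properties of the entries. -/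
structure Good (C1 : ℕ) (q : ℕ → ℕ) (t₀ : ℚ) (c : ℕ) (f : ℕ → Polynomial ℚ) : Prop where
  deg : ∀ k, (f k).natDegree ≤ 2 * k + 1
  size : ∀ k, l1 (f k) ≤ C1 * (8 * C1 * (t₀.den : ℚ) ^ 2 * c ^ 3) ^ k
  int : ∀ k, PZ (Polynomial.C (q k : ℚ) * f k)

section

variable {C1 : ℕ} {q : ℕ → ℕ} (hq : ∀ k, q k ∣ q (k + 1)) (hC : 1 ≤ C1)
  {p : ℕ → Polynomial ℚ} (hp : Fam C1 q p)
  {t₀ : ℚ} (h1 : -1 < t₀) (h2 : t₀ < 1) {c : ℕ} (hc : 1 ≤ c)

include hp in
theorem comp_deg (k : ℕ) : ((p k).comp (sv t₀ c)).natDegree ≤ k := by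
  refine Polynomial.natDegree_comp_le.trans ?_
  calc (p k).natDegree * (sv t₀ c).natDegree ≤ k * 1 :=
        Nat.mul_le_mul (hp.deg k) (sv_natDegree _ _)
    _ = k := mul_one k

include hp h1 h2 hc in
theorem comp_size (k : ℕ) : l1 ((p k).comp (sv t₀ c)) ≤
    (k + 1) * (C1 : ℚ) ^ (k + 1) * (2 * c) ^ k := by
  refine l1_comp (p k) _ k (hp.deg k) _ (2 * c) ?_ (l1_sv h1 h2 c hc) (hp.size k)
  have : (1 : ℚ) ≤ c := by exact_mod_cast hc
  linarith

include hp in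
theorem comp_int (k : ℕ) : PZ (Polynomial.C ((t₀.den : ℚ) ^ k * q k) * (p k).comp (sv t₀ c)) := by
  refine pz_comp (p k) _ k (hp.deg k) (q k) t₀.den ?_ (hp.int k)
  have e : Polynomial.C (t₀.den : ℚ) * sv t₀ c
      = Polynomial.C (t₀.num : ℚ) + Polynomial.C ((t₀.den : ℚ) * c) * Polynomial.X := by
    rw [num_eq, sv]
    simp only [Polynomial.C_mul]
    ring
  rw [e]
  exact pz_add (pz_C ⟨_, rfl⟩) (pz_mul (pz_C (isZ_mul (isZ_nat _) (isZ_nat _))) pz_X)

theorem succ_le_two_pow (k : ℕ) : ((k : ℚ) + 1) ≤ 2 ^ k := by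
  induction k with
  | zero => simp
  | succ k ih =>
    push_cast
    have : (1 : ℚ) ≤ 2 ^ k := one_le_pow₀ (by norm_num)
    rw [pow_succ]
    linarith

include hp h1 h2 hc hC in
theorem dd_good : Good C1 q t₀ c (dd t₀ c p) := by
  have hcq : (1 : ℚ) ≤ c := by exact_mod_cast hc
  have hCq : (1 : ℚ) ≤ C1 := by exact_mod_cast hC
  have hD : (1 : ℚ) ≤ t₀.den := by exact_mod_cast t₀.den_pos
  refine ⟨fun k => ?_, fun k => ?_, fun k => ?_⟩
  · rw [dd]
    refine (Polynomial.natDegree_C_mul_le _ _).trans ((comp_deg hp k).trans (by omega))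
  · rw [dd]
    refine (l1_mul _ _).trans ?_
    rw [l1_C, abs_of_nonneg (by positivity)]
    have e1 := comp_size hp h1 h2 hc k
    have e2 := succ_le_two_pow k
    have hk : (0 : ℚ) ≤ k := Nat.cast_nonneg k
    have e3 : ((k : ℚ) + 1) * (k + 1) ≤ 2 ^ k * 2 ^ k :=
      mul_le_mul e2 e2 (by positivity) (by positivity)
    have e4 : (c : ℚ) ^ k * (c : ℚ) ^ k ≤ ((c : ℚ) ^ 3) ^ k := by
      rw [← mul_pow]
      apply pow_le_pow_left₀ (by positivity)
      nlinarith [mul_nonneg (sub_nonneg.2 hcq) (mul_self_nonneg (c : ℚ))]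
    calc (c : ℚ) ^ k * (t₀.den : ℚ) ^ (2 * k) * (k + 1) * l1 ((p k).comp (sv t₀ c))
        ≤ (c : ℚ) ^ k * (t₀.den : ℚ) ^ (2 * k) * (k + 1)
          * ((k + 1) * (C1 : ℚ) ^ (k + 1) * (2 * c) ^ k) :=
          mul_le_mul_of_nonneg_left e1 (by positivity)
      _ = (((k : ℚ) + 1) * (k + 1)) * ((c : ℚ) ^ k * (c : ℚ) ^ k)
          * ((t₀.den : ℚ) ^ (2 * k) * (C1 : ℚ) ^ (k + 1) * 2 ^ k) := by
          rw [mul_pow]
          ring
      _ ≤ (2 ^ k * 2 ^ k) * (((c : ℚ) ^ 3) ^ k)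
          * ((t₀.den : ℚ) ^ (2 * k) * (C1 : ℚ) ^ (k + 1) * 2 ^ k) := by
          apply mul_le_mul_of_nonneg_right _ (by positivity)
          exact mul_le_mul e3 e4 (by positivity) (by positivity)
      _ = C1 * (8 * C1 * (t₀.den : ℚ) ^ 2 * c ^ 3) ^ k := by
          have e8 : (8 : ℚ) ^ k = 2 ^ k * 2 ^ k * 2 ^ k := by
            rw [← mul_pow, ← mul_pow]
            norm_num
          rw [mul_pow, mul_pow, mul_pow, e8, pow_mul, pow_succ]
          ring
  · have e : Polynomial.C (q k : ℚ) * dd t₀ c p k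
        = Polynomial.C ((c : ℚ) ^ k * (t₀.den : ℚ) ^ k * (k + 1 : ℕ))
          * (Polynomial.C ((t₀.den : ℚ) ^ k * q k) * (p k).comp (sv t₀ c)) := by
      rw [dd, ← mul_assoc, ← mul_assoc, ← Polynomial.C_mul, ← Polynomial.C_mul]
      congr 2
      push_cast
      ring
    rw [e]
    exact pz_mul (pz_C (isZ_mul (isZ_mul (isZ_pow (isZ_nat _) _) (isZ_pow (isZ_nat _) _))
      (isZ_nat _))) (comp_int hp k)

include hq hp h1 h2 hc hC in
theorem rr_good (x : Polynomial ℚ) (hx0 : x.natDegree = 0) (hx1 : l1 x ≤ 1) (hx2 : PZ x) :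
    Good C1 q t₀ c (rr t₀ c x p) := by
  have hcq : (1 : ℚ) ≤ c := by exact_mod_cast hc
  have hCq : (1 : ℚ) ≤ C1 := by exact_mod_cast hC
  have hD : (1 : ℚ) ≤ t₀.den := by exact_mod_cast t₀.den_pos
  refine ⟨fun k => ?_, fun k => ?_, fun k => ?_⟩
  · cases k with
    | zero =>
      rw [rr, hx0]
      omega
    | succ k =>
      rw [rr]
      refine Polynomial.natDegree_mul_le.trans ?_
      have e1 := (Polynomial.natDegree_C_mul_le ((c : ℚ) ^ (k + 1) * (t₀.den : ℚ) ^ (2 * k))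
        (Tb t₀ c)).trans (Tb_natDegree t₀ c)
      have e2 := comp_deg (t₀ := t₀) (c := c) hp k
      omega
  · cases k with
    | zero =>
      rw [rr, pow_zero, mul_one]
      exact hx1.trans hCq
    | succ k =>
      rw [rr]
      refine (l1_mul _ _).trans ?_
      have e1 := comp_size hp h1 h2 hc k
      have e2 := succ_le_two_pow k
      have e3 : l1 (Polynomial.C ((c : ℚ) ^ (k + 1) * (t₀.den : ℚ) ^ (2 * k)) * Tb t₀ c)
          ≤ (c : ℚ) ^ (k + 1) * (t₀.den : ℚ) ^ (2 * k) * (5 * ((t₀.den : ℚ) ^ 2 * c ^ 2)) := by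
        refine (l1_mul _ _).trans ?_
        rw [l1_C, abs_of_nonneg (by positivity)]
        exact mul_le_mul_of_nonneg_left (l1_Tb h1 h2 c hc) (by positivity)
      have e4 : (c : ℚ) ^ (2 * k + 3) ≤ (c : ℚ) ^ (3 * (k + 1)) :=
        pow_le_pow_right₀ hcq (by omega)
      have e5 : (5 : ℚ) * (2 ^ k * 2 ^ k) ≤ 8 ^ (k + 1) := by
        have : (2 : ℚ) ^ k * 2 ^ k ≤ 8 ^ k := by
          rw [← mul_pow]
          exact pow_le_pow_left₀ (by norm_num) (by norm_num) k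
        have h0 : (0 : ℚ) ≤ 8 ^ k := by positivity
        rw [pow_succ]
        linarith
      calc l1 (Polynomial.C ((c : ℚ) ^ (k + 1) * (t₀.den : ℚ) ^ (2 * k)) * Tb t₀ c)
            * l1 ((p k).comp (sv t₀ c))
          ≤ ((c : ℚ) ^ (k + 1) * (t₀.den : ℚ) ^ (2 * k) * (5 * ((t₀.den : ℚ) ^ 2 * c ^ 2)))
            * ((k + 1) * (C1 : ℚ) ^ (k + 1) * (2 * c) ^ k) :=
            mul_le_mul e3 e1 (l1_nonneg _) (by positivity)
        _ ≤ ((c : ℚ) ^ (k + 1) * (t₀.den : ℚ) ^ (2 * k) * (5 * ((t₀.den : ℚ) ^ 2 * c ^ 2)))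
            * (2 ^ k * (C1 : ℚ) ^ (k + 1) * (2 * c) ^ k) := by
            apply mul_le_mul_of_nonneg_left _ (by positivity)
            apply mul_le_mul_of_nonneg_right _ (by positivity)
            exact mul_le_mul_of_nonneg_right e2 (by positivity)
        _ = (5 * (2 ^ k * 2 ^ k)) * (c : ℚ) ^ (2 * k + 3)
            * ((t₀.den : ℚ) ^ (2 * (k + 1)) * (C1 : ℚ) ^ (k + 1)) := by
            rw [mul_pow 2 (c : ℚ) k]
            ring
        _ ≤ 8 ^ (k + 1) * (c : ℚ) ^ (3 * (k + 1))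
            * ((t₀.den : ℚ) ^ (2 * (k + 1)) * (C1 : ℚ) ^ (k + 1)) := by
            apply mul_le_mul_of_nonneg_right _ (by positivity)
            exact mul_le_mul e5 e4 (by positivity) (by positivity)
        _ = (8 * C1 * (t₀.den : ℚ) ^ 2 * c ^ 3) ^ (k + 1) := by
            rw [mul_pow, mul_pow, mul_pow, ← pow_mul, ← pow_mul]
            ring
        _ ≤ C1 * (8 * C1 * (t₀.den : ℚ) ^ 2 * c ^ 3) ^ (k + 1) :=
            le_mul_of_one_le_left (by positivity) hCq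
  · cases k with
    | zero =>
      rw [rr]
      exact pz_mul (pz_C (isZ_nat _)) hx2
    | succ k =>
      obtain ⟨m, hm⟩ := hq k
      have e : Polynomial.C (q (k + 1) : ℚ) * rr t₀ c x p (k + 1)
          = Polynomial.C ((c : ℚ) ^ (k + 1) * (t₀.den : ℚ) ^ k * m) * Tb t₀ c
            * (Polynomial.C ((t₀.den : ℚ) ^ k * q k) * (p k).comp (sv t₀ c)) := by
        rw [rr, hm]
        push_cast
        simp only [Polynomial.C_mul, Polynomial.C_pow]
        ring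
      rw [e]
      exact pz_mul (pz_mul (pz_C (isZ_mul (isZ_mul (isZ_pow (isZ_nat _) _)
        (isZ_pow (isZ_nat _) _)) (isZ_nat _))) (Tb_pz t₀ c)) (comp_int hp k)

/-! The differential system. -/

theorem Tb_pow (k : ℕ) : ((Tb t₀ c : Polynomial ℚ) : PowerSeries ℚ) ^ k
    = PowerSeries.C ((t₀.den : ℚ) ^ (2 * k))
      * (((1 - sv t₀ c ^ 2) ^ k : Polynomial ℚ) : PowerSeries ℚ) := by
  rw [Tb_eq, ← Polynomial.coe_pow, mul_pow, Polynomial.coe_mul, ← Polynomial.C_pow,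
    Polynomial.coe_C, ← pow_mul]

theorem sys_r (y : ℕ → ℚ) (hy : Rec t₀ y) (k : ℕ) :
    ((Tb t₀ c : Polynomial ℚ) : PowerSeries ℚ) ^ k
        * hd k (PowerSeries.rescale (c : ℚ) (PowerSeries.mk y))
      = (rr t₀ c 1 pa k : PowerSeries ℚ) * PowerSeries.rescale (c : ℚ) (PowerSeries.mk y)
        + (rr t₀ c 0 pb k : PowerSeries ℚ)
          * PowerSeries.rescale (c : ℚ) (hd 1 (PowerSeries.mk y)) := by
  cases k with
  | zero =>
    rw [rr, rr, pow_zero, one_mul, Polynomial.coe_one, one_mul, Polynomial.coe_zero, zero_mul,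
      add_zero]
    ext i
    rw [coeff_hd]
    simp
  | succ k =>
    rw [pow_succ, Tb_pow, hd_rescale]
    have h := res_rep t₀ c y hy k
    rw [rr, rr]
    simp only [Polynomial.coe_mul, Polynomial.coe_C, map_mul]
    linear_combination (PowerSeries.C ((t₀.den : ℚ) ^ (2 * k))
      * ((Tb t₀ c : Polynomial ℚ) : PowerSeries ℚ) * PowerSeries.C ((c : ℚ) ^ (k + 1))) * h

theorem sys_d (y : ℕ → ℚ) (hy : Rec t₀ y) (k : ℕ) :
    ((Tb t₀ c : Polynomial ℚ) : PowerSeries ℚ) ^ k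
        * hd k (PowerSeries.rescale (c : ℚ) (hd 1 (PowerSeries.mk y)))
      = (dd t₀ c pa k : PowerSeries ℚ) * PowerSeries.rescale (c : ℚ) (PowerSeries.mk y)
        + (dd t₀ c pb k : PowerSeries ℚ)
          * PowerSeries.rescale (c : ℚ) (hd 1 (PowerSeries.mk y)) := by
  have hC : PowerSeries.rescale (c : ℚ) (PowerSeries.C (k + 1 : ℚ))
      = PowerSeries.C (k + 1 : ℚ) := by
    ext i
    rw [PowerSeries.coeff_rescale, PowerSeries.coeff_C]
    split_ifs with hi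
    · rw [hi]
      simp
    · simp
  rw [Tb_pow, hd_rescale, hd_hd_one, map_mul, hC]
  have h := res_rep t₀ c y hy k
  rw [dd, dd]
  simp only [Polynomial.coe_mul, Polynomial.coe_C, map_mul]
  linear_combination (PowerSeries.C ((t₀.den : ℚ) ^ (2 * k)) * PowerSeries.C ((c : ℚ) ^ k)
    * PowerSeries.C (k + 1 : ℚ)) * h

/-! Denominators of the coefficients. -/

include hp in
theorem int_eval (k : ℕ) : IsZ ((t₀.den : ℚ) ^ k * q k * (p k).eval t₀) := by
  have h := pz_comp (p k) (Polynomial.C t₀) k (hp.deg k) (q k) t₀.den ?_ (hp.int k)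
  · have h0 := h 0
    rw [Polynomial.coeff_C_mul, Polynomial.comp_C, Polynomial.coeff_C_zero] at h0
    exact h0
  · rw [← Polynomial.C_mul, ← num_eq]
    exact pz_C ⟨_, rfl⟩

end

theorem y_int {C1 : ℕ} {q : ℕ → ℕ} {t₀ : ℚ} (ha : Fam C1 q pa) (hb : Fam C1 q pb)
    (y : ℕ → ℚ) (hy : Rec t₀ y) (h0 : IsZ (y 0)) (h1 : IsZ (y 1)) (N : ℕ)
    (hN : (N : ℚ) = (t₀.den : ℚ) ^ 2 * (1 - t₀ ^ 2)) (k : ℕ) :
    IsZ ((N : ℚ) ^ k * q k * y (k + 1)) := by
  have e : (N : ℚ) ^ k * q k * y (k + 1)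
      = (t₀.den : ℚ) ^ k * (((t₀.den : ℚ) ^ k * q k * (pa k).eval t₀) * y 0
        + ((t₀.den : ℚ) ^ k * q k * (pb k).eval t₀) * y 1) := by
    have h := y_rep t₀ y hy k
    rw [hN, mul_pow]
    have e2 : ((t₀.den : ℚ) ^ 2) ^ k = (t₀.den : ℚ) ^ k * (t₀.den : ℚ) ^ k := by
      rw [← pow_mul, two_mul, pow_add]
    rw [e2]
    linear_combination ((t₀.den : ℚ) ^ k * (t₀.den : ℚ) ^ k * q k) * h
  rw [e]
  exact isZ_mul (isZ_pow (isZ_nat _) _) (isZ_add (isZ_mul (int_eval ha k) h0)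
    (isZ_mul (int_eval hb k) h1))

end Base

open Base in
theorem Base_proof (hP : Stmt_PolAr) : Stmt_Base := by
  intro t₀ h1 h2
  obtain ⟨C1, q, hq, hpol⟩ := hP
  have hC : 1 ≤ C1 := by
    rcases Nat.eq_zero_or_pos C1 with h | h
    · have := hq 0
      rw [h] at this
      omega
    · exact h
  have ha : Fam C1 q pa := ⟨fun k => (hpol k).1, fun k l => ((hpol k).2.2 l).1,
    fun k l => ((hpol k).2.2 l).2.2.1⟩
  have hb : Fam C1 q pb := ⟨fun k => (hpol k).2.1, fun k l => ((hpol k).2.2 l).2.1,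
    fun k l => ((hpol k).2.2 l).2.2.2⟩
  have hqd : ∀ k, q k ∣ q (k + 1) := fun k => (hq k).2.1
  refine ⟨8 * C1 * t₀.den ^ 2, fun c hc => ⟨1, (((C1 : ℚ) + 3 * (t₀.den : ℚ) ^ 2 : ℚ) : ℝ), ?_⟩⟩
  set Hq : ℚ := 8 * C1 * (t₀.den : ℚ) ^ 2 * c ^ 3 with hHq
  have hH : (((8 * C1 * t₀.den ^ 2 : ℕ) : ℝ) * (c : ℝ) ^ 3) = ((Hq : ℚ) : ℝ) := by
    rw [hHq]
    push_cast
    ring
  rw [hH]
  have hcq : (1 : ℚ) ≤ c := by exact_mod_cast hc
  have hCq : (1 : ℚ) ≤ C1 := by exact_mod_cast hC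
  have hD : (1 : ℚ) ≤ t₀.den := by exact_mod_cast t₀.den_pos
  have hD2 : (1 : ℚ) ≤ (t₀.den : ℚ) ^ 2 := one_le_pow₀ hD
  have hc2 : (1 : ℚ) ≤ (c : ℚ) ^ 2 := one_le_pow₀ hcq
  have hc3 : (c : ℚ) ^ 2 ≤ (c : ℚ) ^ 3 := pow_le_pow_right₀ hcq (by norm_num)
  have hc3' : (c : ℚ) ≤ (c : ℚ) ^ 3 := by
    calc (c : ℚ) = (c : ℚ) ^ 1 := (pow_one _).symm
      _ ≤ (c : ℚ) ^ 3 := pow_le_pow_right₀ hcq (by norm_num)
  have hc31 : (1 : ℚ) ≤ (c : ℚ) ^ 3 := one_le_pow₀ hcq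
  have hCD : (1 : ℚ) ≤ C1 * (t₀.den : ℚ) ^ 2 := one_le_mul_of_one_le_of_one_le hCq hD2
  have hHq1 : 8 ≤ Hq := by
    have e : Hq = 8 * ((C1 * (t₀.den : ℚ) ^ 2) * c ^ 3) := by rw [hHq]; ring
    have := one_le_mul_of_one_le_of_one_le hCD hc31
    rw [e]
    linarith
  have hHq0 : 0 ≤ Hq := by linarith
  have g0 : Good C1 q t₀ c (rr t₀ c 1 pa) := by
    apply rr_good hqd hC ha h1 h2 hc
    · exact Polynomial.natDegree_one
    · rw [← Polynomial.C_1, l1_C, abs_one]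
    · rw [← Polynomial.C_1]
      exact pz_C ⟨1, by simp⟩
  have g2 : Good C1 q t₀ c (rr t₀ c 0 pb) := by
    apply rr_good hqd hC hb h1 h2 hc
    · exact Polynomial.natDegree_zero
    · rw [l1_zero]
      norm_num
    · intro l
      exact ⟨0, by simp⟩
  have gd0 : Good C1 q t₀ c (dd t₀ c pa) := dd_good hC ha h1 h2 hc
  have gd2 : Good C1 q t₀ c (dd t₀ c pb) := dd_good hC hb h1 h2 hc
  have gz : Good C1 q t₀ c (fun _ => 0) := by
    refine ⟨fun k => by simp, fun k => ?_, fun k l => ⟨0, by simp⟩⟩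
    rw [l1_zero]
    positivity
  obtain ⟨N, hN, hN1, hN2⟩ := exN h1 h2
  have hyU := yc_rec t₀ 1 0 h1 h2
  have hyV := yc_rec t₀ 0 1 h1 h2
  refine ⟨?_, ?_, ?_, ?_, Tb_natDegree t₀ c, ?_, ?_, ?_, ?_⟩
  · have : (1 : ℚ) ≤ C1 + 3 * (t₀.den : ℚ) ^ 2 := by linarith
    exact_mod_cast this
  · have : (2 : ℚ) ≤ Hq := by linarith
    exact_mod_cast this
  · exact Tb_pz t₀ c
  · have e : (Tb t₀ c).coeff 0 = (t₀.den : ℚ) ^ 2 * (1 - t₀ ^ 2) := by
      rw [Polynomial.coeff_zero_eq_eval_zero, Tb_eq, sv]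
      simp
    rw [e, ← hN]
    exact_mod_cast (by omega : N ≠ 0)
  · have e1 : ∑ i ∈ range (2 + 1), |(Tb t₀ c).coeff i| ≤ Hq := by
      rw [← l1_eq (Tb t₀ c) (range (2 + 1))]
      · refine (l1_Tb h1 h2 c hc).trans ?_
        rw [hHq]
        have e2 : (t₀.den : ℚ) ^ 2 * c ^ 2 ≤ C1 * (t₀.den : ℚ) ^ 2 * c ^ 3 := by
          apply mul_le_mul _ hc3 (by positivity) (by positivity)
          exact le_mul_of_one_le_left (by positivity) hCq
        have e3 : 0 ≤ (t₀.den : ℚ) ^ 2 * c ^ 2 := by positivity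
        calc 5 * ((t₀.den : ℚ) ^ 2 * c ^ 2) ≤ 8 * ((t₀.den : ℚ) ^ 2 * c ^ 2) := by linarith
          _ ≤ 8 * (C1 * (t₀.den : ℚ) ^ 2 * c ^ 3) := by linarith
          _ = _ := by ring
      · intro i hi
        rw [Finset.mem_range]
        have := Polynomial.le_natDegree_of_mem_supp i hi
        have := Tb_natDegree t₀ c
        omega
    exact_mod_cast e1
  · -- the system
    have hB : ∀ (k : ℕ) (i j : Fin 4), ∃ f, Good C1 q t₀ c f ∧
        ((![![rr t₀ c 1 pa k, 0, rr t₀ c 0 pb k, 0],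
          ![0, rr t₀ c 1 pa k, 0, rr t₀ c 0 pb k],
          ![dd t₀ c pa k, 0, dd t₀ c pb k, 0],
          ![0, dd t₀ c pa k, 0, dd t₀ c pb k]] : Fin 4 → Fin 4 → Polynomial ℚ) i j) = f k := by
      intro k i j
      fin_cases i <;> fin_cases j <;>
        first
          | exact ⟨_, g0, rfl⟩
          | exact ⟨_, g2, rfl⟩
          | exact ⟨_, gd0, rfl⟩
          | exact ⟨_, gd2, rfl⟩
          | exact ⟨_, gz, rfl⟩
    refine ⟨fun k => ![![rr t₀ c 1 pa k, 0, rr t₀ c 0 pb k, 0],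
      ![0, rr t₀ c 1 pa k, 0, rr t₀ c 0 pb k],
      ![dd t₀ c pa k, 0, dd t₀ c pb k, 0],
      ![0, dd t₀ c pa k, 0, dd t₀ c pb k]], q, ?_, ?_, ?_, ?_, ?_⟩
    · intro k i
      rw [Fin.sum_univ_four]
      fin_cases i
      · simpa [base, UV] using sys_r (t₀ := t₀) (c := c) _ hyU k
      · simpa [base, UV] using sys_r (t₀ := t₀) (c := c) _ hyV k
      · simpa [base, UV] using sys_d (t₀ := t₀) (c := c) _ hyU k
      · simpa [base, UV] using sys_d (t₀ := t₀) (c := c) _ hyV k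
    · intro k i j
      obtain ⟨f, hf, he⟩ := hB k i j
      beta_reduce
      rw [he]
      exact hf.deg k
    · intro k i j l
      obtain ⟨f, hf, he⟩ := hB k i j
      beta_reduce
      rw [he]
      have e1 : |(f k).coeff l| ≤ (C1 + 3 * (t₀.den : ℚ) ^ 2) * Hq ^ k := by
        refine (coeff_le_l1 _ _).trans ((hf.size k).trans ?_)
        apply mul_le_mul_of_nonneg_right _ (pow_nonneg hHq0 k)
        linarith
      exact_mod_cast e1
    · intro k
      refine ⟨(hq k).1, (hq k).2.1, ?_⟩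
      have e1 : (q k : ℚ) ≤ (C1 + 3 * (t₀.den : ℚ) ^ 2) * Hq ^ k := by
        have e2 : (q k : ℚ) ≤ (C1 : ℚ) ^ (k + 1) := by exact_mod_cast (hq k).2.2
        refine e2.trans ?_
        rw [pow_succ, mul_comm]
        apply mul_le_mul _ _ (by positivity) (by positivity)
        · linarith
        · apply pow_le_pow_left₀ (by positivity)
          have e3 : (1 : ℚ) ≤ (t₀.den : ℚ) ^ 2 * c ^ 3 := one_le_mul_of_one_le_of_one_le hD2 hc31
          calc (C1 : ℚ) ≤ C1 * ((t₀.den : ℚ) ^ 2 * c ^ 3) := le_mul_of_one_le_right (by positivity) e3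
            _ ≤ 8 * (C1 * ((t₀.den : ℚ) ^ 2 * c ^ 3)) := by
                have : 0 ≤ (C1 : ℚ) * ((t₀.den : ℚ) ^ 2 * c ^ 3) := by positivity
                linarith
            _ = Hq := by rw [hHq]; ring
      exact_mod_cast e1
    · intro k i j l
      obtain ⟨f, hf, he⟩ := hB k i j
      beta_reduce
      rw [he]
      have h := hf.int k l
      rw [Polynomial.coeff_C_mul] at h
      exact h
  · -- size of the coefficients
    have hy0 : ∀ a b : ℚ, |a| ≤ 1 → |b| ≤ 1 → ∀ j, |(c : ℚ) ^ j * yc t₀ a b j|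
        ≤ (C1 + 3 * (t₀.den : ℚ) ^ 2) * Hq ^ j := by
      intro a b ha1 hb1 j
      have e1 := yc_bound t₀ a b h1 h2 ha1 hb1 j
      rw [abs_mul, abs_of_nonneg (by positivity)]
      have e2 : (c : ℚ) ^ j * (3 * (t₀.den : ℚ) ^ 2) ^ j ≤ Hq ^ j := by
        rw [← mul_pow]
        apply pow_le_pow_left₀ (by positivity)
        calc (c : ℚ) * (3 * (t₀.den : ℚ) ^ 2) = 3 * ((t₀.den : ℚ) ^ 2 * c) := by ring
          _ ≤ 8 * ((C1 * (t₀.den : ℚ) ^ 2) * c ^ 3) := by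
              have e4 : (t₀.den : ℚ) ^ 2 * c ≤ (C1 * (t₀.den : ℚ) ^ 2) * c ^ 3 := by
                apply mul_le_mul _ hc3' (by positivity) (by positivity)
                exact le_mul_of_one_le_left (by positivity) hCq
              have : 0 ≤ (t₀.den : ℚ) ^ 2 * c := by positivity
              linarith
          _ = Hq := by rw [hHq]; ring
      calc (c : ℚ) ^ j * |yc t₀ a b j| ≤ (c : ℚ) ^ j * (3 * (t₀.den : ℚ) ^ 2) ^ j :=
            mul_le_mul_of_nonneg_left e1 (by positivity)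
        _ ≤ Hq ^ j := e2
        _ ≤ (C1 + 3 * (t₀.den : ℚ) ^ 2) * Hq ^ j := by
            apply le_mul_of_one_le_left (pow_nonneg hHq0 j)
            linarith
    have hy1 : ∀ a b : ℚ, |a| ≤ 1 → |b| ≤ 1 → ∀ j, |(c : ℚ) ^ j * ((j + 1) * yc t₀ a b (j + 1))|
        ≤ (C1 + 3 * (t₀.den : ℚ) ^ 2) * Hq ^ j := by
      intro a b ha1 hb1 j
      have e1 := yc_bound t₀ a b h1 h2 ha1 hb1 (j + 1)
      have e2 := succ_le_two_pow j
      rw [abs_mul, abs_mul, abs_of_nonneg (by positivity : (0 : ℚ) ≤ (c : ℚ) ^ j),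
        abs_of_nonneg (by positivity : (0 : ℚ) ≤ (j : ℚ) + 1)]
      have e3 : (c : ℚ) ^ j * (2 ^ j * (3 * (t₀.den : ℚ) ^ 2) ^ j) ≤ Hq ^ j := by
        rw [← mul_pow, ← mul_pow]
        apply pow_le_pow_left₀ (by positivity)
        calc (c : ℚ) * (2 * (3 * (t₀.den : ℚ) ^ 2)) = 6 * ((t₀.den : ℚ) ^ 2 * c) := by ring
          _ ≤ 8 * ((C1 * (t₀.den : ℚ) ^ 2) * c ^ 3) := by
              have e4 : (t₀.den : ℚ) ^ 2 * c ≤ (C1 * (t₀.den : ℚ) ^ 2) * c ^ 3 := by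
                apply mul_le_mul _ hc3' (by positivity) (by positivity)
                exact le_mul_of_one_le_left (by positivity) hCq
              have : 0 ≤ (t₀.den : ℚ) ^ 2 * c := by positivity
              linarith
          _ = Hq := by rw [hHq]; ring
      calc (c : ℚ) ^ j * (((j : ℚ) + 1) * |yc t₀ a b (j + 1)|)
          ≤ (c : ℚ) ^ j * (2 ^ j * (3 * (t₀.den : ℚ) ^ 2) ^ (j + 1)) := by
            apply mul_le_mul_of_nonneg_left _ (by positivity)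
            exact mul_le_mul e2 e1 (abs_nonneg _) (by positivity)
        _ = (3 * (t₀.den : ℚ) ^ 2) * ((c : ℚ) ^ j * (2 ^ j * (3 * (t₀.den : ℚ) ^ 2) ^ j)) := by
            ring
        _ ≤ (C1 + 3 * (t₀.den : ℚ) ^ 2) * Hq ^ j := by
            apply mul_le_mul _ e3 (by positivity) (by positivity)
            linarith
    have e : ∀ (i : Fin 4) (j : ℕ), |PowerSeries.coeff j (base t₀ c i)|
        ≤ (C1 + 3 * (t₀.den : ℚ) ^ 2) * Hq ^ j := by
      intro i j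
      have a1 : |(1 : ℚ)| ≤ 1 := by norm_num
      have a0 : |(0 : ℚ)| ≤ 1 := by norm_num
      rw [base, PowerSeries.coeff_rescale]
      fin_cases i
      · simpa [UV] using hy0 1 0 a1 a0 j
      · simpa [UV] using hy0 0 1 a0 a1 j
      · simpa [UV, coeff_hd] using hy1 1 0 a1 a0 j
      · simpa [UV, coeff_hd] using hy1 0 1 a0 a1 j
    intro i j
    exact_mod_cast e i j
  · -- denominators
    refine ⟨fun j => N ^ j * q j, fun j => ⟨?_, ?_, ?_⟩, ?_⟩
    · exact Nat.mul_pos (pow_pos (by omega) j) (hq j).1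
    · exact Nat.mul_dvd_mul (pow_dvd_pow N (Nat.le_succ j)) (hqd j)
    · have e2 : (q j : ℚ) ≤ (C1 : ℚ) ^ (j + 1) := by exact_mod_cast (hq j).2.2
      have e3 : (N : ℚ) ≤ (t₀.den : ℚ) ^ 2 := by exact_mod_cast hN2
      have e1 : ((N ^ j * q j : ℕ) : ℚ) ≤ (C1 + 3 * (t₀.den : ℚ) ^ 2) * Hq ^ j := by
        push_cast
        calc (N : ℚ) ^ j * q j ≤ ((t₀.den : ℚ) ^ 2) ^ j * (C1 : ℚ) ^ (j + 1) :=
              mul_le_mul (pow_le_pow_left₀ (Nat.cast_nonneg _) e3 j) e2 (Nat.cast_nonneg _)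
                (by positivity)
          _ = C1 * (C1 * (t₀.den : ℚ) ^ 2) ^ j := by
              rw [mul_pow]
              ring
          _ ≤ (C1 + 3 * (t₀.den : ℚ) ^ 2) * Hq ^ j := by
              apply mul_le_mul _ _ (by positivity) (by positivity)
              · linarith
              · apply pow_le_pow_left₀ (by positivity)
                calc (C1 : ℚ) * (t₀.den : ℚ) ^ 2
                    ≤ (C1 * (t₀.den : ℚ) ^ 2) * c ^ 3 := le_mul_of_one_le_right (by positivity) hc31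
                  _ ≤ 8 * ((C1 * (t₀.den : ℚ) ^ 2) * c ^ 3) := by
                      have : 0 ≤ ((C1 : ℚ) * (t₀.den : ℚ) ^ 2) * c ^ 3 := by positivity
                      linarith
                  _ = Hq := by rw [hHq]; ring
      exact_mod_cast e1
    · have hz : ∀ a b : ℚ, IsZ a → IsZ b → ∀ j,
          IsZ (((N ^ j * q j : ℕ) : ℚ) * ((c : ℚ) ^ j * yc t₀ a b j)) := by
        intro a b ha1 hb1 j
        cases j with
        | zero =>
          have e : ((N ^ 0 * q 0 : ℕ) : ℚ) * ((c : ℚ) ^ 0 * yc t₀ a b 0) = q 0 * a := by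
            rw [yc]
            push_cast
            ring
          rw [e]
          exact isZ_mul (isZ_nat _) ha1
        | succ k =>
          obtain ⟨m, hm⟩ := hqd k
          have h3 := y_int ha hb (yc t₀ a b) (yc_rec t₀ a b h1 h2) (by rw [yc]; exact ha1)
            (by rw [yc]; exact hb1) N hN k
          have e : ((N ^ (k + 1) * q (k + 1) : ℕ) : ℚ) * ((c : ℚ) ^ (k + 1) * yc t₀ a b (k + 1))
              = (N : ℚ) * m * (c : ℚ) ^ (k + 1) * ((N : ℚ) ^ k * q k * yc t₀ a b (k + 1)) := by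
            rw [hm]
            push_cast
            ring
          rw [e]
          exact isZ_mul (isZ_mul (isZ_mul (isZ_nat _) (isZ_nat _)) (isZ_pow (isZ_nat _) _)) h3
      have hz1 : ∀ a b : ℚ, IsZ a → IsZ b → ∀ j,
          IsZ (((N ^ j * q j : ℕ) : ℚ) * ((c : ℚ) ^ j * ((j + 1) * yc t₀ a b (j + 1)))) := by
        intro a b ha1 hb1 j
        have h3 := y_int ha hb (yc t₀ a b) (yc_rec t₀ a b h1 h2) (by rw [yc]; exact ha1)
          (by rw [yc]; exact hb1) N hN j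
        have e : ((N ^ j * q j : ℕ) : ℚ) * ((c : ℚ) ^ j * ((j + 1) * yc t₀ a b (j + 1)))
            = ((j + 1 : ℕ) : ℚ) * (c : ℚ) ^ j * ((N : ℚ) ^ j * q j * yc t₀ a b (j + 1)) := by
          push_cast
          ring
        rw [e]
        exact isZ_mul (isZ_mul (isZ_nat _) (isZ_pow (isZ_nat _) _)) h3
      have z0 : IsZ (0 : ℚ) := ⟨0, by simp⟩
      have z1 : IsZ (1 : ℚ) := ⟨1, by simp⟩
      intro i j
      rw [base, PowerSeries.coeff_rescale]
      fin_cases i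
      · simpa [UV] using hz 1 0 z1 z0 j
      · simpa [UV] using hz 0 1 z0 z1 j
      · simpa [UV, coeff_hd] using hz1 1 0 z1 z0 j
      · simpa [UV, coeff_hd] using hz1 0 1 z0 z1 j

end Pool.Agent.DGP
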