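import Pool.Agent.DGP.Stmts

set_option autoImplicit false

/-! DGP, module Span: the derived forms span. -/

open Finset

namespace Pool.Agent.DGP

open Polynomial

namespace Span

variable {m : ℕ} (T : Polynomial ℚ) (A : Fin m → Fin m → Polynomial ℚ)

/-- the linear form with coefficients P -/
noncomputable def LL (F : Fin m → PowerSeries ℚ) (P : Fin m → Polynomial ℚ) : PowerSeries ℚ :=
  ∑ i, (P i : PowerSeries ℚ) * F i

theorem LL_add (F : Fin m → PowerSeries ℚ) (P Q : Fin m → Polynomial ℚ) :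
    LL F (P + Q) = LL F P + LL F Q := by
  simp [LL, add_mul, Finset.sum_add_distrib]

theorem LL_sub (F : Fin m → PowerSeries ℚ) (P Q : Fin m → Polynomial ℚ) :
    LL F (P - Q) = LL F P - LL F Q := by
  unfold LL
  rw [← Finset.sum_sub_distrib]
  refine Finset.sum_congr rfl fun i _ => ?_
  have : ((P i - Q i : Polynomial ℚ) : PowerSeries ℚ) = (P i : PowerSeries ℚ) - Q i := by
    simp [Polynomial.coe_sub]
  rw [Pi.sub_apply, this, sub_mul]

theorem LL_smul (F : Fin m → PowerSeries ℚ) (f : Polynomial ℚ) (P : Fin m → Polynomial ℚ) :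
    LL F (f • P) = (f : PowerSeries ℚ) * LL F P := by
  simp only [LL, Pi.smul_apply, smul_eq_mul, Polynomial.coe_mul, Finset.mul_sum, mul_assoc]

theorem LL_inj {F : Fin m → PowerSeries ℚ} (hF : Indep F) {P Q : Fin m → Polynomial ℚ}
    (h : LL F P = LL F Q) : P = Q := by
  have h1 : LL F (P - Q) = 0 := by rw [LL_sub, h, sub_self]
  funext i
  have := hF (P - Q) h1 i
  exact sub_eq_zero.mp this

theorem hd_one (f : PowerSeries ℚ) : hd 1 f = PowerSeries.derivative ℚ f := by
  ext n
  rw [hd, PowerSeries.coeff_mk, PowerSeries.coeff_derivative, Nat.choose_one_right]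
  push_cast; ring

theorem hd_zero (f : PowerSeries ℚ) : hd 0 f = f := by
  ext n
  rw [hd, PowerSeries.coeff_mk]; simp

theorem D_hd (k : ℕ) (f : PowerSeries ℚ) :
    PowerSeries.derivative ℚ (hd k f) = ((k + 1 : ℕ) : PowerSeries ℚ) * hd (k + 1) f := by
  ext n
  have h0 : ((k + 1 : ℕ) : PowerSeries ℚ) = PowerSeries.C ((k + 1 : ℕ) : ℚ) := by
    rw [map_natCast]
  rw [PowerSeries.coeff_derivative, hd, PowerSeries.coeff_mk, h0, PowerSeries.coeff_C_mul, hd,
    PowerSeries.coeff_mk]
  have h1 := Nat.choose_succ_right_eq (n + 1 + k) k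
  have h2 : n + 1 + k - k = n + 1 := by omega
  rw [h2] at h1
  have h3 : n + (k + 1) = n + 1 + k := by omega
  rw [h3]
  have h4 : ((n + 1 + k).choose (k + 1) : ℚ) * ((k + 1 : ℕ) : ℚ)
      = (n + 1 + k).choose k * ((n + 1 : ℕ) : ℚ) := by exact_mod_cast h1
  push_cast at h4 ⊢
  linear_combination (-(PowerSeries.coeff (n + 1 + k)) f) * h4

theorem coe_der (p : Polynomial ℚ) :
    PowerSeries.derivative ℚ (p : PowerSeries ℚ) = ((derivative p : Polynomial ℚ) : PowerSeries ℚ) := by
  ext n
  rw [PowerSeries.coeff_derivative, Polynomial.coeff_coe, Polynomial.coeff_coe,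
    Polynomial.coeff_derivative]

/-- T D L(P) = L(dlt P) -/
theorem theta_LL {F : Fin m → PowerSeries ℚ}
    (hA : ∀ i, (T : PowerSeries ℚ) * hd 1 (F i) = ∑ j, (A i j : PowerSeries ℚ) * F j)
    (P : Fin m → Polynomial ℚ) :
    (T : PowerSeries ℚ) * PowerSeries.derivative ℚ (LL F P) = LL F (dlt T A P) := by
  have h1 : (T : PowerSeries ℚ) * PowerSeries.derivative ℚ (LL F P) =
      ∑ i, ((T : PowerSeries ℚ) * (derivative (P i) : Polynomial ℚ) * F i +
        (P i : PowerSeries ℚ) * ∑ j, (A i j : PowerSeries ℚ) * F j) := by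
    unfold LL
    rw [map_sum, Finset.mul_sum]
    refine Finset.sum_congr rfl fun i _ => ?_
    rw [Derivation.leibniz, ← hA, hd_one, coe_der, smul_eq_mul, smul_eq_mul]
    ring
  rw [h1, Finset.sum_add_distrib]
  have h2 : LL F (dlt T A P) = ∑ i, (T : PowerSeries ℚ) * (derivative (P i) : Polynomial ℚ) * F i
      + ∑ i, (∑ j, (P j : PowerSeries ℚ) * (A j i : PowerSeries ℚ)) * F i := by
    unfold LL dlt
    rw [← Finset.sum_add_distrib]
    refine Finset.sum_congr rfl fun i _ => ?_
    have e : ((∑ j, P j * A j i : Polynomial ℚ) : PowerSeries ℚ) =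
        ∑ j, (P j : PowerSeries ℚ) * (A j i : PowerSeries ℚ) := by
      rw [← Polynomial.coeToPowerSeries.ringHom_apply, map_sum]
      simp
    rw [Polynomial.coe_add, Polynomial.coe_mul, e, add_mul]
  rw [h2]
  congr 1
  simp only [Finset.mul_sum, Finset.sum_mul]
  rw [Finset.sum_comm]
  refine Finset.sum_congr rfl fun i _ => Finset.sum_congr rfl fun j _ => ?_
  ring

theorem dlt_add (P Q : Fin m → Polynomial ℚ) : dlt T A (P + Q) = dlt T A P + dlt T A Q := by
  funext i
  simp only [dlt, Pi.add_apply, derivative_add, mul_add, add_mul, Finset.sum_add_distrib]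
  ring

theorem dlt_smul (f : Polynomial ℚ) (P : Fin m → Polynomial ℚ) :
    dlt T A (f • P) = (T * derivative f) • P + f • dlt T A P := by
  funext i
  simp only [dlt, Pi.add_apply, Pi.smul_apply, smul_eq_mul, derivative_mul, mul_add,
    Finset.mul_sum, mul_assoc]
  ring

theorem dlt_zero : dlt T A 0 = 0 := by
  funext i
  simp [dlt]

theorem iter_add (v : ℕ) (P Q : Fin m → Polynomial ℚ) :
    (dlt T A)^[v] (P + Q) = (dlt T A)^[v] P + (dlt T A)^[v] Q := by
  induction v generalizing P Q with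
  | zero => rfl
  | succ n ih => rw [Function.iterate_succ_apply, dlt_add, ih]; rfl

/-- value of the v-th derived form at a root of multiplicity v -/
theorem iter_root (x : ℚ) (v : ℕ) (g : Polynomial ℚ) (Q : Fin m → Polynomial ℚ) (i : Fin m) :
    (((dlt T A)^[v] (((X - C x) ^ v * g) • Q)) i).eval x =
      v.factorial * (T.eval x) ^ v * g.eval x * (Q i).eval x := by
  induction v generalizing g Q with
  | zero => simp
  | succ n ih =>
    rw [Function.iterate_succ_apply, dlt_smul, iter_add]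
    have e1 : T * derivative ((X - C x) ^ (n + 1) * g) =
        (X - C x) ^ n * (T * (C ((n : ℚ) + 1) * g + (X - C x) * derivative g)) := by
      rw [derivative_mul, derivative_X_sub_C_pow]
      push_cast
      simp only [pow_succ, map_add, map_natCast, map_one]
      ring
    have e2 : (X - C x) ^ (n + 1) * g = (X - C x) ^ n * ((X - C x) * g) := by ring
    rw [e1, e2, Pi.add_apply, eval_add, ih, ih]
    simp only [eval_mul, eval_add, eval_sub, eval_X, eval_C, sub_self, zero_mul, mul_zero,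
      add_zero, Nat.factorial_succ]
    push_cast
    ring

/-- span of the derived forms -/
noncomputable def VV (R : ℕ → Fin m → Polynomial ℚ) (j : ℕ) : Submodule (Polynomial ℚ) (Fin m → Polynomial ℚ) :=
  Submodule.span (Polynomial ℚ) {Q | ∃ k ≤ j, Q = R k}

theorem VV_mono (R : ℕ → Fin m → Polynomial ℚ) {i j : ℕ} (h : i ≤ j) : VV R i ≤ VV R j := by
  refine Submodule.span_mono ?_
  rintro Q ⟨k, hk, rfl⟩
  exact ⟨k, hk.trans h, rfl⟩

theorem R_mem (R : ℕ → Fin m → Polynomial ℚ) {k j : ℕ} (h : k ≤ j) : R k ∈ VV R j :=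
  Submodule.subset_span ⟨k, h, rfl⟩

theorem dlt_VV {R : ℕ → Fin m → Polynomial ℚ}
    (hR : ∀ k, dlt T A (R k) = ((k : Polynomial ℚ) * derivative T) • R k +
      ((k + 1 : ℕ) : Polynomial ℚ) • R (k + 1)) {j : ℕ} {Q : Fin m → Polynomial ℚ}
    (hQ : Q ∈ VV R j) : dlt T A Q ∈ VV R (j + 1) := by
  induction hQ using Submodule.span_induction with
  | mem x hx =>
    obtain ⟨k, hk, rfl⟩ := hx
    rw [hR]
    exact add_mem (Submodule.smul_mem _ _ (R_mem R (by omega)))
      (Submodule.smul_mem _ _ (R_mem R (by omega)))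
  | zero => rw [dlt_zero]; exact zero_mem _
  | add x y _ _ hx hy => rw [dlt_add]; exact add_mem hx hy
  | smul a x hx' hx =>
    rw [dlt_smul]
    exact add_mem (Submodule.smul_mem _ _ (VV_mono R (by omega) hx')) (Submodule.smul_mem _ _ hx)

theorem iter_VV {R : ℕ → Fin m → Polynomial ℚ}
    (hR : ∀ k, dlt T A (R k) = ((k : Polynomial ℚ) * derivative T) • R k +
      ((k + 1 : ℕ) : Polynomial ℚ) • R (k + 1)) {j : ℕ} {Q : Fin m → Polynomial ℚ}
    (hQ : Q ∈ VV R j) (v : ℕ) : (dlt T A)^[v] Q ∈ VV R (j + v) := by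
  induction v with
  | zero => exact hQ
  | succ n ih => rw [Function.iterate_succ_apply']; exact dlt_VV T A hR ih

theorem ell_VV {R : ℕ → Fin m → Polynomial ℚ} {x : ℚ} {b : Fin m → ℚ} {j : ℕ}
    (h : ∀ k ≤ j, ∑ i, (R k i).eval x * b i = 0) {Q : Fin m → Polynomial ℚ} (hQ : Q ∈ VV R j) :
    ∑ i, (Q i).eval x * b i = 0 := by
  induction hQ using Submodule.span_induction with
  | mem y hy => obtain ⟨k, hk, rfl⟩ := hy; exact h k hk
  | zero => simp
  | add y z _ _ hy hz =>
    simp only [Pi.add_apply, eval_add, add_mul, Finset.sum_add_distrib, hy, hz, add_zero]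
  | smul a y _ hy =>
    simp only [Pi.smul_apply, smul_eq_mul, eval_mul, mul_assoc, ← Finset.mul_sum, hy, mul_zero]

theorem dlt_deg {t N : ℕ} (hT : T.natDegree ≤ t) (hA : ∀ i j, (A i j).natDegree ≤ t)
    {P : Fin m → Polynomial ℚ} (hP : ∀ i, (P i).natDegree ≤ N) (i : Fin m) :
    (dlt T A P i).natDegree ≤ N + t := by
  unfold dlt
  refine natDegree_add_le_of_degree_le ?_ ?_
  · refine natDegree_mul_le.trans ?_
    have := natDegree_derivative_le (P i)
    have := hP i
    omega
  · refine natDegree_sum_le_of_forall_le _ _ fun j _ => ?_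
    refine natDegree_mul_le.trans ?_
    have := hP j
    have := hA j i
    omega

theorem iter_deg {t N : ℕ} (hT : T.natDegree ≤ t) (hA : ∀ i j, (A i j).natDegree ≤ t)
    {P : Fin m → Polynomial ℚ} (hP : ∀ i, (P i).natDegree ≤ N) (k : ℕ) (i : Fin m) :
    ((dlt T A)^[k] P i).natDegree ≤ N + k * t := by
  induction k generalizing i with
  | zero => simpa using hP i
  | succ n ih =>
    rw [Function.iterate_succ_apply']
    have := dlt_deg T A hT hA ih i
    calc _ ≤ N + n * t + t := this
      _ = N + (n + 1) * t := by ring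

theorem det_deg {K : ℕ} (Mx : Matrix (Fin m) (Fin m) (Polynomial ℚ))
    (h : ∀ i j, (Mx i j).natDegree ≤ K) : Mx.det.natDegree ≤ m * K := by
  rw [Matrix.det_apply]
  refine natDegree_sum_le_of_forall_le _ _ fun σ _ => ?_
  refine (natDegree_smul_le _ _).trans ?_
  refine (natDegree_prod_le _ _).trans ?_
  refine (Finset.sum_le_sum fun i _ => h _ _).trans ?_
  simp

/-- vanishing of low coefficients -/
def Van (f : PowerSeries ℚ) (M : ℕ) : Prop := ∀ j < M, PowerSeries.coeff j f = 0

theorem Van.mul {f : PowerSeries ℚ} {M : ℕ} (h : Van f M) (g : PowerSeries ℚ) : Van (g * f) M := by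
  intro j hj
  rw [PowerSeries.coeff_mul]
  refine Finset.sum_eq_zero fun p hp => ?_
  rw [Finset.HasAntidiagonal.mem_antidiagonal] at hp
  rw [h p.2 (by omega), mul_zero]

theorem Van.der {f : PowerSeries ℚ} {M : ℕ} (h : Van f M) :
    Van (PowerSeries.derivative ℚ f) (M - 1) := by
  intro j hj
  rw [PowerSeries.coeff_derivative, h (j + 1) (by omega), zero_mul]

theorem Van.mono {f : PowerSeries ℚ} {M M' : ℕ} (h : Van f M) (h' : M' ≤ M) : Van f M' :=
  fun j hj => h j (lt_of_lt_of_le hj h')

theorem Van.sum {ι : Type} {s : Finset ι} {f : ι → PowerSeries ℚ} {M : ℕ}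
    (h : ∀ i ∈ s, Van (f i) M) : Van (∑ i ∈ s, f i) M := by
  intro j hj
  rw [map_sum]
  exact Finset.sum_eq_zero fun i hi => h i hi j hj

theorem iter_van {F : Fin m → PowerSeries ℚ}
    (hA : ∀ i, (T : PowerSeries ℚ) * hd 1 (F i) = ∑ j, (A i j : PowerSeries ℚ) * F j)
    {P : Fin m → Polynomial ℚ} {M : ℕ} (h : Van (LL F P) M) (k : ℕ) :
    Van (LL F ((dlt T A)^[k] P)) (M - k) := by
  induction k with
  | zero => exact h
  | succ n ih =>
    rw [Function.iterate_succ_apply', ← theta_LL T A hA]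
    exact (ih.der.mul _).mono (by omega)

/-- order of a product with a nonzero series -/
theorem X_pow_dvd {W : Polynomial ℚ} {f : PowerSeries ℚ} (hf : f ≠ 0) {M : ℕ}
    (h : Van ((W : PowerSeries ℚ) * f) M) : X ^ (M - f.order.toNat) ∣ W := by
  rw [X_pow_dvd_iff]
  have h1 : (M : ℕ∞) ≤ ((W : PowerSeries ℚ) * f).order := PowerSeries.nat_le_order _ _ h
  rw [PowerSeries.order_mul] at h1
  intro d hd
  rw [← Polynomial.coeff_coe]
  refine PowerSeries.coeff_of_lt_order _ ?_
  have h2 : f.order ≠ ⊤ := by rwa [ne_eq, PowerSeries.order_eq_top]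
  rw [← ENat.natCast_toNat h2] at h1
  by_contra hcon
  rw [not_lt] at hcon
  have h3 : (M : ℕ∞) ≤ (d : ℕ∞) + (f.order.toNat : ℕ∞) := h1.trans (by gcongr)
  have h4 : M ≤ d + f.order.toNat := by exact_mod_cast h3
  omega

theorem mult_le {W : Polynomial ℚ} (hW : W ≠ 0) {x : ℚ} (hx : x ≠ 0) {a v : ℕ}
    (h1 : X ^ a ∣ W) (h2 : (X - C x) ^ v ∣ W) : a + v ≤ W.natDegree := by
  have hc : IsCoprime (X ^ a : Polynomial ℚ) ((X - C x) ^ v) := by
    refine IsCoprime.pow ?_
    have : IsCoprime (X - C (0 : ℚ)) (X - C x) :=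
      isCoprime_X_sub_C_of_isUnit_sub (by simpa using hx)
    simpa using this
  have h3 := natDegree_le_of_dvd (hc.mul_dvd h1 h2) hW
  rw [natDegree_mul (pow_ne_zero _ X_ne_zero) (pow_ne_zero _ (X_sub_C_ne_zero x)),
    natDegree_X_pow, natDegree_pow, natDegree_X_sub_C, mul_one] at h3
  exact h3

end Span

open Pool.Agent.DGP.Span in
theorem Span_proof (hShid : Stmt_Shid) : Stmt_Span := by
  intro m F T τ e₀ c₀ H hG hF s hs
  obtain ⟨B, q, hB, hBd, -⟩ := hG.sys
  set A := B 1 with hAdef
  have hA : ∀ i, (T : PowerSeries ℚ) * hd 1 (F i) = ∑ j, (A i j : PowerSeries ℚ) * F j := by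
    intro i
    have := hB 1 i
    rwa [pow_one] at this
  set t := τ + e₀ with ht
  have hTt : T.natDegree ≤ t := hG.T_deg.trans (by omega)
  have hAt : ∀ i j, (A i j).natDegree ≤ t := fun i j => by
    have := hBd 1 i j
    rw [mul_one] at this
    exact this
  obtain ⟨c, hc⟩ := hShid m F T A hG.T_zero hA hF
  set o := ∑ i, (F i).order.toNat with ho
  refine ⟨2 * c + 2 + m + m * (m * t) + o, ?_⟩
  intro N hN P hP0 hPd hPv R hR x hx hTx b hb i
  have hm : 1 ≤ m := by have := i.2; omega
  have hNs : N / s ≤ N / 2 := Nat.div_le_div_left hs (by norm_num)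
  set M := m * (N + 1) - (N / s + 1) with hM
  have hmN : (m - 1) * N + N = m * N := by
    obtain ⟨m', rfl⟩ : ∃ m', m = m' + 1 := ⟨m - 1, by omega⟩
    simp only [Nat.add_sub_cancel]; ring
  have hmN1 : m * (N + 1) = m * N + m := by ring
  -- the determinant
  set Mx : Matrix (Fin m) (Fin m) (Polynomial ℚ) :=
    Matrix.of (fun k i : Fin m => ((dlt T A)^[k] P) i) with hMx
  have hW : Mx.det ≠ 0 := by
    intro h0
    have := hc N P hPd hP0 h0 M hPv
    omega
  have hWd : Mx.det.natDegree ≤ m * (N + m * t) := by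
    refine det_deg Mx fun k i => ?_
    have h1 := iter_deg T A hTt hAt hPd k i
    refine h1.trans ?_
    have := k.2
    gcongr
  have hadj : ∀ i, Mx.det • (Pi.single i 1 : Fin m → Polynomial ℚ) =
      ∑ k : Fin m, Mx.adjugate i k • ((dlt T A)^[k] P) := by
    intro i
    funext j
    have h1 := congrFun (congrFun (Matrix.adjugate_mul Mx) i) j
    rw [Matrix.mul_apply, Matrix.smul_apply] at h1
    rw [Finset.sum_apply, Pi.smul_apply, Pi.single_apply]
    simp only [Pi.smul_apply]
    rw [Matrix.one_apply] at h1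
    have h2 : (if j = i then (1 : Polynomial ℚ) else 0) = if i = j then 1 else 0 := by
      by_cases h : i = j
      · simp [h]
      · simp [h, Ne.symm h]
    rw [h2, ← h1]
    rfl
  -- order at zero
  have hLs : ∀ i, LL F (Pi.single i 1) = F i := by
    intro i
    unfold LL
    rw [Finset.sum_eq_single i]
    · simp
    · intro j _ hj
      simp [hj]
    · simp
  have hsum : ∀ (Q : Fin m → Fin m → Polynomial ℚ), LL F (∑ k, Q k) = ∑ k, LL F (Q k) := by
    intro Q
    have : ∀ s : Finset (Fin m), LL F (∑ k ∈ s, Q k) = ∑ k ∈ s, LL F (Q k) := by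
      intro s
      induction s using Finset.induction_on with
      | empty => simp [LL]
      | insert a s ha ih => rw [Finset.sum_insert ha, Finset.sum_insert ha, LL_add, ih]
    exact this _
  have hvan : Van ((Mx.det : PowerSeries ℚ) * F i) (M - (m - 1)) := by
    have h1 : (Mx.det : PowerSeries ℚ) * F i =
        ∑ k : Fin m, (Mx.adjugate i k : PowerSeries ℚ) * LL F ((dlt T A)^[k] P) := by
      rw [← hLs i, ← LL_smul, hadj i, hsum]
      exact Finset.sum_congr rfl fun k _ => LL_smul _ _ _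
    rw [h1]
    refine Van.sum fun k _ => ?_
    refine ((iter_van T A hA (M := M) hPv k).mul _).mono ?_
    have := k.2
    omega
  have hFi : F i ≠ 0 := by
    intro h0
    have h1 : LL F (Pi.single i 1) = 0 := by rw [hLs, h0]
    have := hF _ h1 i
    rw [Pi.single_eq_same] at this
    exact one_ne_zero this
  have hXd := X_pow_dvd hFi hvan
  -- multiplicity at x
  set v := Mx.det.rootMultiplicity x with hv
  obtain ⟨g, hg1, hg2⟩ := exists_eq_pow_rootMultiplicity_mul_and_not_dvd Mx.det hW x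
  rw [← hv] at hg1
  have hgx : g.eval x ≠ 0 := by
    intro h0
    exact hg2 (dvd_iff_isRoot.mpr h0)
  have hvle := mult_le hW hx hXd ⟨g, hg1⟩
  have hoi : (F i).order.toNat ≤ o :=
    Finset.single_le_sum (f := fun i => (F i).order.toNat) (fun _ _ => Nat.zero_le _)
      (Finset.mem_univ i)
  have hmt : m * (N + m * t) = m * N + m * (m * t) := by ring
  have hvb : m - 1 + v ≤ N / s + (2 * c + 2 + m + m * (m * t) + o) := by
    rw [hmt] at hWd
    omega
  -- the span
  have hRP : R 0 = P := by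
    refine LL_inj hF ?_
    have := hR 0
    rw [pow_zero, one_mul, hd_zero] at this
    exact this.symm
  have hRk : ∀ k, LL F (R k) = (T : PowerSeries ℚ) ^ k * hd k (LL F P) := fun k => (hR k).symm
  have hdR : ∀ k, dlt T A (R k) = ((k : Polynomial ℚ) * derivative T) • R k +
      ((k + 1 : ℕ) : Polynomial ℚ) • R (k + 1) := by
    intro k
    refine LL_inj hF ?_
    rw [← theta_LL T A hA, LL_add, LL_smul, LL_smul, hRk, hRk, Derivation.leibniz,
      Derivation.leibniz_pow, D_hd, coe_der]
    rcases k with _ | k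
    · simp only [pow_zero, zero_smul, Nat.cast_zero, zero_mul,
        Polynomial.coe_zero, zero_add, smul_eq_mul, one_mul, Nat.cast_one, pow_one,
        Polynomial.coe_one, mul_zero, add_zero]
    · simp only [smul_eq_mul, Nat.add_sub_cancel, nsmul_eq_mul, Polynomial.coe_mul]
      have e1 : (((k + 1 : ℕ) : Polynomial ℚ) : PowerSeries ℚ) = ((k + 1 : ℕ) : PowerSeries ℚ) := by
        rw [← Polynomial.coeToPowerSeries.ringHom_apply, map_natCast]
      have e2 : (((k + 1 + 1 : ℕ) : Polynomial ℚ) : PowerSeries ℚ) =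
          ((k + 1 + 1 : ℕ) : PowerSeries ℚ) := by
        rw [← Polynomial.coeToPowerSeries.ringHom_apply, map_natCast]
      rw [e1, e2]
      ring
  have hmem : ∀ k : Fin m, ((dlt T A)^[k] P) ∈ VV R (m - 1) := by
    intro k
    have h0 : P ∈ VV R 0 := by
      have := R_mem R (le_refl 0)
      rwa [hRP] at this
    have h1 := iter_VV T A hdR h0 k
    refine VV_mono R ?_ h1
    have := k.2
    omega
  have hmemW : Mx.det • (Pi.single i 1 : Fin m → Polynomial ℚ) ∈ VV R (m - 1) := by
    rw [hadj i]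
    exact sum_mem fun k _ => Submodule.smul_mem _ _ (hmem k)
  have hmemV := iter_VV T A hdR hmemW v
  have hfin := ell_VV (x := x) (b := b) (fun k hk => hb k (hk.trans hvb)) hmemV
  rw [hg1] at hfin
  simp only [iter_root] at hfin
  rw [Finset.sum_eq_single i] at hfin
  · rw [Pi.single_eq_same, eval_one, mul_one] at hfin
    have h5 : ((v.factorial : ℚ) * (T.eval x) ^ v * g.eval x) ≠ 0 :=
      mul_ne_zero (mul_ne_zero (by exact_mod_cast v.factorial_ne_zero) (pow_ne_zero _ hTx)) hgx
    exact (mul_eq_zero.mp hfin).resolve_left h5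
  · intro j _ hj
    rw [Pi.single_apply, if_neg hj]
    simp
  · simp

end Pool.Agent.DGP
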