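import Pool.Agent.DGP.Stmts

set_option autoImplicit false

/-!
Module `Main`: the main theorem from the independence theorem, the transfer of relations and the
elimination of the constants.
-/

open Finset

namespace Pool.Agent.DGP

namespace Main

/-- Greedy choice of disjoint tuples. -/
theorem greedy (g m : ℕ) (Good : (Fin g → ℚ) → Prop)
    (h : ∀ S : Finset ℚ, S.card ≤ m * g → ∃ r : Fin g → ℚ, Good r ∧ ∀ i, r i ∉ S) :
    ∀ j ≤ m + 1, ∃ R : Fin j → Fin g → ℚ, (∀ i, Good (R i)) ∧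
      ∀ i i', i ≠ i' → ∀ a b, R i a ≠ R i' b := by
  intro j
  induction j with
  | zero => intro _; exact ⟨fun i => i.elim0, fun i => i.elim0, fun i => i.elim0⟩
  | succ j ih =>
    intro hj
    obtain ⟨R, hR1, hR2⟩ := ih (by omega)
    classical
    let S : Finset ℚ := Finset.univ.image (fun p : Fin j × Fin g => R p.1 p.2)
    have hS : S.card ≤ m * g := by
      calc S.card ≤ (Finset.univ : Finset (Fin j × Fin g)).card := Finset.card_image_le
        _ = j * g := by simp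
        _ ≤ m * g := Nat.mul_le_mul_right _ (by omega)
    obtain ⟨r, hr1, hr2⟩ := h S hS
    have hr3 : ∀ a i b, r a ≠ R i b := by
      intro a i b hab
      exact hr2 a (Finset.mem_image.mpr ⟨(i, b), Finset.mem_univ _, hab.symm⟩)
    refine ⟨Fin.cons r R, ?_, ?_⟩
    · intro i
      refine Fin.cases ?_ (fun i => ?_) i
      · simpa using hr1
      · simpa using hR1 i
    · intro i i'
      refine Fin.cases ?_ (fun i => ?_) i
      · refine Fin.cases ?_ (fun i' => ?_) i'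
        · intro hne; exact absurd rfl hne
        · intro _ a b
          simpa using hr3 a i' b
      · refine Fin.cases ?_ (fun i' => ?_) i'
        · intro _ a b
          simpa using (hr3 b i a).symm
        · intro hne a b
          simpa using hR2 i i' (fun hh => hne (by rw [hh])) a b

end Main

theorem Main_proof (hInd : Stmt_IndR) (hExc : Stmt_Exc) (hElim : Stmt_Elim) :
    MainStatement := by
  intro t₀ h1 h2 g D
  obtain ⟨D', hD'⟩ := hExc g D
  obtain ⟨ρ, hρ, hρ'⟩ := hD' t₀ h1 h2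
  obtain ⟨E, hE⟩ := hElim 4 (g * 3) D'
  obtain ⟨δ, hδ, n₁, hn₁⟩ := hInd t₀ h1 h2 (5 * g) E
  refine ⟨min δ (1 / 2), lt_min hδ (by norm_num), max n₁ (⌈1 / ρ ^ 2⌉₊ + 2), ?_⟩
  intro n hn
  have hnn₁ : n₁ ≤ n := le_trans (le_max_left _ _) hn
  have hn2 : ⌈1 / ρ ^ 2⌉₊ + 2 ≤ n := le_trans (le_max_right _ _) hn
  have hn1 : (1 : ℝ) ≤ n := by
    have : 1 ≤ n := by omega
    exact_mod_cast this
  have hnpos : (0 : ℝ) < n := by linarith
  have hnρ : 1 / ρ ^ 2 < n := by
    have h3 : (⌈1 / ρ ^ 2⌉₊ : ℝ) + 2 ≤ n := by exact_mod_cast hn2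
    have h4 := Nat.le_ceil (1 / ρ ^ 2)
    linarith
  by_contra hcon
  push Not at hcon
  -- the tuples
  obtain ⟨R, hR1, hR2⟩ := Main.greedy g 4 (fun r => Function.Injective r ∧
      (∀ i, 0 < r i ∧ ((r i).num : ℝ) ≤ (n : ℝ) ^ (min δ (1 / 2)) ∧
        ((r i).den : ℝ) ≤ (n : ℝ) ^ (min δ (1 / 2))) ∧
      ∃ P, IsRel D (fun i => (t₀ : ℝ) + (r i : ℝ) / n) P) (by
    intro S hS
    obtain ⟨r, hr1, hr2, P, hP⟩ := hcon S hS
    exact ⟨r, ⟨hr1, fun i => ⟨(hr2 i).1, (hr2 i).2.2.1, (hr2 i).2.2.2⟩, P, hP⟩,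
      fun i => (hr2 i).2.1⟩) 5 (by norm_num)
  -- the points
  let w : Fin 5 → Fin g → ℚ := fun i a => R i a / n
  have hw : ∀ i a, ((w i a : ℚ) : ℝ) = (R i a : ℝ) / n := by
    intro i a
    simp [w]
  have hwpos : ∀ i a, 0 < w i a := by
    intro i a
    have h3 := ((hR1 i).2.1 a).1
    have h4 : (0 : ℚ) < n := by exact_mod_cast hnpos
    exact div_pos h3 h4
  have hwρ : ∀ i a, ((w i a : ℚ) : ℝ) < ρ := by
    intro i a
    rw [hw]
    obtain ⟨h3, h4, h5⟩ := (hR1 i).2.1 a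
    have h6 : ((R i a : ℚ) : ℝ) ≤ ((R i a).num : ℝ) := by
      have h7 : ((R i a : ℚ) : ℝ) = ((R i a).num : ℝ) / ((R i a).den : ℝ) := by
        exact_mod_cast congrArg (fun x : ℚ => (x : ℝ)) (Rat.num_div_den (R i a)).symm
      rw [h7]
      apply div_le_self
      · have : 0 < (R i a).num := Rat.num_pos.mpr h3
        exact_mod_cast this.le
      · exact_mod_cast (R i a).den_pos
    have h8 : (n : ℝ) ^ (min δ (1 / 2)) ≤ (n : ℝ) ^ (1 / 2 : ℝ) :=
      Real.rpow_le_rpow_of_exponent_le hn1 (min_le_right _ _)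
    have h9 : (n : ℝ) ^ (1 / 2 : ℝ) = √n := by rw [Real.sqrt_eq_rpow]
    have h10 : ((R i a : ℚ) : ℝ) ≤ √n := by linarith
    rw [div_lt_iff₀ hnpos]
    have h11 : 1 < ρ * √n := by
      have h12 : 1 < ρ ^ 2 * n := by
        rw [div_lt_iff₀ (by positivity)] at hnρ
        linarith
      have h13 : (ρ * √n) ^ 2 = ρ ^ 2 * n := by
        rw [mul_pow, Real.sq_sqrt hnpos.le]
      by_contra h14
      push Not at h14
      have h15 : (ρ * √n) ^ 2 ≤ 1 := by
        apply pow_le_one₀ (by positivity) h14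
      linarith
    have h16 : √n * √n = n := Real.mul_self_sqrt hnpos.le
    have h17 : 0 < √n := Real.sqrt_pos.mpr hnpos
    nlinarith
  -- the relations
  have hS : ∀ i, ∃ S : MvPolynomial (Fin 4 ⊕ (Fin g × Fin 3)) ℚ, S.totalDegree ≤ D' ∧
      MvPolynomial.aeval (Sum.elim (Mt t₀) (fun p => xv t₀ (w i p.1) p.2)) S = (0 : ℝ) ∧
      ∃ y : Fin g × Fin 3 → ℝ, MvPolynomial.aeval (Sum.elim (Mt t₀) y) S ≠ 0 := by
    intro i
    obtain ⟨P, hP⟩ := (hR1 i).2.2
    apply hρ' (w i) (fun a => ⟨hwpos i a, hwρ i a⟩) P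
    have h3 : (fun a => (t₀ : ℝ) + ((w i a : ℚ) : ℝ)) = (fun a => (t₀ : ℝ) + (R i a : ℝ) / n) := by
      funext a
      rw [hw]
    rw [h3]
    exact hP
  choose S hS1 hS2 hS3 using hS
  let e : Fin g × Fin 3 ≃ Fin (g * 3) := finProdFinEquiv
  let S' : Fin (4 + 1) → MvPolynomial (Fin 4 ⊕ Fin (g * 3)) ℚ :=
    fun i => MvPolynomial.rename (Sum.map id e) (S i)
  let x : Fin (4 + 1) → Fin (g * 3) → ℝ := fun i v => xv t₀ (w i (e.symm v).1) (e.symm v).2
  have hcomp : ∀ z : Fin (g * 3) → ℝ,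
      (Sum.elim (Mt t₀) z) ∘ (Sum.map id e) = Sum.elim (Mt t₀) (z ∘ e) := by
    intro z
    funext s
    cases s <;> rfl
  obtain ⟨Q, hQ1, hQ2, hQ3⟩ := hE (Mt t₀) x S'
    (fun i => le_trans (MvPolynomial.totalDegree_rename_le _ _) (hS1 i))
    (by
      intro i
      simp only [S']
      rw [MvPolynomial.aeval_rename, hcomp]
      have h3 : x i ∘ e = fun p => xv t₀ (w i p.1) p.2 := by
        funext p
        simp [x]
      rw [h3]
      exact hS2 i)
    (by
      intro i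
      obtain ⟨y, hy⟩ := hS3 i
      refine ⟨y ∘ e.symm, ?_⟩
      simp only [S']
      rw [MvPolynomial.aeval_rename, hcomp]
      have h3 : (y ∘ e.symm) ∘ e = y := by
        funext p
        simp
      rw [h3]
      exact hy)
  -- the transfer to the points
  let e' : Fin 5 × Fin g ≃ Fin (5 * g) := finProdFinEquiv
  let r : Fin (5 * g) → ℚ := fun k => R (e'.symm k).1 (e'.symm k).2
  have hrinj : Function.Injective r := by
    intro k k' hkk
    simp only [r] at hkk
    by_cases h3 : (e'.symm k).1 = (e'.symm k').1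
    · rw [h3] at hkk
      have h4 := (hR1 (e'.symm k').1).1 hkk
      have h5 : e'.symm k = e'.symm k' := Prod.ext h3 h4
      exact e'.symm.injective h5
    · exact absurd hkk (hR2 _ _ h3 _ _)
  let f : Fin (4 + 1) × Fin (g * 3) → Fin (5 * g) × Fin 3 :=
    fun p => (e' (p.1, (e.symm p.2).1), (e.symm p.2).2)
  have hf : Function.Injective f := by
    rintro ⟨i, v⟩ ⟨i', v'⟩ hp
    simp only [f, Prod.mk.injEq, EmbeddingLike.apply_eq_iff_eq] at hp
    obtain ⟨⟨h3, h4⟩, h5⟩ := hp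
    have h6 : e.symm v = e.symm v' := Prod.ext h4 h5
    rw [e.symm.injective h6, h3]
  have hQ'ne : MvPolynomial.rename f Q ≠ 0 := by
    intro h3
    apply hQ1
    apply MvPolynomial.rename_injective f hf
    rw [h3, map_zero]
  have hfin := hn₁ n hnn₁ r hrinj (by
    intro k
    obtain ⟨h3, h4, h5⟩ := (hR1 (e'.symm k).1).2.1 (e'.symm k).2
    have h6 : (n : ℝ) ^ (min δ (1 / 2)) ≤ (n : ℝ) ^ δ :=
      Real.rpow_le_rpow_of_exponent_le hn1 (min_le_left _ _)
    exact ⟨h3, le_trans h4 h6, le_trans h5 h6⟩) (MvPolynomial.rename f Q) hQ'ne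
    (le_trans (MvPolynomial.totalDegree_rename_le _ _) hQ2)
  apply hfin
  rw [MvPolynomial.aeval_rename]
  have h3 : (fun p : Fin (5 * g) × Fin 3 => xv t₀ ((r p.1 : ℝ) / n) p.2) ∘ f
      = fun p => x p.1 p.2 := by
    funext p
    simp only [Function.comp, f, r, x, Equiv.symm_apply_apply]
    rw [hw]
  rw [h3]
  exact hQ3

end Pool.Agent.DGP
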