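import Pool.Agent.DGP.Stmts

set_option autoImplicit false

/-!
DSum: direct sums of systems of G-functions.
-/

open Finset

namespace Pool.Agent.DGP

namespace DSum

lemma IsZ.add {x y : ℚ} (hx : IsZ x) (hy : IsZ y) : IsZ (x + y) := by
  obtain ⟨a, rfl⟩ := hx
  obtain ⟨b, rfl⟩ := hy
  exact ⟨a + b, by push_cast; ring⟩

lemma IsZ.mul {x y : ℚ} (hx : IsZ x) (hy : IsZ y) : IsZ (x * y) := by
  obtain ⟨a, rfl⟩ := hx
  obtain ⟨b, rfl⟩ := hy
  exact ⟨a * b, by push_cast; ring⟩

lemma isZ_zero : IsZ 0 := ⟨0, by simp⟩

lemma isZ_one : IsZ 1 := ⟨1, by simp⟩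

lemma isZ_nat (n : ℕ) : IsZ (n : ℚ) := ⟨n, by simp⟩

lemma isZ_sum {ι : Type} (s : Finset ι) (f : ι → ℚ) (h : ∀ i ∈ s, IsZ (f i)) :
    IsZ (∑ i ∈ s, f i) := by
  classical
  induction s using Finset.induction_on with
  | empty => simpa using isZ_zero
  | insert a s ha ih =>
    rw [Finset.sum_insert ha]
    exact IsZ.add (h a (Finset.mem_insert_self _ _))
      (ih (fun i hi => h i (Finset.mem_insert_of_mem hi)))

/-- Integral coefficients. -/
def IsZP (p : Polynomial ℚ) : Prop := ∀ i, IsZ (p.coeff i)

lemma IsZP.mul {p q : Polynomial ℚ} (hp : IsZP p) (hq : IsZP q) : IsZP (p * q) := by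
  intro i
  rw [Polynomial.coeff_mul]
  exact isZ_sum _ _ (fun x _ => IsZ.mul (hp _) (hq _))

lemma isZP_one : IsZP 1 := by
  intro i
  rw [Polynomial.coeff_one]
  split_ifs
  · exact isZ_one
  · exact isZ_zero

lemma IsZP.pow {p : Polynomial ℚ} (hp : IsZP p) (n : ℕ) : IsZP (p ^ n) := by
  induction n with
  | zero => rw [pow_zero]; exact isZP_one
  | succ n ih => rw [pow_succ]; exact ih.mul hp

lemma isZP_prod {ι : Type} (s : Finset ι) (f : ι → Polynomial ℚ) (h : ∀ i ∈ s, IsZP (f i)) :
    IsZP (∏ i ∈ s, f i) := by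
  classical
  induction s using Finset.induction_on with
  | empty => rw [Finset.prod_empty]; exact isZP_one
  | insert a s ha ih =>
    rw [Finset.prod_insert ha]
    exact (h a (Finset.mem_insert_self _ _)).mul
      (ih (fun i hi => h i (Finset.mem_insert_of_mem hi)))

/-- The sum of the absolute values of the coefficients. -/
noncomputable def l1 (p : Polynomial ℚ) : ℝ := ∑ i ∈ p.support, |(p.coeff i : ℝ)|

lemma l1_nonneg (p : Polynomial ℚ) : 0 ≤ l1 p := Finset.sum_nonneg (fun _ _ => abs_nonneg _)

lemma l1_eq (p : Polynomial ℚ) (N : ℕ) (h : p.natDegree ≤ N) :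
    l1 p = ∑ i ∈ range (N + 1), |(p.coeff i : ℝ)| := by
  unfold l1
  apply Finset.sum_subset
  · intro i hi
    rw [Finset.mem_range]
    have := Polynomial.le_natDegree_of_mem_supp i hi
    omega
  · intro i _ hi
    rw [Polynomial.notMem_support_iff] at hi
    rw [hi]
    simp

lemma l1_add (p q : Polynomial ℚ) : l1 (p + q) ≤ l1 p + l1 q := by
  set N := max p.natDegree q.natDegree with hN
  rw [l1_eq (p + q) N ((Polynomial.natDegree_add_le p q)), l1_eq p N (le_max_left _ _),
    l1_eq q N (le_max_right _ _), ← Finset.sum_add_distrib]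
  refine Finset.sum_le_sum ?_
  intro i _
  rw [Polynomial.coeff_add]
  push_cast
  exact abs_add_le _ _

lemma l1_sum {ι : Type} (s : Finset ι) (f : ι → Polynomial ℚ) :
    l1 (∑ i ∈ s, f i) ≤ ∑ i ∈ s, l1 (f i) := by
  classical
  induction s using Finset.induction_on with
  | empty => simp [l1]
  | insert a s ha ih =>
    rw [Finset.sum_insert ha, Finset.sum_insert ha]
    exact (l1_add _ _).trans (by linarith)

lemma l1_monomial_mul (n : ℕ) (a : ℚ) (q : Polynomial ℚ) :
    l1 (Polynomial.monomial n a * q) ≤ |(a : ℝ)| * l1 q := by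
  have hdeg : (Polynomial.monomial n a * q).natDegree ≤ n + q.natDegree :=
    (Polynomial.natDegree_mul_le).trans
      (Nat.add_le_add_right (Polynomial.natDegree_monomial_le a) _)
  rw [l1_eq _ (n + q.natDegree) hdeg, l1_eq q q.natDegree le_rfl]
  have h1 : ∑ i ∈ range (n + q.natDegree + 1), |((Polynomial.monomial n a * q).coeff i : ℝ)| =
      ∑ i ∈ range n, |((Polynomial.monomial n a * q).coeff i : ℝ)| +
      ∑ i ∈ range (q.natDegree + 1), |((Polynomial.monomial n a * q).coeff (n + i) : ℝ)| := by
    rw [show n + q.natDegree + 1 = n + (q.natDegree + 1) by ring, Finset.sum_range_add]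
  rw [h1]
  have h2 : ∑ i ∈ range n, |((Polynomial.monomial n a * q).coeff i : ℝ)| = 0 := by
    apply Finset.sum_eq_zero
    intro i hi
    rw [Finset.mem_range] at hi
    have : (Polynomial.monomial n a * q).coeff i = 0 := by
      rw [← Polynomial.C_mul_X_pow_eq_monomial, mul_assoc, Polynomial.coeff_C_mul,
        mul_comm (Polynomial.X ^ n), Polynomial.coeff_mul_X_pow', if_neg (by omega), mul_zero]
    rw [this]
    simp
  rw [h2, zero_add, Finset.mul_sum]
  refine Finset.sum_le_sum ?_
  intro i _
  have : (Polynomial.monomial n a * q).coeff (n + i) = a * q.coeff i := by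
    rw [← Polynomial.C_mul_X_pow_eq_monomial, mul_assoc, Polynomial.coeff_C_mul,
      mul_comm (Polynomial.X ^ n), add_comm, Polynomial.coeff_mul_X_pow]
  rw [this]
  push_cast
  rw [abs_mul]

lemma l1_mul (p q : Polynomial ℚ) : l1 (p * q) ≤ l1 p * l1 q := by
  have h1 : p * q = ∑ i ∈ p.support, Polynomial.monomial i (p.coeff i) * q := by
    rw [← Finset.sum_mul, ← Polynomial.as_sum_support]
  rw [h1]
  refine (l1_sum _ _).trans ?_
  unfold l1
  rw [Finset.sum_mul]
  refine Finset.sum_le_sum ?_
  intro i _
  exact l1_monomial_mul i _ q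

lemma l1_one : l1 1 ≤ 1 := by
  rw [l1_eq 1 0 (by simp)]
  simp

lemma l1_pow (p : Polynomial ℚ) (n : ℕ) : l1 (p ^ n) ≤ l1 p ^ n := by
  induction n with
  | zero => rw [pow_zero, pow_zero]; exact l1_one
  | succ n ih =>
    rw [pow_succ, pow_succ]
    exact (l1_mul _ _).trans (mul_le_mul_of_nonneg_right ih (l1_nonneg _))

lemma l1_prod {ι : Type} (s : Finset ι) (f : ι → Polynomial ℚ) (H : ℝ) (hH : 0 ≤ H)
    (h : ∀ i ∈ s, l1 (f i) ≤ H) : l1 (∏ i ∈ s, f i) ≤ H ^ s.card := by
  classical
  induction s using Finset.induction_on with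
  | empty => simpa using l1_one
  | insert a s ha ih =>
    rw [Finset.prod_insert ha, Finset.card_insert_of_notMem ha, pow_succ, mul_comm (H ^ _)]
    refine (l1_mul _ _).trans ?_
    exact mul_le_mul (h a (Finset.mem_insert_self _ _))
      (ih (fun i hi => h i (Finset.mem_insert_of_mem hi))) (l1_nonneg _) hH

lemma coeff_mul_le (p q : Polynomial ℚ) (S : ℝ) (hS : ∀ l, |(q.coeff l : ℝ)| ≤ S) (l : ℕ) :
    |((p * q).coeff l : ℝ)| ≤ l1 p * S := by
  have hS0 : 0 ≤ S := (abs_nonneg _).trans (hS 0)
  have h1 : (p * q).coeff l = ∑ i ∈ p.support, (Polynomial.monomial i (p.coeff i) * q).coeff l := by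
    rw [← Polynomial.finsetSum_coeff, ← Finset.sum_mul, ← Polynomial.as_sum_support]
  rw [h1]
  push_cast
  refine (Finset.abs_sum_le_sum_abs _ _).trans ?_
  unfold l1
  rw [Finset.sum_mul]
  refine Finset.sum_le_sum ?_
  intro i _
  rw [← Polynomial.C_mul_X_pow_eq_monomial, mul_assoc, Polynomial.coeff_C_mul,
    mul_comm (Polynomial.X ^ i), Polynomial.coeff_mul_X_pow']
  push_cast
  rw [abs_mul]
  refine mul_le_mul_of_nonneg_left ?_ (abs_nonneg _)
  split_ifs
  · exact hS _
  · simpa using hS0

end DSum

open DSum in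
theorem DSum_proof : Stmt_DSum := by
  classical
  intro K G T τ e₀ c₀ H hc hH hG
  have hH0 : (0 : ℝ) ≤ H := by linarith
  have hH1 : (1 : ℝ) ≤ H := by linarith
  have hc0 : (0 : ℝ) ≤ c₀ := by linarith
  choose B q hB1 hB2 hB3 hq hB4 using fun k => (hG k).sys
  choose d hd1 hd2 using fun k => (hG k).den
  have hTl1 : ∀ k, l1 (T k) ≤ H := by
    intro k
    rw [l1_eq (T k) τ (hG k).T_deg]
    exact (hG k).T_size
  have hcK : (1 : ℝ) ≤ c₀ ^ K := one_le_pow₀ hc
  have hcK1 : (1 : ℝ) ≤ c₀ ^ (K + 1) := one_le_pow₀ hc
  have hcc : c₀ ≤ c₀ ^ (K + 1) := by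
    rw [pow_succ]
    nlinarith
  have hccK : c₀ ^ K ≤ c₀ ^ (K + 1) := pow_le_pow_right₀ hc (Nat.le_succ K)
  have hHle : ∀ a j, a ≤ (K + 1) * j → H ^ a ≤ (H ^ (K + 1)) ^ j := by
    intro a j h
    rw [← pow_mul]
    exact pow_le_pow_right₀ hH1 h
  have hqprod : ∀ f : Fin K → ℕ → ℕ, (∀ k j, (f k j : ℝ) ≤ c₀ * H ^ j) → ∀ j,
      ((∏ k, f k j : ℕ) : ℝ) ≤ c₀ ^ (K + 1) * (H ^ (K + 1)) ^ j := by
    intro f hf j
    push_cast
    calc ∏ k, (f k j : ℝ) ≤ ∏ _k : Fin K, (c₀ * H ^ j) :=
          Finset.prod_le_prod (fun k _ => Nat.cast_nonneg _) (fun k _ => hf k j)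
      _ = c₀ ^ K * (H ^ j) ^ K := by
          rw [Finset.prod_const, Finset.card_univ, Fintype.card_fin, mul_pow]
      _ ≤ c₀ ^ (K + 1) * (H ^ (K + 1)) ^ j := by
          apply mul_le_mul hccK _ (by positivity) (by positivity)
          rw [← pow_mul]
          exact hHle _ _ (by nlinarith)
  refine ⟨e₀, c₀ ^ (K + 1), ?_⟩
  refine ⟨hcK1, ?_, ?_, ?_, ?_, ?_, ?_, ?_, ?_⟩
  · calc (2 : ℝ) ≤ H := hH
      _ = H ^ 1 := (pow_one H).symm
      _ ≤ H ^ (K + 1) := pow_le_pow_right₀ hH1 (by omega)
  · exact isZP_prod _ _ (fun k _ => (hG k).T_int)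
  · rw [Polynomial.coeff_zero_prod, Finset.prod_ne_zero_iff]
    intro k _
    exact (hG k).T_zero
  · refine (Polynomial.natDegree_prod_le _ _).trans ?_
    calc ∑ k, (T k).natDegree ≤ ∑ _k : Fin K, τ := Finset.sum_le_sum (fun k _ => (hG k).T_deg)
      _ = τ * K := by simp [mul_comm]
  · rw [← l1_eq (∏ k, T k) (τ * K)]
    · refine (l1_prod Finset.univ T H hH0 (fun k _ => hTl1 k)).trans ?_
      rw [Finset.card_univ, Fintype.card_fin]
      exact pow_le_pow_right₀ hH1 (Nat.le_succ K)
    · refine (Polynomial.natDegree_prod_le _ _).trans ?_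
      calc ∑ k, (T k).natDegree ≤ ∑ _k : Fin K, τ :=
            Finset.sum_le_sum (fun k _ => (hG k).T_deg)
        _ = τ * K := by simp [mul_comm]
  · -- the system
    set P : Fin K → Polynomial ℚ := fun k => ∏ l ∈ Finset.univ.erase k, T l with hP
    have hPT : ∀ k, P k * T k = ∏ l, T l := fun k =>
      Finset.prod_erase_mul _ _ (Finset.mem_univ k)
    set B' : ℕ → Option (Fin K × Fin 4) → Option (Fin K × Fin 4) → Polynomial ℚ :=
      fun j o o' => match o, o' with
        | none, none => if j = 0 then 1 else 0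
        | some a, some b => if a.1 = b.1 then P a.1 ^ j * B a.1 j a.2 b.2 else 0
        | _, _ => 0 with hB'
    have hPl1 : ∀ k j, l1 (P k ^ j) ≤ H ^ ((K - 1) * j) := by
      intro k j
      refine (l1_pow _ _).trans ?_
      rw [pow_mul]
      refine pow_le_pow_left₀ (l1_nonneg _) ?_ _
      refine (l1_prod _ T H hH0 (fun l _ => hTl1 l)).trans ?_
      rw [Finset.card_erase_of_mem (Finset.mem_univ k), Finset.card_univ, Fintype.card_fin]
    have hPdeg : ∀ k, (P k).natDegree ≤ τ * (K - 1) := by
      intro k
      refine (Polynomial.natDegree_prod_le _ _).trans ?_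
      calc ∑ l ∈ Finset.univ.erase k, (T l).natDegree ≤ ∑ _l ∈ Finset.univ.erase k, τ :=
            Finset.sum_le_sum (fun l _ => (hG l).T_deg)
        _ = τ * (K - 1) := by
            rw [Finset.sum_const, Finset.card_erase_of_mem (Finset.mem_univ k),
              Finset.card_univ, Fintype.card_fin, smul_eq_mul, mul_comm]
    have hPint : ∀ k, IsZP (P k) := fun k => isZP_prod _ _ (fun l _ => (hG l).T_int)
    refine ⟨B', fun j => ∏ k, q k j, ?_, ?_, ?_, ?_, ?_⟩
    · intro j o
      rw [Fintype.sum_option]
      cases o with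
      | none =>
        have h1 : ∀ p : Fin K × Fin 4, B' j none (some p) = 0 := fun p => rfl
        have h2 : B' j none none = if j = 0 then 1 else 0 := rfl
        have h3 : hd j (1 : PowerSeries ℚ) = if j = 0 then 1 else 0 := by
          ext i
          unfold hd
          rw [PowerSeries.coeff_mk, PowerSeries.coeff_one]
          by_cases hj : j = 0
          · subst hj
            simp [PowerSeries.coeff_one]
          · rw [if_neg (by omega), if_neg hj]
            simp
        simp only [Option.elim_none, h1, h2]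
        rw [h3]
        by_cases hj : j = 0
        · subst hj
          simp
        · simp [hj]
      | some a =>
        obtain ⟨k, i⟩ := a
        have h1 : B' j (some (k, i)) none = 0 := rfl
        have h2 : ∀ p : Fin K × Fin 4, B' j (some (k, i)) (some p) =
            if k = p.1 then P k ^ j * B k j i p.2 else 0 := fun p => rfl
        simp only [Option.elim_some, h1, h2]
        rw [Fintype.sum_prod_type]
        rw [Finset.sum_eq_single k]
        · simp only [if_true]
          have h3 := hB1 k j i
          have h4 : ((∏ l, T l : Polynomial ℚ) : PowerSeries ℚ) ^ j =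
              ((P k ^ j : Polynomial ℚ) : PowerSeries ℚ) * (T k : PowerSeries ℚ) ^ j := by
            rw [← hPT k, Polynomial.coe_mul, mul_pow, Polynomial.coe_pow]
          rw [h4, mul_assoc, h3, Finset.mul_sum]
          simp only [Polynomial.coe_zero, zero_mul, zero_add]
          refine Finset.sum_congr rfl ?_
          intro l _
          rw [Polynomial.coe_mul, mul_assoc]
        · intro l _ hl
          apply Finset.sum_eq_zero
          intro i' _
          rw [if_neg (fun h => hl h.symm)]
          simp
        · intro h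
          exact absurd (Finset.mem_univ k) h
    · intro j o o'
      rcases o with _ | ⟨k, i⟩ <;> rcases o' with _ | ⟨k', i'⟩
      · have h2 : B' j none none = if j = 0 then 1 else 0 := rfl
        rw [h2]
        split_ifs <;> simp
      · have h1 : B' j none (some (k', i')) = 0 := rfl
        rw [h1]
        simp
      · have h1 : B' j (some (k, i)) none = 0 := rfl
        rw [h1]
        simp
      · have h2 : B' j (some (k, i)) (some (k', i')) =
            if k = k' then P k ^ j * B k j i i' else 0 := rfl
        rw [h2]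
        split_ifs with h
        · refine (Polynomial.natDegree_mul_le).trans ?_
          have e1 := Polynomial.natDegree_pow_le (p := P k) (n := j)
          have e2 := hPdeg k
          have e3 := hB2 k j i i'
          have hK : 1 ≤ K := by
            have := k.2
            omega
          obtain ⟨K', hK'⟩ : ∃ K', K = K' + 1 := ⟨K - 1, by omega⟩
          have e4 : j * (P k).natDegree ≤ j * (τ * (K - 1)) := Nat.mul_le_mul_left _ e2
          have e5 : τ * K * j = j * (τ * (K - 1)) + τ * j := by
            rw [hK']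
            simp only [Nat.add_sub_cancel]
            ring
          omega
        · simp
    · intro j o o' l
      have hpos : (0 : ℝ) ≤ c₀ ^ (K + 1) * (H ^ (K + 1)) ^ j := by positivity
      rcases o with _ | ⟨k, i⟩ <;> rcases o' with _ | ⟨k', i'⟩
      · have h2 : B' j none none = if j = 0 then 1 else 0 := rfl
        rw [h2]
        have h5 : (1 : ℝ) ≤ c₀ ^ (K + 1) * (H ^ (K + 1)) ^ j :=
          one_le_mul_of_one_le_of_one_le hcK1 (one_le_pow₀ (one_le_pow₀ hH1))
        by_cases hj : j = 0
        · rw [if_pos hj, Polynomial.coeff_one]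
          split_ifs
          · simpa using h5
          · simpa using hpos
        · rw [if_neg hj]
          simpa using hpos
      · have h1 : B' j none (some (k', i')) = 0 := rfl
        rw [h1]
        simpa using hpos
      · have h1 : B' j (some (k, i)) none = 0 := rfl
        rw [h1]
        simpa using hpos
      · have h2 : B' j (some (k, i)) (some (k', i')) =
            if k = k' then P k ^ j * B k j i i' else 0 := rfl
        rw [h2]
        split_ifs with h
        · refine (coeff_mul_le _ _ _ (hB3 k j i i') l).trans ?_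
          calc l1 (P k ^ j) * (c₀ * H ^ j) ≤ H ^ ((K - 1) * j) * (c₀ * H ^ j) :=
                mul_le_mul_of_nonneg_right (hPl1 k j) (by positivity)
            _ = c₀ * H ^ ((K - 1) * j + j) := by rw [pow_add]; ring
            _ ≤ c₀ ^ (K + 1) * (H ^ (K + 1)) ^ j := by
                apply mul_le_mul hcc _ (by positivity) (by positivity)
                apply hHle
                have : (K - 1) * j ≤ K * j := Nat.mul_le_mul_right _ (Nat.sub_le _ _)
                nlinarith
        · simpa using hpos
    · intro j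
      refine ⟨Nat.one_le_iff_ne_zero.2 (Finset.prod_ne_zero_iff.2 (fun k _ =>
        Nat.one_le_iff_ne_zero.1 (hq k j).1)), Finset.prod_dvd_prod_of_dvd _ _
        (fun k _ => (hq k j).2.1), hqprod q (fun k j => (hq k j).2.2) j⟩
    · intro j o o' l
      rcases o with _ | ⟨k, i⟩ <;> rcases o' with _ | ⟨k', i'⟩
      · have h2 : B' j none none = if j = 0 then 1 else 0 := rfl
        rw [h2]
        apply IsZ.mul
        · exact isZ_nat _
        · split_ifs
          · exact isZP_one l
          · rw [Polynomial.coeff_zero]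
            exact isZ_zero
      · have h1 : B' j none (some (k', i')) = 0 := rfl
        rw [h1, Polynomial.coeff_zero, mul_zero]
        exact isZ_zero
      · have h1 : B' j (some (k, i)) none = 0 := rfl
        rw [h1, Polynomial.coeff_zero, mul_zero]
        exact isZ_zero
      · have h2 : B' j (some (k, i)) (some (k', i')) =
            if k = k' then P k ^ j * B k j i i' else 0 := rfl
        rw [h2]
        split_ifs with h
        · have h3 : (∏ k, q k j : ℕ) = (∏ l ∈ Finset.univ.erase k, q l j) * q k j :=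
            (Finset.prod_erase_mul _ _ (Finset.mem_univ k)).symm
          have h4 : ((∏ k, q k j : ℕ) : ℚ) * (P k ^ j * B k j i i').coeff l =
              ((∏ l ∈ Finset.univ.erase k, q l j : ℕ) : ℚ) *
                (P k ^ j * (Polynomial.C (q k j : ℚ) * B k j i i')).coeff l := by
            rw [h3]
            push_cast
            rw [mul_left_comm (P k ^ j), Polynomial.coeff_C_mul]
            ring
          rw [h4]
          apply IsZ.mul (isZ_nat _)
          apply IsZP.mul ((hPint k).pow j)
          intro l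
          rw [Polynomial.coeff_C_mul]
          exact hB4 k j i i' l
        · rw [Polynomial.coeff_zero, mul_zero]
          exact isZ_zero
  · intro o j
    have hle : c₀ * H ^ j ≤ c₀ ^ (K + 1) * (H ^ (K + 1)) ^ j := by
      apply mul_le_mul hcc _ (by positivity) (by positivity)
      exact hHle _ _ (by nlinarith)
    cases o with
    | none =>
      rw [Option.elim_none, PowerSeries.coeff_one]
      have h5 : (1 : ℝ) ≤ c₀ ^ (K + 1) * (H ^ (K + 1)) ^ j :=
        one_le_mul_of_one_le_of_one_le hcK1 (one_le_pow₀ (one_le_pow₀ hH1))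
      split_ifs
      · simpa using h5
      · simp only [Rat.cast_zero, abs_zero]
        linarith
    | some p =>
      rw [Option.elim_some]
      exact ((hG p.1).size p.2 j).trans hle
  · refine ⟨fun j => ∏ k, d k j, ?_, ?_⟩
    · intro j
      refine ⟨Nat.one_le_iff_ne_zero.2 (Finset.prod_ne_zero_iff.2 (fun k _ =>
        Nat.one_le_iff_ne_zero.1 (hd1 k j).1)), Finset.prod_dvd_prod_of_dvd _ _
        (fun k _ => (hd1 k j).2.1), hqprod d (fun k j => (hd1 k j).2.2) j⟩
    · intro o j
      cases o with
      | none =>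
        rw [Option.elim_none, PowerSeries.coeff_one]
        apply IsZ.mul (isZ_nat _)
        split_ifs
        · exact isZ_one
        · exact isZ_zero
      | some p =>
        rw [Option.elim_some]
        have h3 : (∏ k, d k j : ℕ) = (∏ l ∈ Finset.univ.erase p.1, d l j) * d p.1 j :=
          (Finset.prod_erase_mul _ _ (Finset.mem_univ p.1)).symm
        beta_reduce
        rw [h3]
        push_cast
        rw [mul_assoc]
        apply IsZ.mul
        · have := isZ_nat (∏ l ∈ Finset.univ.erase p.1, d l j)
          push_cast at this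
          exact this
        · exact hd2 p.1 p.2 j

end Pool.Agent.DGP
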