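import Pool.Agent.DGP.Stmts

set_option autoImplicit false

/-!
DGP AA: every relation between the values at `1/n` is a specialisation of a functional relation.
-/

open Finset

namespace Pool.Agent.DGP

namespace AA

noncomputable section

/-! ### Normalised derivatives -/

lemma coeff_hd (k n : ℕ) (f : PowerSeries ℚ) :
    PowerSeries.coeff n (hd k f) = ((n + k).choose k : ℚ) * PowerSeries.coeff (n + k) f := by
  simp [hd]

lemma hd_coe (k : ℕ) (p : Polynomial ℚ) :
    hd k (p : PowerSeries ℚ) = (Polynomial.hasseDeriv k p : PowerSeries ℚ) := by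
  ext n
  rw [coeff_hd, Polynomial.coeff_coe, Polynomial.coeff_coe, Polynomial.hasseDeriv_coeff]

lemma hd_sum {ι : Type} (s : Finset ι) (k : ℕ) (f : ι → PowerSeries ℚ) :
    hd k (∑ i ∈ s, f i) = ∑ i ∈ s, hd k (f i) := by
  ext n
  rw [coeff_hd, map_sum, map_sum, Finset.mul_sum]
  exact Finset.sum_congr rfl (fun i _ => (coeff_hd _ _ _).symm)

lemma hd_mul (k : ℕ) (f g : PowerSeries ℚ) :
    hd k (f * g) = ∑ ab ∈ antidiagonal k, hd ab.1 f * hd ab.2 g := by
  ext n
  set N := n + k + 1 with hN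
  have h1 : PowerSeries.coeff (n + k) (f * g) =
      (PowerSeries.trunc N f * PowerSeries.trunc N g).coeff (n + k) := by
    rw [PowerSeries.coeff_mul_eq_coeff_trunc_mul_trunc f g (show n + k < N by omega),
      ← Polynomial.coe_mul, Polynomial.coeff_coe]
  have h2 : ((n + k).choose k : ℚ) *
      (PowerSeries.trunc N f * PowerSeries.trunc N g).coeff (n + k) =
      (Polynomial.hasseDeriv k (PowerSeries.trunc N f * PowerSeries.trunc N g)).coeff n := by
    rw [Polynomial.hasseDeriv_coeff]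
  rw [coeff_hd, h1, h2, Polynomial.hasseDeriv_mul, Polynomial.finsetSum_coeff, map_sum]
  refine Finset.sum_congr rfl (fun ab hab => ?_)
  rw [Polynomial.coeff_mul, PowerSeries.coeff_mul]
  refine Finset.sum_congr rfl (fun ij hij => ?_)
  have hab' := mem_antidiagonal.1 hab
  have hij' := mem_antidiagonal.1 hij
  rw [coeff_hd, coeff_hd, Polynomial.hasseDeriv_coeff, Polynomial.hasseDeriv_coeff,
    PowerSeries.coeff_trunc, PowerSeries.coeff_trunc, if_pos (by omega), if_pos (by omega)]

/-! ### The length of a polynomial -/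

/-- The sum of the absolute values of the coefficients. -/
def l1 (P : Polynomial ℚ) : ℝ := ∑ i ∈ P.support, |(P.coeff i : ℝ)|

lemma l1_nonneg (P : Polynomial ℚ) : 0 ≤ l1 P := Finset.sum_nonneg (fun _ _ => abs_nonneg _)

lemma l1_eq (P : Polynomial ℚ) {S : Finset ℕ} (h : P.support ⊆ S) :
    l1 P = ∑ i ∈ S, |(P.coeff i : ℝ)| := by
  unfold l1
  refine Finset.sum_subset h (fun i _ hi => ?_)
  rw [Polynomial.notMem_support_iff.1 hi]
  simp

lemma l1_zero : l1 0 = 0 := by simp [l1]

lemma l1_one : l1 1 = 1 := by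
  rw [l1_eq 1 (S := {0}) (by
    intro i hi
    rw [Polynomial.mem_support_iff, Polynomial.coeff_one] at hi
    by_contra h
    simp only [Finset.mem_singleton] at h
    exact hi (if_neg h))]
  simp

/-- Coefficients of a product. -/
lemma coeff_mul_le (P Q : Polynomial ℚ) (M : ℝ) (hM : ∀ n, |(Q.coeff n : ℝ)| ≤ M) (n : ℕ) :
    |((P * Q).coeff n : ℝ)| ≤ l1 P * M := by
  have hM0 : 0 ≤ M := (abs_nonneg _).trans (hM 0)
  rw [Polynomial.coeff_mul, Nat.sum_antidiagonal_eq_sum_range_succ_mk]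
  push_cast
  refine (Finset.abs_sum_le_sum_abs _ _).trans ?_
  calc ∑ i ∈ range (n + 1), |(P.coeff i : ℝ) * (Q.coeff (n - i) : ℝ)|
      ≤ ∑ i ∈ range (n + 1), |(P.coeff i : ℝ)| * M := by
        refine Finset.sum_le_sum (fun i _ => ?_)
        rw [abs_mul]
        exact mul_le_mul_of_nonneg_left (hM _) (abs_nonneg _)
    _ = (∑ i ∈ range (n + 1), |(P.coeff i : ℝ)|) * M := by rw [Finset.sum_mul]
    _ ≤ l1 P * M := by
        refine mul_le_mul_of_nonneg_right ?_ hM0
        rw [l1_eq P (S := P.support ∪ range (n + 1)) Finset.subset_union_left]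
        exact Finset.sum_le_sum_of_subset_of_nonneg Finset.subset_union_right
          (fun _ _ _ => abs_nonneg _)

lemma l1_add (P Q : Polynomial ℚ) : l1 (P + Q) ≤ l1 P + l1 Q := by
  classical
  rw [l1_eq (P + Q) (S := P.support ∪ Q.support) Polynomial.support_add,
    l1_eq P (S := P.support ∪ Q.support) Finset.subset_union_left,
    l1_eq Q (S := P.support ∪ Q.support) Finset.subset_union_right,
    ← Finset.sum_add_distrib]
  refine Finset.sum_le_sum (fun n _ => ?_)
  rw [Polynomial.coeff_add]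
  push_cast
  exact abs_add_le _ _

lemma l1_sum {ι : Type} (s : Finset ι) (f : ι → Polynomial ℚ) :
    l1 (∑ i ∈ s, f i) ≤ ∑ i ∈ s, l1 (f i) := by
  classical
  induction s using Finset.induction_on with
  | empty => simp [l1_zero]
  | insert a s ha ih =>
    rw [Finset.sum_insert ha, Finset.sum_insert ha]
    exact (l1_add _ _).trans (by linarith)

lemma l1_monomial (n : ℕ) (c : ℚ) : l1 (Polynomial.monomial n c) ≤ |(c : ℝ)| := by
  rw [l1_eq _ (Polynomial.support_monomial_subset (n := n) (a := c))]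
  simp

lemma l1_mul (P Q : Polynomial ℚ) : l1 (P * Q) ≤ l1 P * l1 Q := by
  have h : P * Q = ∑ m ∈ P.support, ∑ n ∈ Q.support,
      Polynomial.monomial (m + n) (P.coeff m * Q.coeff n) := by
    conv_lhs => rw [P.as_sum_support, Q.as_sum_support]
    rw [Finset.sum_mul_sum]
    refine Finset.sum_congr rfl (fun m _ => Finset.sum_congr rfl (fun n _ => ?_))
    rw [Polynomial.monomial_mul_monomial]
  rw [h]
  refine (l1_sum _ _).trans ?_
  unfold l1
  rw [Finset.sum_mul_sum]
  refine Finset.sum_le_sum (fun m _ => ?_)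
  refine (l1_sum _ _).trans (Finset.sum_le_sum (fun n _ => ?_))
  refine (l1_monomial _ _).trans ?_
  push_cast
  rw [abs_mul]

lemma l1_pow (P : Polynomial ℚ) (n : ℕ) : l1 (P ^ n) ≤ l1 P ^ n := by
  induction n with
  | zero => simp [l1_one]
  | succ n ih =>
    rw [pow_succ, pow_succ]
    exact (l1_mul _ _).trans (mul_le_mul_of_nonneg_right ih (l1_nonneg P))

/-! ### Integrality -/

lemma isZ_zero : IsZ 0 := ⟨0, by simp⟩

lemma isZ_nat (n : ℕ) : IsZ (n : ℚ) := ⟨n, by simp⟩

lemma isZ_add {x y : ℚ} (hx : IsZ x) (hy : IsZ y) : IsZ (x + y) := by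
  obtain ⟨a, rfl⟩ := hx
  obtain ⟨b, rfl⟩ := hy
  exact ⟨a + b, by push_cast; ring⟩

lemma isZ_mul {x y : ℚ} (hx : IsZ x) (hy : IsZ y) : IsZ (x * y) := by
  obtain ⟨a, rfl⟩ := hx
  obtain ⟨b, rfl⟩ := hy
  exact ⟨a * b, by push_cast; ring⟩

lemma isZ_sum {ι : Type} (s : Finset ι) (f : ι → ℚ) (h : ∀ i ∈ s, IsZ (f i)) :
    IsZ (∑ i ∈ s, f i) := by
  classical
  induction s using Finset.induction_on with
  | empty => simpa using isZ_zero
  | insert a s ha ih =>
    rw [Finset.sum_insert ha]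
    exact isZ_add (h a (Finset.mem_insert_self a s))
      (ih (fun i hi => h i (Finset.mem_insert_of_mem hi)))

lemma isZ_dvd {a b : ℕ} (h : a ∣ b) {x : ℚ} (hx : IsZ (a * x)) : IsZ (b * x) := by
  obtain ⟨c, rfl⟩ := h
  have : ((a * c : ℕ) : ℚ) * x = c * (a * x) := by push_cast; ring
  rw [this]
  exact isZ_mul (isZ_nat c) hx

/-- `d P` has integral coefficients. -/
def DZ (d : ℕ) (P : Polynomial ℚ) : Prop := ∀ l, IsZ (d * P.coeff l)

lemma dz_mul {d e : ℕ} {P Q : Polynomial ℚ} (hP : DZ d P) (hQ : DZ e Q) : DZ (d * e) (P * Q) := by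
  intro l
  rw [Polynomial.coeff_mul, Finset.mul_sum]
  refine isZ_sum _ _ (fun ab _ => ?_)
  have : ((d * e : ℕ) : ℚ) * (P.coeff ab.1 * Q.coeff ab.2) =
      (d * P.coeff ab.1) * (e * Q.coeff ab.2) := by push_cast; ring
  rw [this]
  exact isZ_mul (hP _) (hQ _)

lemma dz_pow {P : Polynomial ℚ} (hP : DZ 1 P) (n : ℕ) : DZ 1 (P ^ n) := by
  induction n with
  | zero =>
    intro l
    rw [pow_zero, Polynomial.coeff_one]
    split_ifs
    · simpa using isZ_nat 1
    · simpa using isZ_zero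
  | succ n ih =>
    rw [pow_succ]
    simpa using dz_mul ih hP

lemma dz_sum {ι : Type} {d : ℕ} (s : Finset ι) (f : ι → Polynomial ℚ) (h : ∀ i ∈ s, DZ d (f i)) :
    DZ d (∑ i ∈ s, f i) := by
  intro l
  rw [Polynomial.finsetSum_coeff, Finset.mul_sum]
  exact isZ_sum _ _ (fun i hi => h i hi l)

lemma dz_dvd {a b : ℕ} (h : a ∣ b) {P : Polynomial ℚ} (hP : DZ a P) : DZ b P :=
  fun l => isZ_dvd h (hP l)

lemma dz_hasse {d : ℕ} {P : Polynomial ℚ} (hP : DZ d P) (k : ℕ) :
    DZ d (Polynomial.hasseDeriv k P) := by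
  intro l
  rw [Polynomial.hasseDeriv_coeff]
  have : (d : ℚ) * (((l + k).choose k : ℚ) * P.coeff (l + k)) =
      ((l + k).choose k : ℕ) * (d * P.coeff (l + k)) := by ring
  rw [this]
  exact isZ_mul (isZ_nat _) (hP _)

lemma exists_dz (P : Polynomial ℚ) : ∃ d : ℕ, 1 ≤ d ∧ DZ d P := by
  refine ⟨∏ i ∈ P.support, (P.coeff i).den, ?_, ?_⟩
  · exact Nat.one_le_iff_ne_zero.2 (Finset.prod_ne_zero_iff.2 (fun i _ => (P.coeff i).den_nz))
  · intro l
    by_cases hl : l ∈ P.support
    · refine isZ_dvd (Finset.dvd_prod_of_mem (fun i => (P.coeff i).den) hl) ?_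
      exact ⟨(P.coeff l).num, by rw [mul_comm]; exact Rat.mul_den_eq_num _⟩
    · rw [Polynomial.notMem_support_iff.1 hl]
      simpa using isZ_zero

lemma exists_dz_fam {ι : Type} [Fintype ι] (P : ι → Polynomial ℚ) :
    ∃ d : ℕ, 1 ≤ d ∧ ∀ i, DZ d (P i) := by
  choose d h1 h2 using fun i => exists_dz (P i)
  refine ⟨∏ i, d i, ?_, fun i => dz_dvd (Finset.dvd_prod_of_mem d (Finset.mem_univ i)) (h2 i)⟩
  exact Nat.one_le_iff_ne_zero.2 (Finset.prod_ne_zero_iff.2
    (fun i _ => Nat.one_le_iff_ne_zero.1 (h1 i)))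

/-! ### Change of basis -/

lemma coeff_mul_ps_le (P : Polynomial ℚ) (g : PowerSeries ℚ) (c H : ℝ) (hH : 1 ≤ H)
    (hg : ∀ j, |((PowerSeries.coeff j g : ℚ) : ℝ)| ≤ c * H ^ j) (l : ℕ) :
    |((PowerSeries.coeff l ((P : PowerSeries ℚ) * g) : ℚ) : ℝ)| ≤ l1 P * (c * H ^ l) := by
  have hc : 0 ≤ c := by
    have := (abs_nonneg _).trans (hg 0)
    simpa using this
  rw [PowerSeries.coeff_mul, Nat.sum_antidiagonal_eq_sum_range_succ_mk]
  simp only [Polynomial.coeff_coe]
  push_cast
  refine (Finset.abs_sum_le_sum_abs _ _).trans ?_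
  calc ∑ i ∈ range l.succ, |(P.coeff i : ℝ) * ((PowerSeries.coeff (l - i) g : ℚ) : ℝ)|
      ≤ ∑ i ∈ range (l + 1), |(P.coeff i : ℝ)| * (c * H ^ l) := by
        refine Finset.sum_le_sum (fun i _ => ?_)
        rw [abs_mul]
        refine mul_le_mul_of_nonneg_left ((hg _).trans ?_) (abs_nonneg _)
        exact mul_le_mul_of_nonneg_left (pow_le_pow_right₀ hH (Nat.sub_le _ _)) hc
    _ = (∑ i ∈ range (l + 1), |(P.coeff i : ℝ)|) * (c * H ^ l) := by rw [Finset.sum_mul]
    _ ≤ l1 P * (c * H ^ l) := by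
        refine mul_le_mul_of_nonneg_right ?_ (by positivity)
        rw [l1_eq P (S := P.support ∪ range (l + 1)) Finset.subset_union_left]
        exact Finset.sum_le_sum_of_subset_of_nonneg Finset.subset_union_right
          (fun _ _ _ => abs_nonneg _)

lemma sum_anti_le (φ : ℕ → ℝ) (h0 : ∀ a, 0 ≤ φ a) (s : ℕ) (hs : ∀ a, s < a → φ a = 0) (k : ℕ) :
    ∑ ab ∈ antidiagonal k, φ ab.1 ≤ ∑ a ∈ range (s + 1), φ a := by
  rw [Nat.sum_antidiagonal_eq_sum_range_succ_mk]
  have h1 : ∑ a ∈ range (s + 1), φ a = ∑ a ∈ range (max k s + 1), φ a := by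
    refine Finset.sum_subset (Finset.range_subset_range.2 (by omega)) (fun a _ ha => ?_)
    refine hs a ?_
    rw [mem_range] at ha
    omega
  rw [h1]
  exact Finset.sum_le_sum_of_subset_of_nonneg (Finset.range_subset_range.2 (by omega))
    (fun _ _ _ => h0 _)

lemma dvd_of_le (f : ℕ → ℕ) (h : ∀ k, f k ∣ f (k + 1)) {a b : ℕ} (hab : a ≤ b) : f a ∣ f b := by
  induction b, hab using Nat.le_induction with
  | base => exact dvd_rfl
  | succ m _ ih => exact ih.trans (h m)

/-- The new matrices. -/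
def newB {ι κ : Type} [Fintype ι] (T : Polynomial ℚ) (S : κ → ι → Polynomial ℚ)
    (R : ι → κ → Polynomial ℚ) (B : ℕ → ι → ι → Polynomial ℚ) (k : ℕ) (j p : κ) :
    Polynomial ℚ :=
  ∑ ab ∈ antidiagonal k, ∑ i, ∑ l,
    (T ^ ab.1 * Polynomial.hasseDeriv ab.1 (S j i) * R l p) * B ab.2 i l

lemma gsys_change {ι κ : Type} [Fintype ι] [Fintype κ] {G : ι → PowerSeries ℚ}
    {T : Polynomial ℚ} {τ e₀ : ℕ} {c₀ H : ℝ} (hG : GSys G T τ e₀ c₀ H)
    (F : κ → PowerSeries ℚ) (S : κ → ι → Polynomial ℚ) (R : ι → κ → Polynomial ℚ)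
    (hF : ∀ j, F j = ∑ i, (S j i : PowerSeries ℚ) * G i)
    (hR : ∀ i, G i = ∑ j, (R i j : PowerSeries ℚ) * F j) :
    ∃ (e₀' : ℕ) (c₀' : ℝ), GSys F T τ e₀' c₀' H := by
  classical
  obtain ⟨B, q, hB1, hB2, hB3, hq, hBq⟩ := hG.sys
  obtain ⟨d, hd1, hd2⟩ := hG.den
  obtain ⟨dS, hdS1, hdS2⟩ := exists_dz_fam (fun p : κ × ι => S p.1 p.2)
  obtain ⟨dR, hdR1, hdR2⟩ := exists_dz_fam (fun p : ι × κ => R p.1 p.2)
  have hc0 : (0 : ℝ) ≤ c₀ := zero_le_one.trans hG.one_le
  have hH1 : (1 : ℝ) ≤ H := one_le_two.trans hG.two_le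
  have hH0 : (0 : ℝ) ≤ H := zero_le_one.trans hH1
  set ds : ℕ := ∑ j, ∑ i, (S j i).natDegree with hds
  set dr : ℕ := ∑ i, ∑ j, (R i j).natDegree with hdr
  have hds' : ∀ j i, (S j i).natDegree ≤ ds := fun j i =>
    (Finset.single_le_sum (f := fun i => (S j i).natDegree) (fun _ _ => Nat.zero_le _)
      (Finset.mem_univ i)).trans (Finset.single_le_sum (f := fun j => ∑ i, (S j i).natDegree)
      (fun _ _ => Nat.zero_le _) (Finset.mem_univ j))
  have hdr' : ∀ i j, (R i j).natDegree ≤ dr := fun i j =>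
    (Finset.single_le_sum (f := fun j => (R i j).natDegree) (fun _ _ => Nat.zero_le _)
      (Finset.mem_univ j)).trans (Finset.single_le_sum (f := fun i => ∑ j, (R i j).natDegree)
      (fun _ _ => Nat.zero_le _) (Finset.mem_univ i))
  have hTl1 : l1 T ≤ H := by
    refine le_trans (le_of_eq ?_) hG.T_size
    refine l1_eq T (fun i hi => ?_)
    have := Polynomial.le_natDegree_of_mem_supp i hi
    have := hG.T_deg
    rw [mem_range]
    omega
  have hTdz : DZ 1 T := fun l => by simpa using hG.T_int l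
  set K1 : ℝ := ∑ j, ∑ i, ∑ a ∈ range (ds + 1), l1 (Polynomial.hasseDeriv a (S j i)) with hK1
  set KR : ℝ := ∑ p, ∑ l, l1 (R l p) with hKR
  set KS : ℝ := ∑ j, ∑ i, l1 (S j i) with hKS
  have hK1' : ∀ j, ∑ i, ∑ a ∈ range (ds + 1), l1 (Polynomial.hasseDeriv a (S j i)) ≤ K1 :=
    fun j => Finset.single_le_sum (f := fun j => ∑ i, ∑ a ∈ range (ds + 1),
      l1 (Polynomial.hasseDeriv a (S j i))) (fun _ _ => Finset.sum_nonneg (fun _ _ =>
        Finset.sum_nonneg (fun _ _ => l1_nonneg _))) (Finset.mem_univ j)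
  have hKR' : ∀ p, ∑ l, l1 (R l p) ≤ KR :=
    fun p => Finset.single_le_sum (f := fun p => ∑ l, l1 (R l p))
      (fun _ _ => Finset.sum_nonneg (fun _ _ => l1_nonneg _)) (Finset.mem_univ p)
  have hKS' : ∀ j, ∑ i, l1 (S j i) ≤ KS :=
    fun j => Finset.single_le_sum (f := fun j => ∑ i, l1 (S j i))
      (fun _ _ => Finset.sum_nonneg (fun _ _ => l1_nonneg _)) (Finset.mem_univ j)
  have hK10 : 0 ≤ K1 := Finset.sum_nonneg (fun _ _ => Finset.sum_nonneg (fun _ _ =>
        Finset.sum_nonneg (fun _ _ => l1_nonneg _)))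
  have hKR0 : 0 ≤ KR := Finset.sum_nonneg (fun _ _ => Finset.sum_nonneg (fun _ _ => l1_nonneg _))
  have hKS0 : 0 ≤ KS := Finset.sum_nonneg (fun _ _ => Finset.sum_nonneg (fun _ _ => l1_nonneg _))
  have hdS0 : (0 : ℝ) ≤ dS := Nat.cast_nonneg _
  have hdR0 : (0 : ℝ) ≤ dR := Nat.cast_nonneg _
  set C : ℝ := 1 + K1 * KR + dS * dR + KS + dS with hC
  have hC1 : 1 ≤ C := by
    have := mul_nonneg hK10 hKR0
    have := mul_nonneg hdS0 hdR0
    rw [hC]
    linarith
  have hlift : ∀ (x : ℝ) (k : ℕ), x ≤ C → c₀ * H ^ k * x ≤ c₀ * C * H ^ k := by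
    intro x k hx
    calc c₀ * H ^ k * x ≤ c₀ * H ^ k * C := mul_le_mul_of_nonneg_left hx (by positivity)
      _ = c₀ * C * H ^ k := by ring
  have hx1 : K1 * KR ≤ C := by
    have := mul_nonneg hdS0 hdR0
    rw [hC]
    linarith
  have hx2 : (dS : ℝ) * dR ≤ C := by
    have := mul_nonneg hK10 hKR0
    rw [hC]
    linarith
  have hx3 : KS ≤ C := by
    have := mul_nonneg hK10 hKR0
    have := mul_nonneg hdS0 hdR0
    rw [hC]
    linarith
  have hx4 : (dS : ℝ) ≤ C := by
    have := mul_nonneg hK10 hKR0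
    have := mul_nonneg hdS0 hdR0
    rw [hC]
    linarith
  refine ⟨e₀ + ds + dr, c₀ * C, ?_⟩
  refine ⟨?_, hG.two_le, hG.T_int, hG.T_zero, hG.T_deg, hG.T_size, ?_, ?_, ?_⟩
  · exact one_le_mul_of_one_le_of_one_le hG.one_le hC1
  · refine ⟨newB T S R B, fun k => q k * (dS * dR), ?_, ?_, ?_, ?_, ?_⟩
    · -- the equations
      intro k j
      rw [hF j, hd_sum, Finset.mul_sum]
      simp only [hd_mul, hd_coe]
      simp only [Finset.mul_sum]
      unfold newB
      simp only [← Polynomial.coeToPowerSeries.ringHom_apply, map_sum, Finset.sum_mul]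
      rw [Finset.sum_comm]
      rw [Finset.sum_comm (s := (Finset.univ : Finset κ))]
      refine Finset.sum_congr rfl (fun ab hab => ?_)
      rw [Finset.sum_comm (s := (Finset.univ : Finset κ))]
      refine Finset.sum_congr rfl (fun i _ => ?_)
      have hab' := mem_antidiagonal.1 hab
      simp only [map_mul, map_pow, Polynomial.coeToPowerSeries.ringHom_apply]
      have h1 : (T : PowerSeries ℚ) ^ k * ((Polynomial.hasseDeriv ab.1 (S j i) : PowerSeries ℚ) *
          hd ab.2 (G i)) = (T : PowerSeries ℚ) ^ ab.1 *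
            (Polynomial.hasseDeriv ab.1 (S j i) : PowerSeries ℚ) *
            ((T : PowerSeries ℚ) ^ ab.2 * hd ab.2 (G i)) := by
        rw [← hab', pow_add]
        ring
      rw [h1, hB1, Finset.mul_sum, Finset.sum_comm]
      refine Finset.sum_congr rfl (fun l _ => ?_)
      rw [hR l, Finset.mul_sum, Finset.mul_sum]
      refine Finset.sum_congr rfl (fun p _ => ?_)
      ring
    · -- degrees
      intro k j p
      unfold newB
      refine Polynomial.natDegree_sum_le_of_forall_le _ _ (fun ab hab => ?_)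
      refine Polynomial.natDegree_sum_le_of_forall_le _ _ (fun i _ => ?_)
      refine Polynomial.natDegree_sum_le_of_forall_le _ _ (fun l _ => ?_)
      have hab' := mem_antidiagonal.1 hab
      have h1 : (T ^ ab.1).natDegree ≤ τ * ab.1 := by
        refine Polynomial.natDegree_pow_le.trans ?_
        rw [mul_comm]
        exact Nat.mul_le_mul_right _ hG.T_deg
      have h2 : (Polynomial.hasseDeriv ab.1 (S j i)).natDegree ≤ ds :=
        (Polynomial.natDegree_hasseDeriv_le _ _).trans ((Nat.sub_le _ _).trans (hds' j i))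
      have h3 := hdr' l p
      have h4 := hB2 ab.2 i l
      have h5 : τ * k = τ * ab.1 + τ * ab.2 := by rw [← hab', mul_add]
      refine Polynomial.natDegree_mul_le.trans ?_
      have h6 := Polynomial.natDegree_mul_le (p := T ^ ab.1 * Polynomial.hasseDeriv ab.1 (S j i))
        (q := R l p)
      have h7 := Polynomial.natDegree_mul_le (p := T ^ ab.1)
        (q := Polynomial.hasseDeriv ab.1 (S j i))
      omega
    · -- sizes
      intro k j p n
      unfold newB
      rw [Polynomial.finsetSum_coeff]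
      push_cast
      refine (Finset.abs_sum_le_sum_abs _ _).trans ?_
      have hterm : ∀ ab ∈ antidiagonal k,
          |(((∑ i, ∑ l, (T ^ ab.1 * Polynomial.hasseDeriv ab.1 (S j i) * R l p) *
            B ab.2 i l).coeff n : ℚ) : ℝ)| ≤
          (c₀ * H ^ k) * ((∑ i, l1 (Polynomial.hasseDeriv ab.1 (S j i))) * (∑ l, l1 (R l p))) := by
        intro ab hab
        have hab' := mem_antidiagonal.1 hab
        rw [Polynomial.finsetSum_coeff]
        push_cast
        refine (Finset.abs_sum_le_sum_abs _ _).trans ?_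
        rw [Finset.sum_mul_sum, Finset.mul_sum]
        refine Finset.sum_le_sum (fun i _ => ?_)
        rw [Polynomial.finsetSum_coeff]
        push_cast
        refine (Finset.abs_sum_le_sum_abs _ _).trans ?_
        rw [Finset.mul_sum]
        refine Finset.sum_le_sum (fun l _ => ?_)
        refine (coeff_mul_le _ _ (c₀ * H ^ ab.2) (fun m => hB3 _ _ _ _) n).trans ?_
        have h1 : l1 (T ^ ab.1 * Polynomial.hasseDeriv ab.1 (S j i) * R l p) ≤
            H ^ ab.1 * l1 (Polynomial.hasseDeriv ab.1 (S j i)) * l1 (R l p) := by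
          refine (l1_mul _ _).trans (mul_le_mul_of_nonneg_right ?_ (l1_nonneg _))
          refine (l1_mul _ _).trans (mul_le_mul_of_nonneg_right ?_ (l1_nonneg _))
          exact (l1_pow _ _).trans (pow_le_pow_left₀ (l1_nonneg _) hTl1 _)
        calc l1 (T ^ ab.1 * Polynomial.hasseDeriv ab.1 (S j i) * R l p) * (c₀ * H ^ ab.2)
            ≤ (H ^ ab.1 * l1 (Polynomial.hasseDeriv ab.1 (S j i)) * l1 (R l p)) *
              (c₀ * H ^ ab.2) := mul_le_mul_of_nonneg_right h1 (by positivity)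
          _ = c₀ * H ^ k * (l1 (Polynomial.hasseDeriv ab.1 (S j i)) * l1 (R l p)) := by
              rw [← hab', pow_add]
              ring
      refine (Finset.sum_le_sum hterm).trans ?_
      rw [← Finset.mul_sum, ← Finset.sum_mul]
      refine le_trans (mul_le_mul_of_nonneg_left (?_ : _ ≤ K1 * KR)
        (by positivity : (0:ℝ) ≤ c₀ * H ^ k)) (hlift _ k hx1)
      refine mul_le_mul ?_ (hKR' p) (Finset.sum_nonneg (fun _ _ => l1_nonneg _)) hK10
      refine le_trans ?_ (hK1' j)
      rw [Finset.sum_comm]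
      refine Finset.sum_le_sum (fun i _ => ?_)
      refine sum_anti_le (fun a => l1 (Polynomial.hasseDeriv a (S j i))) (fun _ => l1_nonneg _)
        ds (fun a ha => ?_) k
      rw [Polynomial.hasseDeriv_eq_zero_of_lt_natDegree _ _ (lt_of_le_of_lt (hds' j i) ha),
        l1_zero]
    · -- denominators
      intro k
      obtain ⟨h1, h2, h3⟩ := hq k
      refine ⟨?_, Nat.mul_dvd_mul_right h2 _, ?_⟩
      · exact Nat.one_le_iff_ne_zero.2 (by positivity)
      · push_cast
        refine le_trans ?_ (hlift _ k hx2)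
        exact mul_le_mul_of_nonneg_right h3 (by positivity)
    · intro k j p
      change DZ _ (newB T S R B k j p)
      unfold newB
      refine dz_sum _ _ (fun ab hab => dz_sum _ _ (fun i _ => dz_sum _ _ (fun l _ => ?_)))
      have hab' := mem_antidiagonal.1 hab
      have h1 : DZ (q ab.2) (B ab.2 i l) := hBq _ _ _
      have h2 : q ab.2 ∣ q k := dvd_of_le q (fun m => (hq m).2.1) (by omega)
      have h4 : DZ (1 * dS * dR * q k)
          ((T ^ ab.1 * Polynomial.hasseDeriv ab.1 (S j i) * R l p) * B ab.2 i l) :=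
        dz_mul (dz_mul (dz_mul (dz_pow hTdz _) (dz_hasse (hdS2 (j, i)) _)) (hdR2 (l, p)))
          (dz_dvd h2 h1)
      have h5 : 1 * dS * dR * q k = q k * (dS * dR) := by ring
      rwa [h5] at h4
  · -- sizes of the coefficients
    intro j n
    rw [hF j, map_sum]
    push_cast
    refine (Finset.abs_sum_le_sum_abs _ _).trans ?_
    refine (Finset.sum_le_sum (fun i _ =>
      coeff_mul_ps_le (S j i) (G i) c₀ H hH1 (hG.size i) n)).trans ?_
    rw [← Finset.sum_mul]
    refine le_trans ?_ (hlift KS n hx3)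
    rw [mul_comm]
    exact mul_le_mul_of_nonneg_left (hKS' j) (by positivity)
  · refine ⟨fun n => d n * dS, ?_, ?_⟩
    · intro n
      obtain ⟨h1, h2, h3⟩ := hd1 n
      refine ⟨?_, Nat.mul_dvd_mul_right h2 _, ?_⟩
      · exact Nat.one_le_iff_ne_zero.2 (by positivity)
      · push_cast
        refine le_trans ?_ (hlift _ n hx4)
        exact mul_le_mul_of_nonneg_right h3 (by positivity)
    · intro j n
      rw [hF j, map_sum, Finset.mul_sum]
      refine isZ_sum _ _ (fun i _ => ?_)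
      rw [PowerSeries.coeff_mul, Finset.mul_sum]
      refine isZ_sum _ _ (fun ab hab => ?_)
      have hab' := mem_antidiagonal.1 hab
      have h2 : d ab.2 ∣ d n := dvd_of_le d (fun m => (hd1 m).2.1) (by omega)
      have h3 : IsZ (d n * PowerSeries.coeff ab.2 (G i)) := isZ_dvd h2 (hd2 i ab.2)
      have h4 : IsZ (dS * (S j i).coeff ab.1) := hdS2 (j, i) ab.1
      have h5 : ((d n * dS : ℕ) : ℚ) * (PowerSeries.coeff ab.1 (S j i : PowerSeries ℚ) *
          PowerSeries.coeff ab.2 (G i)) = (dS * (S j i).coeff ab.1) *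
          (d n * PowerSeries.coeff ab.2 (G i)) := by
        rw [Polynomial.coeff_coe]
        push_cast
        ring
      rw [h5]
      exact isZ_mul h4 h3

/-! ### A basis of the module of combinations -/

lemma smul_eq (P : Polynomial ℚ) (f : PowerSeries ℚ) : P • f = (P : PowerSeries ℚ) * f := by
  rw [Algebra.smul_def, PowerSeries.algebraMap_apply']
  congr 1

lemma tf : Module.IsTorsionFree (Polynomial ℚ) (PowerSeries ℚ) := by
  rw [Module.isTorsionFree_iff_smul_eq_zero]
  intro P f h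
  rw [smul_eq, mul_eq_zero] at h
  rcases h with h | h
  · exact Or.inl (Polynomial.coe_eq_zero_iff.1 h)
  · exact Or.inr h

lemma exists_basis {ι : Type} [Fintype ι] (G : ι → PowerSeries ℚ) :
    ∃ m ≤ Fintype.card ι, ∃ F : Fin m → PowerSeries ℚ, Indep F ∧
      ∃ (S : Fin m → ι → Polynomial ℚ) (R : ι → Fin m → Polynomial ℚ),
        (∀ j, F j = ∑ i, (S j i : PowerSeries ℚ) * G i) ∧
        (∀ i, G i = ∑ j, (R i j : PowerSeries ℚ) * F j) := by
  classical
  set M : Submodule (Polynomial ℚ) (PowerSeries ℚ) :=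
    Submodule.span (Polynomial ℚ) (Set.range G) with hM
  have : Module.Finite (Polynomial ℚ) M := Module.Finite.span_of_finite _ (Set.finite_range G)
  have := tf
  have : Module.Free (Polynomial ℚ) M := Module.free_of_finite_type_torsion_free'
  have hGM : ∀ i, G i ∈ M := fun i => Submodule.subset_span ⟨i, rfl⟩
  let b := Module.finBasis (Polynomial ℚ) M
  refine ⟨Module.finrank (Polynomial ℚ) M, finrank_range_le_card G,
    fun j => (b j : PowerSeries ℚ), ?_, ?_⟩
  · intro P hP
    have h1 : ∑ j, P j • b j = 0 := by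
      apply Subtype.ext
      rw [AddSubmonoidClass.coe_finsetSum]
      simp only [Submodule.coe_smul, smul_eq, Submodule.coe_zero]
      exact hP
    exact Fintype.linearIndependent_iff.1 b.linearIndependent P h1
  · have h2 : ∀ j, ∃ S : ι → Polynomial ℚ, ∑ i, S i • G i = (b j : PowerSeries ℚ) := by
      intro j
      exact (Submodule.mem_span_range_iff_exists_fun _).1 (b j).2
    choose S hS using h2
    refine ⟨S, fun i j => b.repr ⟨G i, hGM i⟩ j, fun j => ?_, fun i => ?_⟩
    · change (b j : PowerSeries ℚ) = _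
      rw [← hS j]
      exact Finset.sum_congr rfl (fun i _ => smul_eq _ _)
    · have h3 := b.sum_repr ⟨G i, hGM i⟩
      have h4 := congrArg (fun x : M => (x : PowerSeries ℚ)) h3
      simp only [AddSubmonoidClass.coe_finsetSum, Submodule.coe_smul, smul_eq] at h4
      exact h4.symm

end

end AA

/-- Every relation between the values at `1/n` is a specialisation of a functional relation. -/
theorem AA_proof (hA0 : Stmt_A0) (hVal : Stmt_Val) : Stmt_AA := by
  classical
  intro ι _ τ
  choose κf hκ using fun m => hA0 m τ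
  refine ⟨2 + ∑ m ∈ range (Fintype.card ι + 1), κf m, ?_⟩
  intro G T e₀ c₀ H hG h1 n hn hT a ha
  obtain ⟨m, hm, F, hF, S, R, hFS, hGR⟩ := AA.exists_basis G
  obtain ⟨e₀', c₀', hGF⟩ := AA.gsys_change hG F S R hFS hGR
  have hH2 := hG.two_le
  have hH1 : (1 : ℝ) ≤ H := one_le_two.trans hH2
  have hκm : H ^ κf m ≤ n := by
    refine (pow_le_pow_right₀ hH1 ?_).trans hn
    have := Finset.single_le_sum (f := κf) (fun _ _ => Nat.zero_le _)
      (mem_range.2 (Nat.lt_succ_of_le hm))
    exact this.trans (Nat.le_add_left _ _)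
  have hn2 : H ^ 2 ≤ n := (pow_le_pow_right₀ hH1 (Nat.le_add_right _ _)).trans hn
  have hn0 : (0 : ℝ) < n := by nlinarith
  set x : ℝ := 1 / n with hx
  have hx0 : 0 < x := by positivity
  have hHx : H * |x| < 1 := by
    rw [abs_of_pos hx0, hx, mul_one_div, div_lt_one hn0]
    nlinarith
  have hxq : x = ((1 / (n : ℚ) : ℚ) : ℝ) := by
    rw [hx]
    push_cast
    rfl
  have hev : ∀ P : Polynomial ℚ, Polynomial.aeval x P = ((P.eval (1 / (n : ℚ)) : ℚ) : ℝ) := by
    intro P
    rw [hxq]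
    have := Polynomial.aeval_algebraMap_apply ℝ (1 / (n : ℚ)) P
    simpa using this
  obtain ⟨hv1, hv2, hv3⟩ := hVal x
  have hcF : ∀ j, Conv (F j) x := fun j => hv3 (F j) c₀' H (by linarith) (hGF.size j) hHx
  have hterm : ∀ (P : Polynomial ℚ) (j : Fin m), Conv ((P : PowerSeries ℚ) * F j) x ∧
      val ((P : PowerSeries ℚ) * F j) x = ((P.eval (1 / (n : ℚ)) : ℚ) : ℝ) * val (F j) x := by
    intro P j
    obtain ⟨h2, h3, -, -⟩ := hv1 P (F j) (hv2 P).1 (hcF j)
    refine ⟨h2, ?_⟩
    rw [h3, (hv2 P).2, hev]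
  have hsum : ∀ (s : Finset (Fin m)) (P : Fin m → Polynomial ℚ),
      Conv (∑ j ∈ s, (P j : PowerSeries ℚ) * F j) x ∧
      val (∑ j ∈ s, (P j : PowerSeries ℚ) * F j) x =
        ∑ j ∈ s, (((P j).eval (1 / (n : ℚ)) : ℚ) : ℝ) * val (F j) x := by
    intro s P
    induction s using Finset.induction_on with
    | empty =>
      have h0 := hv2 0
      rw [Polynomial.coe_zero] at h0
      simpa using h0
    | insert j s hj ih =>
      rw [Finset.sum_insert hj, Finset.sum_insert hj]
      obtain ⟨-, -, h4, h5⟩ := hv1 _ _ (hterm (P j) j).1 ih.1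
      exact ⟨h4, by rw [h5, (hterm (P j) j).2, ih.2]⟩
  have hvG : ∀ i, val (G i) x = ∑ j, (((R i j).eval (1 / (n : ℚ)) : ℚ) : ℝ) * val (F j) x := by
    intro i
    rw [← (hsum Finset.univ (R i)).2, ← hGR i]
  have hne : ∃ j, val (F j) x ≠ 0 := by
    by_contra hcon
    push Not at hcon
    obtain ⟨i, hi⟩ := h1
    have h2 := hvG i
    rw [hi] at h2
    have h3 := (hv2 1).2
    rw [Polynomial.coe_one, map_one] at h3
    rw [h3] at h2
    simp [hcon] at h2
  have hrel : ∑ j, ((∑ i, a i * (R i j).eval (1 / (n : ℚ)) : ℚ) : ℝ) * val (F j) x = 0 := by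
    rw [← ha]
    simp only [hvG, Finset.mul_sum]
    rw [Finset.sum_comm]
    refine Finset.sum_congr rfl (fun j _ => ?_)
    push_cast
    rw [Finset.sum_mul]
    refine Finset.sum_congr rfl (fun i _ => ?_)
    ring
  have hz := hκ m F T e₀' c₀' H hGF hF n hκm hT hne _ hrel
  refine ⟨fun i => Polynomial.C (a i) -
    ∑ j, (∑ i', Polynomial.C (a i') * R i' j) * S j i, ?_, ?_⟩
  · have h5 : ∀ j, ∑ i, (S j i : PowerSeries ℚ) * G i = F j := fun j => (hFS j).symm
    have h6 : ∑ i, ((Polynomial.C (a i) : Polynomial ℚ) : PowerSeries ℚ) * G i =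
        ∑ j, ((∑ i', Polynomial.C (a i') * R i' j : Polynomial ℚ) : PowerSeries ℚ) * F j := by
      simp only [← Polynomial.coeToPowerSeries.ringHom_apply, map_sum, map_mul, Finset.sum_mul]
      rw [Finset.sum_comm]
      refine Finset.sum_congr rfl (fun i _ => ?_)
      conv_lhs => rw [hGR i]
      rw [Finset.mul_sum]
      refine Finset.sum_congr rfl (fun j _ => ?_)
      rw [Polynomial.coeToPowerSeries.ringHom_apply, Polynomial.coeToPowerSeries.ringHom_apply,
        mul_assoc]
    have h7 : ∑ i, ((∑ j, (∑ i', Polynomial.C (a i') * R i' j) * S j i : Polynomial ℚ) :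
        PowerSeries ℚ) * G i =
        ∑ j, ((∑ i', Polynomial.C (a i') * R i' j : Polynomial ℚ) : PowerSeries ℚ) * F j := by
      have h8 : ∀ i, ((∑ j, (∑ i', Polynomial.C (a i') * R i' j) * S j i : Polynomial ℚ) :
          PowerSeries ℚ) * G i = ∑ j, ((∑ i', Polynomial.C (a i') * R i' j : Polynomial ℚ) :
            PowerSeries ℚ) * ((S j i : PowerSeries ℚ) * G i) := by
        intro i
        rw [← Polynomial.coeToPowerSeries.ringHom_apply, map_sum, Finset.sum_mul]
        refine Finset.sum_congr rfl (fun j _ => ?_)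
        rw [map_mul, Polynomial.coeToPowerSeries.ringHom_apply,
          Polynomial.coeToPowerSeries.ringHom_apply, mul_assoc]
      simp only [h8]
      rw [Finset.sum_comm]
      refine Finset.sum_congr rfl (fun j _ => ?_)
      rw [← Finset.mul_sum, h5]
    simp only [Polynomial.coe_sub, sub_mul, Finset.sum_sub_distrib]
    rw [h6, h7, sub_self]
  · intro i
    rw [Polynomial.eval_sub, Polynomial.eval_C, Polynomial.eval_finsetSum]
    rw [Finset.sum_eq_zero, sub_zero]
    intro j _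
    rw [Polynomial.eval_mul, Polynomial.eval_finsetSum]
    simp only [Polynomial.eval_mul, Polynomial.eval_C]
    rw [hz j, zero_mul]

end Pool.Agent.DGP
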