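import Pool.Agent.DGP.Stmts

set_option autoImplicit false

/-!
Module BDeg: rational functions which are quotients of combinations of given power series with
constant coefficients have bounded degree.
-/

open Finset Polynomial

namespace Pool.Agent.DGP

namespace BDeg

theorem smul_eq (p : ℚ[X]) (f : PowerSeries ℚ) : p • f = (p : PowerSeries ℚ) * f := by
  rw [Algebra.smul_def, PowerSeries.algebraMap_apply']
  congr 1

theorem C_eq (a : ℚ) : ((Polynomial.C a : ℚ[X]) : PowerSeries ℚ) = PowerSeries.C a := by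
  simp

theorem torsionFree : Module.IsTorsionFree ℚ[X] (PowerSeries ℚ) := by
  refine Module.IsTorsionFree.of_smul_eq_zero ?_
  intro r m h
  rw [smul_eq] at h
  rcases mul_eq_zero.1 h with h | h
  · left
    exact_mod_cast h
  · exact Or.inr h

end BDeg

theorem BDeg_proof : Stmt_BDeg := by
  intro p φ
  have := BDeg.torsionFree
  set M : Submodule ℚ[X] (PowerSeries ℚ) := Submodule.span ℚ[X] (Set.range φ) with hM
  have hfin : Module.Finite ℚ[X] M := Module.Finite.span_of_finite ℚ[X] (Set.finite_range φ)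
  obtain ⟨n, bas⟩ : Σ n : ℕ, Module.Basis (Fin n) ℚ[X] M := Module.basisOfFiniteTypeTorsionFree'
  have hφ : ∀ i, φ i ∈ M := fun i => Submodule.subset_span ⟨i, rfl⟩
  -- coordinates
  let r : Fin p → Fin n → ℚ[X] := fun i l => bas.repr ⟨φ i, hφ i⟩ l
  -- combinations
  have comb : ∀ (c : ℚ[X]) (a : Fin p → ℚ),
      ∃ m : M, (m : PowerSeries ℚ) = (c : PowerSeries ℚ) * ∑ i, PowerSeries.C (a i) * φ i ∧
        ∀ l, bas.repr m l = c * ∑ i, Polynomial.C (a i) * r i l := by
    intro c a
    refine ⟨c • ∑ i, (Polynomial.C (a i)) • (⟨φ i, hφ i⟩ : M), ?_, ?_⟩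
    · rw [Submodule.coe_smul, BDeg.smul_eq, Submodule.coe_sum]
      congr 1
      refine Finset.sum_congr rfl fun i _ => ?_
      rw [Submodule.coe_smul, BDeg.smul_eq, BDeg.C_eq]
    · intro l
      rw [map_smul, map_sum, Finsupp.smul_apply, Finsupp.finsetSum_apply, smul_eq_mul]
      congr 1
      refine Finset.sum_congr rfl fun i _ => ?_
      rw [map_smul, Finsupp.smul_apply, smul_eq_mul]
  refine ⟨∑ i, ∑ l, (r i l).natDegree, ?_⟩
  intro a b X Y hY hXY hb
  obtain ⟨m1, h1, h1'⟩ := comb Y a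
  obtain ⟨m2, h2, h2'⟩ := comb X b
  obtain ⟨m3, h3, h3'⟩ := comb 1 b
  have hm : m1 = m2 := by
    apply Subtype.ext
    rw [h1, h2, hXY]
  have hm3 : m3 ≠ 0 := by
    intro h
    apply hb
    rw [h] at h3
    simpa using h3.symm
  have hl : ∃ l, bas.repr m3 l ≠ 0 := by
    by_contra hcon
    push Not at hcon
    apply hm3
    apply bas.repr.injective
    ext l : 1
    rw [hcon l]
    simp
  obtain ⟨l, hl⟩ := hl
  rw [h3', one_mul] at hl
  have hdeg : ∀ c : Fin p → ℚ, (∑ i, Polynomial.C (c i) * r i l).natDegree ≤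
      ∑ i, ∑ l, (r i l).natDegree := by
    intro c
    refine Polynomial.natDegree_sum_le_of_forall_le _ _ fun i _ => ?_
    refine (Polynomial.natDegree_C_mul_le _ _).trans ?_
    calc (r i l).natDegree ≤ ∑ l, (r i l).natDegree :=
          Finset.single_le_sum (f := fun l => (r i l).natDegree) (fun _ _ => Nat.zero_le _)
            (Finset.mem_univ l)
      _ ≤ ∑ i, ∑ l, (r i l).natDegree :=
          Finset.single_le_sum (f := fun i => ∑ l, (r i l).natDegree) (fun _ _ => Nat.zero_le _)
            (Finset.mem_univ i)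
  refine ⟨∑ i, Polynomial.C (a i) * r i l, ∑ i, Polynomial.C (b i) * r i l, hl, hdeg a, hdeg b, ?_⟩
  rw [← h2' l, ← hm, h1' l]
  ring

end Pool.Agent.DGP
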