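import Pool.Agent.DGP.Stmts

set_option autoImplicit false

/-!
The derived forms of a linear form in the members of a system.
-/

open Finset

namespace Pool.Agent.DGP.Der

/-! ### The Leibniz rule -/

theorem coeff_hd (k : ℕ) (f : PowerSeries ℚ) (i : ℕ) :
    PowerSeries.coeff i (hd k f) = ((i + k).choose k : ℚ) * PowerSeries.coeff (i + k) f := by
  simp [hd, PowerSeries.coeff_mk]

theorem hd_add (k : ℕ) (f g : PowerSeries ℚ) : hd k (f + g) = hd k f + hd k g := by
  ext i
  simp only [map_add, coeff_hd]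
  ring

theorem hd_zero' (k : ℕ) : hd k (0 : PowerSeries ℚ) = 0 := by
  ext i
  simp only [map_zero, coeff_hd, mul_zero]

theorem hd_sum {m : ℕ} (k : ℕ) (f : Fin m → PowerSeries ℚ) :
    hd k (∑ i, f i) = ∑ i, hd k (f i) := by
  ext j
  simp only [map_sum, coeff_hd, Finset.mul_sum]

theorem hd_coe (k : ℕ) (p : Polynomial ℚ) :
    hd k (p : PowerSeries ℚ) = (Polynomial.hasseDeriv k p : PowerSeries ℚ) := by
  ext i
  rw [coeff_hd, Polynomial.coeff_coe, Polynomial.coeff_coe, Polynomial.hasseDeriv_coeff]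

theorem coeff_trunc_lt (f : PowerSeries ℚ) {n i : ℕ} (h : i < n) :
    (PowerSeries.trunc n f).coeff i = PowerSeries.coeff i f := by
  rw [PowerSeries.coeff_trunc, if_pos h]

theorem hd_mul (k : ℕ) (f g : PowerSeries ℚ) :
    hd k (f * g) = ∑ ab ∈ antidiagonal k, hd ab.1 f * hd ab.2 g := by
  ext i
  have h1 := PowerSeries.coeff_mul_eq_coeff_trunc_mul_trunc f g
    (show i + k < i + k + 1 from Nat.lt_succ_self _)
  have h2 := congrArg (fun p => Polynomial.coeff p i) (Polynomial.hasseDeriv_mul k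
    (PowerSeries.trunc (i + k + 1) f) (PowerSeries.trunc (i + k + 1) g))
  simp only [Polynomial.hasseDeriv_coeff, Polynomial.finsetSum_coeff, Polynomial.coeff_mul] at h2
  rw [coeff_hd, h1, ← Polynomial.coe_mul, Polynomial.coeff_coe, Polynomial.coeff_mul, h2, map_sum]
  refine Finset.sum_congr rfl fun ab hab => ?_
  rw [PowerSeries.coeff_mul]
  refine Finset.sum_congr rfl fun uv huv => ?_
  have e1 := mem_antidiagonal.1 hab
  have e2 := mem_antidiagonal.1 huv
  rw [coeff_hd, coeff_hd, coeff_trunc_lt f (by omega), coeff_trunc_lt g (by omega)]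

/-! ### Sizes -/

/-- Multiplication by `p` has norm at most `A` on bounded sequences of coefficients. -/
def Bd (p : Polynomial ℚ) (A : ℝ) : Prop := ∀ (r : Polynomial ℚ) (M : ℝ), 0 ≤ M →
  (∀ l, |((r.coeff l : ℚ) : ℝ)| ≤ M) → ∀ l, |(((p * r).coeff l : ℚ) : ℝ)| ≤ A * M

theorem Bd_one : Bd 1 1 := by
  intro r M _ h l
  rw [one_mul, one_mul]
  exact h l

theorem Bd_mul {p p' : Polynomial ℚ} {A A' : ℝ} (hA' : 0 ≤ A') (h : Bd p A) (h' : Bd p' A') :
    Bd (p * p') (A * A') := by
  intro r M hM hr l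
  rw [mul_assoc, mul_assoc]
  exact h _ _ (mul_nonneg hA' hM) (h' r M hM hr) l

theorem Bd_pow {p : Polynomial ℚ} {A : ℝ} (hA : 0 ≤ A) (h : Bd p A) (a : ℕ) :
    Bd (p ^ a) (A ^ a) := by
  induction a with
  | zero => simpa using Bd_one
  | succ a ih =>
    rw [pow_succ, pow_succ]
    exact Bd_mul hA ih h

theorem Bd_of_deg {p : Polynomial ℚ} {n : ℕ} (hp : p.natDegree ≤ n) {A : ℝ}
    (hA : ∑ i ∈ range (n + 1), |((p.coeff i : ℚ) : ℝ)| ≤ A) : Bd p A := by
  intro r M hM hr l
  have e : (p * r).coeff l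
      = ∑ i ∈ range (n + 1), p.coeff i * (Polynomial.X ^ i * r).coeff l := by
    conv_lhs => rw [Polynomial.as_sum_range_C_mul_X_pow' p (Nat.lt_succ_of_le hp)]
    rw [Finset.sum_mul, Polynomial.finsetSum_coeff]
    refine Finset.sum_congr rfl fun i _ => ?_
    rw [mul_assoc, Polynomial.coeff_C_mul]
  rw [e, Rat.cast_sum]
  calc |∑ i ∈ range (n + 1), ((p.coeff i * (Polynomial.X ^ i * r).coeff l : ℚ) : ℝ)|
      ≤ ∑ i ∈ range (n + 1), |((p.coeff i * (Polynomial.X ^ i * r).coeff l : ℚ) : ℝ)| :=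
        Finset.abs_sum_le_sum_abs _ _
    _ ≤ ∑ i ∈ range (n + 1), |((p.coeff i : ℚ) : ℝ)| * M := by
        refine Finset.sum_le_sum fun i _ => ?_
        rw [Rat.cast_mul, abs_mul]
        refine mul_le_mul_of_nonneg_left ?_ (abs_nonneg _)
        rw [Polynomial.coeff_X_pow_mul']
        split_ifs
        · exact hr _
        · simpa using hM
    _ = (∑ i ∈ range (n + 1), |((p.coeff i : ℚ) : ℝ)|) * M := by rw [Finset.sum_mul]
    _ ≤ A * M := mul_le_mul_of_nonneg_right hA hM

theorem Bd_hasse {p : Polynomial ℚ} {N : ℕ} (hp : p.natDegree ≤ N) {X : ℝ}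
    (hX : ∀ l, |((p.coeff l : ℚ) : ℝ)| ≤ X) (a : ℕ) :
    Bd (Polynomial.hasseDeriv a p) ((N + 1) * 2 ^ N * X) := by
  have hX0 : 0 ≤ X := (abs_nonneg _).trans (hX 0)
  have hd : (Polynomial.hasseDeriv a p).natDegree ≤ N :=
    (Polynomial.natDegree_hasseDeriv_le p a).trans ((Nat.sub_le _ _).trans hp)
  refine Bd_of_deg hd ?_
  calc ∑ i ∈ range (N + 1), |(((Polynomial.hasseDeriv a p).coeff i : ℚ) : ℝ)|
      ≤ ∑ _i ∈ range (N + 1), 2 ^ N * X := by
        refine Finset.sum_le_sum fun i _ => ?_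
        rw [Polynomial.hasseDeriv_coeff]
        by_cases h : i + a ≤ N
        · rw [Rat.cast_mul, abs_mul, Rat.cast_natCast, abs_of_nonneg (Nat.cast_nonneg _)]
          refine mul_le_mul ?_ (hX _) (abs_nonneg _) (by positivity)
          have h1 : (i + a).choose a ≤ 2 ^ N :=
            (Nat.choose_le_two_pow _ _).trans (Nat.pow_le_pow_right (by norm_num) h)
          exact_mod_cast h1
        · rw [Polynomial.coeff_eq_zero_of_natDegree_lt (by omega), mul_zero, Rat.cast_zero,
            abs_zero]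
          positivity
    _ = (N + 1) * 2 ^ N * X := by
        rw [Finset.sum_const, card_range, nsmul_eq_mul]
        push_cast
        ring

/-! ### Integrality -/

theorem isZ_iff {p : Polynomial ℚ} :
    (∀ l, IsZ (p.coeff l)) ↔ p ∈ Polynomial.lifts (Int.castRingHom ℚ) := by
  rw [Polynomial.lifts_iff_coeff_lifts]
  constructor
  · intro h l
    obtain ⟨a, ha⟩ := h l
    exact ⟨a, by simp [ha]⟩
  · intro h l
    obtain ⟨a, ha⟩ := h l
    exact ⟨a, by simpa using ha.symm⟩

theorem isZ_mul {x y : ℚ} (hx : IsZ x) (hy : IsZ y) : IsZ (x * y) := by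
  obtain ⟨a, rfl⟩ := hx
  obtain ⟨b, rfl⟩ := hy
  exact ⟨a * b, by push_cast; ring⟩

theorem isZ_nat (n : ℕ) : IsZ (n : ℚ) := ⟨n, by simp⟩

theorem isZ_hasse {p : Polynomial ℚ} (hp : ∀ l, IsZ (p.coeff l)) (a : ℕ) (l : ℕ) :
    IsZ ((Polynomial.hasseDeriv a p).coeff l) := by
  rw [Polynomial.hasseDeriv_coeff]
  exact isZ_mul (isZ_nat _) (hp _)

end Pool.Agent.DGP.Der

namespace Pool.Agent.DGP

open Der

theorem Der_proof : Stmt_Der := by
  intro m F T τ e₀ c₀ H hG N P X hdeg hint hX
  obtain ⟨B, q, hB, hBdeg, hBsz, hq, hBint⟩ := hG.sys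
  have hH : (0 : ℝ) ≤ H := by linarith [hG.two_le]
  have hc : (0 : ℝ) ≤ c₀ := by linarith [hG.one_le]
  have hqd : ∀ a b : ℕ, a ≤ b → q a ∣ q b := by
    intro a b hab
    induction b, hab using Nat.le_induction with
    | base => exact dvd_rfl
    | succ b _ ih => exact ih.trans (hq b).2.1
  refine ⟨fun k i => ∑ ab ∈ antidiagonal k, ∑ j,
    T ^ ab.1 * Polynomial.hasseDeriv ab.1 (P j) * B ab.2 j i, q, ?_, ?_, ?_, ?_, ?_⟩
  · intro k
    rw [hd_sum, Finset.mul_sum]
    have e1 : ∀ i, (T : PowerSeries ℚ) ^ k * hd k ((P i : PowerSeries ℚ) * F i)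
        = ∑ ab ∈ antidiagonal k, ∑ j, (T : PowerSeries ℚ) ^ ab.1 *
          (Polynomial.hasseDeriv ab.1 (P i) : PowerSeries ℚ) * (B ab.2 i j : PowerSeries ℚ) *
            F j := by
      intro i
      rw [hd_mul, Finset.mul_sum]
      refine Finset.sum_congr rfl fun ab hab => ?_
      have h := mem_antidiagonal.1 hab
      rw [← h, pow_add, hd_coe]
      calc (T : PowerSeries ℚ) ^ ab.1 * (T : PowerSeries ℚ) ^ ab.2 *
            ((Polynomial.hasseDeriv ab.1 (P i) : PowerSeries ℚ) * hd ab.2 (F i))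
          = (T : PowerSeries ℚ) ^ ab.1 * (Polynomial.hasseDeriv ab.1 (P i) : PowerSeries ℚ) *
            ((T : PowerSeries ℚ) ^ ab.2 * hd ab.2 (F i)) := by ring
        _ = _ := by
            rw [hB, Finset.mul_sum]
            refine Finset.sum_congr rfl fun j _ => ?_
            ring
    rw [Finset.sum_congr rfl fun i _ => e1 i, Finset.sum_comm]
    have e2 : ∀ i, ((∑ ab ∈ antidiagonal k, ∑ j,
        T ^ ab.1 * Polynomial.hasseDeriv ab.1 (P j) * B ab.2 j i : Polynomial ℚ) :
          PowerSeries ℚ) * F i = ∑ ab ∈ antidiagonal k, ∑ j, (T : PowerSeries ℚ) ^ ab.1 *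
          (Polynomial.hasseDeriv ab.1 (P j) : PowerSeries ℚ) * (B ab.2 j i : PowerSeries ℚ) *
            F i := by
      intro i
      rw [← Polynomial.coeToPowerSeries.ringHom_apply, map_sum, Finset.sum_mul]
      refine Finset.sum_congr rfl fun ab _ => ?_
      rw [map_sum, Finset.sum_mul]
      refine Finset.sum_congr rfl fun j _ => ?_
      rw [map_mul, map_mul, map_pow]
      simp only [Polynomial.coeToPowerSeries.ringHom_apply]
    rw [Finset.sum_congr rfl fun i _ => e2 i, Finset.sum_comm (s := univ)]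
    refine Finset.sum_congr rfl fun ab _ => ?_
    rw [Finset.sum_comm]
  · intro k i
    refine Polynomial.natDegree_sum_le_of_forall_le _ _ fun ab hab => ?_
    refine Polynomial.natDegree_sum_le_of_forall_le _ _ fun j _ => ?_
    have h := mem_antidiagonal.1 hab
    have h1 : (T ^ ab.1).natDegree ≤ ab.1 * τ :=
      Polynomial.natDegree_pow_le.trans (Nat.mul_le_mul_left _ hG.T_deg)
    have h2 : (Polynomial.hasseDeriv ab.1 (P j)).natDegree ≤ N :=
      (Polynomial.natDegree_hasseDeriv_le _ _).trans ((Nat.sub_le _ _).trans (hdeg j))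
    have h3 := hBdeg ab.2 j i
    have h4 : (T ^ ab.1 * Polynomial.hasseDeriv ab.1 (P j) * B ab.2 j i).natDegree
        ≤ (T ^ ab.1).natDegree + (Polynomial.hasseDeriv ab.1 (P j)).natDegree
          + (B ab.2 j i).natDegree :=
      Polynomial.natDegree_mul_le.trans (Nat.add_le_add_right Polynomial.natDegree_mul_le _)
    have h5 : τ * k = τ * ab.1 + τ * ab.2 := by rw [← h, mul_add]
    have h6 : ab.1 * τ = τ * ab.1 := mul_comm _ _
    omega
  · intro k
    exact ⟨(hq k).1, (hq k).2.2⟩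
  · intro k i l
    have key : Polynomial.C (q k : ℚ) * (∑ ab ∈ antidiagonal k, ∑ j,
        T ^ ab.1 * Polynomial.hasseDeriv ab.1 (P j) * B ab.2 j i)
        ∈ Polynomial.lifts (Int.castRingHom ℚ) := by
      rw [Finset.mul_sum]
      refine Subsemiring.sum_mem _ fun ab hab => ?_
      rw [Finset.mul_sum]
      refine Subsemiring.sum_mem _ fun j _ => ?_
      have h := mem_antidiagonal.1 hab
      have e : Polynomial.C (q k : ℚ) *
          (T ^ ab.1 * Polynomial.hasseDeriv ab.1 (P j) * B ab.2 j i)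
          = T ^ ab.1 * Polynomial.hasseDeriv ab.1 (P j) *
            (Polynomial.C (q k : ℚ) * B ab.2 j i) := by ring
      rw [e]
      refine Subsemiring.mul_mem _ (Subsemiring.mul_mem _ (Subsemiring.pow_mem _
        (isZ_iff.1 hG.T_int) _) (isZ_iff.1 (isZ_hasse (hint j) _))) (isZ_iff.1 fun l' => ?_)
      rw [Polynomial.coeff_C_mul]
      obtain ⟨s, hs⟩ := hqd ab.2 k (by omega)
      rw [hs]
      have e3 : ((q ab.2 * s : ℕ) : ℚ) * (B ab.2 j i).coeff l'
          = (s : ℚ) * (q ab.2 * (B ab.2 j i).coeff l') := by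
        push_cast
        ring
      rw [e3]
      exact isZ_mul (isZ_nat s) (hBint _ _ _ _)
    have := isZ_iff.2 key l
    rwa [Polynomial.coeff_C_mul] at this
  · intro k i l
    have hX0 : 0 ≤ X := (abs_nonneg _).trans (hX i 0)
    rw [Polynomial.finsetSum_coeff, Rat.cast_sum]
    calc |∑ ab ∈ antidiagonal k, ((Polynomial.coeff (∑ j,
          T ^ ab.1 * Polynomial.hasseDeriv ab.1 (P j) * B ab.2 j i) l : ℚ) : ℝ)|
        ≤ ∑ ab ∈ antidiagonal k, |((Polynomial.coeff (∑ j,
          T ^ ab.1 * Polynomial.hasseDeriv ab.1 (P j) * B ab.2 j i) l : ℚ) : ℝ)| :=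
          Finset.abs_sum_le_sum_abs _ _
      _ ≤ ∑ _ab ∈ antidiagonal k, m * ((N + 1) * 2 ^ N * X * c₀ * H ^ k) := by
          refine Finset.sum_le_sum fun ab hab => ?_
          have h := mem_antidiagonal.1 hab
          rw [Polynomial.finsetSum_coeff, Rat.cast_sum]
          calc |∑ j, ((Polynomial.coeff
                (T ^ ab.1 * Polynomial.hasseDeriv ab.1 (P j) * B ab.2 j i) l : ℚ) : ℝ)|
              ≤ ∑ j, |((Polynomial.coeff
                (T ^ ab.1 * Polynomial.hasseDeriv ab.1 (P j) * B ab.2 j i) l : ℚ) : ℝ)| :=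
                Finset.abs_sum_le_sum_abs _ _
            _ ≤ ∑ _j : Fin m, ((N + 1) * 2 ^ N * X * c₀ * H ^ k) := by
                refine Finset.sum_le_sum fun j _ => ?_
                have hT : Bd T H := Bd_of_deg hG.T_deg hG.T_size
                have hb := Bd_mul (by positivity) (Bd_pow hH hT ab.1)
                  (Bd_hasse (hdeg j) (hX j) ab.1)
                have := hb (B ab.2 j i) (c₀ * H ^ ab.2) (by positivity) (hBsz _ _ _) l
                refine this.trans (le_of_eq ?_)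
                rw [← h, pow_add]
                ring
            _ = m * ((N + 1) * 2 ^ N * X * c₀ * H ^ k) := by
                rw [Finset.sum_const, card_univ, Fintype.card_fin, nsmul_eq_mul]
      _ = m * (k + 1) * (N + 1) * 2 ^ N * X * c₀ * H ^ k := by
          rw [Finset.sum_const, Finset.Nat.card_antidiagonal, nsmul_eq_mul]
          push_cast
          ring

end Pool.Agent.DGP
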