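import Pool.Agent.DGP.Stmts

set_option autoImplicit false

/-!
DGP, module ElA: choice of a variable and a leading coefficient.
-/

open Finset

namespace Pool.Agent.DGP

namespace ElA

/-- Expansion of a polynomial with respect to one variable. -/
lemma expand {τ : Type} [DecidableEq τ] (S : MvPolynomial τ ℚ) (v : τ) (D : ℕ)
    (hD : S.totalDegree ≤ D) :
    ∃ σ : ℕ → MvPolynomial τ ℚ,
      (∀ j, (σ j).totalDegree ≤ D ∧ v ∉ (σ j).vars ∧ (σ j).vars ⊆ S.vars) ∧
      S = ∑ j ∈ range (D + 1), σ j * MvPolynomial.X v ^ j := by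
  let σ : ℕ → MvPolynomial τ ℚ := fun j =>
    ∑ m ∈ S.support.filter (fun m => m v = j), MvPolynomial.monomial (m.erase v) (S.coeff m)
  have hvars : ∀ j, ∀ i ∈ (σ j).vars, i ≠ v ∧ i ∈ S.vars := by
    intro j i hi
    have h1 := MvPolynomial.vars_sum_subset (S.support.filter (fun m => m v = j))
      (fun m => MvPolynomial.monomial (m.erase v) (S.coeff m)) hi
    obtain ⟨m, hm, him⟩ := Finset.mem_biUnion.1 h1
    obtain ⟨hm1, hm2⟩ := Finset.mem_filter.1 hm
    have hc : S.coeff m ≠ 0 := MvPolynomial.mem_support_iff.1 hm1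
    rw [MvPolynomial.vars_monomial hc, Finsupp.support_erase, Finset.mem_erase] at him
    exact ⟨him.1, (MvPolynomial.mem_vars_iff_mem_support i).2 ⟨m, hm1, him.2⟩⟩
  refine ⟨σ, fun j => ⟨?_, fun h => (hvars j v h).1 rfl, fun i hi => (hvars j i hi).2⟩, ?_⟩
  · refine (MvPolynomial.totalDegree_finsetSum_le (d := D) fun m hm => ?_)
    obtain ⟨hm1, hm2⟩ := Finset.mem_filter.1 hm
    have hc : S.coeff m ≠ 0 := MvPolynomial.mem_support_iff.1 hm1
    rw [MvPolynomial.totalDegree_monomial _ hc]
    refine le_trans ?_ ((MvPolynomial.le_totalDegree hm1).trans hD)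
    have h2 : (Finsupp.single v (m v) + m.erase v) = m := Finsupp.single_add_erase v m
    have h3 : (m.sum fun _ e => e) =
        (Finsupp.single v (m v)).sum (fun _ e => e) + (m.erase v).sum (fun _ e => e) := by
      conv_lhs => rw [← h2]
      exact Finsupp.sum_add_index' (fun _ => rfl) (fun _ _ _ => rfl)
    rw [h3]
    exact Nat.le_add_left _ _
  · have hmaps : ∀ m ∈ S.support, m v ∈ range (D + 1) := by
      intro m hm
      rw [Finset.mem_range, Nat.lt_succ_iff]
      refine le_trans ?_ ((MvPolynomial.le_totalDegree hm).trans hD)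
      by_cases h0 : m v = 0
      · rw [h0]
        exact Nat.zero_le _
      · exact Finset.single_le_sum (f := fun i => m i) (fun _ _ => Nat.zero_le _)
          (Finsupp.mem_support_iff.2 h0)
    conv_lhs => rw [MvPolynomial.as_sum S, ← Finset.sum_fiberwise_of_maps_to hmaps]
    refine Finset.sum_congr rfl fun j _ => ?_
    rw [Finset.sum_mul]
    refine Finset.sum_congr rfl fun m hm => ?_
    obtain ⟨hm1, hm2⟩ := Finset.mem_filter.1 hm
    rw [← hm2, MvPolynomial.X_pow_eq_monomial, MvPolynomial.monomial_mul, mul_one,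
      Finsupp.erase_add_single]

/-- The value of a polynomial depends only on the values of its variables. -/
lemma aeval_congr {τ : Type} (S : MvPolynomial τ ℚ) (f g : τ → ℝ)
    (h : ∀ i ∈ S.vars, f i = g i) : MvPolynomial.aeval f S = MvPolynomial.aeval g S :=
  MvPolynomial.eval₂Hom_congr' rfl (fun i hi _ => h i hi) rfl

end ElA

theorem ElA_proof : Stmt_ElA := by
  classical
  intro q a D θ x
  have main : ∀ (A : Finset (Fin a)) (S : MvPolynomial (Fin q ⊕ Fin a) ℚ), S.totalDegree ≤ D →
      (∀ i, Sum.inr i ∈ S.vars → i ∈ A) →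
      MvPolynomial.aeval (Sum.elim θ x) S = (0 : ℝ) →
      (∃ y : Fin a → ℝ, MvPolynomial.aeval (Sum.elim θ y) S ≠ 0) →
      ∃ (l : Fin a) (J : ℕ) (c : ℕ → MvPolynomial (Fin q ⊕ Fin a) ℚ), 1 ≤ J ∧ J ≤ D ∧
        (∀ j, (c j).totalDegree ≤ D ∧ Sum.inr l ∉ (c j).vars) ∧
        MvPolynomial.aeval (Sum.elim θ x) (c J) ≠ (0 : ℝ) ∧
        ∑ j ∈ range (J + 1), MvPolynomial.aeval (Sum.elim θ x) (c j) * x l ^ j = (0 : ℝ) := by
    intro A
    induction A using Finset.induction_on with
    | empty =>
      intro S _ hv h0 ⟨y, hy⟩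
      exfalso
      apply hy
      rw [← h0]
      refine ElA.aeval_congr S _ _ fun i hi => ?_
      rcases i with i | i
      · rfl
      · exact absurd (hv i hi) (Finset.notMem_empty i)
    | insert l A _ ih =>
      intro S hS hv h0 ⟨y, hy⟩
      obtain ⟨σ, hσ, hsum⟩ := ElA.expand S (Sum.inr l) D hS
      have hval : ∀ f : Fin q ⊕ Fin a → ℝ, MvPolynomial.aeval f S =
          ∑ j ∈ range (D + 1), MvPolynomial.aeval f (σ j) * f (Sum.inr l) ^ j := by
        intro f
        conv_lhs => rw [hsum]
        rw [map_sum]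
        refine Finset.sum_congr rfl fun j _ => ?_
        rw [map_mul, map_pow, MvPolynomial.aeval_X]
      by_cases hex : ∃ j, 1 ≤ j ∧ j ≤ D ∧ MvPolynomial.aeval (Sum.elim θ x) (σ j) ≠ (0 : ℝ)
      · -- the largest such index
        let P : ℕ → Prop := fun j => 1 ≤ j ∧ MvPolynomial.aeval (Sum.elim θ x) (σ j) ≠ (0 : ℝ)
        obtain ⟨j0, hj1, hjD, hj0⟩ := hex
        set J := Nat.findGreatest P D with hJ
        have hPJ : P J := Nat.findGreatest_spec (P := P) hjD ⟨hj1, hj0⟩
        have hJD : J ≤ D := Nat.findGreatest_le D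
        refine ⟨l, J, σ, hPJ.1, hJD, fun j => ⟨(hσ j).1, (hσ j).2.1⟩, hPJ.2, ?_⟩
        rw [hval] at h0
        rw [← h0]
        refine Finset.sum_subset (Finset.range_subset_range.2 (by omega)) fun j hj hj' => ?_
        have hjlt : J < j := by
          rw [Finset.mem_range] at hj'
          omega
        have hjD' : j ≤ D := Nat.lt_succ_iff.1 (Finset.mem_range.1 hj)
        have hnP : ¬ P j := Nat.findGreatest_is_greatest (P := P) (hJ ▸ hjlt) hjD'
        have hz : MvPolynomial.aeval (Sum.elim θ x) (σ j) = (0 : ℝ) := by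
          by_contra hne
          exact hnP ⟨by omega, hne⟩
        rw [hz, zero_mul]
      · push Not at hex
        -- all the coefficients vanish at `(θ, x)`
        have hall : ∀ j, j ≤ D → MvPolynomial.aeval (Sum.elim θ x) (σ j) = (0 : ℝ) := by
          intro j hj
          rcases Nat.eq_zero_or_pos j with rfl | hpos
          · rw [hval, Finset.sum_range_succ'] at h0
            have h1 : ∑ k ∈ range D, MvPolynomial.aeval (Sum.elim θ x) (σ (k + 1)) *
                (Sum.elim θ x (Sum.inr l) : ℝ) ^ (k + 1) = 0 := by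
              refine Finset.sum_eq_zero fun k hk => ?_
              rw [hex (k + 1) (by omega) (by have := Finset.mem_range.1 hk; omega), zero_mul]
            rw [h1, zero_add, pow_zero, mul_one] at h0
            exact h0
          · exact hex j hpos hj
        rw [hval] at hy
        obtain ⟨j, hj, hne⟩ := Finset.exists_ne_zero_of_sum_ne_zero hy
        have hjD : j ≤ D := Nat.lt_succ_iff.1 (Finset.mem_range.1 hj)
        refine ih (σ j) (hσ j).1 (fun i hi => ?_) (hall j hjD) ⟨y, left_ne_zero_of_mul hne⟩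
        have h1 := hv i ((hσ j).2.2 hi)
        rcases Finset.mem_insert.1 h1 with h2 | h2
        · subst h2
          exact absurd hi (hσ j).2.1
        · exact h2
  intro S hS h0 hy
  exact main Finset.univ S hS (fun i _ => Finset.mem_univ i) h0 hy

end Pool.Agent.DGP
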