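import Pool.Agent.DGP.Stmts

/-!
# DGP, module Elim: elimination of the constants by counting
-/

set_option autoImplicit false

open Finset

namespace Pool.Agent.DGP

namespace Elim

variable {τ : Type} [Fintype τ]

/-- Monomials. -/
noncomputable def mono (y : τ → ℝ) (α : τ → ℕ) : ℝ := ∏ t, y t ^ α t

theorem mono_add (y : τ → ℝ) (α β : τ → ℕ) : mono y (α + β) = mono y α * mono y β := by
  simp [mono, pow_add, prod_mul_distrib]

theorem mono_zero (y : τ → ℝ) : mono y 0 = 1 := by simp [mono]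

theorem mono_single [DecidableEq τ] (y : τ → ℝ) (t : τ) (j : ℕ) :
    mono y (Pi.single t j) = y t ^ j := by
  unfold mono
  rw [Finset.prod_eq_single t]
  · simp
  · intro b _ hb
    simp [Pi.single_apply, hb]
  · intro h
    exact absurd (mem_univ t) h

/-- The span of the monomials in a box. -/
noncomputable def Box (y : τ → ℝ) (r : τ → ℕ) : Submodule ℚ ℝ :=
  Submodule.span ℚ {z | ∃ α : τ → ℕ, α ≤ r ∧ z = mono y α}

theorem mono_mem {y : τ → ℝ} {α r : τ → ℕ} (h : α ≤ r) : mono y α ∈ Box y r :=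
  Submodule.subset_span ⟨α, h, rfl⟩

theorem Box_mono {y : τ → ℝ} {r s : τ → ℕ} (h : r ≤ s) : Box y r ≤ Box y s :=
  Submodule.span_mono (fun _ ⟨α, hα, hz⟩ => ⟨α, hα.trans h, hz⟩)

theorem mul_mem {y : τ → ℝ} {r s : τ → ℕ} {u v : ℝ} (hu : u ∈ Box y r) (hv : v ∈ Box y s) :
    u * v ∈ Box y (r + s) := by
  have h1 : u * v ∈ Box y r * Box y s := Submodule.mul_mem_mul hu hv
  have h2 : Box y r * Box y s ≤ Box y (r + s) := by
    unfold Box
    rw [Submodule.span_mul_span, Submodule.span_le]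
    rintro _ ⟨_, ⟨α, hα, rfl⟩, _, ⟨β, hβ, rfl⟩, rfl⟩
    exact Submodule.subset_span ⟨α + β, add_le_add hα hβ, (mono_add y α β).symm⟩
  exact h2 h1

theorem one_mem (y : τ → ℝ) : (1 : ℝ) ∈ Box y 0 := by
  rw [← mono_zero y]
  exact mono_mem le_rfl

theorem pow_mem {y : τ → ℝ} {r : τ → ℕ} {u : ℝ} (hu : u ∈ Box y r) (k : ℕ) :
    u ^ k ∈ Box y (k • r) := by
  induction k with
  | zero => simpa using one_mem y
  | succ k ih =>
    rw [pow_succ, succ_nsmul]
    exact mul_mem ih hu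

theorem prod_mem {ι : Type} {y : τ → ℝ} (s : Finset ι) (r : ι → τ → ℕ) (u : ι → ℝ)
    (h : ∀ i ∈ s, u i ∈ Box y (r i)) : ∏ i ∈ s, u i ∈ Box y (∑ i ∈ s, r i) := by
  classical
  induction s using Finset.induction_on with
  | empty => simpa using one_mem y
  | insert a s ha ih =>
    rw [prod_insert ha, sum_insert ha]
    exact mul_mem (h a (mem_insert_self _ _)) (ih fun i hi => h i (mem_insert_of_mem hi))

theorem Box_eq (y : τ → ℝ) (r : τ → ℕ) :
    ∃ s : Finset ℝ, s.card ≤ ∏ t, (r t + 1) ∧ Box y r = Submodule.span ℚ (s : Set ℝ) := by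
  classical
  refine ⟨(Fintype.piFinset (fun t => range (r t + 1))).image (mono y), ?_, ?_⟩
  · refine card_image_le.trans ?_
    rw [Fintype.card_piFinset]
    simp
  · unfold Box
    congr 1
    ext z
    simp only [Set.mem_setOf_eq, coe_image, Set.mem_image, mem_coe, Fintype.mem_piFinset,
      mem_range, Nat.lt_succ_iff]
    constructor
    · rintro ⟨α, hα, rfl⟩
      exact ⟨α, fun t => hα t, rfl⟩
    · rintro ⟨α, hα, rfl⟩
      exact ⟨α, fun t => hα t, rfl⟩

section one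

variable [DecidableEq τ] {y : τ → ℝ} {t₀ : τ} {δ : τ → ℕ} {J : ℕ} {cv : ℕ → ℝ}

theorem top_mem (hJ : 1 ≤ J) (hc : ∀ j, cv j ∈ Box y δ)
    (hs : ∑ j ∈ range (J + 1), cv j * y t₀ ^ j = 0) {j : ℕ} (hj : j + 1 ≤ J) :
    cv J * y t₀ ^ (j + 1) ∈ Box y (δ + Pi.single t₀ (J - 1)) := by
  have key : ∀ (i j : ℕ), j ≤ J - 1 → cv i * y t₀ ^ j ∈ Box y (δ + Pi.single t₀ (J - 1)) := by
    intro i j hj
    refine mul_mem (hc i) ?_
    rw [← mono_single]
    refine mono_mem ?_
    intro t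
    by_cases ht : t = t₀
    · subst ht
      simpa using hj
    · simp [Pi.single_apply, ht]
  rcases Nat.lt_or_ge (j + 1) J with h | h
  · exact key J (j + 1) (by omega)
  · have hjJ : j + 1 = J := le_antisymm hj h
    rw [hjJ]
    rw [sum_range_succ] at hs
    have : cv J * y t₀ ^ J = -∑ j ∈ range J, cv j * y t₀ ^ j := by linarith
    rw [this]
    refine Submodule.neg_mem _ (Submodule.sum_mem _ fun i hi => key i i ?_)
    have := mem_range.mp hi
    omega

theorem step_mem (hJ : 1 ≤ J) (hδ : δ t₀ = 0) (hc : ∀ j, cv j ∈ Box y δ)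
    (hs : ∑ j ∈ range (J + 1), cv j * y t₀ ^ j = 0) (k : ℕ) {z : ℝ}
    (hz : z ∈ Box y (k • δ + Pi.single t₀ (J - 1))) :
    cv J * y t₀ * z ∈ Box y ((k + 1) • δ + Pi.single t₀ (J - 1)) := by
  unfold Box at hz
  induction hz using Submodule.span_induction with
  | mem z hz =>
    obtain ⟨α, hα, rfl⟩ := hz
    set α' : τ → ℕ := Function.update α t₀ 0 with hα'
    have e1 : α = α' + Pi.single t₀ (α t₀) := by
      funext t
      by_cases ht : t = t₀
      · subst ht
        simp [hα']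
      · simp [hα', Pi.single_apply, ht]
    have hj : α t₀ ≤ J - 1 := by
      have := hα t₀
      simpa [hδ] using this
    have hα2 : α' ≤ k • δ := by
      intro t
      by_cases ht : t = t₀
      · subst ht
        simp [hα']
      · have := hα t
        simpa [hα', Pi.single_apply, ht] using this
    have e2 : cv J * y t₀ * mono y α = mono y α' * (cv J * y t₀ ^ (α t₀ + 1)) := by
      conv_lhs => rw [e1]
      rw [mono_add, mono_single, pow_succ]
      ring
    have e3 : (k + 1) • δ + Pi.single t₀ (J - 1) = k • δ + (δ + Pi.single t₀ (J - 1)) := by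
      rw [succ_nsmul, add_assoc]
    rw [e2, e3]
    exact mul_mem (mono_mem hα2) (top_mem hJ hc hs (by omega))
  | zero => simp
  | add a b _ _ ha hb =>
    rw [mul_add]
    exact Submodule.add_mem _ ha hb
  | smul q a _ ha =>
    rw [mul_smul_comm]
    exact Submodule.smul_mem _ q ha

theorem pows_mem (hJ : 1 ≤ J) (hδ : δ t₀ = 0) (hc : ∀ j, cv j ∈ Box y δ)
    (hs : ∑ j ∈ range (J + 1), cv j * y t₀ ^ j = 0) (k : ℕ) :
    (cv J * y t₀) ^ k ∈ Box y (k • δ + Pi.single t₀ (J - 1)) := by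
  induction k with
  | zero =>
    rw [pow_zero]
    refine Box_mono ?_ (one_mem y)
    intro t
    simp
  | succ k ih =>
    rw [pow_succ']
    exact step_mem hJ hδ hc hs k ih

theorem final_mem (hJ : 1 ≤ J) (hδ : δ t₀ = 0) (hc : ∀ j, cv j ∈ Box y δ)
    (hs : ∑ j ∈ range (J + 1), cv j * y t₀ ^ j = 0) {e k : ℕ} (hk : k ≤ e) :
    cv J ^ e * y t₀ ^ k ∈ Box y (e • δ + Pi.single t₀ (J - 1)) := by
  have e1 : cv J ^ e * y t₀ ^ k = cv J ^ (e - k) * (cv J * y t₀) ^ k := by
    rw [mul_pow, ← mul_assoc, ← pow_add, Nat.sub_add_cancel hk]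
  have e2 : e • δ + Pi.single t₀ (J - 1) = (e - k) • δ + (k • δ + Pi.single t₀ (J - 1)) := by
    rw [← add_assoc, ← add_nsmul, Nat.sub_add_cancel hk]
  rw [e1, e2]
  exact mul_mem (pow_mem (hc J) _) (pows_mem hJ hδ hc hs k)

end one

/-- The box of the coefficients of the `i`-th relation. -/
def del {q a : ℕ} (D : ℕ) (l : Fin (q + 1) → Fin a) (i : Fin (q + 1)) :
    Fin q ⊕ (Fin (q + 1) × Fin a) → ℕ
  | Sum.inl _ => D
  | Sum.inr p => if p.1 = i ∧ p.2 ≠ l i then D else 0

/-- The values of the coefficients. -/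
theorem val_mem {q a : ℕ} (D : ℕ) (θ : Fin q → ℝ) (x : Fin (q + 1) → Fin a → ℝ)
    (l : Fin (q + 1) → Fin a) (i : Fin (q + 1)) (c : MvPolynomial (Fin q ⊕ Fin a) ℚ)
    (hD : c.totalDegree ≤ D) (hl : Sum.inr (l i) ∉ c.vars) :
    MvPolynomial.aeval (Sum.elim θ (x i)) c ∈
      Box (Sum.elim θ (fun p : Fin (q + 1) × Fin a => x p.1 p.2)) (del D l i) := by
  classical
  rw [MvPolynomial.aeval_def, MvPolynomial.eval₂_eq']
  refine Submodule.sum_mem _ fun s hs => ?_
  have e1 : ∀ (u : ℚ) (v : ℝ), algebraMap ℚ ℝ u * v = u • v := fun u v => by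
    rw [Algebra.smul_def]
  rw [e1]
  refine Submodule.smul_mem _ _ ?_
  let α : Fin q ⊕ (Fin (q + 1) × Fin a) → ℕ := fun t => match t with
    | Sum.inl k => s (Sum.inl k)
    | Sum.inr p => if p.1 = i then s (Sum.inr p.2) else 0
  have e2 : ∏ t, Sum.elim θ (x i) t ^ s t =
      mono (Sum.elim θ (fun p : Fin (q + 1) × Fin a => x p.1 p.2)) α := by
    unfold mono
    rw [Fintype.prod_sum_type, Fintype.prod_sum_type, Fintype.prod_prod_type]
    congr 1
    rw [Finset.prod_eq_single i]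
    · refine prod_congr rfl fun b _ => ?_
      simp [α]
    · intro i' _ hi'
      refine prod_eq_one fun b _ => ?_
      simp [α, hi']
    · intro h
      exact absurd (mem_univ i) h
  rw [e2]
  refine mono_mem ?_
  have hsD : ∀ t, s t ≤ D := by
    intro t
    refine le_trans ?_ hD
    have h1 : (s.sum fun _ e => e) ≤ c.totalDegree := MvPolynomial.le_totalDegree hs
    refine le_trans ?_ h1
    by_cases ht : s t = 0
    · rw [ht]
      exact Nat.zero_le _
    · exact Finset.single_le_sum (f := fun t => s t) (fun _ _ => Nat.zero_le _)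
        (Finsupp.mem_support_iff.mpr ht)
  intro t
  rcases t with k | p
  · exact hsD _
  · show (if p.1 = i then s (Sum.inr p.2) else 0) ≤ if p.1 = i ∧ p.2 ≠ l i then D else 0
    by_cases h1 : p.1 = i
    · by_cases h2 : p.2 = l i
      · have : s (Sum.inr (l i)) = 0 := by
          by_contra h3
          exact hl (MvPolynomial.mem_vars _ |>.mpr ⟨s, hs, Finsupp.mem_support_iff.mpr h3⟩)
        simp [h1, h2, this]
      · simp [h1, h2, hsD]
    · simp [h1]

section box

variable {q a : ℕ} {D e : ℕ} {x : Fin (q + 1) → Fin a → ℝ} {l : Fin (q + 1) → Fin a}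
  {J : Fin (q + 1) → ℕ} {cJ : Fin (q + 1) → ℝ}
  {y : Fin q ⊕ (Fin (q + 1) × Fin a) → ℝ}

/-- The final box. -/
def rho (D e : ℕ) (l : Fin (q + 1) → Fin a) (J : Fin (q + 1) → ℕ) :
    Fin q ⊕ (Fin (q + 1) × Fin a) → ℕ
  | Sum.inl _ => (q + 1) * (e * D)
  | Sum.inr p => if p.2 = l p.1 then J p.1 - 1 else e * D + e

/-- The exponents of the other variables. -/
def bet (l : Fin (q + 1) → Fin a) (ν : Fin (q + 1) × Fin a → ℕ) :
    Fin q ⊕ (Fin (q + 1) × Fin a) → ℕ
  | Sum.inl _ => 0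
  | Sum.inr p => if p.2 = l p.1 then 0 else ν p

theorem prod_eq (hy : ∀ p, y (Sum.inr p) = x p.1 p.2) (ν : Fin (q + 1) × Fin a → ℕ) :
    (∏ i, cJ i ^ e) * ∏ p, x p.1 p.2 ^ ν p =
      (∏ i, (cJ i ^ e * x i (l i) ^ ν (i, l i))) * mono y (bet l ν) := by
  rw [prod_mul_distrib, mul_assoc]
  congr 1
  unfold mono
  rw [Fintype.prod_sum_type, Fintype.prod_prod_type, Fintype.prod_prod_type]
  have e2 : ∏ k : Fin q, y (Sum.inl k) ^ bet l ν (Sum.inl k) = 1 := by simp [bet]
  rw [e2, one_mul, ← prod_mul_distrib]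
  refine prod_congr rfl fun i _ => ?_
  rw [← Finset.mul_prod_erase univ (fun b => x i b ^ ν (i, b)) (mem_univ (l i)),
    ← Finset.mul_prod_erase univ (fun b => y (Sum.inr (i, b)) ^ bet l ν (Sum.inr (i, b)))
      (mem_univ (l i))]
  have e3 : y (Sum.inr (i, l i)) ^ bet l ν (Sum.inr (i, l i)) = 1 := by simp [bet]
  rw [e3, one_mul]
  congr 1
  refine prod_congr rfl fun b hb => ?_
  have hb' : b ≠ l i := (mem_erase.mp hb).1
  simp [bet, hb', hy]

theorem in_box (hy : ∀ p, y (Sum.inr p) = x p.1 p.2)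
    (hm : ∀ (i : Fin (q + 1)) (k : ℕ), k ≤ e → cJ i ^ e * x i (l i) ^ k ∈
      Box y (e • del D l i + Pi.single (Sum.inr (i, l i)) (J i - 1)))
    (ν : Fin (q + 1) × Fin a → ℕ) (hν : ∀ p, ν p ≤ e) :
    (∏ i, cJ i ^ e) * ∏ p, x p.1 p.2 ^ ν p ∈ Box y (rho D e l J) := by
  rw [prod_eq hy ν]
  have h1 : ∏ i, (cJ i ^ e * x i (l i) ^ ν (i, l i)) ∈
      Box y (∑ i, (e • del D l i + Pi.single (Sum.inr (i, l i)) (J i - 1))) :=
    prod_mem univ _ _ (fun i _ => hm i _ (hν _))
  have h2 := mul_mem h1 (mono_mem (y := y) (le_refl (bet l ν)))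
  refine Box_mono ?_ h2
  intro t
  rw [Pi.add_apply, Finset.sum_apply]
  rcases t with k | p
  · show _ ≤ (q + 1) * (e * D)
    simp [del, bet, Pi.single_apply]
  · rw [Finset.sum_eq_single p.1]
    · show _ ≤ if p.2 = l p.1 then J p.1 - 1 else e * D + e
      by_cases h1 : p.2 = l p.1
      · have hp : p = (p.1, l p.1) := Prod.ext rfl h1
        have h3 : (Pi.single (Sum.inr (p.1, l p.1)) (J p.1 - 1) :
            Fin q ⊕ (Fin (q + 1) × Fin a) → ℕ) (Sum.inr p) = J p.1 - 1 := by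
          rw [← hp]
          simp
        simp [del, bet, h1, h3]
      · have h3 : (Pi.single (Sum.inr (p.1, l p.1)) (J p.1 - 1) :
            Fin q ⊕ (Fin (q + 1) × Fin a) → ℕ) (Sum.inr p) = 0 := by
          rw [Pi.single_apply, if_neg]
          intro h4
          apply h1
          have := Sum.inr.inj h4
          exact congrArg Prod.snd this
        simp [del, bet, h1, h3, hν p]
    · intro i _ hi
      have h3 : (Pi.single (Sum.inr (i, l i)) (J i - 1) :
          Fin q ⊕ (Fin (q + 1) × Fin a) → ℕ) (Sum.inr p) = 0 := by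
        rw [Pi.single_apply, if_neg]
        intro h4
        apply hi
        have := Sum.inr.inj h4
        exact (congrArg Prod.fst this).symm
      simp [del, h3, Ne.symm hi]
    · intro h
      exact absurd (mem_univ _) h

end box

theorem count {q a D B e : ℕ} {l : Fin (q + 1) → Fin a} {J : Fin (q + 1) → ℕ} (ha : 1 ≤ a)
    (hB : B = (q + 1) * (D + 1)) (hJ1 : ∀ i, 1 ≤ J i) (hJD : ∀ i, J i ≤ D)
    (he : e = B ^ (q + (q + 1) * a)) :
    ∏ t, (rho D e l J t + 1) < (e + 1) ^ ((q + 1) * a) := by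
  have hB1 : 1 ≤ B := by
    rw [hB]
    exact Nat.mul_pos (Nat.succ_pos _) (Nat.succ_pos _)
  have h1 : ∏ t, (rho D e l J t + 1) ≤
      (B * (e + 1)) ^ q * (B ^ a * (e + 1) ^ (a - 1)) ^ (q + 1) := by
    rw [Fintype.prod_sum_type, Fintype.prod_prod_type]
    refine Nat.mul_le_mul ?_ ?_
    · refine (Finset.prod_le_pow_card _ _ (B * (e + 1)) ?_).trans (by simp)
      intro k _
      show (q + 1) * (e * D) + 1 ≤ B * (e + 1)
      have e1 : B * (e + 1) = (q + 1) * (e * D) + (q + 1) * (D + e + 1) := by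
        rw [hB]
        ring
      have e2 : 0 < (q + 1) * (D + e + 1) := Nat.mul_pos (Nat.succ_pos _) (Nat.succ_pos _)
      omega
    · refine (Finset.prod_le_pow_card _ _ (B ^ a * (e + 1) ^ (a - 1)) ?_).trans (by simp)
      intro i _
      have h2 : ∀ b : Fin a, rho D e l J (Sum.inr (i, b)) + 1 ≤
          B * (if b = l i then 1 else (e + 1)) := by
        intro b
        show (if b = l i then J i - 1 else e * D + e) + 1 ≤ _
        by_cases hb : b = l i
        · rw [if_pos hb, if_pos hb, hB]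
          have h3 := hJ1 i
          have h4 := hJD i
          have e1 : (q + 1) * (D + 1) * 1 = q * (D + 1) + D + 1 := by ring
          omega
        · rw [if_neg hb, if_neg hb, hB]
          have e1 : (q + 1) * (D + 1) * (e + 1) =
              (e * D + e) + 1 + (D + q * (D + 1) * (e + 1)) := by ring
          omega
      refine (Finset.prod_le_prod' (fun b _ => h2 b)).trans ?_
      rw [prod_mul_distrib]
      refine Nat.mul_le_mul (by simp) ?_
      rw [← Finset.mul_prod_erase univ _ (mem_univ (l i)), if_pos rfl, one_mul]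
      have h3 : ∏ b ∈ univ.erase (l i), (if b = l i then 1 else (e + 1)) =
          ∏ b ∈ univ.erase (l i), (e + 1) := by
        refine prod_congr rfl fun b hb => ?_
        rw [if_neg (mem_erase.mp hb).1]
      rw [h3, prod_const, card_erase_of_mem (mem_univ _), card_univ, Fintype.card_fin]
  refine lt_of_le_of_lt h1 ?_
  have h2 : (B * (e + 1)) ^ q * (B ^ a * (e + 1) ^ (a - 1)) ^ (q + 1) =
      B ^ (q + (q + 1) * a) * (e + 1) ^ (q + (a - 1) * (q + 1)) := by
    rw [mul_pow, mul_pow, ← pow_mul, ← pow_mul, pow_add (e + 1), pow_add B,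
      mul_comm a (q + 1)]
    ring
  have h3 : (q + 1) * a = q + (a - 1) * (q + 1) + 1 := by
    obtain ⟨a', rfl⟩ : ∃ a', a = a' + 1 := ⟨a - 1, by omega⟩
    rw [Nat.add_sub_cancel]
    ring
  rw [h2, ← he]
  have h4 : (e + 1) ^ ((q + 1) * a) = (e + 1) * (e + 1) ^ (q + (a - 1) * (q + 1)) := by
    rw [h3, pow_succ, mul_comm]
  rw [h4]
  exact Nat.mul_lt_mul_of_pos_right (Nat.lt_succ_self e) (Nat.pow_pos (Nat.succ_pos e))

/-- The polynomial. -/
theorem poly {κ : Type} [Fintype κ] {e : ℕ} (x : κ → ℝ) (Λ : ℝ) (hΛ : Λ ≠ 0)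
    (h : ¬ LinearIndependent ℚ (fun ν : κ → Fin (e + 1) => Λ * ∏ p, x p ^ (ν p : ℕ))) :
    ∃ Q : MvPolynomial κ ℚ, Q ≠ 0 ∧ Q.totalDegree ≤ Fintype.card κ * e ∧
      MvPolynomial.aeval x Q = (0 : ℝ) := by
  classical
  rw [Fintype.not_linearIndependent_iff] at h
  obtain ⟨g, hg0, ν0, hν0⟩ := h
  let mn : (κ → Fin (e + 1)) → (κ →₀ ℕ) :=
    fun ν => Finsupp.equivFunOnFinite.symm (fun p => (ν p : ℕ))
  have hmn : Function.Injective mn := by
    intro ν ν' h
    funext p
    have := DFunLike.congr_fun h p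
    exact Fin.ext this
  refine ⟨∑ ν, MvPolynomial.monomial (mn ν) (g ν), ?_, ?_, ?_⟩
  · intro h0
    apply hν0
    have h1 := congrArg (MvPolynomial.coeff (mn ν0)) h0
    rw [MvPolynomial.coeff_sum, MvPolynomial.coeff_zero, Finset.sum_eq_single ν0] at h1
    · simpa using h1
    · intro ν _ hν
      rw [MvPolynomial.coeff_monomial, if_neg]
      intro h2
      exact hν (hmn h2)
    · intro h
      exact absurd (mem_univ _) h
  · refine MvPolynomial.totalDegree_finsetSum_le fun ν _ => ?_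
    refine (MvPolynomial.totalDegree_monomial_le _ _).trans ?_
    rw [Finsupp.sum_fintype _ _ (fun _ => rfl)]
    have h1 : ∀ p ∈ (univ : Finset κ), (mn ν) p ≤ e := fun p _ =>
      Nat.lt_succ_iff.mp (ν p).2
    refine (Finset.sum_le_card_nsmul _ _ e h1).trans ?_
    simp
  · rw [map_sum]
    have h1 : ∀ ν, MvPolynomial.aeval x
        (MvPolynomial.monomial (mn ν) (g ν)) = (g ν : ℝ) * ∏ p, x p ^ (ν p : ℕ) := by
      intro ν
      rw [MvPolynomial.aeval_monomial, Finsupp.prod_fintype _ _ (fun _ => pow_zero _)]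
      simp [mn]
    rw [Finset.sum_congr rfl fun ν _ => h1 ν]
    have h2 : Λ * ∑ ν, (g ν : ℝ) * ∏ p, x p ^ (ν p : ℕ) = 0 := by
      rw [Finset.mul_sum]
      rw [← hg0]
      refine sum_congr rfl fun ν _ => ?_
      rw [Rat.smul_def]
      ring
    exact (mul_eq_zero.mp h2).resolve_left hΛ

end Elim

open Elim in
theorem Elim_proof (hElA : Stmt_ElA) : Stmt_Elim := by
  classical
  intro q a D
  refine ⟨(q + 1) * a * (((q + 1) * (D + 1)) ^ (q + (q + 1) * a)), ?_⟩
  obtain ⟨B, hB⟩ : ∃ B, B = (q + 1) * (D + 1) := ⟨_, rfl⟩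
  rw [← hB]
  obtain ⟨e, he⟩ : ∃ e, e = B ^ (q + (q + 1) * a) := ⟨_, rfl⟩
  rw [← he]
  intro θ x S hSD hS0 hSn
  have hex := fun i => hElA q a D θ (x i) (S i) (hSD i) (hS0 i) (hSn i)
  choose l J c hJ1 hJD hcv hcJ hsum using hex
  have ha : 1 ≤ a := by
    have := (l 0).2
    omega
  have hmem := fun i j => val_mem D θ x l i (c i j) (hcv i j).1 (hcv i j).2
  have hδ : ∀ i, del D l i (Sum.inr (i, l i)) = 0 := fun i => by simp [del]
  have hm := fun (i : Fin (q + 1)) (k : ℕ) (hk : k ≤ e) =>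
    final_mem (y := Sum.elim θ (fun p : Fin (q + 1) × Fin a => x p.1 p.2))
      (t₀ := Sum.inr (i, l i)) (hJ1 i) (hδ i) (hmem i) (hsum i) hk
  have hin := in_box (fun _ => rfl) hm
  have hcount := count (l := l) ha hB hJ1 hJD he
  have hΛ0 : ∏ i, MvPolynomial.aeval (Sum.elim θ (x i)) (c i (J i)) ^ e ≠ 0 :=
    prod_ne_zero_iff.mpr fun i _ => pow_ne_zero _ (hcJ i)
  have hnot : ¬ LinearIndependent ℚ (fun ν : Fin (q + 1) × Fin a → Fin (e + 1) =>
      (∏ i, MvPolynomial.aeval (Sum.elim θ (x i)) (c i (J i)) ^ e) *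
        ∏ p, (fun p : Fin (q + 1) × Fin a => x p.1 p.2) p ^ (ν p : ℕ)) := by
    intro hli
    obtain ⟨s, hs1, hs2⟩ := Box_eq (Sum.elim θ (fun p : Fin (q + 1) × Fin a => x p.1 p.2))
      (rho D e l J)
    have h1 := linearIndependent_le_span_aux' _ hli (s : Set ℝ) (by
      rintro _ ⟨ν, rfl⟩
      have := hin (fun p => (ν p : ℕ)) (fun p => Nat.lt_succ_iff.mp (ν p).2)
      rw [hs2] at this
      exact this)
    rw [Fintype.card_fun, Fintype.card_prod, Fintype.card_fin,
      Fintype.card_fin, Fintype.card_fin] at h1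
    have h3 : (e + 1) ^ ((q + 1) * a) ≤ s.card := by
      refine h1.trans (le_of_eq ?_)
      exact Fintype.card_coe s
    exact absurd (h3.trans hs1) (not_le.mpr hcount)
  obtain ⟨Q, hQ0, hQd, hQv⟩ := poly _ _ hΛ0 hnot
  refine ⟨Q, hQ0, ?_, hQv⟩
  rwa [Fintype.card_prod, Fintype.card_fin, Fintype.card_fin] at hQd

end Pool.Agent.DGP
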