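import Pool.Agent.DGP.Stmts
import Pool.Agent.Lib70.PiTranscendental

set_option autoImplicit false

/-!
Transfer of a relation between periods to a relation between the constants and the values of
the solutions with rational Taylor coefficients.
-/

open Finset MvPolynomial

namespace Pool.Agent.DGP

namespace Exc

/-- The homogenised value of `P`. -/
noncomputable def hom {g : ℕ} {R : Type} [CommRing R] [Algebra ℚ R] (D : ℕ)
    (P : MvPolynomial (Option (Fin g × Fin 4)) ℚ) (lam : R) (n : Fin g → Fin 4 → R)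
    (u : Fin g → R) : R :=
  ∑ s ∈ P.support, algebraMap ℚ R (P.coeff s) * (lam ^ (s none) *
    ∏ i, ((∏ j, n i j ^ s (some (i, j))) * u i ^ (D - ∑ j, s (some (i, j)))))

theorem hom_map {g : ℕ} {R R' : Type} [CommRing R] [Algebra ℚ R] [CommRing R'] [Algebra ℚ R']
    (D : ℕ) (P : MvPolynomial (Option (Fin g × Fin 4)) ℚ) (lam : R) (n : Fin g → Fin 4 → R)
    (u : Fin g → R) (φ : R →ₐ[ℚ] R') :
    φ (hom D P lam n u) = hom D P (φ lam) (fun i j => φ (n i j)) (fun i => φ (u i)) := by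
  simp only [hom, map_sum, map_mul, map_prod, map_pow, AlgHom.commutes]

theorem sum_le {g : ℕ} {D : ℕ} {P : MvPolynomial (Option (Fin g × Fin 4)) ℚ}
    (hP : P.totalDegree ≤ D) {s : Option (Fin g × Fin 4) →₀ ℕ} (hs : s ∈ P.support) :
    s none + ∑ i, ∑ j, s (some (i, j)) ≤ D := by
  have h := (MvPolynomial.le_totalDegree hs).trans hP
  rw [Finsupp.sum_fintype _ _ (fun _ => rfl), Fintype.sum_option, Fintype.sum_prod_type] at h
  exact h

theorem sum_le' {g : ℕ} {D : ℕ} {P : MvPolynomial (Option (Fin g × Fin 4)) ℚ}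
    (hP : P.totalDegree ≤ D) {s : Option (Fin g × Fin 4) →₀ ℕ} (hs : s ∈ P.support) (i : Fin g) :
    ∑ j, s (some (i, j)) ≤ D := by
  have h := sum_le hP hs
  have h2 : ∑ j, s (some (i, j)) ≤ ∑ i, ∑ j, s (some (i, j)) :=
    Finset.single_le_sum (f := fun i => ∑ j, s (some (i, j))) (fun _ _ => Nat.zero_le _)
      (Finset.mem_univ i)
  omega

theorem hom_eq {g : ℕ} {K : Type} [Field K] [Algebra ℚ K] (D : ℕ)
    (P : MvPolynomial (Option (Fin g × Fin 4)) ℚ) (hP : P.totalDegree ≤ D) (lam : K)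
    (n : Fin g → Fin 4 → K) (u : Fin g → K) (hu : ∀ i, u i ≠ 0) :
    hom D P lam n u = (∏ i, u i ^ D) * aeval (tpt lam (fun i j => n i j / u i)) P := by
  rw [aeval_def, eval₂_eq', Finset.mul_sum, hom]
  refine Finset.sum_congr rfl fun s hs => ?_
  rw [Fintype.prod_option, Fintype.prod_prod_type]
  simp only [tpt]
  have key : ∏ i, ((∏ j, n i j ^ s (some (i, j))) * u i ^ (D - ∑ j, s (some (i, j))))
      = (∏ i, u i ^ D) * ∏ i, ∏ j, (n i j / u i) ^ s (some (i, j)) := by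
    rw [← Finset.prod_mul_distrib]
    refine Finset.prod_congr rfl fun i _ => ?_
    have h1 := sum_le' hP hs i
    simp only [div_pow]
    rw [Finset.prod_div_distrib, Finset.prod_pow_eq_pow_sum]
    have h2 : u i ^ (∑ j, s (some (i, j))) ≠ 0 := pow_ne_zero _ (hu i)
    rw [mul_div_assoc', eq_div_iff h2, mul_assoc, ← pow_add, Nat.sub_add_cancel h1, mul_comm]
  rw [key]
  ring

/-- The numerators. -/
noncomputable def num {R : Type} [CommRing R] [Algebra ℚ R] (t c ρ : ℚ) (θ : Fin 4 → R)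
    (x y z : R) : Fin 4 → R :=
  ![x * (x * θ 0 + y * θ 2), x * (x * θ 1 + y * θ 3),
    algebraMap ℚ R t * (x * (x * θ 0 + y * θ 2)) +
      algebraMap ℚ R c * (x * z * θ 0 + (algebraMap ℚ R ρ + z * y) * θ 2),
    algebraMap ℚ R t * (x * (x * θ 1 + y * θ 3)) +
      algebraMap ℚ R c * (x * z * θ 1 + (algebraMap ℚ R ρ + z * y) * θ 3)]

theorem num_map {R R' : Type} [CommRing R] [Algebra ℚ R] [CommRing R'] [Algebra ℚ R']
    (t c ρ : ℚ) (θ : Fin 4 → R) (x y z : R) (φ : R →ₐ[ℚ] R') (j : Fin 4) :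
    φ (num t c ρ θ x y z j) = num t c ρ (fun k => φ (θ k)) (φ x) (φ y) (φ z) j := by
  fin_cases j <;> simp [num, map_add, map_mul, AlgHom.commutes]

/-! ### Degrees -/

theorem deg_add {σ : Type} {p q : MvPolynomial σ ℚ} {d : ℕ} (hp : p.totalDegree ≤ d)
    (hq : q.totalDegree ≤ d) : (p + q).totalDegree ≤ d :=
  (totalDegree_add _ _).trans (max_le hp hq)

theorem deg_sub {σ : Type} {p q : MvPolynomial σ ℚ} {d : ℕ} (hp : p.totalDegree ≤ d)
    (hq : q.totalDegree ≤ d) : (p - q).totalDegree ≤ d :=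
  (totalDegree_sub _ _).trans (max_le hp hq)

theorem deg_mul {σ : Type} {p q : MvPolynomial σ ℚ} {a b : ℕ} (hp : p.totalDegree ≤ a)
    (hq : q.totalDegree ≤ b) : (p * q).totalDegree ≤ a + b :=
  (totalDegree_mul _ _).trans (add_le_add hp hq)

theorem deg_X {σ : Type} (i : σ) : (X i : MvPolynomial σ ℚ).totalDegree ≤ 1 :=
  (totalDegree_X i).le

theorem deg_c {σ : Type} (c : ℚ) : (algebraMap ℚ (MvPolynomial σ ℚ) c).totalDegree ≤ 0 := by
  rw [MvPolynomial.algebraMap_eq]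
  exact (totalDegree_C c).le

theorem deg_num {σ : Type} (t c ρ : ℚ) (a : Fin 4 → σ) (x y z : σ) (j : Fin 4) :
    (num t c ρ (fun k => (X (a k) : MvPolynomial σ ℚ)) (X x) (X y) (X z) j).totalDegree ≤ 3 := by
  have h1 : ∀ k l, ((X x * (X x * X (a k) + X y * X (a l))) : MvPolynomial σ ℚ).totalDegree ≤ 3 :=
    fun k l => (deg_mul (deg_X _) (deg_add (deg_mul (deg_X _) (deg_X _))
      (deg_mul (deg_X _) (deg_X _))) : _ ≤ 1 + (1 + 1))
  have h2 : ∀ k l, ((X x * X z * X (a k) + (algebraMap ℚ _ ρ + X z * X y) * X (a l)) :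
      MvPolynomial σ ℚ).totalDegree ≤ 3 := fun k l =>
    deg_add (deg_mul (deg_mul (deg_X _) (deg_X _)) (deg_X _) : _ ≤ 1 + 1 + 1)
      (deg_mul (deg_add ((deg_c _).trans (Nat.zero_le _)) (deg_mul (deg_X _) (deg_X _)))
        (deg_X _) : _ ≤ (1 + 1) + 1)
  have h3 : ∀ (c : ℚ) (p : MvPolynomial σ ℚ), p.totalDegree ≤ 3 →
      (algebraMap ℚ _ c * p).totalDegree ≤ 3 := fun c p hp => by
    have := deg_mul (deg_c (σ := σ) c) hp
    simpa using this
  fin_cases j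
  · exact h1 0 2
  · exact h1 1 3
  · exact deg_add (h3 _ _ (h1 0 2)) (h3 _ _ (h2 0 2))
  · exact deg_add (h3 _ _ (h1 1 3)) (h3 _ _ (h2 1 3))

theorem deg_pow {σ : Type} {p : MvPolynomial σ ℚ} {a : ℕ} (hp : p.totalDegree ≤ a) (n : ℕ) :
    (p ^ n).totalDegree ≤ n * a :=
  (totalDegree_pow _ _).trans (Nat.mul_le_mul_left _ hp)

theorem deg_prod {σ ι : Type} (s : Finset ι) (f : ι → MvPolynomial σ ℚ) (d : ι → ℕ)
    (h : ∀ i ∈ s, (f i).totalDegree ≤ d i) : (∏ i ∈ s, f i).totalDegree ≤ ∑ i ∈ s, d i :=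
  (totalDegree_finsetProd s f).trans (Finset.sum_le_sum h)

theorem deg_hom {g : ℕ} {σ : Type} (D : ℕ)
    (P : MvPolynomial (Option (Fin g × Fin 4)) ℚ) (hP : P.totalDegree ≤ D)
    (lam : MvPolynomial σ ℚ) (n : Fin g → Fin 4 → MvPolynomial σ ℚ)
    (u : Fin g → MvPolynomial σ ℚ) (hl : lam.totalDegree ≤ 3)
    (hn : ∀ i j, (n i j).totalDegree ≤ 3) (hu : ∀ i, (u i).totalDegree ≤ 1) :
    (hom D P lam n u).totalDegree ≤ (g + 3) * D := by
  refine totalDegree_finsetSum_le fun s hs => ?_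
  have h0 := sum_le hP hs
  have h1 : (∏ i, ((∏ j, n i j ^ s (some (i, j))) * u i ^ (D - ∑ j, s (some (i, j))))).totalDegree
      ≤ ∑ i, (3 * ∑ j, s (some (i, j)) + D) := by
    refine deg_prod _ _ _ fun i _ => deg_mul ?_ ?_
    · refine (deg_prod _ _ (fun j => s (some (i, j)) * 3) fun j _ => deg_pow (hn i j) _).trans ?_
      rw [Finset.mul_sum]
      exact Finset.sum_le_sum fun j _ => by rw [mul_comm]
    · exact (deg_pow (hu i) _).trans (by omega)
  have h2 : ∑ i : Fin g, (3 * ∑ j, s (some (i, j)) + D)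
      = 3 * ∑ i, ∑ j, s (some (i, j)) + g * D := by
    rw [Finset.sum_add_distrib, ← Finset.mul_sum]
    simp
  rw [h2] at h1
  have h3 := deg_mul (deg_c (σ := σ) (P.coeff s)) (deg_mul (deg_pow hl (s none)) h1)
  refine h3.trans ?_
  have : (g + 3) * D = g * D + 3 * D := by ring
  omega

/-! ### A real point of the torsor -/

theorem exists_ne_zero {g : ℕ} (P : MvPolynomial (Option (Fin g × Fin 4)) ℚ) (lam : ℂ)
    (N : Fin g → Fin 4 → ℂ) (hN : OnT lam N) (hP : aeval (tpt lam N) P ≠ 0) :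
    ∃ N' : Fin g → Fin 4 → ℂ, OnT lam N' ∧ (∀ i, N' i 0 ≠ 0) ∧ aeval (tpt lam N') P ≠ 0 := by
  let Ns : ℂ → Fin g → Fin 4 → ℂ := fun s i =>
    ![N i 0 + s * N i 1, N i 1, N i 2 + s * N i 3, N i 3]
  have hc : Continuous (fun s : ℂ => aeval (tpt lam (Ns s)) P) := by
    have h1 : ∀ s, aeval (tpt lam (Ns s)) P
        = eval (tpt lam (Ns s)) (map (algebraMap ℚ ℂ) P) := fun s => by
      rw [eval_map, aeval_def]
    simp_rw [h1]
    refine (MvPolynomial.continuous_eval _).comp (continuous_pi fun o => ?_)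
    rcases o with _ | ⟨i, j⟩
    · exact continuous_const
    · fin_cases j <;> simp [tpt, Ns] <;> fun_prop
  have h0 : Ns 0 = N := by
    funext i j
    fin_cases j <;> simp [Ns]
  have e1 : ∀ᶠ s in nhdsWithin (0 : ℂ) {0}ᶜ, aeval (tpt lam (Ns s)) P ≠ 0 := by
    refine nhdsWithin_le_nhds ?_
    exact hc.continuousAt.eventually_ne (by rw [h0]; exact hP)
  have e2 : ∀ i, ∀ᶠ s in nhdsWithin (0 : ℂ) {0}ᶜ, Ns s i 0 ≠ 0 := by
    intro i
    by_cases hi : N i 0 = 0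
    · have h1 : N i 1 ≠ 0 := by
        intro h
        have := hN.2 i
        rw [hi, h] at this
        apply hN.1
        rw [← this]; ring
      filter_upwards [self_mem_nhdsWithin] with s hs
      simp only [Ns, Matrix.cons_val_zero, hi, zero_add]
      exact mul_ne_zero hs h1
    · refine nhdsWithin_le_nhds ?_
      have : Continuous (fun s : ℂ => Ns s i 0) := by
        simp only [Ns, Matrix.cons_val_zero]
        fun_prop
      exact this.continuousAt.eventually_ne (by rw [h0]; exact hi)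
  obtain ⟨s, hs1, hs2⟩ := (e1.and (Filter.eventually_all.2 e2)).exists
  refine ⟨Ns s, ⟨hN.1, fun i => ?_⟩, hs2, hs1⟩
  have := hN.2 i
  simp only [Ns, Matrix.cons_val]
  rw [← this]
  ring

/-- The polynomial on the torsor. -/
noncomputable def RR {g : ℕ} (D : ℕ) (P : MvPolynomial (Option (Fin g × Fin 4)) ℚ) :
    MvPolynomial (Option (Fin g × Fin 3)) ℚ :=
  hom D P (X none) (fun i => ![X (some (i, 0)) * X (some (i, 0)), X (some (i, 0)) * X (some (i, 1)),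
    X (some (i, 0)) * X (some (i, 2)), X none + X (some (i, 1)) * X (some (i, 2))])
    (fun i => X (some (i, 0)))

/-- The point `(lam, v)`. -/
def pt3 {g : ℕ} {K : Type} (lam : K) (v : Fin g × Fin 3 → K) : Option (Fin g × Fin 3) → K
  | none => lam
  | some a => v a

theorem RR_eval {g : ℕ} {K : Type} [Field K] [Algebra ℚ K] (D : ℕ)
    (P : MvPolynomial (Option (Fin g × Fin 4)) ℚ) (hP : P.totalDegree ≤ D) (lam : K)
    (v : Fin g × Fin 3 → K) (hv : ∀ i, v (i, 0) ≠ 0) :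
    aeval (pt3 lam v) (RR D P)
      = (∏ i, v (i, 0) ^ D) * aeval (tpt lam (fun i =>
        ![v (i, 0), v (i, 1), v (i, 2), (lam + v (i, 1) * v (i, 2)) / v (i, 0)])) P := by
  have h1 : ∀ i, aeval (pt3 lam v) (X (some i) : MvPolynomial (Option (Fin g × Fin 3)) ℚ) = v i :=
    fun i => by rw [aeval_X]; rfl
  have h2 : aeval (pt3 lam v) (X none : MvPolynomial (Option (Fin g × Fin 3)) ℚ) = lam := by
    rw [aeval_X]; rfl
  rw [RR, hom_map]
  simp only [h1, h2]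
  rw [hom_eq D P hP _ _ _ hv]
  congr 1
  refine congrArg (fun N => aeval (tpt lam N) P) ?_
  funext i j
  have := hv i
  fin_cases j
  · simp only [Fin.zero_eta, Matrix.cons_val, map_mul, h1]
    field_simp
  · simp only [Fin.mk_one, Matrix.cons_val, map_mul, h1]
    field_simp
  · simp only [Fin.reduceFinMk, Matrix.cons_val, map_mul, h1]
    field_simp
  · simp only [Fin.reduceFinMk, Matrix.cons_val, map_mul, map_add, h1, h2]

theorem RR_ne_zero {g : ℕ} (D : ℕ) (P : MvPolynomial (Option (Fin g × Fin 4)) ℚ)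
    (hP : P.totalDegree ≤ D) (lam : ℂ) (N : Fin g → Fin 4 → ℂ) (hN : OnT lam N)
    (hne : aeval (tpt lam N) P ≠ 0) : RR D P ≠ 0 := by
  obtain ⟨N', h1, h2, h3⟩ := exists_ne_zero P lam N hN hne
  intro h0
  have h4 := RR_eval D P hP lam (fun p : Fin g × Fin 3 => N' p.1 (Fin.castSucc p.2)) (fun i => h2 i)
  rw [h0, map_zero] at h4
  have h5 : (fun i => ![N' i 0, N' i 1, N' i 2, (lam + N' i 1 * N' i 2) / N' i 0]) = N' := by
    funext i j
    fin_cases j
    · rfl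
    · rfl
    · rfl
    · have := h1.2 i
      have h6 := h2 i
      simp only [Fin.reduceFinMk, Matrix.cons_val]
      rw [div_eq_iff h6, ← this]
      ring
  have h6 : (fun i => ![(fun p : Fin g × Fin 3 => N' p.1 (Fin.castSucc p.2)) (i, 0),
      (fun p : Fin g × Fin 3 => N' p.1 (Fin.castSucc p.2)) (i, 1),
      (fun p : Fin g × Fin 3 => N' p.1 (Fin.castSucc p.2)) (i, 2),
      (lam + (fun p : Fin g × Fin 3 => N' p.1 (Fin.castSucc p.2)) (i, 1) *
        (fun p : Fin g × Fin 3 => N' p.1 (Fin.castSucc p.2)) (i, 2)) /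
        (fun p : Fin g × Fin 3 => N' p.1 (Fin.castSucc p.2)) (i, 0)])
      = (fun i => ![N' i 0, N' i 1, N' i 2, (lam + N' i 1 * N' i 2) / N' i 0]) := by
    funext i j
    fin_cases j <;> rfl
  rw [h6, h5] at h4
  rcases mul_eq_zero.1 h4.symm with h | h
  · rw [Finset.prod_eq_zero_iff] at h
    obtain ⟨i, _, hi⟩ := h
    exact pow_ne_zero D (h2 i) hi
  · exact h3 h

theorem transc : Transcendental ℚ (2 * Real.pi) := by
  intro h
  apply Pool.Agent.Lib70.PiTr.transcendental_pi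
  have h2 : IsAlgebraic ℚ (2 : ℝ)⁻¹ := by
    have := isAlgebraic_algebraMap (R := ℚ) (A := ℝ) (2 : ℚ)⁻¹
    simpa using this
  have h3 := h.mul h2
  have h4 : 2 * Real.pi * (2 : ℝ)⁻¹ = Real.pi := by ring
  rwa [h4] at h3

/-- The specialisation of `lam` to `2 pi`. -/
noncomputable def spec {σ : Type} (R : MvPolynomial (Option σ) ℚ) : MvPolynomial σ ℝ :=
  MvPolynomial.map ((Polynomial.aeval (2 * Real.pi) : Polynomial ℚ →ₐ[ℚ] ℝ) : Polynomial ℚ →+* ℝ)
    (optionEquivRight ℚ σ R)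

theorem spec_ne_zero {σ : Type} (R : MvPolynomial (Option σ) ℚ) (hR : R ≠ 0) : spec R ≠ 0 := by
  intro h
  have hinj : Function.Injective
      ((Polynomial.aeval (2 * Real.pi) : Polynomial ℚ →ₐ[ℚ] ℝ) : Polynomial ℚ →+* ℝ) :=
    transcendental_iff_injective.1 transc
  have h2 := MvPolynomial.map_injective _ hinj (h.trans (map_zero _).symm)
  exact hR ((map_eq_zero_iff _ (optionEquivRight ℚ σ).injective).1 h2)

theorem spec_eval {g : ℕ} (R : MvPolynomial (Option (Fin g × Fin 3)) ℚ) (v : Fin g × Fin 3 → ℝ) :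
    eval v (spec R) = aeval (pt3 (2 * Real.pi) v) R := by
  have h : ((eval v).comp ((MvPolynomial.map ((Polynomial.aeval (2 * Real.pi) :
      Polynomial ℚ →ₐ[ℚ] ℝ) : Polynomial ℚ →+* ℝ)).comp
        (optionEquivRight ℚ (Fin g × Fin 3) : _ →+* MvPolynomial (Fin g × Fin 3) (Polynomial ℚ))))
      = ((aeval (pt3 (2 * Real.pi) v) : MvPolynomial (Option (Fin g × Fin 3)) ℚ →ₐ[ℚ] ℝ) :
        MvPolynomial (Option (Fin g × Fin 3)) ℚ →+* ℝ) := by
    refine MvPolynomial.ringHom_ext (fun r => ?_) (fun o => ?_)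
    · simp
    · rcases o with _ | p
      · simp [pt3]
      · simp [pt3]
  exact congrArg (fun f => f R) h

theorem exists_real {g : ℕ} (D : ℕ) (P : MvPolynomial (Option (Fin g × Fin 4)) ℚ)
    (hP : P.totalDegree ≤ D) (lam : ℂ) (N : Fin g → Fin 4 → ℂ) (hN : OnT lam N)
    (hne : aeval (tpt lam N) P ≠ 0) (a b : ℝ) (hab : a ≠ 0 ∨ b ≠ 0) :
    ∃ N : Fin g → Fin 4 → ℝ, (∀ i, N i 0 * N i 3 - N i 1 * N i 2 = 2 * Real.pi) ∧
      (∀ i, N i 0 * a - N i 1 * b ≠ 0) ∧ aeval (tpt (2 * Real.pi) N) P ≠ 0 := by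
  have h1 := spec_ne_zero _ (RR_ne_zero D P hP lam N hN hne)
  have h2 : (spec (RR D P) * ∏ i, ((X (i, 0) : MvPolynomial (Fin g × Fin 3) ℝ) *
      (X (i, 0) * C a - X (i, 1) * C b))) ≠ 0 := by
    refine mul_ne_zero h1 (Finset.prod_ne_zero_iff.2 fun i _ => mul_ne_zero (X_ne_zero _) ?_)
    intro h
    have h3 := congrArg (eval (fun p : Fin g × Fin 3 => if p = (i, 0) then a else -b)) h
    simp at h3
    have h4 : a * a + b * b = 0 := by linarith
    have h5 : a = 0 := by nlinarith [mul_self_nonneg a, mul_self_nonneg b]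
    have h6 : b = 0 := by nlinarith [mul_self_nonneg a, mul_self_nonneg b]
    tauto
  obtain ⟨v, hv⟩ : ∃ v, eval v (spec (RR D P) * ∏ i, ((X (i, 0) :
      MvPolynomial (Fin g × Fin 3) ℝ) * (X (i, 0) * C a - X (i, 1) * C b))) ≠ 0 := by
    by_contra hcon
    push Not at hcon
    exact h2 (MvPolynomial.funext fun v => by rw [hcon v, map_zero])
  rw [map_mul, spec_eval, map_prod] at hv
  have h3 := left_ne_zero_of_mul hv
  have h4 := Finset.prod_ne_zero_iff.1 (right_ne_zero_of_mul hv)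
  simp only [map_mul, map_sub, eval_X, eval_C, Finset.mem_univ, forall_true_left] at h4
  have h5 : ∀ i, v (i, 0) ≠ 0 := fun i => left_ne_zero_of_mul (h4 i)
  rw [RR_eval D P hP _ v h5] at h3
  refine ⟨_, fun i => ?_, fun i => ?_, right_ne_zero_of_mul h3⟩
  · have := h5 i
    simp only [Matrix.cons_val]
    field_simp
    ring
  · simpa using right_ne_zero_of_mul (h4 i)

/-! ### The relation -/

/-- The new relation. -/
noncomputable def SS {g : ℕ} (D : ℕ) (P : MvPolynomial (Option (Fin g × Fin 4)) ℚ) (l : ℚ)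
    (t c r : Fin g → ℚ) : MvPolynomial (Fin 4 ⊕ (Fin g × Fin 3)) ℚ :=
  hom D P (algebraMap ℚ _ l * (X (Sum.inl 0) * X (Sum.inl 3) - X (Sum.inl 1) * X (Sum.inl 2)))
    (fun i => num (t i) (c i) (r i) (fun k => X (Sum.inl k)) (X (Sum.inr (i, 0)))
      (X (Sum.inr (i, 1))) (X (Sum.inr (i, 2)))) (fun i => X (Sum.inr (i, 0)))

theorem SS_deg {g : ℕ} (D : ℕ) (P : MvPolynomial (Option (Fin g × Fin 4)) ℚ)
    (hP : P.totalDegree ≤ D) (l : ℚ) (t c r : Fin g → ℚ) :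
    (SS D P l t c r).totalDegree ≤ (g + 3) * D := by
  refine deg_hom D P hP _ _ _ ?_ (fun i j => deg_num _ _ _ _ _ _ _ j) (fun i => deg_X _)
  have h := deg_mul (deg_c (σ := Fin 4 ⊕ (Fin g × Fin 3)) l)
    (deg_sub (deg_mul (deg_X (Sum.inl 0)) (deg_X (Sum.inl 3)))
      (deg_mul (deg_X (Sum.inl 1)) (deg_X (Sum.inl 2))))
  exact h.trans (by norm_num)

theorem SS_eval {g : ℕ} (D : ℕ) (P : MvPolynomial (Option (Fin g × Fin 4)) ℚ)
    (hP : P.totalDegree ≤ D) (l : ℚ) (t c r : Fin g → ℚ) (θ : Fin 4 → ℝ)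
    (y : Fin g × Fin 3 → ℝ) (hy : ∀ i, y (i, 0) ≠ 0) :
    aeval (Sum.elim θ y) (SS D P l t c r) = (∏ i, y (i, 0) ^ D) *
      aeval (tpt ((l : ℝ) * (θ 0 * θ 3 - θ 1 * θ 2)) (fun i j =>
        num (t i) (c i) (r i) θ (y (i, 0)) (y (i, 1)) (y (i, 2)) j / y (i, 0))) P := by
  rw [SS, hom_map]
  simp only [num_map, aeval_X, Sum.elim_inl, Sum.elim_inr]
  rw [hom_eq D P hP _ _ _ hy]
  simp only [map_mul, map_sub, aeval_X, Sum.elim_inl, AlgHom.commutes, eq_ratCast]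

theorem num_div (t c r : ℚ) (θ : Fin 4 → ℝ) (x y z z' : ℝ) (hx : x ≠ 0)
    (h : x * z' = r + z * y) (j : Fin 4) :
    num t c r θ x y z j / x = (![x * θ 0 + y * θ 2, x * θ 1 + y * θ 3,
      (t : ℝ) * (x * θ 0 + y * θ 2) + (c : ℝ) * (z * θ 0 + z' * θ 2),
      (t : ℝ) * (x * θ 1 + y * θ 3) + (c : ℝ) * (z * θ 1 + z' * θ 3)] : Fin 4 → ℝ) j := by
  rw [div_eq_iff hx]
  fin_cases j
  · simp only [num, Fin.zero_eta, Matrix.cons_val]
    ring
  · simp only [num, Fin.mk_one, Matrix.cons_val]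
    ring
  · simp only [num, Fin.reduceFinMk, Matrix.cons_val, eq_ratCast, ← h]
    ring
  · simp only [num, Fin.reduceFinMk, Matrix.cons_val, eq_ratCast, ← h]
    ring

end Exc

open Exc in
theorem Exc_proof (hSubs : Stmt_Subs) (hWron : Stmt_Wron) (hSer : Stmt_Ser) : Stmt_Exc := by
  intro g D
  refine ⟨(g + 3) * D, fun t₀ ht1 ht2 => ?_⟩
  obtain ⟨ρ, hρ, hser⟩ := hSer t₀ ht1 ht2
  have ht1' : (-1 : ℝ) < t₀ := by exact_mod_cast ht1
  have ht2' : (t₀ : ℝ) < 1 := by exact_mod_cast ht2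
  refine ⟨min ρ (1 - t₀), lt_min hρ (by linarith), fun w hw P hrel => ?_⟩
  obtain ⟨hdeg, hval, lam, N, hN, hne⟩ := hrel
  have hq0 : (0 : ℝ) < 1 - (t₀ : ℝ) ^ 2 := by nlinarith
  have hW0 := hWron t₀ ht1' ht2'
  have hlam : (((-2 * (1 - t₀ ^ 2) : ℚ)) : ℝ) *
      (Mt t₀ 0 * Mt t₀ 3 - Mt t₀ 1 * Mt t₀ 2) = 2 * Real.pi := by
    rw [hW0]
    push_cast
    field_simp
  have hΔ : Mt t₀ 0 * Mt t₀ 3 - Mt t₀ 1 * Mt t₀ 2 ≠ 0 := by
    rw [hW0]
    exact div_ne_zero (neg_ne_zero.2 Real.pi_ne_zero) hq0.ne'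
  have htw : ∀ i, (-1 : ℝ) < t₀ + w i ∧ (t₀ : ℝ) + w i < 1 := fun i => by
    have h1 : (0 : ℝ) < w i := by exact_mod_cast (hw i).1
    have h2 := lt_min_iff.1 (hw i).2
    constructor <;> linarith [h2.2]
  have hq : ∀ i, (0 : ℝ) < 1 - ((t₀ : ℝ) + w i) ^ 2 := fun i => by
    have := htw i
    nlinarith
  set t : Fin g → ℚ := fun i => t₀ + w i with ht
  set c : Fin g → ℚ := fun i => -2 * (1 - t i ^ 2) with hc
  set r : Fin g → ℚ := fun i => (1 - t₀ ^ 2) / (1 - t i ^ 2) with hr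
  refine ⟨SS D P (-2 * (1 - t₀ ^ 2)) t c r, SS_deg D P hdeg _ _ _ _, ?_, ?_⟩
  · have hw' : ∀ i, |((w i : ℚ) : ℝ)| < ρ := fun i => by
      have h1 : (0 : ℝ) < w i := by exact_mod_cast (hw i).1
      rw [abs_of_pos h1]
      exact (lt_min_iff.1 (hw i).2).1
    have hy : ∀ i, (fun p : Fin g × Fin 3 => xv t₀ (w p.1) p.2) (i, 0) ≠ 0 := fun i =>
      (hser (w i) (hw' i)).2.1.ne'
    rw [SS_eval D P hdeg _ t c r (Mt t₀) _ hy, hlam]
    rw [show (fun (i : Fin g) (j : Fin 4) => num (t i) (c i) (r i) (Mt t₀)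
      ((fun p : Fin g × Fin 3 => xv t₀ (w p.1) p.2) (i, 0))
      ((fun p : Fin g × Fin 3 => xv t₀ (w p.1) p.2) (i, 1))
      ((fun p : Fin g × Fin 3 => xv t₀ (w p.1) p.2) (i, 2)) j /
      (fun p : Fin g × Fin 3 => xv t₀ (w p.1) p.2) (i, 0)) = fun i => per ((t₀ : ℝ) + w i) from ?_,
      hval, mul_zero]
    funext i j
    obtain ⟨-, hU, m0, m1, m2, m3⟩ := hser (w i) (hw' i)
    have hW := hWron _ (htw i).1 (htw i).2
    obtain ⟨s1, s2, s3, s4⟩ := hSubs _ (htw i).1 (htw i).2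
    have e0 : Mt ((t₀ : ℝ) + w i) 0 = phi ((t₀ : ℝ) + w i) := rfl
    have e1 : Mt ((t₀ : ℝ) + w i) 1 = phi (-((t₀ : ℝ) + w i)) := rfl
    have e2 : Mt ((t₀ : ℝ) + w i) 2 = deriv phi ((t₀ : ℝ) + w i) := rfl
    have e3 : Mt ((t₀ : ℝ) + w i) 3 = - deriv phi (-((t₀ : ℝ) + w i)) := rfl
    have hrr : val (UV t₀ 0) (w i) * val (UV t₀ 3) (w i)
        = (r i : ℝ) + val (UV t₀ 2) (w i) * val (UV t₀ 1) (w i) := by
      have h1 : (val (UV t₀ 0) (w i) * val (UV t₀ 3) (w i)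
          - val (UV t₀ 2) (w i) * val (UV t₀ 1) (w i)) *
          (Mt t₀ 0 * Mt t₀ 3 - Mt t₀ 1 * Mt t₀ 2) = - Real.pi / (1 - ((t₀ : ℝ) + w i) ^ 2) := by
        rw [← hW, m0, m1, m2, m3]
        ring
      have h2 : (r i : ℝ) * (Mt t₀ 0 * Mt t₀ 3 - Mt t₀ 1 * Mt t₀ 2)
          = - Real.pi / (1 - ((t₀ : ℝ) + w i) ^ 2) := by
        rw [hW0, hr, ht]
        push_cast
        have := hq i
        field_simp
      have h3 := mul_right_cancel₀ hΔ (h1.trans h2.symm)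
      linarith
    have key := num_div (t i) (c i) (r i) (Mt t₀) (val (UV t₀ 0) (w i)) (val (UV t₀ 1) (w i))
      (val (UV t₀ 2) (w i)) (val (UV t₀ 3) (w i)) hU.ne' hrr j
    refine Eq.trans key ?_
    have hti : ((t i : ℚ) : ℝ) = (t₀ : ℝ) + w i := by rw [ht]; push_cast; ring
    have hci : ((c i : ℚ) : ℝ) = -2 * (1 - ((t₀ : ℝ) + w i) ^ 2) := by
      rw [hc]; push_cast; rw [hti]
    fin_cases j
    · simp only [Fin.zero_eta, Matrix.cons_val, per]
      rw [s1, ← e0, m0]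
    · simp only [Fin.mk_one, Matrix.cons_val, per]
      rw [s2, ← e1, m1]
    · simp only [Fin.reduceFinMk, Matrix.cons_val, per]
      rw [s3, ← e0, ← e2, ← m0, ← m2, hti, hci]
      ring
    · simp only [Fin.reduceFinMk, Matrix.cons_val, per]
      rw [s4, ← e1, ← m1, ← m3, hti, hci, e3]
      ring
  · have hab : Mt t₀ 3 ≠ 0 ∨ Mt t₀ 2 ≠ 0 := by
      by_contra hcon
      push Not at hcon
      apply hΔ
      rw [hcon.1, hcon.2]
      ring
    obtain ⟨M, hM1, hM2, hM3⟩ := exists_real D P hdeg lam N hN hne _ _ hab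
    set Δ := Mt t₀ 0 * Mt t₀ 3 - Mt t₀ 1 * Mt t₀ 2 with hΔd
    obtain ⟨m2, hm2⟩ : ∃ m2 : Fin g → ℝ, ∀ i, m2 i = (M i 2 - t i * M i 0) / c i :=
      ⟨_, fun _ => rfl⟩
    obtain ⟨m3, hm3⟩ : ∃ m3 : Fin g → ℝ, ∀ i, m3 i = (M i 3 - t i * M i 1) / c i :=
      ⟨_, fun _ => rfl⟩
    let y : Fin g × Fin 3 → ℝ := fun p => ![(M p.1 0 * Mt t₀ 3 - M p.1 1 * Mt t₀ 2) / Δ,
      (Mt t₀ 0 * M p.1 1 - Mt t₀ 1 * M p.1 0) / Δ,
      (m2 p.1 * Mt t₀ 3 - m3 p.1 * Mt t₀ 2) / Δ] p.2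
    have y0 : ∀ i, y (i, 0) = (M i 0 * Mt t₀ 3 - M i 1 * Mt t₀ 2) / Δ := fun i => rfl
    have y1 : ∀ i, y (i, 1) = (Mt t₀ 0 * M i 1 - Mt t₀ 1 * M i 0) / Δ := fun i => rfl
    have y2 : ∀ i, y (i, 2) = (m2 i * Mt t₀ 3 - m3 i * Mt t₀ 2) / Δ := fun i => rfl
    have hy : ∀ i, y (i, 0) ≠ 0 := fun i => div_ne_zero (hM2 i) hΔ
    refine ⟨y, ?_⟩
    rw [SS_eval D P hdeg _ t c r (Mt t₀) y hy, ← hΔd, hlam]
    refine mul_ne_zero (Finset.prod_ne_zero_iff.2 fun i _ => pow_ne_zero _ (hy i)) ?_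
    rw [show (fun (i : Fin g) (j : Fin 4) => num (t i) (c i) (r i) (Mt t₀) (y (i, 0)) (y (i, 1))
      (y (i, 2)) j / y (i, 0)) = M from ?_]
    · exact hM3
    funext i j
    have hti : ((t i : ℚ) : ℝ) = (t₀ : ℝ) + w i := by rw [ht]; push_cast; ring
    have hci : ((c i : ℚ) : ℝ) = -2 * (1 - ((t₀ : ℝ) + w i) ^ 2) := by
      rw [hc]; push_cast; rw [hti]
    have hqi := hq i
    have hc0 : ((c i : ℚ) : ℝ) ≠ 0 := by
      rw [hci]
      exact mul_ne_zero (by norm_num) hqi.ne'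
    have hri : ((r i : ℚ) : ℝ) * Δ = 2 * Real.pi / c i := by
      rw [hW0, hr, hci]
      push_cast
      rw [hti]
      field_simp
    have hm : M i 0 * m3 i - M i 1 * m2 i = r i * Δ := by
      rw [hri, ← hM1 i, hm2, hm3]
      field_simp
      ring
    have hz : y (i, 0) * ((Mt t₀ 0 * m3 i - Mt t₀ 1 * m2 i) / Δ)
        = r i + y (i, 2) * y (i, 1) := by
      rw [y0, y1, y2]
      have h1 : (M i 0 * Mt t₀ 3 - M i 1 * Mt t₀ 2) * (Mt t₀ 0 * m3 i - Mt t₀ 1 * m2 i)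
          = (M i 0 * m3 i - M i 1 * m2 i) * Δ +
            (m2 i * Mt t₀ 3 - m3 i * Mt t₀ 2) * (Mt t₀ 0 * M i 1 - Mt t₀ 1 * M i 0) := by
        rw [hΔd]; ring
      rw [div_mul_div_comm, div_mul_div_comm, h1, hm]
      field_simp
    have key := num_div (t i) (c i) (r i) (Mt t₀) (y (i, 0)) (y (i, 1)) (y (i, 2)) _ (hy i) hz j
    refine Eq.trans key ?_
    have k0 : y (i, 0) * Mt t₀ 0 + y (i, 1) * Mt t₀ 2 = M i 0 := by
      rw [y0, y1, div_mul_eq_mul_div, div_mul_eq_mul_div, ← add_div, div_eq_iff hΔ, hΔd]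
      ring
    have k1 : y (i, 0) * Mt t₀ 1 + y (i, 1) * Mt t₀ 3 = M i 1 := by
      rw [y0, y1, div_mul_eq_mul_div, div_mul_eq_mul_div, ← add_div, div_eq_iff hΔ, hΔd]
      ring
    have k2 : y (i, 2) * Mt t₀ 0 + (Mt t₀ 0 * m3 i - Mt t₀ 1 * m2 i) / Δ * Mt t₀ 2 = m2 i := by
      rw [y2, div_mul_eq_mul_div, div_mul_eq_mul_div, ← add_div, div_eq_iff hΔ, hΔd]
      ring
    have k3 : y (i, 2) * Mt t₀ 1 + (Mt t₀ 0 * m3 i - Mt t₀ 1 * m2 i) / Δ * Mt t₀ 3 = m3 i := by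
      rw [y2, div_mul_eq_mul_div, div_mul_eq_mul_div, ← add_div, div_eq_iff hΔ, hΔd]
      ring
    rw [k0, k1, k2, k3]
    fin_cases j
    · rfl
    · rfl
    · simp only [Fin.reduceFinMk, Matrix.cons_val, hm2]
      field_simp
      ring
    · simp only [Fin.reduceFinMk, Matrix.cons_val, hm3]
      field_simp
      ring

end Pool.Agent.DGP
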