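import Pool.Agent.DGP.Stmts

set_option autoImplicit false

/-!
Module `Full`: the system of all products.
-/

open Finset

namespace Pool.Agent.DGP

theorem Full_proof (hBase : Stmt_Base) (hMono : Stmt_Mono) (hDSum : Stmt_DSum)
    (hTens : Stmt_Tens) : Stmt_Full := by
  intro t₀ h1 h2 K E
  obtain ⟨C, hC⟩ := hBase t₀ h1 h2
  refine ⟨(C + 2) ^ ((K + 1) * (E + 2)), 3 * ((K + 1) * (E + 2)), ?_⟩
  intro c b hb hc
  have hb' : (1 : ℝ) ≤ b := by exact_mod_cast hb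
  choose e₀ c₀ hG using fun k : Fin K => hC (c k) (hc k).1
  have hc0 : ∀ k, 1 ≤ c₀ k := fun k => (hG k).one_le
  have hsum : ∀ k, c₀ k ≤ 1 + ∑ l, |c₀ l| := by
    intro k
    have h3 : |c₀ k| ≤ ∑ l, |c₀ l| :=
      Finset.single_le_sum (f := fun l => |c₀ l|) (fun l _ => abs_nonneg _) (Finset.mem_univ k)
    have h4 := le_abs_self (c₀ k)
    linarith
  have hH : ∀ k, ((C : ℝ) * (c k : ℝ) ^ 3) ≤ ((C : ℝ) + 2) * (b : ℝ) ^ 3 := by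
    intro k
    have h3 : (c k : ℝ) ≤ b := by exact_mod_cast (hc k).2
    have h4 : (c k : ℝ) ^ 3 ≤ (b : ℝ) ^ 3 := pow_le_pow_left₀ (by positivity) h3 3
    have h5 : (0 : ℝ) ≤ C := by positivity
    have h6 : (0 : ℝ) ≤ (b : ℝ) ^ 3 := by positivity
    nlinarith
  have hG' : ∀ k, GSys (base t₀ (c k)) (Tb t₀ (c k)) 2 (∑ l, e₀ l) (1 + ∑ l, |c₀ l|)
      (((C : ℝ) + 2) * (b : ℝ) ^ 3) := by
    intro k
    exact hMono _ _ _ _ _ _ _ _ _ _ _ (hG k) le_rfl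
      (Finset.single_le_sum (f := fun l => e₀ l) (fun l _ => Nat.zero_le _) (Finset.mem_univ k))
      (hsum k) (hH k)
  have h3 : (1 : ℝ) ≤ 1 + ∑ l, |c₀ l| := by
    have : (0 : ℝ) ≤ ∑ l, |c₀ l| := Finset.sum_nonneg (fun l _ => abs_nonneg _)
    linarith
  have h4 : (2 : ℝ) ≤ ((C : ℝ) + 2) * (b : ℝ) ^ 3 := by
    have h5 : (0 : ℝ) ≤ C := by positivity
    have h6 : (1 : ℝ) ≤ (b : ℝ) ^ 3 := one_le_pow₀ hb'
    nlinarith
  obtain ⟨e₁, c₁, hD⟩ := hDSum K (fun k => base t₀ (c k)) (fun k => Tb t₀ (c k)) 2 _ _ _ h3 h4 hG'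
  have hfun : (fun o : Option (Fin K × Fin 4) => o.elim 1 (fun p => base t₀ (c p.1) p.2))
      = full t₀ c := by
    funext o
    cases o <;> rfl
  rw [hfun] at hD
  obtain ⟨e₂, c₂, hT⟩ := hTens _ _ _ _ _ _ _ hD E
  refine ⟨e₂, c₂, ?_⟩
  have hpow : ((((C : ℝ) + 2) * (b : ℝ) ^ 3) ^ (K + 1)) ^ (E + 2)
      = (((C + 2) ^ ((K + 1) * (E + 2)) : ℕ) : ℝ) * (b : ℝ) ^ (3 * ((K + 1) * (E + 2))) := by
    push_cast
    rw [← pow_mul, mul_pow, ← pow_mul]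
  rw [hpow] at hT
  exact hT

end Pool.Agent.DGP
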