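import Pool.Agent.DGP.Stmts

/-!
# DGP, module FundM
-/

set_option autoImplicit false

open Finset

namespace Pool.Agent.DGP

namespace FundM

/-- The coefficients of the fundamental matrix. -/
noncomputable def yy {m : ℕ} (B : ℕ → Matrix (Fin m) (Fin m) ℚ) :
    ℕ → Matrix (Fin m) (Fin m) ℚ
  | 0 => 1
  | (n + 1) => ((n : ℚ) + 1)⁻¹ • ∑ b : Fin (n + 1), B (n - b) * yy B b
decreasing_by exact b.2

lemma yy_zero {m : ℕ} (B : ℕ → Matrix (Fin m) (Fin m) ℚ) : yy B 0 = 1 := by
  rw [yy]

lemma yy_succ {m : ℕ} (B : ℕ → Matrix (Fin m) (Fin m) ℚ) (n : ℕ) :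
    ((n : ℚ) + 1) • yy B (n + 1) = ∑ p ∈ antidiagonal n, B p.1 * yy B p.2 := by
  have hn : ((n : ℚ) + 1) ≠ 0 := by positivity
  rw [yy, smul_smul, mul_inv_cancel₀ hn, one_smul]
  rw [Finset.Nat.sum_antidiagonal_eq_sum_range_succ_mk, ← Finset.sum_range_reflect,
    Finset.sum_range]
  refine Finset.sum_congr rfl fun b _ => ?_
  have hb : (b : ℕ) ≤ n := Nat.lt_succ_iff.mp b.2
  have e : n.succ - 1 - (b : ℕ) = n - b := by omega
  rw [e]
  have e2 : n - (n - (b : ℕ)) = b := by omega
  simp only [e2]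

end FundM

open FundM in
theorem FundM_proof : Stmt_FundM := by
  intro m T A hT
  have hTc : PowerSeries.constantCoeff (T : PowerSeries ℚ) ≠ 0 := by
    rw [← PowerSeries.coeff_zero_eq_constantCoeff_apply, Polynomial.coeff_coe]
    exact hT
  set Bs : Fin m → Fin m → PowerSeries ℚ := fun i l => (T : PowerSeries ℚ)⁻¹ * A i l with hBs
  set B : ℕ → Matrix (Fin m) (Fin m) ℚ := fun n => Matrix.of fun i l =>
    PowerSeries.coeff n (Bs i l) with hB
  refine ⟨fun i j => PowerSeries.mk (fun n => yy B n i j), ?_, ?_⟩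
  · intro i j
    have h1 : hd 1 (PowerSeries.mk (fun n => yy B n i j)) =
        ∑ l, Bs i l * PowerSeries.mk (fun n => yy B n l j) := by
      ext n
      have h2 := congrFun (congrFun (yy_succ B n) i) j
      unfold hd
      rw [PowerSeries.coeff_mk, PowerSeries.coeff_mk, map_sum, Nat.choose_one_right]
      rw [Matrix.smul_apply, smul_eq_mul, Matrix.sum_apply] at h2
      push_cast
      rw [h2]
      simp only [PowerSeries.coeff_mul, PowerSeries.coeff_mk, Matrix.mul_apply]
      rw [Finset.sum_comm]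
      rfl
    rw [h1, Finset.mul_sum]
    refine Finset.sum_congr rfl fun l _ => ?_
    rw [hBs, ← mul_assoc, ← mul_assoc, PowerSeries.mul_inv_cancel _ hTc, one_mul]
  · intro i j
    rw [PowerSeries.coeff_mk, yy_zero, Matrix.one_apply]

end Pool.Agent.DGP
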