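import Pool.Agent.DGP.Stmts

set_option autoImplicit false

/-!
Module `IndR`: independence (in bounded degree) of the values of the solutions with rational
Taylor coefficients.
-/

open Finset

namespace Pool.Agent.DGP

namespace IndR

theorem val_rescale (f : PowerSeries ℚ) (c : ℚ) (z : ℝ) :
    val (PowerSeries.rescale c f) z = val f (c * z) := by
  unfold val
  apply tsum_congr
  intro j
  rw [PowerSeries.coeff_rescale]
  push_cast
  rw [mul_pow]
  ring

theorem conv_rescale (f : PowerSeries ℚ) (c : ℚ) (z : ℝ) (h : Conv f (c * z)) :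
    Conv (PowerSeries.rescale c f) z := by
  unfold Conv at *
  refine h.congr ?_
  intro j
  rw [PowerSeries.coeff_rescale]
  push_cast
  rw [abs_mul, abs_mul, mul_pow, abs_pow]
  ring

theorem conv_one (hVal : Stmt_Val) (x : ℝ) : Conv 1 x ∧ val 1 x = 1 := by
  have h := (hVal x).2.1 1
  simpa using h

theorem conv_zero (hVal : Stmt_Val) (x : ℝ) : Conv 0 x ∧ val 0 x = 0 := by
  have h := (hVal x).2.1 0
  simpa using h

theorem conv_prod (hVal : Stmt_Val) (x : ℝ) {ι : Type} (s : Finset ι) (f : ι → PowerSeries ℚ)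
    (h : ∀ i ∈ s, Conv (f i) x) :
    Conv (∏ i ∈ s, f i) x ∧ val (∏ i ∈ s, f i) x = ∏ i ∈ s, val (f i) x := by
  classical
  induction s using Finset.induction_on with
  | empty => simpa using conv_one hVal x
  | insert a s ha ih =>
    obtain ⟨h1, h2⟩ := ih (fun i hi => h i (Finset.mem_insert_of_mem hi))
    obtain ⟨h3, h4, -, -⟩ := (hVal x).1 _ _ (h a (Finset.mem_insert_self _ _)) h1
    rw [Finset.prod_insert ha, Finset.prod_insert ha]
    exact ⟨h3, by rw [h4, h2]⟩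

theorem conv_sum (hVal : Stmt_Val) (x : ℝ) {ι : Type} (s : Finset ι) (f : ι → PowerSeries ℚ)
    (h : ∀ i ∈ s, Conv (f i) x) :
    Conv (∑ i ∈ s, f i) x ∧ val (∑ i ∈ s, f i) x = ∑ i ∈ s, val (f i) x := by
  classical
  induction s using Finset.induction_on with
  | empty => simpa using conv_zero hVal x
  | insert a s ha ih =>
    obtain ⟨h1, h2⟩ := ih (fun i hi => h i (Finset.mem_insert_of_mem hi))
    obtain ⟨-, -, h3, h4⟩ := (hVal x).1 _ _ (h a (Finset.mem_insert_self _ _)) h1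
    rw [Finset.sum_insert ha, Finset.sum_insert ha]
    exact ⟨h3, by rw [h4, h2]⟩

/-- The values of the full system. -/
noncomputable def fv (t₀ : ℚ) {K : ℕ} (c : Fin K → ℕ) (z : ℝ) : Option (Fin K × Fin 4) → ℝ
  | none => 1
  | some p => val (UV t₀ p.2) (c p.1 * z)

theorem full_val (hVal : Stmt_Val) (t₀ : ℚ) {K : ℕ} (c : Fin K → ℕ) (z : ℝ)
    (h : ∀ k i, Conv (UV t₀ i) (c k * z)) (o : Option (Fin K × Fin 4)) :
    Conv (full t₀ c o) z ∧ val (full t₀ c o) z = fv t₀ c z o := by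
  cases o with
  | none => exact conv_one hVal z
  | some p =>
    have h1 : ((c p.1 : ℚ) : ℝ) * z = c p.1 * z := by push_cast; ring
    constructor
    · apply conv_rescale
      rw [h1]
      exact h p.1 p.2
    · show val (PowerSeries.rescale (c p.1 : ℚ) (UV t₀ p.2)) z = _
      rw [val_rescale, h1]
      rfl

theorem tens_val (hVal : Stmt_Val) (t₀ : ℚ) {K E : ℕ} (c : Fin K → ℕ) (z : ℝ)
    (h : ∀ k i, Conv (UV t₀ i) (c k * z)) (w : Fin E → Option (Fin K × Fin 4)) :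
    Conv (tens (full t₀ c) E w) z ∧ val (tens (full t₀ c) E w) z = ∏ e, fv t₀ c z (w e) := by
  unfold tens
  obtain ⟨h1, h2⟩ := conv_prod hVal z Finset.univ (fun e => full t₀ c (w e))
    (fun e _ => (full_val hVal t₀ c z h (w e)).1)
  refine ⟨h1, ?_⟩
  rw [h2]
  exact Finset.prod_congr rfl (fun e _ => (full_val hVal t₀ c z h (w e)).2)

/-- A functional relation gives a relation between the values. -/
theorem rel_val (hVal : Stmt_Val) (t₀ : ℚ) {K E : ℕ} (c : Fin K → ℕ) (z : ℝ)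
    (h : ∀ k i, Conv (UV t₀ i) (c k * z))
    (ρ : (Fin E → Option (Fin K × Fin 4)) → Polynomial ℚ)
    (hρ : ∑ w, (ρ w : PowerSeries ℚ) * tens (full t₀ c) E w = 0) :
    ∑ w, Polynomial.aeval z (ρ w) * ∏ e, fv t₀ c z (w e) = 0 := by
  have h1 : ∀ w, Conv ((ρ w : PowerSeries ℚ) * tens (full t₀ c) E w) z ∧
      val ((ρ w : PowerSeries ℚ) * tens (full t₀ c) E w) z
        = Polynomial.aeval z (ρ w) * ∏ e, fv t₀ c z (w e) := by
    intro w
    obtain ⟨h2, h3⟩ := (hVal z).2.1 (ρ w)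
    obtain ⟨h4, h5⟩ := tens_val hVal t₀ c z h w
    obtain ⟨h6, h7, -, -⟩ := (hVal z).1 _ _ h2 h4
    exact ⟨h6, by rw [h7, h3, h5]⟩
  obtain ⟨h2, h3⟩ := conv_sum hVal z Finset.univ
    (fun w => (ρ w : PowerSeries ℚ) * tens (full t₀ c) E w) (fun w _ => (h1 w).1)
  rw [hρ, (conv_zero hVal z).2] at h3
  rw [h3]
  exact Finset.sum_congr rfl (fun w _ => (h1 w).2.symm)

/-- The linear forms which give `U, V, U', V'` in terms of `A, B, A', B'`. -/
noncomputable def Lf (θ : Fin 4 → ℝ) {K : ℕ} (k : Fin K) :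
    Fin 4 → MvPolynomial (Option (Fin K × Fin 4)) ℝ :=
  let Δ := θ 0 * θ 3 - θ 1 * θ 2
  ![MvPolynomial.C (θ 3 / Δ) * MvPolynomial.X (some (k, 0))
      - MvPolynomial.C (θ 2 / Δ) * MvPolynomial.X (some (k, 1)),
    MvPolynomial.C (θ 0 / Δ) * MvPolynomial.X (some (k, 1))
      - MvPolynomial.C (θ 1 / Δ) * MvPolynomial.X (some (k, 0)),
    MvPolynomial.C (θ 3 / Δ) * MvPolynomial.X (some (k, 2))
      - MvPolynomial.C (θ 2 / Δ) * MvPolynomial.X (some (k, 3)),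
    MvPolynomial.C (θ 0 / Δ) * MvPolynomial.X (some (k, 3))
      - MvPolynomial.C (θ 1 / Δ) * MvPolynomial.X (some (k, 2))]

theorem Lf_eval (θ : Fin 4 → ℝ) (hΔ : θ 0 * θ 3 - θ 1 * θ 2 ≠ 0) {K : ℕ} (k : Fin K)
    (y : Fin 4 → ℝ) (v : Option (Fin K × Fin 4) → ℝ)
    (h0 : v (some (k, 0)) = y 0 * θ 0 + y 1 * θ 2) (h1 : v (some (k, 1)) = y 0 * θ 1 + y 1 * θ 3)
    (h2 : v (some (k, 2)) = y 2 * θ 0 + y 3 * θ 2) (h3 : v (some (k, 3)) = y 2 * θ 1 + y 3 * θ 3)
    (j : Fin 4) : MvPolynomial.eval v (Lf θ k j) = y j := by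
  fin_cases j
  · simp only [Lf, Fin.zero_eta, Matrix.cons_val_zero, map_sub, map_mul, MvPolynomial.eval_C,
      MvPolynomial.eval_X, h0, h1]
    rw [div_mul_eq_mul_div, div_mul_eq_mul_div, ← sub_div, div_eq_iff hΔ]
    ring
  · simp only [Lf, Fin.mk_one, Matrix.cons_val_one, Matrix.cons_val_zero, map_sub, map_mul,
      MvPolynomial.eval_C, MvPolynomial.eval_X, h0, h1]
    rw [div_mul_eq_mul_div, div_mul_eq_mul_div, ← sub_div, div_eq_iff hΔ]
    ring
  · show MvPolynomial.eval v (MvPolynomial.C (θ 3 / (θ 0 * θ 3 - θ 1 * θ 2))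
        * MvPolynomial.X (some (k, 2))
      - MvPolynomial.C (θ 2 / (θ 0 * θ 3 - θ 1 * θ 2)) * MvPolynomial.X (some (k, 3))) = y 2
    simp only [map_sub, map_mul, MvPolynomial.eval_C, MvPolynomial.eval_X, h2, h3]
    rw [div_mul_eq_mul_div, div_mul_eq_mul_div, ← sub_div, div_eq_iff hΔ]
    ring
  · show MvPolynomial.eval v (MvPolynomial.C (θ 0 / (θ 0 * θ 3 - θ 1 * θ 2))
        * MvPolynomial.X (some (k, 3))
      - MvPolynomial.C (θ 1 / (θ 0 * θ 3 - θ 1 * θ 2)) * MvPolynomial.X (some (k, 2))) = y 3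
    simp only [map_sub, map_mul, MvPolynomial.eval_C, MvPolynomial.eval_X, h2, h3]
    rw [div_mul_eq_mul_div, div_mul_eq_mul_div, ← sub_div, div_eq_iff hΔ]
    ring

/-- The polynomial of a functional relation. -/
noncomputable def Pf (θ : Fin 4 → ℝ) {K E : ℕ}
    (ρ : (Fin E → Option (Fin K × Fin 4)) → Polynomial ℚ) :
    MvPolynomial (Option (Fin K × Fin 4)) ℝ :=
  ∑ w, Polynomial.aeval (MvPolynomial.X none) (ρ w)
    * ∏ e, (w e).elim 1 (fun p => Lf θ p.1 p.2)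

theorem Pf_eval (θ : Fin 4 → ℝ) {K E : ℕ}
    (ρ : (Fin E → Option (Fin K × Fin 4)) → Polynomial ℚ) (v : Option (Fin K × Fin 4) → ℝ)
    (u : Option (Fin K × Fin 4) → ℝ) (hu : u none = 1)
    (hv : ∀ k j, MvPolynomial.eval v (Lf θ k j) = u (some (k, j))) :
    MvPolynomial.eval v (Pf θ ρ)
      = ∑ w, Polynomial.aeval (v none) (ρ w) * ∏ e, u (w e) := by
  unfold Pf
  rw [map_sum]
  apply Finset.sum_congr rfl
  intro w _
  rw [map_mul, map_prod]
  congr 1
  · have h1 : (MvPolynomial.eval v) (Polynomial.aeval (MvPolynomial.X none) (ρ w))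
        = Polynomial.aeval (MvPolynomial.eval v (MvPolynomial.X none)) (ρ w) := by
      have h2 := Polynomial.hom_eval₂ (ρ w) (algebraMap ℚ (MvPolynomial (Option (Fin K × Fin 4)) ℝ))
        (MvPolynomial.eval v) (MvPolynomial.X none)
      rw [Polynomial.aeval_def, h2, Polynomial.aeval_def]
      congr 1
      exact Subsingleton.elim _ _
    rw [h1, MvPolynomial.eval_X]
  · apply Finset.prod_congr rfl
    intro e _
    cases hwe : w e with
    | none => simp [hu]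
    | some p => simp [hv]

end IndR

open IndR in
theorem IndR_proof (hAA : Stmt_AA) (hFull : Stmt_Full) (hThmB : Stmt_ThmB) (hSer : Stmt_Ser)
    (hVal : Stmt_Val) (hWord : Stmt_Word) (hWron : Stmt_Wron) : Stmt_IndR := by
  intro t₀ ht1 ht2 K E
  obtain ⟨κ, hκ⟩ := hAA (Fin E → Option (Fin K × Fin 4)) (2 * K)
  obtain ⟨C, e, hCe⟩ := hFull t₀ ht1 ht2 K E
  obtain ⟨ρ₀, hρ₀, hser⟩ := hSer t₀ ht1 ht2
  have ht1' : (-1 : ℝ) < (t₀ : ℝ) := by exact_mod_cast ht1
  have ht2' : (t₀ : ℝ) < 1 := by exact_mod_cast ht2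
  set ρ₁ : ℝ := min ρ₀ (1 - t₀) with hρ₁
  have hρ₁pos : 0 < ρ₁ := lt_min hρ₀ (by linarith)
  set δ : ℝ := 1 / (2 * ((K : ℝ) * e * κ + 1)) with hδ
  have hδpos : 0 < δ := by positivity
  have hδhalf : δ ≤ 1 / 2 := by
    rw [hδ]
    apply one_div_le_one_div_of_le (by norm_num)
    have : (0 : ℝ) ≤ (K : ℝ) * e * κ := by positivity
    linarith
  have hδκ : (K : ℝ) * δ * e * κ ≤ 1 / 2 := by
    have h1 : (K : ℝ) * δ * e * κ = ((K : ℝ) * e * κ) / (2 * ((K : ℝ) * e * κ + 1)) := by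
      rw [hδ]; ring
    rw [h1, div_le_div_iff₀ (by positivity) (by norm_num)]
    have : (0 : ℝ) ≤ (K : ℝ) * e * κ := by positivity
    linarith
  refine ⟨δ, hδpos, max ((C + 1) ^ (2 * κ)) (⌈1 / ρ₁ ^ 2⌉₊ + 2), ?_⟩
  intro n hn r hr hrb Q hQ0 hQdeg hQval
  have hnC : (C + 1) ^ (2 * κ) ≤ n := le_trans (le_max_left _ _) hn
  have hn2 : ⌈1 / ρ₁ ^ 2⌉₊ + 2 ≤ n := le_trans (le_max_right _ _) hn
  have hn1 : (1 : ℝ) ≤ n := by
    have : 1 ≤ n := by omega
    exact_mod_cast this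
  have hnpos : (0 : ℝ) < n := by linarith
  have hnρ : 1 / ρ₁ ^ 2 < n := by
    have h3 : (⌈1 / ρ₁ ^ 2⌉₊ : ℝ) + 2 ≤ n := by exact_mod_cast hn2
    have h4 := Nat.le_ceil (1 / ρ₁ ^ 2)
    linarith
  -- the numbers
  set ed : ℕ := ∏ l, (r l).den with hed
  have hedpos : 0 < ed := Finset.prod_pos (fun l _ => (r l).den_pos)
  set c : Fin K → ℕ := fun k => (r k).num.toNat * ∏ l ∈ univ.erase k, (r l).den with hc
  have hnum : ∀ k, (((r k).num.toNat : ℕ) : ℚ) = (r k).num := by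
    intro k
    have h3 : 0 < (r k).num := Rat.num_pos.mpr (hrb k).1
    have h4 : (((r k).num.toNat : ℕ) : ℤ) = (r k).num := Int.toNat_of_nonneg h3.le
    exact_mod_cast h4
  have hcr : ∀ k, (c k : ℚ) = r k * ed := by
    intro k
    have h3 : (ed : ℚ) = ((r k).den : ℚ) * ∏ l ∈ univ.erase k, ((r l).den : ℚ) := by
      rw [hed]
      push_cast
      rw [Finset.mul_prod_erase univ (fun l => ((r l).den : ℚ)) (Finset.mem_univ k)]
    rw [h3, hc]
    push_cast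
    rw [hnum, ← mul_assoc, Rat.mul_den_eq_num]
  have hcpos : ∀ k, 1 ≤ c k := by
    intro k
    have h3 : (0 : ℚ) < c k := by
      rw [hcr]
      have : (0 : ℚ) < ed := by exact_mod_cast hedpos
      exact mul_pos (hrb k).1 this
    exact_mod_cast h3
  have hcinj : Function.Injective (fun k => (c k : ℝ)) := by
    intro k k' hkk
    have h3 : (c k : ℚ) = (c k' : ℚ) := by
      have h4 : (c k : ℝ) = (c k' : ℝ) := hkk
      exact_mod_cast h4
    rw [hcr, hcr] at h3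
    have h4 : (ed : ℚ) ≠ 0 := by exact_mod_cast hedpos.ne'
    exact hr (mul_right_cancel₀ h4 h3)
  set n' : ℕ := n * ed with hn'
  have hn'pos : (0 : ℝ) < n' := by
    rw [hn']
    push_cast
    have : (0 : ℝ) < ed := by exact_mod_cast hedpos
    positivity
  have hcz : ∀ k, (c k : ℝ) * (1 / (n' : ℝ)) = (r k : ℝ) / n := by
    intro k
    have h3 : (c k : ℝ) = (r k : ℝ) * ed := by exact_mod_cast hcr k
    have h4 : (ed : ℝ) ≠ 0 := by exact_mod_cast hedpos.ne'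
    rw [h3, hn']
    push_cast
    field_simp
  -- sizes
  have hrpos : ∀ k, (0 : ℝ) < (r k : ℝ) := fun k => by exact_mod_cast (hrb k).1
  have hrn : ∀ k, (r k : ℝ) / n < ρ₁ := by
    intro k
    obtain ⟨h3, h4, h5⟩ := hrb k
    have h6 : ((r k : ℚ) : ℝ) ≤ ((r k).num : ℝ) := by
      have h7 : ((r k : ℚ) : ℝ) = ((r k).num : ℝ) / ((r k).den : ℝ) := by
        exact_mod_cast congrArg (fun x : ℚ => (x : ℝ)) (Rat.num_div_den (r k)).symm
      rw [h7]
      apply div_le_self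
      · have : 0 < (r k).num := Rat.num_pos.mpr h3
        exact_mod_cast this.le
      · exact_mod_cast (r k).den_pos
    have h8 : (n : ℝ) ^ δ ≤ (n : ℝ) ^ (1 / 2 : ℝ) :=
      Real.rpow_le_rpow_of_exponent_le hn1 hδhalf
    have h9 : (n : ℝ) ^ (1 / 2 : ℝ) = √n := by rw [Real.sqrt_eq_rpow]
    have h10 : ((r k : ℚ) : ℝ) ≤ √n := by linarith
    rw [div_lt_iff₀ hnpos]
    have h11 : 1 < ρ₁ * √n := by
      have h12 : 1 < ρ₁ ^ 2 * n := by
        rw [div_lt_iff₀ (by positivity)] at hnρ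
        linarith
      have h13 : (ρ₁ * √n) ^ 2 = ρ₁ ^ 2 * n := by
        rw [mul_pow, Real.sq_sqrt hnpos.le]
      by_contra h14
      push Not at h14
      have h15 : (ρ₁ * √n) ^ 2 ≤ 1 := by
        apply pow_le_one₀ (by positivity) h14
      linarith
    have h16 : √n * √n = n := Real.mul_self_sqrt hnpos.le
    have h17 : 0 < √n := Real.sqrt_pos.mpr hnpos
    nlinarith
  have hrn0 : ∀ k, 0 < (r k : ℝ) / n := fun k => div_pos (hrpos k) hnpos
  -- the bound `b`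
  have hcle : ∀ k, (c k : ℝ) ≤ (n : ℝ) ^ ((K : ℝ) * δ) := by
    intro k
    have h3 : (c k : ℝ) = ((r k).num : ℝ) * ∏ l ∈ univ.erase k, ((r l).den : ℝ) := by
      have h4 : (((r k).num.toNat : ℕ) : ℝ) = ((r k).num : ℝ) := by exact_mod_cast hnum k
      rw [hc]
      push_cast
      rw [h4]
    rw [h3]
    have h4 : ∏ l ∈ univ.erase k, ((r l).den : ℝ) ≤ ∏ _l ∈ univ.erase k, (n : ℝ) ^ δ :=
      Finset.prod_le_prod (fun l _ => by positivity) (fun l _ => (hrb l).2.2)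
    rw [Finset.prod_const, Finset.card_erase_of_mem (Finset.mem_univ k), Finset.card_univ,
      Fintype.card_fin] at h4
    have hK : 1 ≤ K := by
      have := k.2
      omega
    calc ((r k).num : ℝ) * ∏ l ∈ univ.erase k, ((r l).den : ℝ)
        ≤ (n : ℝ) ^ δ * ((n : ℝ) ^ δ) ^ (K - 1) :=
          mul_le_mul (hrb k).2.1 h4 (Finset.prod_nonneg (fun l _ => by positivity)) (by positivity)
      _ = ((n : ℝ) ^ δ) ^ K := by
          rw [← pow_succ']
          congr 1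
          omega
      _ = (n : ℝ) ^ ((K : ℝ) * δ) := by
          rw [← Real.rpow_natCast, ← Real.rpow_mul hnpos.le, mul_comm]
  set b : ℕ := ⌊(n : ℝ) ^ ((K : ℝ) * δ)⌋₊ with hb
  have hb1 : 1 ≤ b := by
    rw [hb]
    apply Nat.le_floor
    simpa using Real.one_le_rpow hn1 (by positivity : (0 : ℝ) ≤ (K : ℝ) * δ)
  have hbn : (b : ℝ) ≤ (n : ℝ) ^ ((K : ℝ) * δ) := Nat.floor_le (by positivity)
  obtain ⟨e₀, c₀, hG⟩ := hCe c b hb1 (fun k => ⟨hcpos k, Nat.le_floor (hcle k)⟩)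
  have hHκ : ((C : ℝ) * (b : ℝ) ^ e) ^ κ ≤ (n' : ℝ) := by
    have h3 : ((C : ℝ) * (b : ℝ) ^ e) ^ κ ≤ ((C : ℝ) + 1) ^ κ * (((b : ℝ) ^ e) ^ κ) := by
      rw [← mul_pow]
      apply pow_le_pow_left₀ (by positivity)
      have : (0 : ℝ) ≤ (b : ℝ) ^ e := by positivity
      nlinarith
    have h4 : ((b : ℝ) ^ e) ^ κ ≤ (n : ℝ) ^ (1 / 2 : ℝ) := by
      calc ((b : ℝ) ^ e) ^ κ ≤ (((n : ℝ) ^ ((K : ℝ) * δ)) ^ e) ^ κ := by
            apply pow_le_pow_left₀ (by positivity)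
            apply pow_le_pow_left₀ (by positivity) hbn
        _ = (n : ℝ) ^ ((K : ℝ) * δ * e * κ) := by
            rw [← Real.rpow_natCast, ← Real.rpow_natCast, ← Real.rpow_mul (by positivity),
              ← Real.rpow_mul (by positivity)]
            congr 1
            ring
        _ ≤ (n : ℝ) ^ (1 / 2 : ℝ) := Real.rpow_le_rpow_of_exponent_le hn1 hδκ
    have h5 : ((C : ℝ) + 1) ^ κ ≤ (n : ℝ) ^ (1 / 2 : ℝ) := by
      have h6 : (((C : ℝ) + 1) ^ κ) ^ 2 ≤ n := by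
        rw [← pow_mul, mul_comm κ 2]
        exact_mod_cast hnC
      rw [← Real.sqrt_eq_rpow]
      exact Real.le_sqrt_of_sq_le h6
    have h6 : (n : ℝ) ^ (1 / 2 : ℝ) * (n : ℝ) ^ (1 / 2 : ℝ) = n := by
      rw [← Real.rpow_add hnpos]
      norm_num
    have h7 : (n : ℝ) ≤ n' := by
      rw [hn']
      push_cast
      have : (1 : ℝ) ≤ ed := by exact_mod_cast hedpos
      nlinarith
    calc ((C : ℝ) * (b : ℝ) ^ e) ^ κ ≤ ((C : ℝ) + 1) ^ κ * (((b : ℝ) ^ e) ^ κ) := h3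
      _ ≤ (n : ℝ) ^ (1 / 2 : ℝ) * (n : ℝ) ^ (1 / 2 : ℝ) :=
          mul_le_mul h5 h4 (by positivity) (by positivity)
      _ = n := h6
      _ ≤ n' := h7
  -- the denominators do not vanish
  have hTne : (∏ k, Tb t₀ (c k)).eval (1 / (n' : ℚ)) ≠ 0 := by
    rw [Polynomial.eval_prod]
    apply Finset.prod_ne_zero_iff.mpr
    intro k _
    have h3 : ((Tb t₀ (c k)).eval (1 / (n' : ℚ)) : ℚ)
        = (t₀.den : ℚ) ^ 2 * (1 - (t₀ + r k / n) ^ 2) := by
      have h4 : (c k : ℚ) * (1 / (n' : ℚ)) = r k / n := by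
        have h4b : (ed : ℚ) ≠ 0 := by exact_mod_cast hedpos.ne'
        rw [hcr, hn']
        push_cast
        field_simp
      have h5 : (t₀.num : ℚ) = t₀ * t₀.den := (Rat.mul_den_eq_num t₀).symm
      simp only [Tb, Polynomial.eval_sub, Polynomial.eval_pow, Polynomial.eval_add,
        Polynomial.eval_mul, Polynomial.eval_C, Polynomial.eval_X]
      rw [mul_assoc, h4, h5]
      ring
    rw [h3]
    have h6 : (0 : ℝ) < 1 - ((t₀ : ℝ) + (r k : ℝ) / n) ^ 2 := by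
      have h7 := hrn k
      have h8 := hrn0 k
      have h9 : ρ₁ ≤ 1 - t₀ := min_le_right _ _
      nlinarith
    have h7 : (0 : ℚ) < 1 - (t₀ + r k / n) ^ 2 := by exact_mod_cast h6
    have h8 : (0 : ℚ) < (t₀.den : ℚ) ^ 2 := by
      have := t₀.den_pos
      positivity
    exact (mul_pos h8 h7).ne'
  -- convergence
  have hconv : ∀ z : ℝ, 0 ≤ z → (∀ k, (c k : ℝ) * z < ρ₀) → ∀ k i, Conv (UV t₀ i) (c k * z) := by
    intro z hz0 hz k i
    apply (hser (c k * z) ?_).1 i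
    rw [abs_of_nonneg (by positivity)]
    exact hz k
  have hz1 : ∀ k, (c k : ℝ) * (1 / (n' : ℝ)) < ρ₀ := by
    intro k
    rw [hcz]
    exact lt_of_lt_of_le (hrn k) (min_le_left _ _)
  have hz0 : (0 : ℝ) ≤ 1 / (n' : ℝ) := by positivity
  -- words
  let ι3 : Fin K × Fin 3 → Fin K × Fin 4 := fun p => (p.1, p.2.castSucc)
  obtain ⟨a, ha⟩ := hWord (Fin K × Fin 4) E (MvPolynomial.rename ι3 Q)
    (le_trans (MvPolynomial.totalDegree_rename_le _ _) hQdeg)
  have hword : ∀ y : Fin K × Fin 4 → ℝ, MvPolynomial.aeval (y ∘ ι3) Q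
      = ∑ w, (a w : ℝ) * ∏ e, ((w e).elim 1 y : ℝ) := by
    intro y
    rw [← MvPolynomial.aeval_rename, ha, map_sum]
    apply Finset.sum_congr rfl
    intro w _
    rw [map_mul, map_prod, MvPolynomial.aeval_C]
    congr 1
    apply Finset.prod_congr rfl
    intro e' _
    cases w e' <;> simp
  have hrel : ∑ w, (a w : ℝ) * val (tens (full t₀ c) E w) (1 / (n' : ℝ)) = 0 := by
    have h3 := hword (fun p => val (UV t₀ p.2) ((c p.1 : ℝ) * (1 / (n' : ℝ))))
    have h4 : (fun p : Fin K × Fin 4 => val (UV t₀ p.2) ((c p.1 : ℝ) * (1 / (n' : ℝ)))) ∘ ι3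
        = fun p => xv t₀ ((r p.1 : ℝ) / n) p.2 := by
      funext p
      simp only [Function.comp, ι3, hcz]
      obtain ⟨p1, p2⟩ := p
      fin_cases p2 <;> rfl
    rw [h4, hQval] at h3
    rw [h3]
    apply Finset.sum_congr rfl
    intro w _
    rw [(tens_val hVal t₀ c _ (hconv _ hz0 hz1) w).2]
    congr 1
    apply Finset.prod_congr rfl
    intro e' _
    cases w e' <;> rfl
  obtain ⟨ρ, hρ1, hρ2⟩ := hκ (tens (full t₀ c) E) (∏ k, Tb t₀ (c k)) e₀ c₀ _ hG
    ⟨fun _ => none, by simp [tens, full]⟩ n' hHκ hTne a hrel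
  -- the functional relation
  have hΔ : Mt (t₀ : ℝ) 0 * Mt (t₀ : ℝ) 3 - Mt (t₀ : ℝ) 1 * Mt (t₀ : ℝ) 2
      = - Real.pi / (1 - (t₀ : ℝ) ^ 2) := hWron t₀ ht1' ht2'
  have h1t : (0 : ℝ) < 1 - (t₀ : ℝ) ^ 2 := by nlinarith
  have hΔne : Mt (t₀ : ℝ) 0 * Mt (t₀ : ℝ) 3 - Mt (t₀ : ℝ) 1 * Mt (t₀ : ℝ) 2 ≠ 0 := by
    rw [hΔ]
    have := Real.pi_pos
    exact (div_neg_of_neg_of_pos (by linarith) h1t).ne
  have hB := hThmB t₀ ht1' ht2' K (fun k => (c k : ℝ)) (fun k => by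
      have := hcpos k
      exact_mod_cast this) hcinj (Pf (Mt (t₀ : ℝ)) ρ) (by
    refine ⟨ρ₀ / (1 + ∑ k, (c k : ℝ)), by positivity, ?_⟩
    intro z hz
    have hS : (0 : ℝ) < 1 + ∑ k, (c k : ℝ) := by positivity
    have hzk : ∀ k, (c k : ℝ) * z < ρ₀ := by
      intro k
      have h3 : (c k : ℝ) ≤ ∑ k, (c k : ℝ) :=
        Finset.single_le_sum (f := fun k => (c k : ℝ)) (fun l _ => by positivity)
          (Finset.mem_univ k)
      have h4 := hz.2
      rw [lt_div_iff₀ hS] at h4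
      have h5 := hz.1
      nlinarith
    rw [Pf_eval (Mt (t₀ : ℝ)) ρ _ (fv t₀ c z) rfl]
    · exact rel_val hVal t₀ c z (hconv z hz.1.le hzk) ρ hρ1
    · intro k j
      obtain ⟨-, -, h5, h6, h7, h8⟩ := hser (c k * z) (by
        rw [abs_of_nonneg (by have := hz.1; positivity)]
        exact hzk k)
      rw [Lf_eval (Mt (t₀ : ℝ)) hΔne k (fun j => val (UV t₀ j) (c k * z)) _ h5 h6 h7 h8 j]
      rfl)
  -- the relation at `1 / n'`
  have hzero : ∀ x : Fin K × Fin 3 → ℝ, (∀ k, x (k, 0) ≠ 0) → MvPolynomial.aeval x Q = (0 : ℝ) := by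
    intro x hx
    set θ := Mt (t₀ : ℝ) with hθ
    let y : Fin K → Fin 4 → ℝ := fun k => ![x (k, 0), x (k, 1), x (k, 2),
      ((1 - (t₀ : ℝ) ^ 2) / (1 - ((t₀ : ℝ) + (r k : ℝ) / n) ^ 2) + x (k, 1) * x (k, 2)) / x (k, 0)]
    have h3 := hB (1 / (n' : ℝ)) (by
      intro k
      rw [hcz]
      have h7 := hrn k
      have h8 := hrn0 k
      have h9 : ρ₁ ≤ 1 - t₀ := min_le_right _ _
      constructor <;> linarith)
      (fun k => ![y k 0 * θ 0 + y k 1 * θ 2, y k 0 * θ 1 + y k 1 * θ 3,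
        y k 2 * θ 0 + y k 3 * θ 2, y k 2 * θ 1 + y k 3 * θ 3]) (by
      intro k
      rw [hcz]
      have h6 : (0 : ℝ) < 1 - ((t₀ : ℝ) + (r k : ℝ) / n) ^ 2 := by
        have h7 := hrn k
        have h8 := hrn0 k
        have h9 : ρ₁ ≤ 1 - t₀ := min_le_right _ _
        nlinarith
      show (y k 0 * θ 0 + y k 1 * θ 2) * (y k 2 * θ 1 + y k 3 * θ 3)
        - (y k 0 * θ 1 + y k 1 * θ 3) * (y k 2 * θ 0 + y k 3 * θ 2) = _
      have h10 : (y k 0 * θ 0 + y k 1 * θ 2) * (y k 2 * θ 1 + y k 3 * θ 3)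
        - (y k 0 * θ 1 + y k 1 * θ 3) * (y k 2 * θ 0 + y k 3 * θ 2)
        = (y k 0 * y k 3 - y k 1 * y k 2) * (θ 0 * θ 3 - θ 1 * θ 2) := by ring
      rw [h10, hΔ]
      have h11 : y k 0 * y k 3 - y k 1 * y k 2
          = (1 - (t₀ : ℝ) ^ 2) / (1 - ((t₀ : ℝ) + (r k : ℝ) / n) ^ 2) := by
        show x (k, 0) * (((1 - (t₀ : ℝ) ^ 2) / (1 - ((t₀ : ℝ) + (r k : ℝ) / n) ^ 2)
          + x (k, 1) * x (k, 2)) / x (k, 0)) - x (k, 1) * x (k, 2) = _
        have h12 := hx k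
        field_simp
        ring
      rw [h11]
      field_simp)
    rw [Pf_eval θ ρ _ (fun o => o.elim 1 (fun p => y p.1 p.2)) rfl] at h3
    · have h4 := hword (fun p => y p.1 p.2)
      have h5 : (fun p : Fin K × Fin 4 => y p.1 p.2) ∘ ι3 = x := by
        funext p
        obtain ⟨p1, p2⟩ := p
        fin_cases p2 <;> rfl
      rw [h5] at h4
      rw [h4, ← h3]
      apply Finset.sum_congr rfl
      intro w _
      congr 1
      have h6 : Polynomial.aeval (1 / (n' : ℝ)) (ρ w)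
          = (((ρ w).eval (1 / (n' : ℚ)) : ℚ) : ℝ) := by
        have h7 : (1 / (n' : ℝ)) = algebraMap ℚ ℝ (1 / (n' : ℚ)) := by simp
        rw [h7, Polynomial.aeval_algebraMap_apply, Polynomial.coe_aeval_eq_eval]
        simp
      show (a w : ℝ) = Polynomial.aeval (1 / (n' : ℝ)) (ρ w)
      rw [h6, hρ2 w]
    · intro k j
      exact Lf_eval θ hΔne k (y k) _ rfl rfl rfl rfl j
  -- the conclusion
  apply hQ0
  have hinj : Function.Injective (algebraMap ℚ ℝ) := (algebraMap ℚ ℝ).injective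
  apply MvPolynomial.map_injective (algebraMap ℚ ℝ) hinj
  rw [map_zero]
  have h3 : MvPolynomial.map (algebraMap ℚ ℝ) Q * ∏ k : Fin K, MvPolynomial.X (k, (0 : Fin 3))
      = 0 := by
    apply MvPolynomial.funext
    intro x
    rw [map_mul, map_prod, map_zero]
    simp only [MvPolynomial.eval_X]
    by_cases hx : ∀ k, x (k, 0) ≠ 0
    · have h4 := hzero x hx
      rw [MvPolynomial.eval_map, ← MvPolynomial.aeval_def, h4, zero_mul]
    · push Not at hx
      obtain ⟨k, hk⟩ := hx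
      rw [Finset.prod_eq_zero (Finset.mem_univ k) hk, mul_zero]
  rcases mul_eq_zero.mp h3 with h4 | h4
  · exact h4
  · exfalso
    rw [Finset.prod_eq_zero_iff] at h4
    obtain ⟨k, _, hk⟩ := h4
    exact MvPolynomial.X_ne_zero _ hk

end Pool.Agent.DGP
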