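import Pool.Agent.DGP.Stmts

/-!
# DGP, module Lcm
-/

set_option autoImplicit false

open Finset

namespace Pool.Agent.DGP

theorem Lcm_proof : Stmt_Lcm := by
  refine ⟨⌈Real.exp (Real.log 4 + 4)⌉₊, fun n => ?_⟩
  have h1 : (Finset.Icc 1 n).lcm id = Nat.lcmUpto n := rfl
  rw [h1]
  have h2 : Real.log (Nat.lcmUpto n) ≤ (Real.log 4 + 4) * n := by
    rw [← Chebyshev.psi_eq_log_lcmUpto]
    exact Chebyshev.psi_le_const_mul_self (Nat.cast_nonneg n)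
  have hpos : (0 : ℝ) < Nat.lcmUpto n := by exact_mod_cast Nat.lcmUpto_pos n
  have h3 : (Nat.lcmUpto n : ℝ) ≤ Real.exp (Real.log 4 + 4) ^ n := by
    rw [← Real.exp_nat_mul, ← Real.log_le_iff_le_exp hpos]
    linarith
  have h4 : (Nat.lcmUpto n : ℝ) ≤ ((⌈Real.exp (Real.log 4 + 4)⌉₊ ^ n : ℕ) : ℝ) := by
    push_cast
    exact h3.trans (pow_le_pow_left₀ (Real.exp_pos _).le (Nat.le_ceil _) n)
  exact_mod_cast h4

end Pool.Agent.DGP
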