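import Pool.Agent.DGP.Stmts

set_option autoImplicit false

/-!
# DGP, module Leg0: Legendre's relation at `0`
-/

open MeasureTheory Set

namespace Pool.Agent.DGP

namespace Leg0

/-- The real beta integral. -/
noncomputable def RB (a b : ℝ) : ℝ := ∫ x in (0 : ℝ)..1, x ^ (a - 1) * (1 - x) ^ (b - 1)

lemma beta_eq (a b : ℝ) : Complex.betaIntegral (a : ℂ) (b : ℂ) = (RB a b : ℂ) := by
  unfold Complex.betaIntegral RB
  rw [← intervalIntegral.integral_ofReal]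
  refine intervalIntegral.integral_congr ?_
  intro x hx
  rw [uIcc_of_le zero_le_one] at hx
  simp only
  rw [Complex.ofReal_mul, Complex.ofReal_cpow hx.1, Complex.ofReal_cpow (by linarith [hx.2])]
  push_cast
  rfl

lemma image_sq : (fun s : ℝ => s ^ 2) '' Ioo 0 1 = Ioo 0 1 := by
  ext u
  constructor
  · rintro ⟨s, hs, rfl⟩
    exact ⟨by have := hs.1; positivity, by nlinarith [hs.1, hs.2]⟩
  · intro hu
    refine ⟨√u, ⟨Real.sqrt_pos.mpr hu.1, ?_⟩, ?_⟩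
    · rw [Real.sqrt_lt' one_pos]
      simpa using hu.2
    · exact Real.sq_sqrt hu.1.le

lemma subst (g : ℝ → ℝ) : ∫ u in (0 : ℝ)..1, g u = ∫ s in (0 : ℝ)..1, 2 * s * g (s ^ 2) := by
  rw [intervalIntegral.integral_of_le zero_le_one, intervalIntegral.integral_of_le zero_le_one,
    integral_Ioc_eq_integral_Ioo, integral_Ioc_eq_integral_Ioo]
  conv_lhs => rw [← image_sq]
  rw [integral_image_eq_integral_abs_deriv_smul (f' := fun s => 2 * s) measurableSet_Ioo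
    (fun x _ => by
      have := (hasDerivAt_pow 2 x).hasDerivWithinAt (s := Ioo 0 1)
      simpa using this)
    (by
      intro x hx y hy h
      simp only at h
      exact (pow_left_inj₀ hx.1.le hy.1.le two_ne_zero).mp h)]
  refine setIntegral_congr_fun measurableSet_Ioo ?_
  intro s hs
  simp only [smul_eq_mul]
  rw [abs_of_pos (by linarith [hs.1])]

lemma sqrt_fac {s : ℝ} (hs : s ∈ Ioo (0 : ℝ) 1) :
    √(s * (1 - s) * (1 + s - 0 * (1 - s))) = √s * √(1 - s ^ 2) := by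
  rw [← Real.sqrt_mul hs.1.le]
  congr 1
  ring

lemma phi0 : RB (1 / 4) (1 / 2) = 2 * phi 0 := by
  unfold RB phi
  rw [subst, ← intervalIntegral.integral_const_mul, intervalIntegral.integral_of_le zero_le_one,
    intervalIntegral.integral_of_le zero_le_one,
    integral_Ioc_eq_integral_Ioo, integral_Ioc_eq_integral_Ioo]
  refine setIntegral_congr_fun measurableSet_Ioo ?_
  intro s hs
  simp only
  rw [sqrt_fac hs]
  have h1 : (s ^ 2 : ℝ) ^ ((1 / 4 : ℝ) - 1) = s ^ (-(3 / 2) : ℝ) := by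
    rw [← Real.rpow_natCast s 2, ← Real.rpow_mul hs.1.le]
    norm_num
  have h2 : s * s ^ (-(3 / 2) : ℝ) = 1 / √s := by
    have h3 : s * s ^ (-(3 / 2) : ℝ) = s ^ (-(1 / 2) : ℝ) := by
      conv_lhs => rw [← Real.rpow_one s, ← Real.rpow_mul hs.1.le, ← Real.rpow_add hs.1]
      norm_num
    rw [h3, Real.rpow_neg hs.1.le, Real.sqrt_eq_rpow, one_div (s ^ (1 / 2 : ℝ))]
  have h4 : 0 < 1 - s ^ 2 := by nlinarith [hs.1, hs.2]
  have h5 : (1 - s ^ 2) ^ ((1 / 2 : ℝ) - 1) = 1 / √(1 - s ^ 2) := by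
    rw [show (1 / 2 : ℝ) - 1 = -(1 / 2) by norm_num, Real.rpow_neg h4.le, Real.sqrt_eq_rpow,
      one_div ((1 - s ^ 2) ^ (1 / 2 : ℝ))]
  rw [h1, h5]
  calc 2 * s * (s ^ (-(3 / 2) : ℝ) * (1 / √(1 - s ^ 2)))
      = 2 * (s * s ^ (-(3 / 2) : ℝ)) * (1 / √(1 - s ^ 2)) := by ring
    _ = _ := by
      rw [h2]
      rw [one_div, one_div, one_div, mul_inv]
      ring

lemma qA0 : RB (3 / 4) (1 / 2) = -2 * qA 0 := by
  have hq : qA 0 = ∫ s in (0 : ℝ)..1, -s / √(((-s) ^ 2 - 1) * (-s - 0)) := by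
    unfold qA
    have := intervalIntegral.integral_comp_neg (a := 0) (b := 1)
      (fun x : ℝ => x / √((x ^ 2 - 1) * (x - 0)))
    rw [neg_zero] at this
    exact this.symm
  rw [hq]
  unfold RB
  rw [subst, ← intervalIntegral.integral_const_mul, intervalIntegral.integral_of_le zero_le_one,
    intervalIntegral.integral_of_le zero_le_one,
    integral_Ioc_eq_integral_Ioo, integral_Ioc_eq_integral_Ioo]
  refine setIntegral_congr_fun measurableSet_Ioo ?_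
  intro s hs
  simp only
  have e0 : √(((-s) ^ 2 - 1) * (-s - 0)) = √s * √(1 - s ^ 2) := by
    rw [← Real.sqrt_mul hs.1.le]
    congr 1
    ring
  rw [e0]
  have h1 : (s ^ 2 : ℝ) ^ ((3 / 4 : ℝ) - 1) = s ^ (-(1 / 2) : ℝ) := by
    rw [← Real.rpow_natCast s 2, ← Real.rpow_mul hs.1.le]
    norm_num
  have h2 : s ^ (-(1 / 2) : ℝ) = 1 / √s := by
    rw [Real.rpow_neg hs.1.le, Real.sqrt_eq_rpow, one_div (s ^ (1 / 2 : ℝ))]
  have h4 : 0 < 1 - s ^ 2 := by nlinarith [hs.1, hs.2]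
  have h5 : (1 - s ^ 2) ^ ((1 / 2 : ℝ) - 1) = 1 / √(1 - s ^ 2) := by
    rw [show (1 / 2 : ℝ) - 1 = -(1 / 2) by norm_num, Real.rpow_neg h4.le, Real.sqrt_eq_rpow,
      one_div ((1 - s ^ 2) ^ (1 / 2 : ℝ))]
  rw [h1, h2, h5]
  rw [one_div, one_div, neg_div, div_eq_mul_inv, mul_inv]
  ring

end Leg0

open Leg0 in
theorem Leg0_proof (hS : Stmt_Subs) : Stmt_Leg0 := by
  unfold Stmt_Leg0
  obtain ⟨-, -, h3, -⟩ := hS 0 (by norm_num) (by norm_num)
  have hd : deriv phi 0 = -qA 0 / 2 := by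
    rw [h3]; ring
  have h1 := Complex.Gamma_mul_Gamma_eq_betaIntegral (s := ((1 / 4 : ℝ) : ℂ))
    (t := ((1 / 2 : ℝ) : ℂ)) (by simp) (by simp)
  have h2 := Complex.Gamma_mul_Gamma_eq_betaIntegral (s := ((3 / 4 : ℝ) : ℂ))
    (t := ((1 / 2 : ℝ) : ℂ)) (by simp) (by simp)
  rw [beta_eq, phi0] at h1
  rw [beta_eq, qA0] at h2
  rw [← Complex.ofReal_add, Complex.Gamma_ofReal, Complex.Gamma_ofReal, Complex.Gamma_ofReal] at h1 h2
  have h1' : Real.Gamma (1 / 4) * Real.Gamma (1 / 2) = Real.Gamma (1 / 4 + 1 / 2) * (2 * phi 0) := by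
    exact_mod_cast h1
  have h2' : Real.Gamma (3 / 4) * Real.Gamma (1 / 2) =
      Real.Gamma (3 / 4 + 1 / 2) * (-2 * qA 0) := by
    exact_mod_cast h2
  rw [Real.Gamma_one_half_eq, show (1 / 4 : ℝ) + 1 / 2 = 3 / 4 by norm_num] at h1'
  rw [Real.Gamma_one_half_eq, show (3 / 4 : ℝ) + 1 / 2 = 1 / 4 + 1 by norm_num,
    Real.Gamma_add_one (by norm_num)] at h2'
  have hg1 : 0 < Real.Gamma (1 / 4) := Real.Gamma_pos_of_pos (by norm_num)
  have hg3 : 0 < Real.Gamma (3 / 4) := Real.Gamma_pos_of_pos (by norm_num)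
  have hpi : √Real.pi * √Real.pi = Real.pi := Real.mul_self_sqrt Real.pi_pos.le
  rw [hd]
  have key : (Real.Gamma (1 / 4) * Real.Gamma (3 / 4)) * (phi 0 * (-qA 0 / 2)) =
      (Real.Gamma (1 / 4) * Real.Gamma (3 / 4)) * (Real.pi / 2) := by
    calc (Real.Gamma (1 / 4) * Real.Gamma (3 / 4)) * (phi 0 * (-qA 0 / 2))
        = (1 / 2) * (Real.Gamma (3 / 4) * (2 * phi 0)) *
            (1 / 4 * Real.Gamma (1 / 4) * (-2 * qA 0)) := by ring
      _ = (1 / 2) * (Real.Gamma (1 / 4) * √Real.pi) * (Real.Gamma (3 / 4) * √Real.pi) := by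
          rw [← h1', ← h2']
      _ = (Real.Gamma (1 / 4) * Real.Gamma (3 / 4)) * (√Real.pi * √Real.pi / 2) := by ring
      _ = _ := by rw [hpi]
  exact mul_left_cancel₀ (mul_pos hg1 hg3).ne' key

end Pool.Agent.DGP
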