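import Pool.Agent.DGP.Stmts

/-! DGP, module LogT: the logarithm is transcendental over germs of analytic functions. -/

open Filter Topology

namespace Pool.Agent.DGP

namespace LogT

lemma log_tendsto : Tendsto (fun y : ℝ => ‖Real.log y‖) (𝓝[>] 0) atTop := by
  have h1 : ∀ y : ℝ, -Real.log y ≤ ‖Real.log y‖ := fun y => by
    rw [Real.norm_eq_abs]; exact neg_le_abs _
  exact tendsto_atTop_mono h1 (tendsto_neg_atBot_atTop.comp Real.tendsto_log_nhdsGT_zero)

lemma mul_log_pow (k : ℕ) :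
    Tendsto (fun y : ℝ => y * |Real.log y| ^ k) (𝓝[>] 0) (𝓝 0) := by
  have h6 : Tendsto (fun x : ℝ => x ^ k / Real.exp x) atTop (𝓝 0) := by
    have h7 := (Polynomial.tendsto_div_exp_atTop ((Polynomial.X ^ k : Polynomial ℝ)))
    simpa using h7
  have h8 : Tendsto (fun y : ℝ => -Real.log y) (𝓝[>] 0) atTop :=
    tendsto_neg_atBot_atTop.comp Real.tendsto_log_nhdsGT_zero
  have h9 := h6.comp h8
  refine h9.congr' ?_
  have h10 : ∀ᶠ y : ℝ in 𝓝[>] 0, y < 1 :=
    mem_of_superset (Ioo_mem_nhdsGT (show (0 : ℝ) < 1 by norm_num)) (fun y hy => hy.2)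
  filter_upwards [h10, self_mem_nhdsWithin] with y hy1 hy0
  have hy0' : (0 : ℝ) < y := hy0
  have h11 : Real.log y < 0 := Real.log_neg hy0' hy1
  simp only [Function.comp]
  rw [abs_of_neg h11, Real.exp_neg, Real.exp_log hy0']
  field_simp

/-- all coefficients vanish at `0` -/
lemma lemB (d : ℕ) (r : Fin (d + 1) → ℝ → ℝ) (hr : ∀ k, AnalyticAt ℝ (r k) 0)
    (h0 : ∀ᶠ y : ℝ in 𝓝[>] 0, ∑ k, r k y * (Real.log y) ^ (k : ℕ) = 0) :
    ∀ k, r k 0 = 0 := by
  set R : Polynomial ℝ := ∑ k : Fin (d + 1),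
    Polynomial.C (r k 0) * Polynomial.X ^ (k : ℕ) with hR
  have hcoeff : ∀ k : Fin (d + 1), R.coeff k = r k 0 := by
    intro k
    rw [hR, Polynomial.finsetSum_coeff]
    simp only [Polynomial.coeff_C_mul, Polynomial.coeff_X_pow]
    rw [Finset.sum_eq_single k]
    · simp
    · intro j _ hj
      rw [if_neg (fun h => hj (Fin.ext h.symm)), mul_zero]
    · intro hk'
      exact absurd (Finset.mem_univ _) hk'
  have hdiff : ∀ k : Fin (d + 1), Tendsto (fun y : ℝ => (r k y - r k 0) *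
      (Real.log y) ^ (k : ℕ)) (𝓝[>] 0) (𝓝 0) := by
    intro k
    have hd : DifferentiableAt ℝ (r k) 0 := (hr k).differentiableAt
    have hO := hd.isBigO_sub
    obtain ⟨c, hc⟩ := hO.bound
    have hc' : ∀ᶠ y : ℝ in 𝓝[>] 0, ‖r k y - r k 0‖ ≤ c * ‖y - 0‖ :=
      hc.filter_mono nhdsWithin_le_nhds
    rw [tendsto_zero_iff_norm_tendsto_zero]
    have h1 := (mul_log_pow (k : ℕ)).const_mul c
    rw [mul_zero] at h1
    refine squeeze_zero' (Eventually.of_forall fun y => norm_nonneg _) ?_ h1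
    filter_upwards [hc', self_mem_nhdsWithin] with y hy hy0
    have hy0' : (0 : ℝ) < y := hy0
    rw [norm_mul, norm_pow]
    rw [sub_zero, Real.norm_of_nonneg hy0'.le] at hy
    calc ‖r k y - r k 0‖ * ‖Real.log y‖ ^ (k : ℕ)
        ≤ (c * y) * ‖Real.log y‖ ^ (k : ℕ) := by gcongr
      _ = c * (y * |Real.log y| ^ (k : ℕ)) := by rw [Real.norm_eq_abs]; ring
  have hsum : Tendsto (fun y : ℝ => ∑ k : Fin (d + 1),
      (r k y - r k 0) * (Real.log y) ^ (k : ℕ)) (𝓝[>] 0) (𝓝 0) := by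
    have := tendsto_finsetSum Finset.univ (fun k (_ : k ∈ Finset.univ) => hdiff k)
    simpa using this
  have hRt : Tendsto (fun y : ℝ => R.eval (Real.log y)) (𝓝[>] 0) (𝓝 0) := by
    have h1 := hsum.neg
    rw [neg_zero] at h1
    refine h1.congr' ?_
    filter_upwards [h0] with y hy
    rw [hR, Polynomial.eval_finsetSum]
    simp only [Polynomial.eval_mul, Polynomial.eval_C, Polynomial.eval_pow, Polynomial.eval_X]
    rw [← zero_sub, ← hy, ← Finset.sum_sub_distrib]
    refine Finset.sum_congr rfl fun k _ => ?_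
    ring
  have hR0 : R = 0 := by
    by_contra hne
    by_cases hdeg : 0 < R.degree
    · have h1 := Polynomial.tendsto_norm_atTop R hdeg log_tendsto
      have h2 := hRt.norm
      rw [norm_zero] at h2
      exact not_tendsto_nhds_of_tendsto_atTop h1 0 h2
    · have h1 : R = Polynomial.C (R.coeff 0) :=
        Polynomial.eq_C_of_degree_le_zero (not_lt.mp hdeg)
      have h2 : (fun y : ℝ => R.eval (Real.log y)) = fun _ => R.coeff 0 := by
        funext y
        rw [h1, Polynomial.eval_C, Polynomial.coeff_C_zero]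
      rw [h2] at hRt
      have h3 := tendsto_nhds_unique hRt tendsto_const_nhds
      apply hne
      rw [h1, ← h3, Polynomial.C_0]
  intro k
  rw [← hcoeff k, hR0, Polynomial.coeff_zero]

end LogT

theorem LogT_proof : Stmt_LogT := by
  intro d a ha h0
  have key : ∀ n : ℕ, ∃ b : Fin (d + 1) → ℝ → ℝ, (∀ i, AnalyticAt ℝ (b i) 0) ∧
      ∀ i, ∀ᶠ x in 𝓝 (0 : ℝ), a i x = x ^ n * b i x := by
    intro n
    induction n with
    | zero => exact ⟨a, ha, fun i => Eventually.of_forall fun x => by simp⟩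
    | succ n ih =>
      obtain ⟨b, hb, hab⟩ := ih
      have hz : ∀ k, b k 0 = 0 := by
        refine LogT.lemB d b hb ?_
        have h1 : ∀ᶠ x in 𝓝[>] (0 : ℝ), ∀ i, a i x = x ^ n * b i x :=
          (eventually_all.2 hab).filter_mono nhdsWithin_le_nhds
        filter_upwards [h1, h0, self_mem_nhdsWithin] with x hx hx0 hxpos
        have hx' : (0 : ℝ) < x := hxpos
        have h2 : x ^ n * ∑ k, b k x * Real.log x ^ (k : ℕ) = 0 := by
          rw [← hx0, Finset.mul_sum]
          refine Finset.sum_congr rfl fun k _ => ?_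
          rw [hx k]; ring
        exact (mul_eq_zero.1 h2).resolve_left (pow_pos hx' n).ne'
      refine ⟨fun i => dslope (b i) 0, fun i => ?_, fun i => ?_⟩
      · obtain ⟨p, hp⟩ := hb i
        exact ⟨_, hp.has_fpower_series_dslope_fslope⟩
      · filter_upwards [hab i] with x hx
        have h3 := sub_smul_dslope (b i) 0 x
        rw [hz i, sub_zero, sub_zero, smul_eq_mul] at h3
        rw [hx, ← h3]
        ring
  intro i
  by_contra hcon
  obtain ⟨m, g, hg, hg0, hgm⟩ := (ha i).exists_eventuallyEq_pow_smul_nonzero_iff.2 hcon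
  obtain ⟨b, hb, hab⟩ := key (m + 1)
  have h1 : ∀ᶠ x in 𝓝[≠] (0 : ℝ), x * b i x = g x := by
    filter_upwards [hgm.filter_mono nhdsWithin_le_nhds, (hab i).filter_mono nhdsWithin_le_nhds,
      self_mem_nhdsWithin] with x hx1 hx2 hx3
    have hx3' : x ≠ 0 := hx3
    rw [sub_zero, smul_eq_mul] at hx1
    rw [hx2] at hx1
    have h4 : x ^ m * (x * b i x) = x ^ m * g x := by rw [← hx1]; ring
    exact mul_left_cancel₀ (pow_ne_zero m hx3') h4
  have h2 : Tendsto g (𝓝[≠] 0) (𝓝 (g 0)) :=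
    hg.continuousAt.tendsto.mono_left nhdsWithin_le_nhds
  have h3 : Tendsto (fun x => x * b i x) (𝓝[≠] (0 : ℝ)) (𝓝 (0 * b i 0)) :=
    (tendsto_id.mul (hb i).continuousAt.tendsto).mono_left nhdsWithin_le_nhds
  rw [zero_mul] at h3
  exact hg0 (tendsto_nhds_unique h2 (h3.congr' h1))

end Pool.Agent.DGP
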