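import Pool.Agent.DGP.Stmts

set_option autoImplicit false

open Finset

namespace Pool.Agent.DGP

theorem Mono_proof : Stmt_Mono := by
  intro ι _ G T τ e₀ τ' e₀' c₀ H c₀' H' h hτ he hc hH
  have hc0 : (0 : ℝ) ≤ c₀ := le_trans zero_le_one h.one_le
  have hH0 : (0 : ℝ) ≤ H := le_trans (by norm_num) h.two_le
  have key : ∀ k : ℕ, c₀ * H ^ k ≤ c₀' * H' ^ k := by
    intro k
    exact mul_le_mul hc (pow_le_pow_left₀ hH0 hH k) (pow_nonneg hH0 k) (le_trans hc0 hc)
  refine ⟨le_trans h.one_le hc, le_trans h.two_le hH, h.T_int, h.T_zero, le_trans h.T_deg hτ, ?_,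
    ?_, ?_, ?_⟩
  · have e : ∑ i ∈ range (τ' + 1), |(T.coeff i : ℝ)| = ∑ i ∈ range (τ + 1), |(T.coeff i : ℝ)| := by
      symm
      apply Finset.sum_subset
      · intro i hi
        rw [mem_range] at *
        omega
      · intro i _ hi2
        rw [mem_range] at hi2
        have hT := h.T_deg
        have h0 : T.coeff i = 0 := Polynomial.coeff_eq_zero_of_natDegree_lt (by omega)
        rw [h0]
        simp
    rw [e]
    exact le_trans h.T_size hH
  · obtain ⟨B, q, h1, h2, h3, h4, h5⟩ := h.sys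
    refine ⟨B, q, h1, ?_, ?_, ?_, h5⟩
    · intro k i j
      have := h2 k i j
      have h6 : τ * k ≤ τ' * k := Nat.mul_le_mul_right k hτ
      omega
    · intro k i j l
      exact le_trans (h3 k i j l) (key k)
    · intro k
      obtain ⟨a, b, c⟩ := h4 k
      exact ⟨a, b, le_trans c (key k)⟩
  · intro i j
    exact le_trans (h.size i j) (key j)
  · obtain ⟨d, h1, h2⟩ := h.den
    refine ⟨d, ?_, h2⟩
    intro j
    obtain ⟨a, b, c⟩ := h1 j
    exact ⟨a, b, le_trans c (key j)⟩

end Pool.Agent.DGP
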