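import Pool.Agent.DGP.Stmts

set_option autoImplicit false

/-!
The differential equation of `phi`.
-/

open MeasureTheory Set Filter Topology

namespace Pool.Agent.DGP

namespace Ode

/-- The weight. -/
noncomputable def w (s : ℝ) : ℝ := 1 / √(s * (1 - s))

/-- The third factor. -/
noncomputable def Q (t s : ℝ) : ℝ := 1 + s - t * (1 - s)

/-- The integrand of the `k`-th derivative. -/
noncomputable def F (k : ℕ) (t s : ℝ) : ℝ := w s * (1 - s) ^ k * (Q t s) ^ (-((k : ℝ) + 1 / 2))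

/-- The integral. -/
noncomputable def J (k : ℕ) (t : ℝ) : ℝ := ∫ s in (0 : ℝ)..1, F k t s

lemma w_nonneg (s : ℝ) : 0 ≤ w s := by unfold w; positivity

lemma w_int : IntervalIntegrable w volume 0 1 := by
  have h : IntervalIntegrable w volume 0 1 := by
    apply intervalIntegral.intervalIntegrable_deriv_of_nonneg
      (g := fun s => Real.arcsin (2 * s - 1))
    · exact (Real.continuous_arcsin.comp (by fun_prop)).continuousOn
    · intro x hx
      rw [min_eq_left zero_le_one, max_eq_right zero_le_one] at hx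
      have h1 : HasDerivAt (fun s : ℝ => 2 * s - 1) 2 x := by
        simpa using ((hasDerivAt_id x).const_mul 2).sub_const 1
      have h2 := (Real.hasDerivAt_arcsin (x := 2 * x - 1) (by linarith [hx.1])
        (by linarith [hx.2])).comp x h1
      have h3 : 1 / √(1 - (2 * x - 1) ^ 2) * 2 = w x := by
        have e : 1 - (2 * x - 1) ^ 2 = 2 ^ 2 * (x * (1 - x)) := by ring
        have hp : 0 < x * (1 - x) := mul_pos hx.1 (by linarith [hx.2])
        rw [e, Real.sqrt_mul (by norm_num), Real.sqrt_sq (by norm_num)]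
        unfold w
        have : 0 < √(x * (1 - x)) := Real.sqrt_pos.2 hp
        field_simp
      rw [h3] at h2
      exact h2
    · intro x _
      exact w_nonneg x
  exact h

lemma Q_ge {t s : ℝ} (ht : -1 ≤ t) (hs : 0 ≤ s) : 1 - t ≤ Q t s := by
  unfold Q
  nlinarith

lemma meas (k : ℕ) (t : ℝ) : Measurable (F k t) := by
  unfold F w Q
  fun_prop

lemma bd (k : ℕ) {t s d : ℝ} (ht : -1 ≤ t) (hd : 0 < d) (htd : d ≤ 1 - t) (hs : 0 ≤ s)
    (hs1 : s ≤ 1) : |F k t s| ≤ d ^ (-((k : ℝ) + 1 / 2)) * w s := by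
  have hQ : d ≤ Q t s := htd.trans (Q_ge ht hs)
  have h1 : (Q t s) ^ (-((k : ℝ) + 1 / 2)) ≤ d ^ (-((k : ℝ) + 1 / 2)) := by
    apply Real.rpow_le_rpow_of_nonpos hd hQ
    have : (0 : ℝ) ≤ k := Nat.cast_nonneg k
    linarith
  have h0 : 0 ≤ (Q t s) ^ (-((k : ℝ) + 1 / 2)) := Real.rpow_nonneg (hd.le.trans hQ) _
  have h2 : (1 - s) ^ k ≤ 1 := pow_le_one₀ (by linarith) (by linarith)
  have h3 : 0 ≤ (1 - s) ^ k := pow_nonneg (by linarith) k
  have hF : 0 ≤ F k t s := by
    unfold F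
    exact mul_nonneg (mul_nonneg (w_nonneg s) h3) h0
  rw [abs_of_nonneg hF]
  unfold F
  calc w s * (1 - s) ^ k * (Q t s) ^ (-((k : ℝ) + 1 / 2))
      ≤ w s * 1 * d ^ (-((k : ℝ) + 1 / 2)) := by
        apply mul_le_mul _ h1 h0 (by simpa using w_nonneg s)
        exact mul_le_mul_of_nonneg_left h2 (w_nonneg s)
    _ = _ := by ring

lemma F_int (k : ℕ) {t : ℝ} (ht : -1 < t) (ht1 : t < 1) :
    IntervalIntegrable (F k t) volume 0 1 := by
  have h := w_int.const_mul ((1 - t) ^ (-((k : ℝ) + 1 / 2)))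
  apply h.mono_fun (meas k t).aestronglyMeasurable
  rw [uIoc_of_le zero_le_one]
  refine (ae_restrict_iff' measurableSet_Ioc).2 (Eventually.of_forall fun s hs => ?_)
  have hb := bd k (t := t) (s := s) (d := 1 - t) ht.le (by linarith) le_rfl hs.1.le hs.2
  show |F k t s| ≤ |(1 - t) ^ (-((k : ℝ) + 1 / 2)) * w s|
  exact hb.trans (le_abs_self _)

lemma F_deriv (k : ℕ) {t s : ℝ} (hQ : 0 < Q t s) :
    HasDerivAt (fun t => F k t s) (((k : ℝ) + 1 / 2) * F (k + 1) t s) t := by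
  have h1 : HasDerivAt (fun t => Q t s) (-(1 - s)) t := by
    unfold Q
    have := ((hasDerivAt_id t).mul_const (1 - s)).const_sub (1 + s)
    simpa using this
  have h2 := h1.rpow_const (p := -((k : ℝ) + 1 / 2)) (Or.inl hQ.ne')
  have h3 := h2.const_mul (w s * (1 - s) ^ k)
  have e : w s * (1 - s) ^ k * (-(1 - s) * -((k : ℝ) + 1 / 2) *
      Q t s ^ (-((k : ℝ) + 1 / 2) - 1)) = ((k : ℝ) + 1 / 2) * F (k + 1) t s := by
    unfold F
    have : (-((k : ℝ) + 1 / 2) - 1) = -(((k + 1 : ℕ) : ℝ) + 1 / 2) := by push_cast; ring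
    rw [this]
    ring
  rw [e] at h3
  exact h3

lemma J_deriv (k : ℕ) {t : ℝ} (ht : -1 < t) (ht1 : t < 1) :
    HasDerivAt (J k) (((k : ℝ) + 1 / 2) * J (k + 1) t) t := by
  have hd : 0 < (1 - t) / 2 := by linarith
  set d : ℝ := (1 - t) / 2 with hdd
  have hs : Ioo (-1 : ℝ) (1 - d) ∈ 𝓝 t := Ioo_mem_nhds ht (by rw [hdd]; linarith)
  have key := intervalIntegral.hasDerivAt_integral_of_dominated_loc_of_deriv_le
    (μ := volume) (a := 0) (b := 1) (F := F k)
    (F' := fun x s => ((k : ℝ) + 1 / 2) * F (k + 1) x s) (x₀ := t) (s := Ioo (-1 : ℝ) (1 - d))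
    (bound := fun s => ((k : ℝ) + 1 / 2) * (d ^ (-(((k + 1 : ℕ) : ℝ) + 1 / 2)) * w s))
    hs (Eventually.of_forall fun x => (meas k x).aestronglyMeasurable) (F_int k ht ht1)
    ((meas (k + 1) t).const_mul _).aestronglyMeasurable
    (by
      refine Eventually.of_forall fun s hs x hx => ?_
      rw [uIoc_of_le zero_le_one] at hs
      have hb := bd (k + 1) (t := x) (s := s) (d := d) hx.1.le hd (by linarith [hx.2]) hs.1.le hs.2
      rw [norm_mul, Real.norm_eq_abs, Real.norm_eq_abs, abs_of_nonneg (by positivity)]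
      exact mul_le_mul_of_nonneg_left hb (by positivity))
    ((w_int.const_mul _).const_mul _)
    (by
      refine Eventually.of_forall fun s hs x hx => ?_
      rw [uIoc_of_le zero_le_one] at hs
      apply F_deriv
      have := Q_ge (t := x) (s := s) hx.1.le hs.1.le
      linarith [hx.2])
  have h2 := key.2
  rw [intervalIntegral.integral_const_mul] at h2
  exact h2

lemma phi_eq {t : ℝ} (ht : -1 < t) (ht1 : t < 1) : phi t = J 0 t := by
  unfold phi J
  apply intervalIntegral.integral_congr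
  intro s hs
  rw [uIcc_of_le zero_le_one] at hs
  have hQ : 0 < Q t s := by
    have := Q_ge (t := t) (s := s) ht.le hs.1
    linarith
  show 1 / √(s * (1 - s) * Q t s) = F 0 t s
  have h0 : 0 ≤ s * (1 - s) := mul_nonneg hs.1 (by linarith [hs.2])
  unfold F w
  rw [Real.sqrt_mul h0, Real.rpow_neg hQ.le]
  have e : ((0 : ℕ) : ℝ) + 1 / 2 = 1 / 2 := by norm_num
  rw [e, ← Real.sqrt_eq_rpow]
  rw [pow_zero, mul_one, one_div, one_div, mul_inv]

lemma phi_deriv {t : ℝ} (ht : -1 < t) (ht1 : t < 1) : deriv phi t = 1 / 2 * J 1 t := by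
  have h : phi =ᶠ[𝓝 t] J 0 := by
    filter_upwards [Ioo_mem_nhds ht ht1] with x hx
    exact phi_eq hx.1 hx.2
  rw [h.deriv_eq, (J_deriv 0 ht ht1).deriv]
  norm_num

lemma phi_deriv2 {t : ℝ} (ht : -1 < t) (ht1 : t < 1) :
    deriv (deriv phi) t = 3 / 4 * J 2 t := by
  have h : deriv phi =ᶠ[𝓝 t] fun t => 1 / 2 * J 1 t := by
    filter_upwards [Ioo_mem_nhds ht ht1] with x hx
    exact phi_deriv hx.1 hx.2
  rw [h.deriv_eq, ((J_deriv 1 ht ht1).const_mul (1 / 2)).deriv]
  norm_num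
  ring

/-- The primitive. -/
noncomputable def g (t s : ℝ) : ℝ := √(s * (1 - s)) * (Q t s) ^ (-(3 / 2 : ℝ))

lemma g_deriv {t s : ℝ} (ht : -1 < t) (ht1 : t < 1) (hs : 0 < s) (hs1 : s < 1) :
    HasDerivAt (g t) ((1 - t ^ 2) * (3 / 4) * F 2 t s - t * F 1 t s - 1 / 4 * F 0 t s) s := by
  have hQ : 0 < Q t s := by
    have := Q_ge (t := t) (s := s) ht.le hs.le
    linarith
  have hp : 0 < s * (1 - s) := mul_pos hs (by linarith)
  have hr : 0 < √(s * (1 - s)) := Real.sqrt_pos.2 hp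
  have h1 : HasDerivAt (fun s : ℝ => s * (1 - s)) (1 - 2 * s) s := by
    have := (hasDerivAt_id' s).mul ((hasDerivAt_id' s).const_sub 1)
    have e : 1 * (1 - s) + s * -1 = 1 - 2 * s := by ring
    rw [e] at this
    exact this
  have h2 := h1.sqrt hp.ne'
  have h3 : HasDerivAt (fun s => Q t s) (1 + t) s := by
    unfold Q
    have := ((hasDerivAt_id' s).const_add 1).sub (((hasDerivAt_id' s).const_sub 1).const_mul t)
    have e : 1 - t * -1 = 1 + t := by ring
    rw [e] at this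
    exact this
  have h4 := h3.rpow_const (p := -(3 / 2 : ℝ)) (Or.inl hQ.ne')
  have h5 := h2.mul h4
  have e : (1 - 2 * s) / (2 * √(s * (1 - s))) * Q t s ^ (-(3 / 2 : ℝ)) +
      √(s * (1 - s)) * ((1 + t) * -(3 / 2 : ℝ) * Q t s ^ (-(3 / 2 : ℝ) - 1)) =
      (1 - t ^ 2) * (3 / 4) * F 2 t s - t * F 1 t s - 1 / 4 * F 0 t s := by
    have e1 : Q t s ^ (-(3 / 2 : ℝ)) = Q t s * Q t s ^ (-(5 / 2 : ℝ)) := by
      have : (-(3 / 2 : ℝ)) = 1 + (-(5 / 2 : ℝ)) := by norm_num
      rw [this, Real.rpow_add hQ, Real.rpow_one]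
    have e0 : Q t s ^ (-(1 / 2 : ℝ)) = (Q t s) ^ 2 * Q t s ^ (-(5 / 2 : ℝ)) := by
      have : (-(1 / 2 : ℝ)) = 2 + (-(5 / 2 : ℝ)) := by norm_num
      rw [this, Real.rpow_add hQ, Real.rpow_two]
    have e2 : Q t s ^ (-(3 / 2 : ℝ) - 1) = Q t s ^ (-(5 / 2 : ℝ)) := by norm_num
    unfold F
    have f0 : (-(((0 : ℕ) : ℝ) + 1 / 2)) = -(1 / 2 : ℝ) := by norm_num
    have f1 : (-(((1 : ℕ) : ℝ) + 1 / 2)) = -(3 / 2 : ℝ) := by norm_num
    have f2 : (-(((2 : ℕ) : ℝ) + 1 / 2)) = -(5 / 2 : ℝ) := by norm_num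
    rw [f0, f1, f2, e2, e1, e0]
    have hsq : √(s * (1 - s)) = w s * (s * (1 - s)) := by
      unfold w
      rw [one_div, inv_mul_eq_div, eq_div_iff hr.ne', Real.mul_self_sqrt hp.le]
    have hw : (1 - 2 * s) / (2 * √(s * (1 - s))) = (1 - 2 * s) / 2 * w s := by
      unfold w
      field_simp
    rw [hw, hsq]
    unfold Q
    ring
  rw [e] at h5
  exact h5

lemma g_cont {t : ℝ} (ht : -1 < t) (ht1 : t < 1) : ContinuousOn (g t) (Icc 0 1) := by
  unfold g
  apply ContinuousOn.mul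
  · fun_prop
  · apply ContinuousOn.rpow_const
    · unfold Q
      fun_prop
    · intro s hs
      left
      have := Q_ge (t := t) (s := s) ht.le hs.1
      linarith

lemma main {t : ℝ} (ht : -1 < t) (ht1 : t < 1) :
    (1 - t ^ 2) * (3 / 4) * J 2 t - t * J 1 t - 1 / 4 * J 0 t = 0 := by
  have i2 := (F_int 2 ht ht1).const_mul ((1 - t ^ 2) * (3 / 4))
  have i1 := (F_int 1 ht ht1).const_mul t
  have i0 := (F_int 0 ht ht1).const_mul (1 / 4)
  have h := intervalIntegral.integral_eq_sub_of_hasDerivAt_of_le (zero_le_one (α := ℝ))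
    (g_cont ht ht1) (fun s hs => g_deriv ht ht1 hs.1 hs.2) ((i2.sub i1).sub i0)
  rw [intervalIntegral.integral_sub (i2.sub i1) i0, intervalIntegral.integral_sub i2 i1,
    intervalIntegral.integral_const_mul, intervalIntegral.integral_const_mul,
    intervalIntegral.integral_const_mul] at h
  have hg : g t 1 - g t 0 = 0 := by unfold g; simp
  rw [hg] at h
  exact h

end Ode

theorem Ode_proof (_hPhiAn : Stmt_PhiAn) : Stmt_Ode := by
  intro t ht ht1
  rw [Ode.phi_deriv2 ht ht1, Ode.phi_deriv ht ht1, Ode.phi_eq ht ht1]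
  have := Ode.main ht ht1
  linarith

end Pool.Agent.DGP
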