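import Pool.Agent.DGP.Stmts

set_option autoImplicit false

/-!
Module `Orb`: a functional relation holds on the whole orbit of `SL_2`.
-/

open Finset

namespace Pool.Agent.DGP

namespace Orb

variable {σ : Type}

/-- `T` transforms polynomials into polynomials. -/
def IsPol (T : (Fin 4 → ℝ) → Fin 4 → ℝ) : Prop := ∀ P : MvPolynomial (σ ⊕ Fin 4) ℝ,
  ∃ P' : MvPolynomial (σ ⊕ Fin 4) ℝ, ∀ (x : σ → ℝ) (M : Fin 4 → ℝ),
    MvPolynomial.eval (Sum.elim x M) P' = MvPolynomial.eval (Sum.elim x (T M)) P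

theorem isPol_of (T : (Fin 4 → ℝ) → Fin 4 → ℝ) (q : Fin 4 → MvPolynomial (Fin 4) ℝ)
    (h : ∀ M i, MvPolynomial.eval M (q i) = T M i) : IsPol (σ := σ) T := by
  intro P
  refine ⟨MvPolynomial.bind₁ (Sum.elim (fun i => MvPolynomial.X (Sum.inl i))
    (fun i => MvPolynomial.rename Sum.inr (q i))) P, ?_⟩
  intro x M
  have key : MvPolynomial.aeval (Sum.elim x M) (MvPolynomial.bind₁
      (Sum.elim (fun i => MvPolynomial.X (Sum.inl i))
        (fun i => MvPolynomial.rename Sum.inr (q i))) P) =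
      MvPolynomial.aeval (Sum.elim x (T M)) P := by
    rw [MvPolynomial.aeval_bind₁]
    have hfun : (fun i => MvPolynomial.aeval (Sum.elim x M)
        ((Sum.elim (fun i => MvPolynomial.X (Sum.inl i))
          (fun i => MvPolynomial.rename Sum.inr (q i)) : σ ⊕ Fin 4 →
            MvPolynomial (σ ⊕ Fin 4) ℝ) i)) = Sum.elim x (T M) := by
      funext i
      rcases i with i | i
      · simp
      · simp only [Sum.elim_inr, MvPolynomial.aeval_rename]
        rw [← h M i, MvPolynomial.aeval_eq_eval]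
        rfl
    rw [hfun]
  rwa [MvPolynomial.aeval_eq_eval, MvPolynomial.aeval_eq_eval] at key

theorem isPol_eR (s : ℝ) : IsPol (σ := σ) (eR s) := by
  apply isPol_of (eR s) ![MvPolynomial.X 0 + MvPolynomial.C s * MvPolynomial.X 1,
    MvPolynomial.X 1, MvPolynomial.X 2 + MvPolynomial.C s * MvPolynomial.X 3, MvPolynomial.X 3]
  intro M i
  fin_cases i <;> simp [eR]

theorem isPol_eL (s : ℝ) : IsPol (σ := σ) (eL s) := by
  apply isPol_of (eL s) ![MvPolynomial.X 0, MvPolynomial.X 1 + MvPolynomial.C s * MvPolynomial.X 0,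
    MvPolynomial.X 2, MvPolynomial.X 3 + MvPolynomial.C s * MvPolynomial.X 2]
  intro M i
  fin_cases i <;> simp [eL]

/-- `T` preserves relations. -/
def Inv (S : Set ℝ) (f : σ → ℝ → ℝ) (M : ℝ → Fin 4 → ℝ) (T : (Fin 4 → ℝ) → Fin 4 → ℝ) : Prop :=
  ∀ P : MvPolynomial (σ ⊕ Fin 4) ℝ,
    (∀ z ∈ S, MvPolynomial.eval (Sum.elim (fun i => f i z) (M z)) P = 0) →
    ∀ z ∈ S, MvPolynomial.eval (Sum.elim (fun i => f i z) (T (M z))) P = 0

theorem inv_comp {S : Set ℝ} {f : σ → ℝ → ℝ} {M : ℝ → Fin 4 → ℝ}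
    {T T' : (Fin 4 → ℝ) → Fin 4 → ℝ} (h : Inv S f M T) (h' : Inv S f M T')
    (hp : IsPol (σ := σ) T') : Inv S f M (fun m => T' (T m)) := by
  intro P hP z hz
  obtain ⟨P', hP'⟩ := hp P
  rw [← hP']
  apply h P' _ z hz
  intro w hw
  rw [hP']
  exact h' P hP w hw

/-- Factorisation into elementary matrices. -/
theorem factor (M N : Fin 4 → ℝ) (h : N 0 * N 3 - N 1 * N 2 = M 0 * M 3 - M 1 * M 2)
    (h0 : M 0 * M 3 - M 1 * M 2 ≠ 0) (hc : M 0 * N 2 - M 2 * N 0 ≠ 0) :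
    ∃ x s y : ℝ, N = eL y (eR s (eL x M)) := by
  set Δ := M 0 * M 3 - M 1 * M 2 with hΔ
  set c := (M 0 * N 2 - M 2 * N 0) / Δ with hcdef
  set a := (N 0 * M 3 - M 1 * N 2) / Δ with hadef
  set d := (M 0 * N 3 - M 2 * N 1) / Δ with hddef
  have hc' : c ≠ 0 := div_ne_zero hc h0
  refine ⟨(a - 1) / c, c, (d - 1) / c, ?_⟩
  have e0 : N 0 = M 0 * a + M 1 * c := by
    rw [hadef, hcdef]; field_simp; rw [hΔ]; ring
  have e2 : N 2 = M 2 * a + M 3 * c := by
    rw [hadef, hcdef]; field_simp; rw [hΔ]; ring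
  set b := (N 1 * M 3 - M 1 * N 3) / Δ with hbdef
  have e1 : N 1 = M 0 * b + M 1 * d := by
    rw [hbdef, hddef]; field_simp; rw [hΔ]; ring
  have e3 : N 3 = M 2 * b + M 3 * d := by
    rw [hbdef, hddef]; field_simp; rw [hΔ]; ring
  have hdet : a * d - b * c = 1 := by
    have h1 : (a * d - b * c) * Δ = Δ := by
      calc (a * d - b * c) * Δ = N 0 * N 3 - N 1 * N 2 := by
            rw [e0, e1, e2, e3, hΔ]; ring
        _ = Δ := h
    have h2 : (a * d - b * c - 1) * Δ = 0 := by linarith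
    rcases mul_eq_zero.1 h2 with h3 | h3
    · linarith
    · exact absurd h3 h0
  have hb : b = a * ((d - 1) / c) + (a - 1) / c := by
    field_simp
    linarith
  funext i
  fin_cases i
  · change N 0 = (M 0) + c * (M 1 + (a - 1) / c * M 0)
    rw [e0]; field_simp; ring
  · change N 1 = (M 1 + (a - 1) / c * M 0) +
      (d - 1) / c * ((M 0) + c * (M 1 + (a - 1) / c * M 0))
    rw [e1, hb]; field_simp; ring
  · change N 2 = (M 2) + c * (M 3 + (a - 1) / c * M 2)
    rw [e2]; field_simp; ring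
  · change N 3 = (M 3 + (a - 1) / c * M 2) +
      (d - 1) / c * ((M 2) + c * (M 3 + (a - 1) / c * M 2))
    rw [e3, hb]; field_simp; ring

end Orb

open Orb

/-- The relations hold on the whole orbit. -/
theorem Orb_proof (hR : Stmt_StepR) (hL : Stmt_StepL) (hW : Stmt_Wron) : Stmt_Orb := by
  intro σ _ t₀ c h1 h2 hc f hf P hP z hz N hN
  set S := Set.Ioo (-(1 + t₀) / c) ((1 - t₀) / c) with hS
  have hIR : ∀ s, Inv S f (fun z => Mt (t₀ + c * z)) (eR s) := by
    intro s P hP z hz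
    exact hR σ t₀ c h1 h2 hc f hf P hP s z hz
  have hIL : ∀ s, Inv S f (fun z => Mt (t₀ + c * z)) (eL s) := by
    intro s P hP z hz
    exact hL σ t₀ c h1 h2 hc f hf P hP s z hz
  have ht : -1 < t₀ + c * z ∧ t₀ + c * z < 1 := by
    obtain ⟨hz1, hz2⟩ := hz
    rw [div_lt_iff₀ hc] at hz1
    rw [lt_div_iff₀ hc] at hz2
    constructor <;> nlinarith
  have hw := hW (t₀ + c * z) ht.1 ht.2
  set M := Mt (t₀ + c * z) with hM
  have hpos : 0 < 1 - (t₀ + c * z) ^ 2 := by nlinarith [ht.1, ht.2]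
  have hne : M 0 * M 3 - M 1 * M 2 ≠ 0 := by
    rw [hw]
    exact div_ne_zero (neg_ne_zero.2 Real.pi_ne_zero) hpos.ne'
  have hdet : N 0 * N 3 - N 1 * N 2 = M 0 * M 3 - M 1 * M 2 := by rw [hN, hw]
  have h3 : ∀ x s y : ℝ, Inv S f (fun z => Mt (t₀ + c * z)) (fun m => eL y (eR s (eL x m))) := by
    intro x s y
    exact inv_comp (inv_comp (hIL x) (hIR s) (isPol_eR s)) (hIL y) (isPol_eL y)
  by_cases hcc : M 0 * N 2 - M 2 * N 0 ≠ 0
  · obtain ⟨x, s, y, hxy⟩ := factor M N hdet hne hcc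
    rw [hxy]
    exact h3 x s y P hP z hz
  · push Not at hcc
    -- multiply by an elementary matrix first
    have hdet' : (eR 1 N) 0 * (eR 1 N) 3 - (eR 1 N) 1 * (eR 1 N) 2 =
        M 0 * M 3 - M 1 * M 2 := by
      rw [← hdet]
      change (N 0 + 1 * N 1) * N 3 - N 1 * (N 2 + 1 * N 3) = _
      ring
    have hcc' : M 0 * (eR 1 N) 2 - M 2 * (eR 1 N) 0 ≠ 0 := by
      change M 0 * (N 2 + 1 * N 3) - M 2 * (N 0 + 1 * N 1) ≠ 0
      intro h0
      have h4 : M 0 * N 3 - M 2 * N 1 = 0 := by linarith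
      -- then both rows are proportional and the determinant vanishes
      have h5 : (M 0 * M 3 - M 1 * M 2) * (N 0 * N 3 - N 1 * N 2) =
          (M 0 * N 3 - M 2 * N 1) * (N 0 * M 3 - N 2 * M 1) -
          (M 0 * N 2 - M 2 * N 0) * (N 1 * M 3 - N 3 * M 1) := by ring
      rw [h4, hcc, hdet] at h5
      have h6 : (M 0 * M 3 - M 1 * M 2) * (M 0 * M 3 - M 1 * M 2) = 0 := by
        rw [h5]; ring
      rcases mul_eq_zero.1 h6 with h7 | h7 <;> exact hne h7
    obtain ⟨x, s, y, hxy⟩ := factor M (eR 1 N) hdet' hne hcc'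
    have hNN : N = eR (-1) (eL y (eR s (eL x M))) := by
      rw [← hxy]
      funext i
      fin_cases i
      · change N 0 = (N 0 + 1 * N 1) + (-1) * N 1
        ring
      · rfl
      · change N 2 = (N 2 + 1 * N 3) + (-1) * N 3
        ring
      · rfl
    rw [hNN]
    exact inv_comp (h3 x s y) (hIR (-1)) (isPol_eR (-1)) P hP z hz

end Pool.Agent.DGP
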