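import Pool.Agent.DGP.Stmts
import Pool.Agent.HGP.PINT
import Pool.Agent.HGP.INTG

set_option autoImplicit false

/-!
Analyticity and positivity of `phi`.
-/

open MeasureTheory Set

namespace Pool.Agent.DGP

namespace PhiAn

/-- The weight. -/
noncomputable def w (s : ℝ) : ℝ := 1 / √(s * (1 - s))

theorem w_int : IntervalIntegrable w volume 0 1 := by
  have h := Pool.Agent.HGP.intg_proof 0 1 (fun _ => 1) one_pos continuousOn_const
    (fun _ _ => one_pos)
  refine h.congr ?_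
  intro x hx
  rw [uIoc_of_le zero_le_one] at hx
  show 1 / √(|(x - 0) * (x - 1)| * 1) = 1 / √(x * (1 - x))
  have h1 : |(x - 0) * (x - 1)| = x * (1 - x) := by
    rw [abs_of_nonpos (by nlinarith [hx.1, hx.2])]
    ring
  rw [h1, mul_one]

/-- `Q > 0`. -/
theorem Q_pos {t s : ℝ} (ht : t < 1) (h0 : 0 ≤ s) (h1 : s ≤ 1) : 0 < 1 + s - t * (1 - s) := by
  rcases eq_or_lt_of_le h1 with h | h
  · rw [h]; norm_num
  · nlinarith [mul_pos (sub_pos.2 ht) (sub_pos.2 h)]

/-- The half plane. -/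
def V : Set ℂ := {z | z.re < 1}

theorem V_open : IsOpen V := isOpen_lt Complex.continuous_re continuous_const

/-- The kernel. -/
noncomputable def k (z : ℂ) (s : ℝ) : ℂ := (1 + s - z * (1 - s)) ^ (-(1 / 2) : ℂ)

theorem slit {z : ℂ} (hz : z ∈ V) {s : ℝ} (hs : s ∈ Icc (0 : ℝ) 1) :
    1 + (s : ℂ) - z * (1 - s) ∈ Complex.slitPlane := by
  left
  have h := Q_pos (show z.re < 1 from hz) hs.1 hs.2
  simpa using h

theorem F_diff : DifferentiableOn ℂ (fun z => ∫ s in (0 : ℝ)..1, ((w s : ℝ) : ℂ) * k z s) V := by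
  refine Pool.Agent.HGP.pint_proof 0 1 (fun s => ((w s : ℝ) : ℂ)) V k zero_le_one
    ⟨Integrable.ofReal w_int.1, Integrable.ofReal w_int.2⟩ V_open ?_ ?_
  · unfold k
    intro p hp
    refine ContinuousAt.continuousWithinAt ?_
    refine ContinuousAt.cpow (by fun_prop) continuousAt_const ?_
    exact slit hp.1 hp.2
  · intro s hs z hz
    refine DifferentiableAt.differentiableWithinAt ?_
    unfold k
    refine DifferentiableAt.cpow (by fun_prop) (differentiableAt_const _) ?_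
    exact slit hz hs

theorem k_real {t s : ℝ} (ht : t < 1) (hs : s ∈ Icc (0 : ℝ) 1) :
    k t s = ((1 / √(1 + s - t * (1 - s)) : ℝ) : ℂ) := by
  have hQ := Q_pos ht hs.1 hs.2
  unfold k
  have h1 : (1 + (s : ℂ) - t * (1 - s)) = ((1 + s - t * (1 - s) : ℝ) : ℂ) := by push_cast; ring
  have h2 : (-(1 / 2) : ℂ) = ((-(1 / 2) : ℝ) : ℂ) := by push_cast; ring
  rw [h1, h2, ← Complex.ofReal_cpow hQ.le]
  congr 1
  rw [Real.rpow_neg hQ.le, ← Real.sqrt_eq_rpow, one_div]

theorem integrand {t s : ℝ} (hs : s ∈ Icc (0 : ℝ) 1) :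
    1 / √(s * (1 - s) * (1 + s - t * (1 - s))) = w s * (1 / √(1 + s - t * (1 - s))) := by
  unfold w
  rw [Real.sqrt_mul (mul_nonneg hs.1 (by linarith [hs.2])), one_div_mul_one_div]

theorem phi_eq {t : ℝ} (ht : t < 1) :
    ((phi t : ℝ) : ℂ) = ∫ s in (0 : ℝ)..1, ((w s : ℝ) : ℂ) * k t s := by
  unfold phi
  rw [← intervalIntegral.integral_ofReal]
  refine intervalIntegral.integral_congr ?_
  intro s hs
  rw [uIcc_of_le zero_le_one] at hs
  simp only
  rw [integrand hs, k_real ht hs, Complex.ofReal_mul]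

theorem analytic {t : ℝ} (ht : t < 1) : AnalyticAt ℝ phi t := by
  have h1 : AnalyticAt ℂ (fun z => ∫ s in (0 : ℝ)..1, ((w s : ℝ) : ℂ) * k z s) (t : ℂ) :=
    F_diff.analyticAt (V_open.mem_nhds (show (t : ℂ).re < 1 by simpa using ht))
  have h2 := h1.restrictScalars (𝕜 := ℝ)
  have h3 : AnalyticAt ℝ (fun x : ℝ => (x : ℂ)) t := Complex.ofRealCLM.analyticAt t
  have h4 := h2.fun_comp h3
  have h5 := (Complex.reCLM.analyticAt _).comp h4
  refine h5.congr ?_
  filter_upwards [isOpen_Iio.mem_nhds ht] with x hx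
  have h6 := phi_eq (show x < 1 from hx)
  show Complex.re _ = phi x
  have h7 := congrArg Complex.re h6
  rw [Complex.ofReal_re] at h7
  exact h7.symm

theorem int_phi {t : ℝ} (ht : t < 1) :
    IntervalIntegrable (fun s => 1 / √(s * (1 - s) * (1 + s - t * (1 - s)))) volume 0 1 := by
  have h1 : ContinuousOn (fun s : ℝ => 1 / √(1 + s - t * (1 - s))) (uIcc 0 1) := by
    rw [uIcc_of_le zero_le_one]
    refine ContinuousOn.div continuousOn_const (by fun_prop) ?_
    intro s hs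
    exact (Real.sqrt_pos.2 (Q_pos ht hs.1 hs.2)).ne'
  refine (w_int.mul_continuousOn h1).congr ?_
  intro s hs
  rw [uIoc_of_le zero_le_one] at hs
  exact (integrand ⟨hs.1.le, hs.2⟩).symm

theorem pos {t : ℝ} (ht : t < 1) : 0 < phi t := by
  unfold phi
  refine intervalIntegral.intervalIntegral_pos_of_pos_on (int_phi ht) ?_ one_pos
  intro s hs
  have := Q_pos ht hs.1.le hs.2.le
  have h1 : 0 < 1 - s := by linarith [hs.2]
  have h0 := hs.1
  positivity

end PhiAn

theorem PhiAn_proof : Stmt_PhiAn := fun _ ht => ⟨PhiAn.analytic ht, PhiAn.pos ht⟩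

end Pool.Agent.DGP
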