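import Pool.Agent.DGP.Stmts

/-!
DGP, module PolAr: arithmetic of the polynomials `pa`, `pb`.
-/

open Finset

namespace Pool.Agent.DGP

namespace PolAr

/-! ### A divisibility -/

theorem two_pow_fact {s k : ℕ} (h : 2 ^ s ∣ k.factorial) : s ≤ k := by
  rcases Nat.eq_zero_or_pos k with rfl | hk
  · rw [Nat.factorial_zero, Nat.dvd_one] at h
    by_contra hs
    have : 1 < 2 ^ s := Nat.one_lt_two_pow (by omega)
    omega
  · have h1 := Nat.emultiplicity_two_factorial_lt (n := k) (by omega)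
    rw [pow_dvd_iff_le_emultiplicity] at h
    have h2 := lt_of_le_of_lt h h1
    have h3 : s < k := by exact_mod_cast h2
    exact h3.le

theorem fact_dvd (a k : ℕ) : k.factorial ∣ 2 ^ k * ∏ i ∈ range k, (4 * i + a) := by
  obtain ⟨s, m, hm, hs⟩ := Nat.exists_eq_two_pow_mul_odd (n := k.factorial) (Nat.factorial_ne_zero k)
  have hsk : s ≤ k := two_pow_fact (hs ▸ Dvd.intro m rfl)
  obtain ⟨r, hr⟩ := hm
  obtain ⟨b, hb⟩ : ∃ b, b = a * (3 * r ^ 2 + 3 * r + 1) := ⟨_, rfl⟩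
  have hb4 : 4 * b = a + m * (3 * a * m) := by
    rw [hb, hr]
    ring
  have h1 : m ∣ ∏ i ∈ range k, (b + i) := by
    rw [← Nat.ascFactorial_eq_prod_range]
    exact (Dvd.intro_left _ hs.symm).trans (Nat.factorial_dvd_ascFactorial b k)
  have h2 : m ∣ ∏ i ∈ range k, (4 * i + a) := by
    rw [← ZMod.natCast_eq_zero_iff] at h1 ⊢
    have h3 : ((∏ i ∈ range k, (4 * i + a) : ℕ) : ZMod m) =
        4 ^ k * ((∏ i ∈ range k, (b + i) : ℕ) : ZMod m) := by
      push_cast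
      have h4 : (4 : ZMod m) ^ k = ∏ i ∈ range k, (4 : ZMod m) := by simp
      rw [h4, ← Finset.prod_mul_distrib]
      apply Finset.prod_congr rfl
      intro i _
      have h5 : ((4 * b : ℕ) : ZMod m) = a := by
        rw [hb4]
        push_cast
        rw [ZMod.natCast_self, zero_mul, add_zero]
      push_cast at h5
      rw [mul_add, h5]
      ring
    rw [h3, h1, mul_zero]
  rw [hs]
  exact mul_dvd_mul (pow_dvd_pow 2 hsk) h2

/-! ### The solutions at `0` -/

theorem yc_succ (a b : ℚ) (j : ℕ) :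
    yc 0 a b (j + 2) = ((2 * j + 1) ^ 2 / 4) * yc 0 a b j / ((j + 1) * (j + 2)) := by
  rw [yc]
  simp

theorem u_form (k : ℕ) : yc 0 1 0 (2 * k) * (4 ^ k * ((2 * k).factorial : ℚ)) =
    ((∏ i ∈ range k, (4 * i + 1) : ℕ) : ℚ) ^ 2 ∧ yc 0 1 0 (2 * k + 1) = 0 := by
  induction k with
  | zero => simp [yc]
  | succ k ih =>
    constructor
    · rw [prod_range_succ]
      have e : 2 * (k + 1) = 2 * k + 2 := by ring
      rw [e, yc_succ, Nat.factorial_succ, Nat.factorial_succ]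
      have h1 : ((2 * k : ℕ) : ℚ) + 1 ≠ 0 := by positivity
      have h2 : ((2 * k : ℕ) : ℚ) + 2 ≠ 0 := by positivity
      push_cast at ih h1 h2 ⊢
      rw [mul_pow, ← ih.1]
      field_simp
      ring
    · have e : 2 * (k + 1) + 1 = (2 * k + 1) + 2 := by ring
      rw [e, yc_succ, ih.2]
      simp

theorem v_form (k : ℕ) : yc 0 0 1 (2 * k + 1) * (4 ^ k * ((2 * k + 1).factorial : ℚ)) =
    ((∏ i ∈ range k, (4 * i + 3) : ℕ) : ℚ) ^ 2 ∧ yc 0 0 1 (2 * k) = 0 := by
  induction k with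
  | zero => simp [yc]
  | succ k ih =>
    constructor
    · rw [prod_range_succ]
      have e : 2 * (k + 1) + 1 = (2 * k + 1) + 2 := by ring
      rw [e, yc_succ, Nat.factorial_succ, Nat.factorial_succ]
      have h1 : ((2 * k + 1 : ℕ) : ℚ) + 1 ≠ 0 := by positivity
      have h2 : ((2 * k + 1 : ℕ) : ℚ) + 2 ≠ 0 := by positivity
      push_cast at ih h1 h2 ⊢
      rw [mul_pow, ← ih.1]
      field_simp
      ring
    · have e : 2 * (k + 1) = 2 * k + 2 := by ring
      rw [e, yc_succ, ih.2]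
      simp

/-- the denominators -/
def LL (n : ℕ) : ℕ := 16 ^ n * (Nat.lcmUpto n) ^ 2

theorem lcm_dvd {m n : ℕ} (h : m ≤ n) : Nat.lcmUpto m ∣ Nat.lcmUpto n :=
  Finset.lcm_mono (Finset.Icc_subset_Icc le_rfl h)

theorem LL_dvd {m n : ℕ} (h : m ≤ n) : LL m ∣ LL n :=
  mul_dvd_mul (pow_dvd_pow _ h) (pow_dvd_pow_of_dvd (lcm_dvd h) 2)

theorem self_dvd {m n : ℕ} (h1 : 1 ≤ m) (h : m ≤ n) : m ∣ Nat.lcmUpto n :=
  Finset.dvd_lcm (f := id) (Finset.mem_Icc.2 ⟨h1, h⟩)

theorem IsZ_of_dvd {A B : ℕ} (h : A ∣ B) {x : ℚ} (hx : IsZ (A * x)) : IsZ (B * x) := by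
  obtain ⟨c, rfl⟩ := h
  obtain ⟨a, ha⟩ := hx
  refine ⟨c * a, ?_⟩
  push_cast
  rw [← ha]
  ring

theorem u_int (n i : ℕ) (h : i ≤ n) : IsZ ((LL n : ℚ) * yc 0 1 0 i) := by
  obtain ⟨k, hk | hk⟩ := Nat.even_or_odd' i
  · subst hk
    obtain ⟨w, hw⟩ := fact_dvd 1 k
    have hch := Nat.choose_mul_factorial_mul_factorial (n := 2 * k) (k := k) (by omega)
    have e : 2 * k - k = k := by omega
    rw [e] at hch
    have key : ((16 ^ k * (2 * k).choose k : ℕ) : ℚ) * yc 0 1 0 (2 * k) = (w : ℚ) ^ 2 := by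
      have h1 := (u_form k).1
      generalize ∏ i ∈ range k, (4 * i + 1) = Pr at hw h1
      have h2 : ((2 ^ k * Pr : ℕ) : ℚ) = k.factorial * w := by
        rw [hw]; push_cast; rfl
      have h3 : ((k.factorial : ℕ) : ℚ) ≠ 0 := by exact_mod_cast Nat.factorial_ne_zero k
      have h4 : (((2 * k).choose k * k.factorial * k.factorial : ℕ) : ℚ) = (2 * k).factorial := by
        rw [hch]
      push_cast at h2 h4 ⊢
      have h5 : (16 : ℚ) ^ k = 4 ^ k * (2 ^ k) ^ 2 := by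
        rw [← pow_mul, mul_comm k 2, pow_mul, ← mul_pow]; norm_num
      have h6 : ((k.factorial : ℚ) ^ 2) * (16 ^ k * ((2 * k).choose k : ℚ) * yc 0 1 0 (2 * k)) =
          (k.factorial : ℚ) ^ 2 * (w : ℚ) ^ 2 := by
        calc ((k.factorial : ℚ) ^ 2) * (16 ^ k * ((2 * k).choose k : ℚ) * yc 0 1 0 (2 * k))
            = (2 ^ k) ^ 2 * (yc 0 1 0 (2 * k) * (4 ^ k *
              (((2 * k).choose k : ℚ) * k.factorial * k.factorial))) := by rw [h5]; ring
          _ = (2 ^ k) ^ 2 * (Pr : ℚ) ^ 2 := by rw [h4, h1]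
          _ = (2 ^ k * (Pr : ℚ)) ^ 2 := by ring
          _ = _ := by rw [h2]; ring
      exact mul_left_cancel₀ (pow_ne_zero 2 h3) h6
    have hdvd : 16 ^ k * (2 * k).choose k ∣ LL n := by
      unfold LL
      apply mul_dvd_mul (pow_dvd_pow _ (by omega))
      rw [sq]
      exact ((Chebyshev.choose_dvd_lcmUpto (by omega)).trans (lcm_dvd h)).mul_right _
    refine IsZ_of_dvd hdvd ⟨(w : ℤ) ^ 2, ?_⟩
    rw [key]
    push_cast
    rfl
  · subst hk
    rw [(u_form k).2, mul_zero]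
    exact ⟨0, by simp⟩

theorem v_int (n i : ℕ) (h : i ≤ n) : IsZ ((LL n : ℚ) * yc 0 0 1 i) := by
  obtain ⟨k, hk | hk⟩ := Nat.even_or_odd' i
  · subst hk
    rw [(v_form k).2, mul_zero]
    exact ⟨0, by simp⟩
  · subst hk
    obtain ⟨w, hw⟩ := fact_dvd 3 k
    have hch := Nat.choose_mul_factorial_mul_factorial (n := 2 * k) (k := k) (by omega)
    have e : 2 * k - k = k := by omega
    rw [e] at hch
    have key : ((16 ^ k * ((2 * k + 1) * (2 * k).choose k) : ℕ) : ℚ) * yc 0 0 1 (2 * k + 1) =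
        (w : ℚ) ^ 2 := by
      have h1 := (v_form k).1
      generalize ∏ i ∈ range k, (4 * i + 3) = Pr at hw h1
      have h2 : ((2 ^ k * Pr : ℕ) : ℚ) = k.factorial * w := by
        rw [hw]; push_cast; rfl
      have h3 : ((k.factorial : ℕ) : ℚ) ≠ 0 := by exact_mod_cast Nat.factorial_ne_zero k
      have h4 : (((2 * k + 1) * ((2 * k).choose k * k.factorial * k.factorial) : ℕ) : ℚ) =
          (2 * k + 1).factorial := by
        rw [hch, Nat.factorial_succ]
      push_cast at h2 h4 ⊢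
      have h5 : (16 : ℚ) ^ k = 4 ^ k * (2 ^ k) ^ 2 := by
        rw [← pow_mul, mul_comm k 2, pow_mul, ← mul_pow]; norm_num
      have h6 : ((k.factorial : ℚ) ^ 2) * (16 ^ k * ((2 * k + 1) * ((2 * k).choose k : ℚ)) *
          yc 0 0 1 (2 * k + 1)) = (k.factorial : ℚ) ^ 2 * (w : ℚ) ^ 2 := by
        calc ((k.factorial : ℚ) ^ 2) * (16 ^ k * ((2 * k + 1) * ((2 * k).choose k : ℚ)) *
              yc 0 0 1 (2 * k + 1))
            = (2 ^ k) ^ 2 * (yc 0 0 1 (2 * k + 1) * (4 ^ k *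
              ((2 * k + 1) * (((2 * k).choose k : ℚ) * k.factorial * k.factorial)))) := by
              rw [h5]; ring
          _ = (2 ^ k) ^ 2 * (Pr : ℚ) ^ 2 := by rw [h4, h1]
          _ = (2 ^ k * (Pr : ℚ)) ^ 2 := by ring
          _ = _ := by rw [h2]; ring
      exact mul_left_cancel₀ (pow_ne_zero 2 h3) h6
    have hdvd : 16 ^ k * ((2 * k + 1) * (2 * k).choose k) ∣ LL n := by
      unfold LL
      apply mul_dvd_mul (pow_dvd_pow _ (by omega))
      rw [sq]
      exact mul_dvd_mul (self_dvd (by omega) h)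
        ((Chebyshev.choose_dvd_lcmUpto (by omega)).trans (lcm_dvd (by omega)))
    refine IsZ_of_dvd hdvd ⟨(w : ℤ) ^ 2, ?_⟩
    rw [key]
    push_cast
    rfl

/-! ### Power series -/

theorem rec_of_yc (a b : ℚ) (n : ℕ) :
    ((n : ℚ) + 1) * (n + 2) * yc 0 a b (n + 2) = (n + 1 / 2) ^ 2 * yc 0 a b n := by
  rw [yc_succ]
  have h1 : ((n : ℚ) + 1) ≠ 0 := by positivity
  have h2 : ((n : ℚ) + 2) ≠ 0 := by positivity
  field_simp
  ring

open PowerSeries in
theorem hd_rec (c : ℕ → ℚ)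
    (hc : ∀ n : ℕ, ((n : ℚ) + 1) * (n + 2) * c (n + 2) = (n + 1 / 2) ^ 2 * c n) (k : ℕ) :
    (1 - X ^ 2) * (C (((k : ℚ) + 1) * (k + 2)) * hd (k + 2) (mk c)) =
      C (2 * ((k : ℚ) + 1) ^ 2) * (X * hd (k + 1) (mk c)) +
        C (((k : ℚ) + 1 / 2) ^ 2) * hd k (mk c) := by
  ext n
  have hk := hc (n + k)
  have g1 : ((n + k + 1 : ℕ) : ℚ) * ((n + k).choose k : ℚ) =
      ((n + k + 1).choose (k + 1) : ℚ) * ((k : ℚ) + 1) := by
    have := Nat.add_one_mul_choose_eq (n + k) k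
    exact_mod_cast this
  have g2 : ((n + k + 1 + 1 : ℕ) : ℚ) * ((n + k + 1).choose (k + 1) : ℚ) =
      ((n + k + 1 + 1).choose (k + 1 + 1) : ℚ) * ((k : ℚ) + 1 + 1) := by
    have := Nat.add_one_mul_choose_eq (n + k + 1) (k + 1)
    exact_mod_cast this
  have h1 : (((k : ℚ) + 1) * (k + 2)) * ((n + (k + 2)).choose (k + 2) : ℚ) =
      ((n : ℚ) + k + 1) * (n + k + 2) * ((n + k).choose k : ℚ) := by
    have e1 : n + (k + 2) = n + k + 1 + 1 := by ring
    rw [e1]
    push_cast at g1 g2 ⊢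
    have e2 : k + 2 = k + 1 + 1 := rfl
    rw [e2]
    linear_combination (-((n : ℚ) + k + 2)) * g1 - ((k : ℚ) + 1) * g2
  have e3 : n + (k + 2) = n + k + 2 := by ring
  rw [sub_mul, one_mul]
  simp only [map_sub, map_add, coeff_C_mul, coeff_X_pow_mul', hd, coeff_mk]
  match n, hk, h1, e3 with
  | 0, hk, h1, e3 =>
    simp only [zero_add, coeff_zero_X_mul]
    norm_num at hk h1 ⊢
    linear_combination hk
  | 1, hk, h1, e3 =>
    rw [show (1 : ℕ) = 0 + 1 from rfl, coeff_succ_X_mul, coeff_mk]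
    norm_num at hk h1 ⊢
    have e4 : 1 + (k + 2) = 1 + k + 2 := by ring
    rw [e4] at h1 ⊢
    have e6 : k + 1 = 1 + k := by ring
    have h5 : ((1 + k).choose k : ℚ) = (k : ℚ) + 1 := by
      rw [add_comm 1 k, Nat.choose_succ_self_right]; push_cast; ring
    rw [e6]
    rw [h5] at h1 ⊢
    linear_combination (c (1 + k + 2)) * h1 + ((k : ℚ) + 1) * hk
  | n + 2, hk, h1, e3 =>
    have h2 : ((k : ℚ) + 1) * ((n + 2 + k).choose (k + 1) : ℚ) =
        ((n : ℚ) + 2) * ((n + 2 + k).choose k : ℚ) := by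
      have := Nat.choose_succ_right_eq (n + 2 + k) k
      have e : n + 2 + k - k = n + 2 := by omega
      rw [e] at this
      have h : (((n + 2 + k).choose (k + 1) * (k + 1) : ℕ) : ℚ) =
        ((n + 2 + k).choose k * (n + 2) : ℕ) := by rw [this]
      push_cast at h
      linear_combination h
    have h3 : ((k : ℚ) + 2) * ((n + 2 + k).choose (k + 2) : ℚ) =
        ((n : ℚ) + 1) * ((n + 2 + k).choose (k + 1) : ℚ) := by
      have := Nat.choose_succ_right_eq (n + 2 + k) (k + 1)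
      have e : n + 2 + k - (k + 1) = n + 1 := by omega
      rw [e] at this
      have h : (((n + 2 + k).choose (k + 1 + 1) * (k + 1 + 1) : ℕ) : ℚ) =
        ((n + 2 + k).choose (k + 1) * (n + 1) : ℕ) := by rw [this]
      push_cast at h
      linear_combination h
    have hle : 2 ≤ n + 2 := by omega
    have e4 : n + 2 - 2 = n := by omega
    have e5 : n + 1 + (k + 1) = n + 2 + k := by ring
    have e6 : n + (k + 2) = n + 2 + k := by ring
    rw [if_pos hle, e4, coeff_succ_X_mul, coeff_mk, e3, e5, e6]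
    rw [e3] at h1
    push_cast at hk h1 ⊢
    linear_combination (c (n + 2 + k + 2)) * h1 +
      ((n + 2 + k).choose k : ℚ) * hk - ((k : ℚ) + 1) * c (n + 2 + k) * h3 -
      ((n : ℚ) + 1) * c (n + 2 + k) * h2 - 2 * ((k : ℚ) + 1) * c (n + 2 + k) * h2


open PowerSeries in
theorem d_hd0 (y : PowerSeries ℚ) : derivative ℚ y = hd 1 y := by
  ext n
  rw [coeff_derivative]
  simp only [hd, coeff_mk, Nat.choose_one_right]
  push_cast
  ring

open PowerSeries in
theorem d_hd1 (y : PowerSeries ℚ) : derivative ℚ (hd 1 y) = C 2 * hd 2 y := by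
  ext n
  rw [coeff_derivative, coeff_C_mul]
  simp only [hd, coeff_mk, Nat.choose_one_right]
  have h : ((n + 2).choose 2 : ℚ) = ((n : ℚ) + 1) * (n + 2) / 2 := by
    have h1 := Nat.add_one_mul_choose_eq (n + 1) 1
    rw [Nat.choose_one_right] at h1
    have h2 : (((n + 1 + 1) * (n + 1) : ℕ) : ℚ) = ((n + 2).choose 2 * 2 : ℕ) := by
      exact_mod_cast h1
    push_cast at h2
    linear_combination -h2 / 2
  rw [h]
  push_cast
  have e : n + 1 + 1 = n + 2 := rfl
  rw [e]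
  ring

open PowerSeries in
theorem hd_zero' (y : PowerSeries ℚ) : hd 0 y = y := by
  ext n
  simp [hd]

open PowerSeries in
theorem ode (a b : ℚ) : (1 - X ^ 2) * (C 2 * hd 2 (PowerSeries.mk (yc 0 a b))) =
    C 2 * (X * hd 1 (PowerSeries.mk (yc 0 a b))) + C (1 / 4) * PowerSeries.mk (yc 0 a b) := by
  have h := hd_rec (yc 0 a b) (rec_of_yc a b) 0
  rw [hd_zero'] at h
  norm_num at h ⊢
  exact h

open PowerSeries in
theorem wronsk : (1 - X ^ 2) * (PowerSeries.mk (yc 0 1 0) * hd 1 (PowerSeries.mk (yc 0 0 1)) -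
    hd 1 (PowerSeries.mk (yc 0 1 0)) * PowerSeries.mk (yc 0 0 1)) = 1 := by
  have hu := ode 1 0
  have hv := ode 0 1
  have hcu : constantCoeff (PowerSeries.mk (yc 0 1 0)) = 1 := by simp [yc]
  have hcv : constantCoeff (PowerSeries.mk (yc 0 0 1)) = 0 := by simp [yc]
  have hcv1 : constantCoeff (hd 1 (PowerSeries.mk (yc 0 0 1))) = 1 := by
    simp [hd, yc]
  have hcu1 : constantCoeff (hd 1 (PowerSeries.mk (yc 0 1 0))) = 0 := by
    simp [hd, yc]
  have du := d_hd0 (PowerSeries.mk (yc 0 1 0))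
  have dv := d_hd0 (PowerSeries.mk (yc 0 0 1))
  have du1 := d_hd1 (PowerSeries.mk (yc 0 1 0))
  have dv1 := d_hd1 (PowerSeries.mk (yc 0 0 1))
  generalize PowerSeries.mk (yc 0 1 0) = u at *
  generalize PowerSeries.mk (yc 0 0 1) = v at *
  apply derivative.ext
  · have dX : derivative ℚ ((1 : PowerSeries ℚ) - X ^ 2) = - (C 2 * X) := by
      ext n
      rw [coeff_derivative]
      rcases n with _ | n
      · simp [coeff_one, coeff_X_pow]
      · rw [map_neg, coeff_C_mul, map_sub, coeff_one, coeff_X_pow, coeff_X]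
        rcases n with _ | n
        · norm_num
        · have h1 : ¬ (n + 1 + 1 + 1 = 0) := by omega
          have h2 : ¬ (n + 1 + 1 + 1 = 2) := by omega
          have h3 : ¬ (n + 1 + 1 = 1) := by omega
          rw [if_neg h1, if_neg h2, if_neg h3]
          norm_num
    rw [Derivation.leibniz, dX, map_sub, Derivation.leibniz, Derivation.leibniz, du, dv, du1, dv1,
      Derivation.map_one_eq_zero]
    simp only [smul_eq_mul]
    linear_combination u * hv - v * hu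
  · rw [map_mul, map_sub, map_sub, map_mul, map_mul, hcu, hcv, hcv1, hcu1]
    simp

open PowerSeries in
/-- a sequence with the recurrence of `pc` -/
theorem pc_eq (a b : Polynomial ℚ) (Φ : ℕ → PowerSeries ℚ) (h0 : (a : PowerSeries ℚ) = Φ 0)
    (h1 : (b : PowerSeries ℚ) = Φ 1)
    (hΦ : ∀ j : ℕ, Φ (j + 2) = C (2 * (j + 2 : ℚ) ^ 2 / ((j + 3) * (j + 2))) * X * Φ (j + 1)
      + C ((2 * j + 3 : ℚ) ^ 2 / 4 / ((j + 3) * (j + 2))) * (1 - X ^ 2) * Φ j) (j : ℕ) :
    (pc a b j : PowerSeries ℚ) = Φ j ∧ (pc a b (j + 1) : PowerSeries ℚ) = Φ (j + 1) := by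
  induction j with
  | zero => exact ⟨h0, h1⟩
  | succ j ih =>
    refine ⟨ih.2, ?_⟩
    rw [hΦ, ← ih.1, ← ih.2, pc]
    push_cast
    rfl

open PowerSeries in
/-- the normalised derivatives -/
noncomputable def AA (y : PowerSeries ℚ) (j : ℕ) : PowerSeries ℚ :=
  (1 - X ^ 2) ^ (j + 1) * hd (j + 1) y

open PowerSeries in
theorem AA_rec (a b : ℚ) (j : ℕ) : AA (PowerSeries.mk (yc 0 a b)) (j + 2) =
    C (2 * (j + 2 : ℚ) ^ 2 / ((j + 3) * (j + 2))) * X * AA (PowerSeries.mk (yc 0 a b)) (j + 1)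
      + C ((2 * j + 3 : ℚ) ^ 2 / 4 / ((j + 3) * (j + 2))) * (1 - X ^ 2) *
        AA (PowerSeries.mk (yc 0 a b)) j := by
  have h := hd_rec (yc 0 a b) (rec_of_yc a b) (j + 1)
  generalize PowerSeries.mk (yc 0 a b) = y at *
  unfold AA
  obtain ⟨p, hp⟩ : ∃ p : ℚ, p = (((j : ℚ) + 3) * (j + 2))⁻¹ := ⟨_, rfl⟩
  have hq : (((j + 1 : ℕ) : ℚ) + 1) * (((j + 1 : ℕ) : ℚ) + 2) = (j + 3) * (j + 2) := by
    push_cast; ring
  have hne : ((j : ℚ) + 3) * (j + 2) ≠ 0 := by positivity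
  have hp1 : C p * C (((j : ℚ) + 3) * (j + 2)) = (1 : PowerSeries ℚ) := by
    rw [← map_mul, hp, inv_mul_cancel₀ hne, map_one]
  have e1 : (C (2 * (j + 2 : ℚ) ^ 2 / ((j + 3) * (j + 2))) : PowerSeries ℚ) =
      C p * C (2 * (((j + 1 : ℕ) : ℚ) + 1) ^ 2) := by
    rw [← map_mul, hp]
    congr 1
    push_cast
    field_simp
    ring
  have e2 : (C ((2 * j + 3 : ℚ) ^ 2 / 4 / ((j + 3) * (j + 2))) : PowerSeries ℚ) =
      C p * C ((((j + 1 : ℕ) : ℚ) + 1 / 2) ^ 2) := by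
    rw [← map_mul, hp]
    congr 1
    push_cast
    field_simp
    ring
  rw [hq] at h
  rw [e1, e2]
  have e3 : j + 2 + 1 = j + 1 + 2 := by ring
  have e4 : j + 1 + 1 = j + 1 + 1 := rfl
  rw [e3]
  calc (1 - X ^ 2) ^ (j + 1 + 2) * hd (j + 1 + 2) y
      = (1 - X ^ 2) ^ (j + 2) * ((C p * C (((j : ℚ) + 3) * (j + 2))) *
        ((1 - X ^ 2) * hd (j + 1 + 2) y)) := by rw [hp1]; ring
    _ = (1 - X ^ 2) ^ (j + 2) * (C p * ((1 - X ^ 2) * (C (((j : ℚ) + 3) * (j + 2)) *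
        hd (j + 1 + 2) y))) := by ring
    _ = _ := by rw [h]; ring

/-! ### Integrality of coefficients -/

/-- the coefficients up to the index `n` become integral -/
def ZZ (L : ℕ) (n : ℕ) (f : PowerSeries ℚ) : Prop :=
  ∀ i ≤ n, IsZ ((L : ℚ) * PowerSeries.coeff i f)

theorem IsZ_sum {ι : Type} (s : Finset ι) (f : ι → ℚ) (h : ∀ i ∈ s, IsZ (f i)) :
    IsZ (∑ i ∈ s, f i) := by
  classical
  induction s using Finset.induction_on with
  | empty => exact ⟨0, by simp⟩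
  | insert a s ha ih =>
    obtain ⟨x, hx⟩ := h a (Finset.mem_insert_self _ _)
    obtain ⟨y, hy⟩ := ih fun i hi => h i (Finset.mem_insert_of_mem hi)
    refine ⟨x + y, ?_⟩
    rw [Finset.sum_insert ha, hx, hy]
    push_cast
    rfl

theorem ZZ_mul {L L' n : ℕ} {f g : PowerSeries ℚ} (hf : ZZ L n f) (hg : ZZ L' n g) :
    ZZ (L * L') n (f * g) := by
  intro i hi
  rw [PowerSeries.coeff_mul, Finset.mul_sum]
  apply IsZ_sum
  intro p hp
  rw [HasAntidiagonal.mem_antidiagonal] at hp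
  obtain ⟨x, hx⟩ := hf p.1 (by omega)
  obtain ⟨y, hy⟩ := hg p.2 (by omega)
  refine ⟨x * y, ?_⟩
  push_cast
  rw [← hx, ← hy]
  ring

theorem ZZ_sub {L n : ℕ} {f g : PowerSeries ℚ} (hf : ZZ L n f) (hg : ZZ L n g) :
    ZZ L n (f - g) := by
  intro i hi
  obtain ⟨x, hx⟩ := hf i hi
  obtain ⟨y, hy⟩ := hg i hi
  refine ⟨x - y, ?_⟩
  rw [map_sub, mul_sub, hx, hy]
  push_cast
  rfl

theorem ZZ_one (n : ℕ) : ZZ 1 n (1 - PowerSeries.X ^ 2) := by
  intro i _
  rw [map_sub, PowerSeries.coeff_one, PowerSeries.coeff_X_pow]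
  refine ⟨(if i = 0 then 1 else 0) - (if i = 2 then 1 else 0), ?_⟩
  split_ifs <;> simp

theorem ZZ_pow (n k : ℕ) : ZZ 1 n ((1 - PowerSeries.X ^ 2) ^ k) := by
  induction k with
  | zero =>
    intro i _
    rw [pow_zero, PowerSeries.coeff_one]
    split_ifs
    · exact ⟨1, by simp⟩
    · exact ⟨0, by simp⟩
  | succ k ih =>
    have := ZZ_mul ih (ZZ_one n)
    rw [pow_succ]
    simpa using this

theorem ZZ_hd (c : ℕ → ℚ) (L m : ℕ) (hc : ∀ i ≤ m, IsZ ((L : ℚ) * c i)) (n k : ℕ)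
    (h : n + k ≤ m) : ZZ L n (hd k (PowerSeries.mk c)) := by
  intro i hi
  obtain ⟨x, hx⟩ := hc (i + k) (by omega)
  refine ⟨((i + k).choose k : ℤ) * x, ?_⟩
  simp only [hd, PowerSeries.coeff_mk]
  push_cast
  rw [← hx]
  ring

/-! ### Degrees and sizes -/

open Polynomial in
theorem pc_deg (a b : Polynomial ℚ) (ha : a.natDegree ≤ 0) (hb : b.natDegree ≤ 1) (j : ℕ) :
    (pc a b j).natDegree ≤ j ∧ (pc a b (j + 1)).natDegree ≤ j + 1 := by
  induction j with
  | zero => exact ⟨ha, hb⟩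
  | succ j ih =>
    refine ⟨ih.2, ?_⟩
    rw [pc]
    refine (natDegree_add_le _ _).trans (max_le ?_ ?_)
    · refine natDegree_mul_le.trans ?_
      have h1 : (C (2 * (j + 2 : ℚ) ^ 2 / ((j + 3) * (j + 2))) * X : Polynomial ℚ).natDegree ≤ 1 :=
        (natDegree_C_mul_le _ _).trans natDegree_X_le
      omega
    · refine natDegree_mul_le.trans ?_
      have h1 : (C ((2 * j + 3 : ℚ) ^ 2 / 4 / ((j + 3) * (j + 2))) *
          (1 - X ^ 2) : Polynomial ℚ).natDegree ≤ 2 := by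
        refine (natDegree_C_mul_le _ _).trans ((natDegree_sub_le _ _).trans (max_le ?_ ?_))
        · rw [natDegree_one]; omega
        · exact natDegree_X_pow_le _
      omega

open Polynomial in
theorem pc_size (a b : Polynomial ℚ) (ha : ∀ l, |a.coeff l| ≤ 1) (hb : ∀ l, |b.coeff l| ≤ 4)
    (j : ℕ) : (∀ l, |(pc a b j).coeff l| ≤ 4 ^ j) ∧ (∀ l, |(pc a b (j + 1)).coeff l| ≤ 4 ^ (j + 1)) := by
  induction j with
  | zero => exact ⟨by simpa [pc] using ha, by simpa [pc] using hb⟩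
  | succ j ih =>
    refine ⟨ih.2, fun l => ?_⟩
    have h1 : |((2 * (j + 2 : ℚ) ^ 2 / ((j + 3) * (j + 2))))| ≤ 2 := by
      rw [abs_of_nonneg (by positivity), div_le_iff₀ (by positivity)]
      have : (0 : ℚ) ≤ j := Nat.cast_nonneg j
      nlinarith
    have h2 : |((2 * j + 3 : ℚ) ^ 2 / 4 / ((j + 3) * (j + 2)))| ≤ 1 := by
      rw [abs_of_nonneg (by positivity), div_le_iff₀ (by positivity)]
      have : (0 : ℚ) ≤ j := Nat.cast_nonneg j
      nlinarith
    have h3 : |(X * pc a b (j + 1)).coeff l| ≤ 4 ^ (j + 1) := by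
      rcases l with _ | l
      · rw [coeff_X_mul_zero, abs_zero]; positivity
      · rw [coeff_X_mul]; exact ih.2 l
    have h4 : |((1 - X ^ 2) * pc a b j).coeff l| ≤ 2 * 4 ^ j := by
      rw [sub_mul, one_mul, coeff_sub, coeff_X_pow_mul']
      have h5 := ih.1 l
      split_ifs
      · have h6 := ih.1 (l - 2)
        have := abs_sub (pc a b j |>.coeff l) (pc a b j |>.coeff (l - 2))
        linarith
      · rw [sub_zero]
        have : (0 : ℚ) ≤ 4 ^ j := by positivity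
        linarith
    rw [pc, coeff_add, mul_assoc, mul_assoc, coeff_C_mul, coeff_C_mul]
    refine (abs_add_le _ _).trans ?_
    rw [abs_mul, abs_mul]
    have h7 := mul_le_mul h1 h3 (abs_nonneg _) (by norm_num)
    have h8 := mul_le_mul h2 h4 (abs_nonneg _) (by norm_num)
    have h9 : (0 : ℚ) ≤ 4 ^ j := by positivity
    refine (add_le_add h7 h8).trans ?_
    have h10 : (4 : ℚ) ^ (j + 1 + 1) = 16 * 4 ^ j := by ring
    have h11 : (4 : ℚ) ^ (j + 1) = 4 * 4 ^ j := by ring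
    rw [h10, h11]
    linarith

end PolAr

open PolAr in
theorem PolAr_proof (hL : Stmt_Lcm) : Stmt_PolAr := by
  obtain ⟨C0, hC0⟩ := hL
  have hC0' : ∀ n, Nat.lcmUpto n ≤ C0 ^ n := hC0
  refine ⟨(16 * C0 ^ 2) ^ 4 + 4, fun j => LL (2 * j + 2) ^ 2, ?_, ?_⟩
  · intro j
    refine ⟨?_, ?_, ?_⟩
    · apply Nat.one_le_pow
      exact Nat.mul_pos (by positivity) (pow_pos (Nat.lcmUpto_pos _) 2)
    · exact pow_dvd_pow_of_dvd (LL_dvd (by omega)) 2
    · calc LL (2 * j + 2) ^ 2 ≤ (16 ^ (2 * j + 2) * (C0 ^ (2 * j + 2)) ^ 2) ^ 2 :=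
            Nat.pow_le_pow_left (Nat.mul_le_mul_left _ (Nat.pow_le_pow_left (hC0' _) 2)) 2
        _ = ((16 * C0 ^ 2) ^ 4) ^ (j + 1) := by
            rw [← pow_mul (16 * C0 ^ 2) 4 (j + 1), mul_pow, ← pow_mul, mul_pow, ← pow_mul,
              ← pow_mul, ← pow_mul]
            congr 2 <;> ring
        _ ≤ ((16 * C0 ^ 2) ^ 4 + 4) ^ (j + 1) := Nat.pow_le_pow_left (by omega) _
  · intro j
    obtain ⟨u, hu⟩ : ∃ u, u = PowerSeries.mk (yc 0 1 0) := ⟨_, rfl⟩
    obtain ⟨v, hv⟩ : ∃ v, v = PowerSeries.mk (yc 0 0 1) := ⟨_, rfl⟩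
    have hW := wronsk
    have ou := ode 1 0
    have ov := ode 0 1
    have ru := AA_rec 1 0
    have rv := AA_rec 0 1
    rw [← hu, ← hv] at hW
    rw [← hu] at ou ru
    rw [← hv] at ov rv
    have hc2 : (PowerSeries.C (1 / 8 : ℚ)) * PowerSeries.C 2 = PowerSeries.C (1 / 4 : ℚ) := by
      rw [← map_mul]; norm_num
    have hc4 : (PowerSeries.C (1 / 2 : ℚ)) * PowerSeries.C 2 = (1 : PowerSeries ℚ) := by
      rw [← map_mul]; norm_num
    have hc8 : (PowerSeries.C (1 / 2 : ℚ)) * PowerSeries.C (1 / 4) = PowerSeries.C (1 / 8 : ℚ) := by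
      rw [← map_mul]; norm_num
    have hA0 : ∀ y : PowerSeries ℚ, AA y 0 = (1 - PowerSeries.X ^ 2) * hd 1 y := by
      intro y; unfold AA; rw [zero_add, pow_one]
    have hA1 : ∀ y : PowerSeries ℚ,
        (1 - PowerSeries.X ^ 2) * (PowerSeries.C 2 * hd 2 y) =
        PowerSeries.C 2 * (PowerSeries.X * hd 1 y) + PowerSeries.C (1 / 4) * y →
        AA y 1 = (1 - PowerSeries.X ^ 2) * (PowerSeries.X * hd 1 y + PowerSeries.C (1 / 8) * y) := by
      intro y hy
      unfold AA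
      calc (1 - PowerSeries.X ^ 2) ^ (1 + 1) * hd (1 + 1) y
          = (1 - PowerSeries.X ^ 2) * ((PowerSeries.C (1 / 2) * PowerSeries.C 2) *
            ((1 - PowerSeries.X ^ 2) * hd 2 y)) := by rw [hc4]; ring
        _ = (1 - PowerSeries.X ^ 2) * (PowerSeries.C (1 / 2) *
            ((1 - PowerSeries.X ^ 2) * (PowerSeries.C 2 * hd 2 y))) := by ring
        _ = (1 - PowerSeries.X ^ 2) * ((PowerSeries.C (1 / 2) * PowerSeries.C 2) *
            (PowerSeries.X * hd 1 y) + (PowerSeries.C (1 / 2) * PowerSeries.C (1 / 4)) * y) := by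
            rw [hy]; ring
        _ = _ := by rw [hc4, hc8]; ring
    have hpa := (pc_eq 0 (Polynomial.C (1 / 8)) (fun j => AA u j * hd 1 v - AA v j * hd 1 u)
      (by simp only [hA0, Polynomial.coe_zero]; ring)
      (by
        simp only [hA1 u ou, hA1 v ov, Polynomial.coe_C]
        linear_combination (-PowerSeries.C (1 / 8 : ℚ)) * hW)
      (by intro j; simp only [ru, rv]; ring) j).1
    have hpb := (pc_eq 1 Polynomial.X (fun j => AA v j * u - AA u j * v)
      (by simp only [hA0, Polynomial.coe_one]; linear_combination -hW)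
      (by
        simp only [hA1 u ou, hA1 v ov, Polynomial.coe_X]
        linear_combination (-(PowerSeries.X : PowerSeries ℚ)) * hW)
      (by intro j; simp only [ru, rv]; ring) j).1
    have hda : (pa j).natDegree ≤ j := (pc_deg _ _ (by simp) (by simp) j).1
    have hdb : (pb j).natDegree ≤ j := (pc_deg _ _ (by simp) (by simp) j).1
    refine ⟨hda, hdb, fun l => ?_⟩
    -- integrality
    have hAu : ZZ (LL (2 * j + 2)) j (AA u j) := by
      have := ZZ_mul (ZZ_pow j (j + 1)) (ZZ_hd (yc 0 1 0) (LL (2 * j + 2)) (2 * j + 2)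
        (fun i hi => u_int _ i hi) j (j + 1) (by omega))
      rw [one_mul, ← hu] at this
      exact this
    have hAv : ZZ (LL (2 * j + 2)) j (AA v j) := by
      have := ZZ_mul (ZZ_pow j (j + 1)) (ZZ_hd (yc 0 0 1) (LL (2 * j + 2)) (2 * j + 2)
        (fun i hi => v_int _ i hi) j (j + 1) (by omega))
      rw [one_mul, ← hv] at this
      exact this
    have hu1 : ZZ (LL (2 * j + 2)) j (hd 1 u) := by
      rw [hu]
      exact ZZ_hd _ _ (2 * j + 2) (fun i hi => u_int _ i hi) j 1 (by omega)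
    have hv1 : ZZ (LL (2 * j + 2)) j (hd 1 v) := by
      rw [hv]
      exact ZZ_hd _ _ (2 * j + 2) (fun i hi => v_int _ i hi) j 1 (by omega)
    have hu0 : ZZ (LL (2 * j + 2)) j u := by
      intro i hi
      rw [hu, PowerSeries.coeff_mk]
      exact u_int _ i (by omega)
    have hv0 : ZZ (LL (2 * j + 2)) j v := by
      intro i hi
      rw [hv, PowerSeries.coeff_mk]
      exact v_int _ i (by omega)
    have ia := ZZ_sub (ZZ_mul hAu hv1) (ZZ_mul hAv hu1)
    have ib := ZZ_sub (ZZ_mul hAv hu0) (ZZ_mul hAu hv0)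
    have hpa' : (pa j : PowerSeries ℚ) = AA u j * hd 1 v - AA v j * hd 1 u := hpa
    have hpb' : (pb j : PowerSeries ℚ) = AA v j * u - AA u j * v := hpb
    rw [← hpa', ← sq] at ia
    rw [← hpb', ← sq] at ib
    have hfin : ∀ p : Polynomial ℚ, p.natDegree ≤ j →
        ZZ (LL (2 * j + 2) ^ 2) j (p : PowerSeries ℚ) →
        IsZ (((LL (2 * j + 2) ^ 2 : ℕ) : ℚ) * p.coeff l) := by
      intro p hp hz
      rcases Nat.lt_or_ge j l with hl | hl
      · rw [Polynomial.coeff_eq_zero_of_natDegree_lt (by omega), mul_zero]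
        exact ⟨0, by simp⟩
      · have := hz l hl
        rwa [Polynomial.coeff_coe] at this
    have sa := (pc_size 0 (Polynomial.C (1 / 8)) (by simp) (by
      intro l
      rw [Polynomial.coeff_C]
      split_ifs <;> norm_num) j).1 l
    have sb := (pc_size 1 Polynomial.X (by
      intro l
      rw [Polynomial.coeff_one]
      split_ifs <;> norm_num) (by
      intro l
      rw [Polynomial.coeff_X]
      split_ifs <;> norm_num) j).1 l
    have hpow : (4 : ℚ) ^ j ≤ ((((16 * C0 ^ 2) ^ 4 + 4 : ℕ) : ℚ)) ^ (j + 1) := by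
      have h4 : (4 : ℚ) ≤ (((16 * C0 ^ 2) ^ 4 + 4 : ℕ) : ℚ) := by
        push_cast
        have : (0 : ℚ) ≤ (16 * (C0 : ℚ) ^ 2) ^ 4 := by positivity
        linarith
      calc (4 : ℚ) ^ j ≤ 4 ^ (j + 1) := pow_le_pow_right₀ (by norm_num) (by omega)
        _ ≤ _ := pow_le_pow_left₀ (by norm_num) h4 _
    exact ⟨hfin _ hda ia, hfin _ hdb ib, sa.trans hpow, sb.trans hpow⟩

end Pool.Agent.DGP
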