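import Pool.Agent.DGP.Stmts

set_option autoImplicit false

/-!
Module Ser: Taylor expansions at `t₀` of `phi t` and `phi (-t)`.
-/

open Filter Topology

namespace Pool.Agent.DGP

namespace Ser

/-- The differential equation on `(-1, 1)` for an analytic function. -/
structure Sol (f : ℝ → ℝ) : Prop where
  an : ∀ t, -1 < t → t < 1 → AnalyticAt ℝ f t
  ode : ∀ t, -1 < t → t < 1 →
    (1 - t ^ 2) * deriv (deriv f) t - 2 * t * deriv f t - f t / 4 = 0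

lemma an_iter {f : ℝ → ℝ} {t : ℝ} (h : AnalyticAt ℝ f t) (n : ℕ) :
    AnalyticAt ℝ (iteratedDeriv n f) t := by
  induction n with
  | zero => simpa using h
  | succ n ih => rw [iteratedDeriv_succ]; exact ih.deriv

lemma hd_iter {f : ℝ → ℝ} {t : ℝ} (h : AnalyticAt ℝ f t) (n : ℕ) :
    HasDerivAt (iteratedDeriv n f) (iteratedDeriv (n + 1) f t) t := by
  have h1 := (an_iter h n).differentiableAt.hasDerivAt
  rwa [← iteratedDeriv_succ] at h1

lemma Sol.ode_n {f : ℝ → ℝ} (h : Sol f) (n : ℕ) : ∀ t, -1 < t → t < 1 →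
    (1 - t ^ 2) * iteratedDeriv (n + 2) f t = 2 * (n + 1) * t * iteratedDeriv (n + 1) f t
      + ((n : ℝ) + 1 / 2) ^ 2 * iteratedDeriv n f t := by
  induction n with
  | zero =>
    intro t h1 h2
    have := h.ode t h1 h2
    have e2 : iteratedDeriv 2 f = deriv (deriv f) := by
      rw [iteratedDeriv_succ, iteratedDeriv_one]
    simp only [zero_add, iteratedDeriv_one, iteratedDeriv_zero, e2, Nat.cast_zero]
    linarith
  | succ n ih =>
    intro t h1 h2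
    have hf := h.an t h1 h2
    have d2 := hd_iter hf (n + 2)
    have d1 := hd_iter hf (n + 1)
    have d0 := hd_iter hf n
    have dt : HasDerivAt (fun t : ℝ => 1 - t ^ 2) (-(2 * t)) t := by
      have := (hasDerivAt_pow 2 t).const_sub 1
      simpa using this
    have dL : HasDerivAt (fun t : ℝ => (1 - t ^ 2) * iteratedDeriv (n + 2) f t)
        (-(2 * t) * iteratedDeriv (n + 2) f t + (1 - t ^ 2) * iteratedDeriv (n + 2 + 1) f t) t :=
      dt.mul d2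
    have dtt : HasDerivAt (fun t : ℝ => 2 * ((n : ℝ) + 1) * t) (2 * ((n : ℝ) + 1)) t := by
      simpa using (hasDerivAt_id t).const_mul (2 * ((n : ℝ) + 1))
    have dR : HasDerivAt (fun t : ℝ => 2 * ((n : ℝ) + 1) * t * iteratedDeriv (n + 1) f t
        + ((n : ℝ) + 1 / 2) ^ 2 * iteratedDeriv n f t)
        ((2 * ((n : ℝ) + 1) * iteratedDeriv (n + 1) f t
          + 2 * ((n : ℝ) + 1) * t * iteratedDeriv (n + 1 + 1) f t)
          + ((n : ℝ) + 1 / 2) ^ 2 * iteratedDeriv (n + 1) f t) t :=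
      (dtt.mul d1).add (d0.const_mul _)
    have heq : (fun t : ℝ => (1 - t ^ 2) * iteratedDeriv (n + 2) f t) =ᶠ[𝓝 t]
        (fun t : ℝ => 2 * ((n : ℝ) + 1) * t * iteratedDeriv (n + 1) f t
        + ((n : ℝ) + 1 / 2) ^ 2 * iteratedDeriv n f t) := by
      filter_upwards [Ioo_mem_nhds h1 h2] with s hs
      exact ih s hs.1 hs.2
    have hu := (dL.congr_of_eventuallyEq heq.symm).unique dR
    push_cast
    have e1 : n + 1 + 2 = n + 2 + 1 := by ring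
    have e2 : n + 1 + 1 = n + 2 := by ring
    rw [e1, e2]
    rw [e2] at hu
    linear_combination hu

/-- Taylor coefficients. -/
noncomputable def ac (f : ℝ → ℝ) (t : ℝ) (n : ℕ) : ℝ := iteratedDeriv n f t / (n.factorial : ℝ)

lemma ac_zero (f : ℝ → ℝ) (t : ℝ) : ac f t 0 = f t := by simp [ac]

lemma ac_one (f : ℝ → ℝ) (t : ℝ) : ac f t 1 = deriv f t := by simp [ac]

lemma ac_deriv (f : ℝ → ℝ) (t : ℝ) (n : ℕ) : ac (deriv f) t n = (n + 1) * ac f t (n + 1) := by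
  unfold ac
  rw [← iteratedDeriv_succ', Nat.factorial_succ]
  have h1 : (n.factorial : ℝ) ≠ 0 := by positivity
  have h2 : ((n : ℝ) + 1) ≠ 0 := by positivity
  push_cast
  field_simp

lemma hasSum_ac {f : ℝ → ℝ} {t : ℝ} (h : AnalyticAt ℝ f t) :
    ∀ᶠ w in 𝓝 (0 : ℝ), HasSum (fun n => ac f t n * w ^ n) (f (t + w)) := by
  have h1 := hasFPowerSeriesAt_iff.1 h.hasFPowerSeriesAt
  filter_upwards [h1] with w hw
  convert! hw using 1
  funext n
  simp only [FormalMultilinearSeries.coeff_ofScalars, smul_eq_mul, ac]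
  ring

lemma Sol.rcc {f : ℝ → ℝ} (h : Sol f) (t : ℝ) (h1 : -1 < t) (h2 : t < 1) (n : ℕ) :
    (1 - t ^ 2) * (n + 1) * (n + 2) * ac f t (n + 2) =
      2 * t * (n + 1) ^ 2 * ac f t (n + 1) + (2 * n + 1) ^ 2 / 4 * ac f t n := by
  have h3 := h.ode_n n t h1 h2
  unfold ac
  have hf : (n.factorial : ℝ) ≠ 0 := by positivity
  have hn : ((n : ℝ) + 1) ≠ 0 := by positivity
  have hn2 : ((n : ℝ) + 2) ≠ 0 := by positivity
  have e1 : ((n + 1).factorial : ℝ) = (n + 1) * n.factorial := by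
    rw [Nat.factorial_succ]; push_cast; ring
  have e2 : ((n + 2).factorial : ℝ) = (n + 2) * ((n + 1) * n.factorial) := by
    rw [Nat.factorial_succ, Nat.cast_mul, e1]; push_cast; ring
  rw [e1, e2]
  field_simp
  linear_combination 4 * h3

lemma yc_rec (t₀ a b : ℚ) (ht : 1 - t₀ ^ 2 ≠ 0) (n : ℕ) :
    (1 - t₀ ^ 2) * (n + 1) * (n + 2) * yc t₀ a b (n + 2) =
      2 * t₀ * (n + 1) ^ 2 * yc t₀ a b (n + 1) + (2 * n + 1) ^ 2 / 4 * yc t₀ a b n := by
  rw [yc]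
  have hn : ((n : ℚ) + 1) ≠ 0 := by positivity
  have hn2 : ((n : ℚ) + 2) ≠ 0 := by positivity
  field_simp

lemma yc_rec_real (t₀ a b : ℚ) (ht : 1 - t₀ ^ 2 ≠ 0) (n : ℕ) :
    (1 - (t₀ : ℝ) ^ 2) * (n + 1) * (n + 2) * (yc t₀ a b (n + 2) : ℝ) =
      2 * t₀ * (n + 1) ^ 2 * (yc t₀ a b (n + 1) : ℝ) + (2 * n + 1) ^ 2 / 4 * (yc t₀ a b n : ℝ) := by
  have := congrArg (fun x : ℚ => (x : ℝ)) (yc_rec t₀ a b ht n)
  push_cast at this
  exact this

lemma Sol.ac_eq {f : ℝ → ℝ} (h : Sol f) (t₀ : ℚ) (h1 : -1 < (t₀ : ℝ)) (h2 : (t₀ : ℝ) < 1)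
    (n : ℕ) : ac f t₀ n = f t₀ * (yc t₀ 1 0 n : ℝ) + deriv f t₀ * (yc t₀ 0 1 n : ℝ) ∧
      ac f t₀ (n + 1) = f t₀ * (yc t₀ 1 0 (n + 1) : ℝ) + deriv f t₀ * (yc t₀ 0 1 (n + 1) : ℝ) := by
  have ht : (1 - (t₀ : ℝ) ^ 2) ≠ 0 := by nlinarith
  have htq : 1 - t₀ ^ 2 ≠ 0 := by
    intro h0
    apply ht
    exact_mod_cast h0
  induction n with
  | zero =>
    constructor
    · rw [ac_zero]; simp [yc]
    · rw [ac_one]; simp [yc]
  | succ n ih =>
    refine ⟨ih.2, ?_⟩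
    have hn : ((n : ℝ) + 1) ≠ 0 := by positivity
    have hn2 : ((n : ℝ) + 2) ≠ 0 := by positivity
    have hr := h.rcc t₀ h1 h2 n
    have hu := yc_rec_real t₀ 1 0 htq n
    have hv := yc_rec_real t₀ 0 1 htq n
    have hne : (1 - (t₀ : ℝ) ^ 2) * (n + 1) * (n + 2) ≠ 0 :=
      mul_ne_zero (mul_ne_zero ht hn) hn2
    apply mul_left_cancel₀ hne
    rw [show n + 1 + 1 = n + 2 from rfl, hr, ih.1, ih.2]
    linear_combination (-(f t₀)) * hu - deriv f t₀ * hv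

/-- Growth of the coefficients. -/
lemma yc_bound (t₀ a b : ℚ) (h1 : -1 < (t₀ : ℝ)) (h2 : (t₀ : ℝ) < 1) (ha : |(a : ℝ)| ≤ 1)
    (hb : |(b : ℝ)| ≤ 1) (n : ℕ) :
    |(yc t₀ a b n : ℝ)| ≤ (3 / (1 - (t₀ : ℝ) ^ 2)) ^ n ∧
    |(yc t₀ a b (n + 1) : ℝ)| ≤ (3 / (1 - (t₀ : ℝ) ^ 2)) ^ (n + 1) := by
  have ht : 0 < (1 - (t₀ : ℝ) ^ 2) := by nlinarith
  have ht1 : (1 - (t₀ : ℝ) ^ 2) ≤ 1 := by nlinarith [sq_nonneg (t₀ : ℝ)]
  have htq : 1 - t₀ ^ 2 ≠ 0 := by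
    intro h0
    apply ht.ne'
    exact_mod_cast h0
  set C := 3 / (1 - (t₀ : ℝ) ^ 2) with hC
  have hCt : C * (1 - (t₀ : ℝ) ^ 2) = 3 := by rw [hC]; field_simp
  have hC1 : 1 ≤ C := by
    rw [hC, le_div_iff₀ ht]; linarith
  induction n with
  | zero =>
    constructor
    · simpa [yc] using ha
    · simp only [yc, zero_add, pow_one]; exact hb.trans hC1
  | succ n ih =>
    refine ⟨ih.2, ?_⟩
    have hn : (0 : ℝ) < ((n : ℝ) + 1) := by positivity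
    have hn2 : (0 : ℝ) < ((n : ℝ) + 2) := by positivity
    have hr := yc_rec_real t₀ a b htq n
    have hne : 0 < (1 - (t₀ : ℝ) ^ 2) * (n + 1) * (n + 2) := by positivity
    have habs : (1 - (t₀ : ℝ) ^ 2) * (n + 1) * (n + 2) * |(yc t₀ a b (n + 2) : ℝ)| ≤
        2 * (n + 1) ^ 2 * |(yc t₀ a b (n + 1) : ℝ)| + (2 * n + 1) ^ 2 / 4 * |(yc t₀ a b n : ℝ)| := by
      have e0 : (1 - (t₀ : ℝ) ^ 2) * (n + 1) * (n + 2) * |(yc t₀ a b (n + 2) : ℝ)| =
          |(1 - (t₀ : ℝ) ^ 2) * (n + 1) * (n + 2) * (yc t₀ a b (n + 2) : ℝ)| := by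
        rw [abs_mul, abs_of_pos hne]
      rw [e0, hr]
      refine (abs_add_le _ _).trans ?_
      rw [abs_mul, abs_mul, abs_mul, abs_mul]
      have e1 : |(t₀ : ℝ)| ≤ 1 := by rw [abs_le]; constructor <;> linarith
      have e2 : |((n : ℝ) + 1) ^ 2| = ((n : ℝ) + 1) ^ 2 := abs_of_nonneg (by positivity)
      have e3 : |(2 * (n : ℝ) + 1) ^ 2 / 4| = (2 * (n : ℝ) + 1) ^ 2 / 4 :=
        abs_of_nonneg (by positivity)
      rw [e2, e3, abs_two]
      have : 2 * |(t₀ : ℝ)| * ((n : ℝ) + 1) ^ 2 * |(yc t₀ a b (n + 1) : ℝ)| ≤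
          2 * 1 * ((n : ℝ) + 1) ^ 2 * |(yc t₀ a b (n + 1) : ℝ)| := by
        gcongr
      linarith
    have hCn : 0 < C ^ n := by positivity
    have hb1 : |(yc t₀ a b (n + 1) : ℝ)| ≤ C ^ (n + 1) := ih.2
    have hb0 : |(yc t₀ a b n : ℝ)| ≤ C ^ (n + 1) := by
      refine ih.1.trans ?_
      rw [pow_succ]; nlinarith
    have h5 : (1 - (t₀ : ℝ) ^ 2) * (n + 1) * (n + 2) * |(yc t₀ a b (n + 2) : ℝ)| ≤
        (1 - (t₀ : ℝ) ^ 2) * (n + 1) * (n + 2) * C ^ (n + 1 + 1) := by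
      have e4 : (1 - (t₀ : ℝ) ^ 2) * (n + 1) * (n + 2) * C ^ (n + 1 + 1) =
          3 * (n + 1) * (n + 2) * C ^ (n + 1) := by
        rw [pow_succ C (n + 1)]
        linear_combination ((n : ℝ) + 1) * (n + 2) * C ^ (n + 1) * hCt
      rw [e4]
      have e5 : 2 * ((n : ℝ) + 1) ^ 2 * |(yc t₀ a b (n + 1) : ℝ)| ≤
          2 * ((n : ℝ) + 1) ^ 2 * C ^ (n + 1) := by gcongr
      have e6 : (2 * (n : ℝ) + 1) ^ 2 / 4 * |(yc t₀ a b n : ℝ)| ≤
          (2 * (n : ℝ) + 1) ^ 2 / 4 * C ^ (n + 1) := by gcongr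
      have e7 : 0 < C ^ (n + 1) := by positivity
      have e8 : 2 * ((n : ℝ) + 1) ^ 2 + (2 * (n : ℝ) + 1) ^ 2 / 4 ≤ 3 * (n + 1) * (n + 2) := by
        have : (0 : ℝ) ≤ n := by positivity
        nlinarith
      nlinarith
    exact le_of_mul_le_mul_left h5 hne

lemma coeff_UV0 (t₀ : ℚ) (n : ℕ) : PowerSeries.coeff n (UV t₀ 0) = yc t₀ 1 0 n := by
  simp [UV]

lemma coeff_UV1 (t₀ : ℚ) (n : ℕ) : PowerSeries.coeff n (UV t₀ 1) = yc t₀ 0 1 n := by
  simp [UV]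

lemma coeff_UV2 (t₀ : ℚ) (n : ℕ) :
    PowerSeries.coeff n (UV t₀ 2) = (n + 1) * yc t₀ 1 0 (n + 1) := by
  simp [UV, hd]

lemma coeff_UV3 (t₀ : ℚ) (n : ℕ) :
    PowerSeries.coeff n (UV t₀ 3) = (n + 1) * yc t₀ 0 1 (n + 1) := by
  simp [UV, hd]

lemma conv_of_bound (F : PowerSeries ℚ) (c H w : ℝ) (hH : 0 ≤ H)
    (h : ∀ j, |((PowerSeries.coeff j F : ℚ) : ℝ)| ≤ c * H ^ j) (hw : H * |w| < 1) : Conv F w := by
  unfold Conv
  refine Summable.of_nonneg_of_le (fun j => by positivity) (fun j => ?_)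
    ((summable_geometric_of_lt_one (by positivity) hw).mul_left c)
  rw [mul_pow, ← mul_assoc]
  exact mul_le_mul_of_nonneg_right (h j) (by positivity)

lemma summable_of_conv {F : PowerSeries ℚ} {w : ℝ} (h : Conv F w) :
    Summable (fun j => ((PowerSeries.coeff j F : ℚ) : ℝ) * w ^ j) := by
  refine Summable.of_norm ?_
  refine h.congr (fun j => ?_)
  rw [Real.norm_eq_abs, abs_mul, abs_pow]

lemma conv_UV (t₀ : ℚ) (h1 : -1 < (t₀ : ℝ)) (h2 : (t₀ : ℝ) < 1) (w : ℝ)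
    (hw : 6 / (1 - (t₀ : ℝ) ^ 2) * |w| < 1) (i : Fin 4) : Conv (UV t₀ i) w := by
  have ht : 0 < (1 - (t₀ : ℝ) ^ 2) := by nlinarith
  set C := 3 / (1 - (t₀ : ℝ) ^ 2) with hC
  have hC0 : 0 < C := by positivity
  have h6 : 6 / (1 - (t₀ : ℝ) ^ 2) = 2 * C := by rw [hC]; ring
  rw [h6] at hw
  have hle : ∀ n : ℕ, C ^ n ≤ 1 * (2 * C) ^ n := by
    intro n
    rw [one_mul]
    exact pow_le_pow_left₀ hC0.le (by linarith) n
  have hle2 : ∀ n : ℕ, ((n : ℝ) + 1) * C ^ (n + 1) ≤ C * (2 * C) ^ n := by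
    intro n
    have : ((n : ℝ) + 1) ≤ 2 ^ n := by
      have := Nat.lt_two_pow_self (n := n)
      exact_mod_cast this
    calc ((n : ℝ) + 1) * C ^ (n + 1) ≤ 2 ^ n * C ^ (n + 1) := by gcongr
      _ = C * (2 * C) ^ n := by rw [mul_pow]; ring
  have b1 := fun n => (yc_bound t₀ 1 0 h1 h2 (by simp) (by simp) n).1
  have b2 := fun n => (yc_bound t₀ 0 1 h1 h2 (by simp) (by simp) n).1
  fin_cases i
  · apply conv_of_bound _ 1 (2 * C) w (by positivity) _ hw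
    intro j
    show |((PowerSeries.coeff j (UV t₀ 0) : ℚ) : ℝ)| ≤ _
    rw [coeff_UV0]
    exact (b1 j).trans (hle j)
  · apply conv_of_bound _ 1 (2 * C) w (by positivity) _ hw
    intro j
    show |((PowerSeries.coeff j (UV t₀ 1) : ℚ) : ℝ)| ≤ _
    rw [coeff_UV1]
    exact (b2 j).trans (hle j)
  · apply conv_of_bound _ C (2 * C) w (by positivity) _ hw
    intro j
    show |((PowerSeries.coeff j (UV t₀ 2) : ℚ) : ℝ)| ≤ _
    rw [coeff_UV2]
    push_cast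
    rw [abs_mul, abs_of_nonneg (by positivity : (0 : ℝ) ≤ (j : ℝ) + 1)]
    refine le_trans ?_ (hle2 j)
    gcongr
    exact b1 (j + 1)
  · apply conv_of_bound _ C (2 * C) w (by positivity) _ hw
    intro j
    show |((PowerSeries.coeff j (UV t₀ 3) : ℚ) : ℝ)| ≤ _
    rw [coeff_UV3]
    push_cast
    rw [abs_mul, abs_of_nonneg (by positivity : (0 : ℝ) ≤ (j : ℝ) + 1)]
    refine le_trans ?_ (hle2 j)
    gcongr
    exact b2 (j + 1)

/-- Positivity of `U`. -/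
lemma val_pos (t₀ : ℚ) (h1 : -1 < (t₀ : ℝ)) (h2 : (t₀ : ℝ) < 1) (w : ℝ)
    (hw : 6 / (1 - (t₀ : ℝ) ^ 2) * |w| < 1) : 0 < val (UV t₀ 0) w := by
  have ht : 0 < (1 - (t₀ : ℝ) ^ 2) := by nlinarith
  have hc := conv_UV t₀ h1 h2 w hw 0
  have hs := summable_of_conv hc
  unfold val
  rw [hs.tsum_eq_zero_add]
  set C := 3 / (1 - (t₀ : ℝ) ^ 2) with hC
  have hC0 : 0 < C := by positivity
  have h6 : 6 / (1 - (t₀ : ℝ) ^ 2) = 2 * C := by rw [hC]; ring
  rw [h6] at hw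
  have hx : C * |w| < 1 / 2 := by linarith
  have hx0 : 0 ≤ C * |w| := by positivity
  have b1 := fun n => (yc_bound t₀ 1 0 h1 h2 (by simp) (by simp) n).1
  have hgeo : Summable (fun n : ℕ => (C * |w|) ^ n * (C * |w|)) :=
    (summable_geometric_of_lt_one hx0 (by linarith)).mul_right _
  have hb : |∑' n : ℕ, ((PowerSeries.coeff (n + 1) (UV t₀ 0) : ℚ) : ℝ) * w ^ (n + 1)| ≤
      ∑' n : ℕ, (C * |w|) ^ n * (C * |w|) := by
    have hle : ∀ n : ℕ, ‖((PowerSeries.coeff (n + 1) (UV t₀ 0) : ℚ) : ℝ) * w ^ (n + 1)‖ ≤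
        (C * |w|) ^ n * (C * |w|) := by
      intro n
      rw [Real.norm_eq_abs, abs_mul, abs_pow, ← pow_succ, mul_pow, coeff_UV0]
      gcongr
      exact b1 (n + 1)
    have := tsum_of_norm_bounded hgeo.hasSum hle
    simpa [Real.norm_eq_abs] using this
  have he : ∑' n : ℕ, (C * |w|) ^ n * (C * |w|) = (1 - C * |w|)⁻¹ * (C * |w|) := by
    rw [tsum_mul_right, tsum_geometric_of_lt_one hx0 (by linarith)]
  rw [he] at hb
  have hlt : (1 - C * |w|)⁻¹ * (C * |w|) < 1 := by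
    have h3 : 0 < 1 - C * |w| := by linarith
    rw [inv_mul_lt_iff₀ h3]
    linarith
  have h0 : ((PowerSeries.coeff 0 (UV t₀ 0) : ℚ) : ℝ) * w ^ 0 = 1 := by
    rw [coeff_UV0]; simp [yc]
  rw [h0]
  have := (abs_lt.1 (hb.trans_lt hlt)).1
  linarith

lemma Sol.expand {f : ℝ → ℝ} (h : Sol f) (t₀ : ℚ) (h1 : -1 < (t₀ : ℝ)) (h2 : (t₀ : ℝ) < 1) :
    ∀ᶠ w in 𝓝 (0 : ℝ), (∀ i, Conv (UV t₀ i) w) →
      f (t₀ + w) = val (UV t₀ 0) w * f t₀ + val (UV t₀ 1) w * deriv f t₀ ∧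
      deriv f (t₀ + w) = val (UV t₀ 2) w * f t₀ + val (UV t₀ 3) w * deriv f t₀ := by
  filter_upwards [hasSum_ac (h.an t₀ h1 h2), hasSum_ac (h.an t₀ h1 h2).deriv] with w hw1 hw2 hc
  have s0 := (summable_of_conv (hc 0)).hasSum
  have s1 := (summable_of_conv (hc 1)).hasSum
  have s2 := (summable_of_conv (hc 2)).hasSum
  have s3 := (summable_of_conv (hc 3)).hasSum
  constructor
  · refine hw1.unique ?_
    have := (s0.mul_right (f t₀)).add (s1.mul_right (deriv f t₀))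
    convert! this using 1
    funext n
    rw [coeff_UV0, coeff_UV1, (h.ac_eq t₀ h1 h2 n).1]
    ring
  · refine hw2.unique ?_
    have := (s2.mul_right (f t₀)).add (s3.mul_right (deriv f t₀))
    convert! this using 1
    funext n
    rw [coeff_UV2, coeff_UV3, ac_deriv, (h.ac_eq t₀ h1 h2 n).2]
    push_cast
    ring

lemma sol_phi (hA : Stmt_PhiAn) (hO : Stmt_Ode) : Sol phi where
  an := fun t _ h2 => (hA t h2).1
  ode := fun t h1 h2 => hO t h1 h2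

lemma deriv_phi_neg : deriv (fun t => phi (-t)) = fun t => - deriv phi (-t) := by
  funext t
  exact deriv_comp_neg phi t

lemma sol_phi_neg (hA : Stmt_PhiAn) (hO : Stmt_Ode) : Sol (fun t => phi (-t)) where
  an := fun t h1 _ => by
    have h := (hA (-t) (by linarith)).1
    exact h.fun_comp_of_eq (analyticAt_id.neg) rfl
  ode := fun t h1 h2 => by
    have h := hO (-t) (by linarith) (by linarith)
    rw [deriv_phi_neg]
    have e : deriv (fun t => - deriv phi (-t)) t = deriv (deriv phi) (-t) := by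
      have e1 : deriv (fun t => deriv phi (-t)) t = - deriv (deriv phi) (-t) :=
        deriv_comp_neg (deriv phi) t
      have e2 : deriv (fun t => - deriv phi (-t)) t = - deriv (fun t => deriv phi (-t)) t :=
        deriv.fun_neg
      rw [e2, e1, neg_neg]
    rw [e]
    linarith

end Ser

/-- The Taylor expansions at `t₀`. -/
theorem Ser_proof (hA : Stmt_PhiAn) (hO : Stmt_Ode) : Stmt_Ser := by
  intro t₀ h1 h2
  have h1' : -1 < (t₀ : ℝ) := by exact_mod_cast h1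
  have h2' : (t₀ : ℝ) < 1 := by exact_mod_cast h2
  have ht : 0 < (1 - (t₀ : ℝ) ^ 2) := by nlinarith
  have hA1 := (Ser.sol_phi hA hO).expand t₀ h1' h2'
  have hA2 := (Ser.sol_phi_neg hA hO).expand t₀ h1' h2'
  obtain ⟨ρ, hρ, hB⟩ := Metric.eventually_nhds_iff.1 (hA1.and hA2)
  refine ⟨min ρ ((1 - (t₀ : ℝ) ^ 2) / 6), lt_min hρ (by positivity), ?_⟩
  intro w hw
  have hw1 : |w| < ρ := hw.trans_le (min_le_left _ _)
  have hw2 : 6 / (1 - (t₀ : ℝ) ^ 2) * |w| < 1 := by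
    have := hw.trans_le (min_le_right _ _)
    rw [lt_div_iff₀ (by norm_num)] at this
    rw [div_mul_eq_mul_div, div_lt_one ht]
    linarith
  have hc := Ser.conv_UV t₀ h1' h2' w hw2
  have hdist : dist w 0 < ρ := by simpa [Real.dist_eq] using hw1
  obtain ⟨e1, e2⟩ := hB hdist
  obtain ⟨a1, a2⟩ := e1 hc
  obtain ⟨b1, b2⟩ := e2 hc
  refine ⟨hc, Ser.val_pos t₀ h1' h2' w hw2, ?_, ?_, ?_, ?_⟩
  · simpa [Mt] using a1
  · rw [Ser.deriv_phi_neg] at b1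
    simpa [Mt] using b1
  · simpa [Mt] using a2
  · rw [Ser.deriv_phi_neg] at b2
    simpa [Mt] using b2

end Pool.Agent.DGP
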