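import Pool.Agent.DGP.Stmts

set_option autoImplicit false

/-!
Shidlovskii's lemma.
-/

open Finset

namespace Pool.Agent.DGP.Shid

open Pool.Agent.DGP

/-- Power series. -/
abbrev R := PowerSeries ℚ

/-- The derivation `T d/dz`. -/
noncomputable def th (T : Polynomial ℚ) (f : R) : R := (T : R) * hd 1 f

theorem hd_one (f : R) : hd 1 f = PowerSeries.derivative ℚ f := by
  ext n
  simp only [hd, PowerSeries.coeff_mk, PowerSeries.coeff_derivative, Nat.choose_one_right]
  push_cast
  ring

theorem th_eq (T : Polynomial ℚ) (f : R) : th T f = (T : R) * PowerSeries.derivative ℚ f := by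
  rw [th, hd_one]

theorem th_add (T : Polynomial ℚ) (f g : R) : th T (f + g) = th T f + th T g := by
  simp only [th_eq, map_add]; ring

theorem th_mul (T : Polynomial ℚ) (f g : R) : th T (f * g) = th T f * g + f * th T g := by
  simp only [th_eq, Derivation.leibniz, smul_eq_mul]; ring

theorem th_zero (T : Polynomial ℚ) : th T 0 = 0 := by
  simp [th_eq]

theorem th_sum (T : Polynomial ℚ) {ι : Type} (s : Finset ι) (f : ι → R) :
    th T (∑ i ∈ s, f i) = ∑ i ∈ s, th T (f i) := by
  simp only [th_eq, map_sum, mul_sum]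

theorem th_smul (T : Polynomial ℚ) (a : ℚ) (f : R) : th T (a • f) = a • th T f := by
  simp only [th_eq, Derivation.map_smul, mul_smul_comm]

theorem th_poly (T p : Polynomial ℚ) : th T (p : R) = ((T * Polynomial.derivative p : Polynomial ℚ) : R) := by
  rw [th_eq, PowerSeries.derivative_coe]
  push_cast
  ring

theorem th_iter_smul (T : Polynomial ℚ) (a : ℚ) (f : R) (k : ℕ) :
    (th T)^[k] (a • f) = a • (th T)^[k] f := by
  induction k with
  | zero => rfl
  | succ k ih => rw [Function.iterate_succ_apply', ih, th_smul, Function.iterate_succ_apply']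

theorem th_iter_sum (T : Polynomial ℚ) {ι : Type} (s : Finset ι) (f : ι → R) (k : ℕ) :
    (th T)^[k] (∑ i ∈ s, f i) = ∑ i ∈ s, (th T)^[k] (f i) := by
  induction k with
  | zero => rfl
  | succ k ih => simp only [Function.iterate_succ_apply', ih, th_sum]

/-- The operator `δ` describes the derivation on the forms. -/
theorem th_form {m : ℕ} (T : Polynomial ℚ) (A : Fin m → Fin m → Polynomial ℚ) (y : Fin m → R)
    (hy : ∀ i, (T : R) * hd 1 (y i) = ∑ j, (A i j : R) * y j) (P : Fin m → Polynomial ℚ) :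
    th T (∑ i, (P i : R) * y i) = ∑ i, (dlt T A P i : R) * y i := by
  rw [th_sum]
  have h1 : ∀ i, th T ((P i : R) * y i)
      = ((T * Polynomial.derivative (P i) : Polynomial ℚ) : R) * y i
        + ∑ j, ((P i * A i j : Polynomial ℚ) : R) * y j := by
    intro i
    rw [th_mul, th_poly]
    have : th T (y i) = ∑ j, (A i j : R) * y j := hy i
    rw [this, mul_sum]
    congr 1
    apply sum_congr rfl
    intro j _
    push_cast
    ring
  simp only [h1, sum_add_distrib]
  rw [sum_comm, ← sum_add_distrib]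
  apply sum_congr rfl
  intro i _
  have h2 : ((dlt T A P i : Polynomial ℚ) : R)
      = ((T * Polynomial.derivative (P i) : Polynomial ℚ) : R)
        + ∑ j, ((P j * A j i : Polynomial ℚ) : R) := by
    rw [dlt]
    push_cast
    congr 1
    rw [← Polynomial.coeToPowerSeries.ringHom_apply, map_sum]
    simp
  rw [h2, add_mul, sum_mul]

theorem th_form_iter {m : ℕ} (T : Polynomial ℚ) (A : Fin m → Fin m → Polynomial ℚ) (y : Fin m → R)
    (hy : ∀ i, (T : R) * hd 1 (y i) = ∑ j, (A i j : R) * y j) (P : Fin m → Polynomial ℚ) (k : ℕ) :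
    (th T)^[k] (∑ i, (P i : R) * y i) = ∑ i, (((dlt T A)^[k] P) i : R) * y i := by
  induction k with
  | zero => rfl
  | succ k ih => rw [Function.iterate_succ_apply', ih, th_form T A y hy, Function.iterate_succ_apply']

/-- The derivation lowers the order by at most one. -/
theorem th_dvd (T : Polynomial ℚ) (f : R) (M : ℕ) (h : (PowerSeries.X : R) ^ M ∣ f) :
    (PowerSeries.X : R) ^ (M - 1) ∣ th T f := by
  rw [PowerSeries.X_pow_dvd_iff] at h
  rw [th_eq]
  apply Dvd.dvd.mul_left
  rw [PowerSeries.X_pow_dvd_iff]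
  intro j hj
  rw [PowerSeries.coeff_derivative, h (j + 1) (by omega), zero_mul]

theorem th_iter_dvd (T : Polynomial ℚ) (f : R) (M k : ℕ) (h : (PowerSeries.X : R) ^ M ∣ f) :
    (PowerSeries.X : R) ^ (M - k) ∣ (th T)^[k] f := by
  induction k with
  | zero => exact h
  | succ k ih =>
    rw [Function.iterate_succ_apply']
    have := th_dvd T _ _ ih
    rwa [Nat.sub_sub] at this

/-- Degrees of the derived forms. -/
theorem dlt_deg {m : ℕ} (T : Polynomial ℚ) (A : Fin m → Fin m → Polynomial ℚ) (τ : ℕ)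
    (hT : T.natDegree ≤ τ) (hA : ∀ i j, (A i j).natDegree ≤ τ) (N : ℕ)
    (P : Fin m → Polynomial ℚ) (hP : ∀ i, (P i).natDegree ≤ N) (i : Fin m) :
    (dlt T A P i).natDegree ≤ N + τ := by
  unfold dlt
  refine (Polynomial.natDegree_add_le _ _).trans (max_le ?_ ?_)
  · refine Polynomial.natDegree_mul_le.trans ?_
    have := (Polynomial.natDegree_derivative_le (P i))
    have := hP i
    omega
  · refine Polynomial.natDegree_sum_le_of_forall_le _ _ ?_
    intro j _
    refine Polynomial.natDegree_mul_le.trans ?_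
    have := hP j
    have := hA j i
    omega

theorem dlt_iter_deg {m : ℕ} (T : Polynomial ℚ) (A : Fin m → Fin m → Polynomial ℚ) (τ : ℕ)
    (hT : T.natDegree ≤ τ) (hA : ∀ i j, (A i j).natDegree ≤ τ) (N : ℕ)
    (P : Fin m → Polynomial ℚ) (hP : ∀ i, (P i).natDegree ≤ N) (k : ℕ) (i : Fin m) :
    (((dlt T A)^[k] P) i).natDegree ≤ N + k * τ := by
  induction k generalizing i with
  | zero => simpa using hP i
  | succ k ih =>
    rw [Function.iterate_succ_apply']
    refine (dlt_deg T A τ hT hA (N + k * τ) _ ih i).trans ?_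
    rw [Nat.succ_mul]
    omega

/-- Normalised derivatives of derivatives. -/
theorem hd_hd (i : ℕ) (f : R) : hd 1 (hd i f) = (((i + 1 : ℕ) : ℚ)) • hd (i + 1) f := by
  ext n
  simp only [hd, PowerSeries.coeff_mk, PowerSeries.coeff_smul, smul_eq_mul, Nat.choose_one_right]
  have h : n + 1 + i = n + (i + 1) := by ring
  rw [h, ← mul_assoc, ← mul_assoc]
  congr 1
  have h2 := Nat.add_one_mul_choose_eq (n + i) i
  have h3 : (n + (i + 1)).choose (i + 1) * (i + 1) = (n + i + 1) * (n + i).choose i := by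
    rw [← add_assoc]; exact h2.symm
  have h4 := Nat.choose_symm_add (a := n) (b := i)
  have h5 : (n + (i + 1)).choose i * (n + 1) = (n + i + 1) * (n + i).choose i := by
    have h6 := Nat.choose_mul_succ_eq (n + i) i
    have h7 : n + i + 1 - i = n + 1 := by omega
    rw [h7] at h6
    rw [← add_assoc, ← h6]; ring
  have h6 : (n + 1) * (n + (i + 1)).choose i = (i + 1) * (n + (i + 1)).choose (i + 1) := by
    rw [mul_comm, h5, mul_comm (i + 1), h3]
  exact_mod_cast h6

/-- Coefficients of `θ^k` in terms of normalised derivatives. -/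
noncomputable def cc (T : Polynomial ℚ) : ℕ → ℕ → R
  | 0, i => if i = 0 then 1 else 0
  | (k + 1), 0 => th T (cc T k 0)
  | (k + 1), (i + 1) => th T (cc T k (i + 1)) + cc T k i * (T : R) * ((((i + 1 : ℕ) : ℚ)) • (1 : R))

theorem cc_big (T : Polynomial ℚ) (k : ℕ) : ∀ i, k < i → cc T k i = 0 := by
  induction k with
  | zero =>
    intro i hi
    rw [cc, if_neg (by omega)]
  | succ k ih =>
    intro i hi
    cases i with
    | zero => omega
    | succ i =>
      rw [cc, ih (i + 1) (by omega), ih i (by omega), th_zero]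
      simp

theorem cc_diag (T : Polynomial ℚ) (hT : T ≠ 0) (k : ℕ) : cc T k k ≠ 0 := by
  induction k with
  | zero => simp [cc]
  | succ k ih =>
    rw [cc, cc_big T k (k + 1) (by omega), th_zero, zero_add]
    refine mul_ne_zero (mul_ne_zero ih ?_) ?_
    · exact_mod_cast hT
    · exact smul_ne_zero (by positivity) one_ne_zero

theorem cc_spec (T : Polynomial ℚ) (f : R) (k : ℕ) : ∀ s, k < s →
    (th T)^[k] f = ∑ i ∈ range s, cc T k i * hd i f := by
  induction k with
  | zero =>
    intro s hs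
    rw [sum_eq_single_of_mem 0 (by simpa using hs)]
    · have : hd 0 f = f := by
        ext n; simp [hd]
      simp [cc, this]
    · intro i _ hi
      rw [cc, if_neg hi, zero_mul]
  | succ k ih =>
    intro s hs
    rw [Function.iterate_succ_apply', ih s (by omega), th_sum]
    obtain ⟨s, rfl⟩ : ∃ s', s = s' + 1 := ⟨s - 1, by omega⟩
    have h1 : ∀ i, th T (cc T k i * hd i f)
        = th T (cc T k i) * hd i f + cc T k i * (T : R) * ((((i + 1 : ℕ) : ℚ)) • hd (i + 1) f) := by
      intro i
      rw [th_mul, ← hd_hd]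
      have : th T (hd i f) = (T : R) * hd 1 (hd i f) := rfl
      rw [this]; ring
    simp only [h1, sum_add_distrib]
    rw [sum_range_succ (fun i => cc T k i * (T : R) * ((((i + 1 : ℕ) : ℚ)) • hd (i + 1) f)),
      cc_big T k s (by omega), zero_mul, zero_mul, add_zero, sum_range_succ', sum_range_succ']
    rw [add_right_comm, ← sum_add_distrib]
    congr 1
    apply sum_congr rfl
    intro i _
    rw [cc]
    simp only [mul_smul_comm, add_mul, mul_one, smul_mul_assoc]

/-- The Wronskian with respect to `T d/dz`. -/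
theorem wr_th (hWr : Stmt_Wr) (T : Polynomial ℚ) (hT : T ≠ 0) (s : ℕ) (g : Fin s → R)
    (hg : LinearIndependent ℚ g) :
    Matrix.det (Matrix.of (fun k j : Fin s => (th T)^[k] (g j))) ≠ 0 := by
  have h1 : Matrix.of (fun k j : Fin s => (th T)^[k] (g j))
      = Matrix.of (fun k i : Fin s => cc T k i) * Matrix.of (fun k j : Fin s => hd k (g j)) := by
    ext1 k j
    simp only [Matrix.mul_apply, Matrix.of_apply]
    rw [cc_spec T (g j) k s k.2, ← Fin.sum_univ_eq_sum_range (fun i => cc T k i * hd i (g j))]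
  rw [h1, Matrix.det_mul]
  refine mul_ne_zero ?_ (hWr s g hg)
  rw [Matrix.det_of_isLowerTriangular]
  · rw [prod_ne_zero_iff]
    intro k _
    exact cc_diag T hT k
  · intro k i hki
    exact cc_big T k i hki


/-- Product of finitely many elements of a subspace. -/
theorem prod_mem_pow (V : Submodule ℚ R) {ι : Type} (s : Finset ι) (f : ι → R)
    (hf : ∀ i ∈ s, f i ∈ V) : ∏ i ∈ s, f i ∈ V ^ s.card := by
  classical
  induction s using Finset.induction_on with
  | empty =>
    simp only [prod_empty, card_empty, pow_zero]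
    exact Submodule.one_le.1 le_rfl
  | insert a s ha ih =>
    rw [prod_insert ha, card_insert_of_notMem ha, pow_succ']
    exact Submodule.mul_mem_mul (hf a (mem_insert_self a s))
      (ih (fun i hi => hf i (mem_insert_of_mem hi)))

/-- Determinants of matrices with entries in a subspace. -/
theorem det_mem_pow (V : Submodule ℚ R) {ι : Type} [Fintype ι] [DecidableEq ι]
    (M : Matrix ι ι R) (hM : ∀ i j, M i j ∈ V) : M.det ∈ V ^ (Fintype.card ι) := by
  rw [Matrix.det_apply]
  refine Submodule.sum_mem _ ?_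
  intro σ _
  have h1 : ∏ i, M (σ i) i ∈ V ^ (Fintype.card ι) :=
    prod_mem_pow V univ (fun i => M (σ i) i) (fun i _ => hM _ _)
  rcases Int.units_eq_one_or (Equiv.Perm.sign σ) with h | h
  · rw [h, one_smul]; exact h1
  · rw [h, Units.neg_smul, one_smul]; exact Submodule.neg_mem _ h1

/-- Bounded degree for a finitely generated subspace. -/
theorem bdeg_sub (hB : Stmt_BDeg) (V : Submodule ℚ R) (hV : V.FG) : ∃ d : ℕ,
    ∀ u ∈ V, ∀ v ∈ V, v ≠ 0 → ∀ X Y : Polynomial ℚ, Y ≠ 0 →
      (Y : R) * u = (X : R) * v →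
      ∃ X' Y' : Polynomial ℚ, Y' ≠ 0 ∧ X'.natDegree ≤ d ∧ Y'.natDegree ≤ d ∧ X * Y' = X' * Y := by
  obtain ⟨p, φ, hφ⟩ := Submodule.fg_iff_exists_fin_generating_family.1 hV
  obtain ⟨d, hd⟩ := hB p φ
  refine ⟨d, ?_⟩
  intro u hu v hv hv0 X Y hY h
  rw [← hφ, Submodule.mem_span_range_iff_exists_fun] at hu hv
  obtain ⟨a, rfl⟩ := hu
  obtain ⟨b, rfl⟩ := hv
  simp only [PowerSeries.smul_eq_C_mul] at h hv0
  exact hd a b X Y hY h hv0

/-- Uniform version for powers. -/
theorem bdeg_pow (hB : Stmt_BDeg) (V : Submodule ℚ R) (hV : V.FG) (m : ℕ) : ∃ d : ℕ,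
    ∀ n ≤ m, ∀ u ∈ V ^ n, ∀ v ∈ V ^ n, v ≠ 0 → ∀ X Y : Polynomial ℚ, Y ≠ 0 →
      (Y : R) * u = (X : R) * v →
      ∃ X' Y' : Polynomial ℚ, Y' ≠ 0 ∧ X'.natDegree ≤ d ∧ Y'.natDegree ≤ d ∧ X * Y' = X' * Y := by
  choose d hd using fun n : ℕ => bdeg_sub hB (V ^ n) (hV.pow n)
  refine ⟨∑ n ∈ range (m + 1), d n, ?_⟩
  intro n hn u hu v hv hv0 X Y hY h
  obtain ⟨X', Y', h1, h2, h3, h4⟩ := hd n u hu v hv hv0 X Y hY h
  have h5 : d n ≤ ∑ n ∈ range (m + 1), d n :=
    single_le_sum (f := d) (fun _ _ => Nat.zero_le _) (by simpa using Nat.lt_succ_of_le hn)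
  exact ⟨X', Y', h1, h2.trans h5, h3.trans h5, h4⟩

/-- Degree of a determinant. -/
theorem det_deg {r : ℕ} (M : Matrix (Fin r) (Fin r) (Polynomial ℚ)) (N : ℕ)
    (hM : ∀ i j, (M i j).natDegree ≤ N) : M.det.natDegree ≤ r * N := by
  rw [Matrix.det_apply]
  refine Polynomial.natDegree_sum_le_of_forall_le _ _ ?_
  intro σ _
  have h1 : (∏ i, M (σ i) i).natDegree ≤ r * N := by
    refine (Polynomial.natDegree_prod_le _ _).trans ?_
    refine (sum_le_card_nsmul univ _ N (fun i _ => hM _ _)).trans ?_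
    simp
  rcases Int.units_eq_one_or (Equiv.Perm.sign σ) with h | h
  · rw [h, one_smul]; exact h1
  · rw [h, Units.neg_smul, one_smul, Polynomial.natDegree_neg]; exact h1

/-- Expansion of the determinant of a product of rectangular matrices. -/
theorem det_mul_expand {r m : ℕ} (M : Matrix (Fin r) (Fin m) R) (N : Matrix (Fin m) (Fin r) R) :
    (M * N).det = ∑ p : Fin r → Fin m, (∏ i, N (p i) i) * (M.submatrix id p).det := by
  have h1 : (M * N).det = ∑ σ : Equiv.Perm (Fin r), ((Equiv.Perm.sign σ : ℤ) : R) *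
      ∑ p : Fin r → Fin m, ∏ i, (M (σ i) (p i) * N (p i) i) := by
    rw [Matrix.det_apply']
    apply sum_congr rfl
    intro σ _
    congr 1
    simp only [Matrix.mul_apply]
    rw [prod_univ_sum, Fintype.piFinset_univ]
  rw [h1]
  simp only [mul_sum]
  rw [sum_comm]
  apply sum_congr rfl
  intro p _
  rw [Matrix.det_apply', mul_sum]
  apply sum_congr rfl
  intro σ _
  rw [prod_mul_distrib]
  simp only [Matrix.submatrix_apply, id]
  ring

theorem exists_minor {r m : ℕ} (M : Matrix (Fin r) (Fin m) R) (N : Matrix (Fin m) (Fin r) R)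
    (h : (M * N).det ≠ 0) : ∃ p : Fin r → Fin m, (M.submatrix id p).det ≠ 0 := by
  by_contra hne
  push Not at hne
  apply h
  rw [det_mul_expand]
  apply sum_eq_zero
  intro p _
  rw [hne p, mul_zero]

theorem inj_of_minor {r m : ℕ} (M : Matrix (Fin r) (Fin m) R) (p : Fin r → Fin m)
    (h : (M.submatrix id p).det ≠ 0) : Function.Injective p := by
  intro i j hij
  by_contra hne
  apply h
  apply Matrix.det_zero_of_column_eq hne
  intro k
  simp [hij]

/-- Splitting of sums. -/
theorem sum_split {r m : ℕ} (e : Fin r → Fin m) (he : Function.Injective e) (f : Fin m → R) :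
    ∑ i, f i = ∑ l, f (e l) + ∑ j : {j : Fin m // j ∉ Set.range e}, f j := by
  classical
  have h1 := Fintype.sum_subtype_add_sum_subtype (fun j : Fin m => j ∈ Set.range e) f
  have h2 : ∑ l, f (e l) = ∑ i : {j : Fin m // j ∈ Set.range e}, f i :=
    Fintype.sum_equiv (κ := {j : Fin m // j ∈ Set.range e}) (Equiv.ofInjective e he)
      (fun l => f (e l)) (fun i => f i) (fun l => rfl)
  rw [← h1, h2]
  exact congrArg₂ (· + ·) (Finset.sum_congr (by ext x; simp) (fun _ _ => rfl)) rfl

theorem card_compl {r m : ℕ} (e : Fin r → Fin m) (he : Function.Injective e) :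
    Fintype.card {j : Fin m // j ∉ Set.range e} = m - r := by
  classical
  have h1 : Fintype.card {j : Fin m // j ∈ Set.range e} = r := by
    rw [← Fintype.card_congr (Equiv.ofInjective e he), Fintype.card_fin]
  have h2 := Fintype.card_subtype_compl (fun j : Fin m => j ∈ Set.range e)
  rw [h1, Fintype.card_fin] at h2
  exact h2

/-- The forms attached to `P` and the columns of the fundamental matrix. -/
noncomputable def gg {m : ℕ} (P : Fin m → Polynomial ℚ) (Y : Fin m → Fin m → R) (j : Fin m) : R :=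
  ∑ i, (P i : R) * Y i j

theorem gg_iter {m : ℕ} (T : Polynomial ℚ) (A : Fin m → Fin m → Polynomial ℚ)
    (Y : Fin m → Fin m → R)
    (hY : ∀ i j, (T : R) * hd 1 (Y i j) = ∑ l, (A i l : R) * Y l j)
    (P : Fin m → Polynomial ℚ) (k : ℕ) (j : Fin m) :
    (th T)^[k] (gg P Y j) = ∑ i, (((dlt T A)^[k] P) i : R) * Y i j :=
  th_form_iter T A (fun i => Y i j) (fun i => hY i j) P k

theorem det_coe {r : ℕ} (M : Matrix (Fin r) (Fin r) (Polynomial ℚ)) :
    (M.det : R) = (Matrix.of (fun i j => (M i j : R))).det := by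
  have h := RingHom.map_det (Polynomial.coeToPowerSeries.ringHom (R := ℚ)) M
  rw [Polynomial.coeToPowerSeries.ringHom_apply] at h
  rw [h]
  rfl

/-- Choice of the basis and of the minor. -/
theorem key (hWr : Stmt_Wr) {m : ℕ} (T : Polynomial ℚ) (A : Fin m → Fin m → Polynomial ℚ)
    (hT : T ≠ 0) (Y : Fin m → Fin m → R)
    (hY : ∀ i j, (T : R) * hd 1 (Y i j) = ∑ l, (A i l : R) * Y l j)
    (hdet : (Matrix.of Y).det ≠ 0) (P : Fin m → Polynomial ℚ) (hP : ∃ i, P i ≠ 0)
    (hW : Matrix.det (Matrix.of (fun k i : Fin m => ((dlt T A)^[k] P) i)) = 0) :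
    ∃ (r : ℕ) (a e : Fin r → Fin m) (γ : Fin m → Fin r → ℚ), 1 ≤ r ∧ r < m ∧
      Function.Injective a ∧ Function.Injective e ∧
      (∀ j, gg P Y j = ∑ l, γ j l • gg P Y (a l)) ∧
      (Matrix.of (fun k l : Fin r => ((dlt T A)^[k] P) (e l))).det ≠ 0 := by
  classical
  obtain ⟨κ, a₀, ha₀, hspan₀, hli₀⟩ := exists_linearIndependent' ℚ (gg P Y)
  have : Fintype κ := Fintype.ofInjective a₀ ha₀
  obtain ⟨r, hr⟩ : ∃ r, r = Fintype.card κ := ⟨_, rfl⟩
  let ε : Fin r ≃ κ := (Fintype.equivFinOfCardEq hr.symm).symm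
  let a : Fin r → Fin m := a₀ ∘ ε
  have ha : Function.Injective a := ha₀.comp ε.injective
  have hli : LinearIndependent ℚ (gg P Y ∘ a) := by
    have := (linearIndependent_equiv ε (f := gg P Y ∘ a₀)).2 hli₀
    exact this
  have hspan : ∀ j, ∃ γ : Fin r → ℚ, gg P Y j = ∑ l, γ l • gg P Y (a l) := by
    intro j
    have h1 : gg P Y j ∈ Submodule.span ℚ (Set.range (gg P Y ∘ a)) := by
      have h2 : Set.range (gg P Y ∘ a) = Set.range (gg P Y ∘ a₀) := by
        have : gg P Y ∘ a = (gg P Y ∘ a₀) ∘ ε := rfl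
        rw [this, ε.surjective.range_comp]
      rw [h2, hspan₀]
      exact Submodule.subset_span ⟨j, rfl⟩
    rw [Submodule.mem_span_range_iff_exists_fun] at h1
    obtain ⟨c, hc⟩ := h1
    exact ⟨c, hc.symm⟩
  choose γ hγ using hspan
  have hwr := wr_th hWr T hT r (gg P Y ∘ a) hli
  have hprod : Matrix.of (fun k l : Fin r => (th T)^[k] ((gg P Y ∘ a) l))
      = Matrix.of (fun (k : Fin r) (i : Fin m) => (((dlt T A)^[k] P) i : R))
        * Matrix.of (fun (i : Fin m) (l : Fin r) => Y i (a l)) := by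
    ext1 k l
    simp only [Matrix.mul_apply, Matrix.of_apply, Function.comp]
    rw [gg_iter T A Y hY]
  rw [hprod] at hwr
  have hrm : r ≤ m := by
    have := Fintype.card_le_of_injective a ha
    simpa using this
  have hr1 : 1 ≤ r := by
    by_contra h0
    have h0 : r = 0 := by omega
    obtain ⟨i, hi⟩ := hP
    apply hi
    have h1 : ∀ j, gg P Y j = 0 := by
      intro j
      rw [hγ j]
      subst h0
      simp
    have h2 : Matrix.vecMul (fun i => (P i : R)) (Matrix.of Y) = 0 := by
      ext1 j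
      simp only [Matrix.vecMul, dotProduct, Matrix.of_apply, Pi.zero_apply]
      exact h1 j
    have h3 := Matrix.eq_zero_of_vecMul_eq_zero hdet h2
    have h4 := congrFun h3 i
    simpa using h4
  obtain ⟨p, hp⟩ := exists_minor _ _ hwr
  have hpi := inj_of_minor _ _ hp
  refine ⟨r, a, p, γ, hr1, ?_, ha, hpi, hγ, ?_⟩
  · rcases hrm.eq_or_lt with h | h
    · exfalso
      subst h
      apply hwr
      rw [Matrix.det_mul]
      have := det_coe (Matrix.of (fun k i : Fin r => ((dlt T A)^[k] P) i))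
      rw [hW] at this
      have h5 : (Matrix.of (fun (k : Fin r) (i : Fin r) => (((dlt T A)^[k] P) i : R))).det = 0 := by
        rw [← Polynomial.coe_zero, this]; rfl
      rw [h5, zero_mul]
    · exact h
  · intro h
    apply hp
    have := det_coe (Matrix.of (fun k l : Fin r => ((dlt T A)^[k] P) (p l)))
    rw [h] at this
    rw [← Polynomial.coe_zero, this]; rfl

/-- Orders. -/
theorem order_le_add (f g h : R) (p q M : ℕ) (hf : PowerSeries.coeff p f ≠ 0)
    (hg : PowerSeries.coeff q g ≠ 0) (hh : (PowerSeries.X : R) ^ M ∣ h) (he : f * g = h) :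
    M ≤ p + q := by
  have h1 : PowerSeries.order h = PowerSeries.order f + PowerSeries.order g := by
    rw [← he, PowerSeries.order_mul]
  have h2 := PowerSeries.order_le p hf
  have h3 := PowerSeries.order_le q hg
  have h4 : (M : ℕ∞) ≤ PowerSeries.order h := by
    apply PowerSeries.le_order
    intro i hi
    rw [PowerSeries.X_pow_dvd_iff] at hh
    exact hh i (by exact_mod_cast hi)
  rw [h1] at h4
  have h5 : (M : ℕ∞) ≤ (p : ℕ∞) + q := h4.trans (add_le_add h2 h3)
  exact_mod_cast h5

/-- The linear algebra at the heart of Shidlovskii's lemma: ratios of bounded degree. -/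
theorem ratio {m : ℕ} (V : Submodule ℚ R) (d : ℕ)
    (hdd : ∀ n ≤ m, ∀ u ∈ V ^ n, ∀ v ∈ V ^ n, v ≠ 0 → ∀ X Y : Polynomial ℚ, Y ≠ 0 →
      (Y : R) * u = (X : R) * v →
      ∃ X' Y' : Polynomial ℚ, Y' ≠ 0 ∧ X'.natDegree ≤ d ∧ Y'.natDegree ≤ d ∧ X * Y' = X' * Y)
    (T : Polynomial ℚ) (A : Fin m → Fin m → Polynomial ℚ)
    (Y : Fin m → Fin m → R) (hV : ∀ i j, Y i j ∈ V)
    (hY : ∀ i j, (T : R) * hd 1 (Y i j) = ∑ l, (A i l : R) * Y l j)
    (hdet : (Matrix.of Y).det ≠ 0) (P : Fin m → Polynomial ℚ)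
    (r : ℕ) (a e : Fin r → Fin m) (γ : Fin m → Fin r → ℚ)
    (ha : Function.Injective a) (he : Function.Injective e)
    (hγ : ∀ j, gg P Y j = ∑ l, γ j l • gg P Y (a l))
    (hMI : (Matrix.of (fun k l : Fin r => ((dlt T A)^[k] P) (e l))).det ≠ 0) (l₀ : Fin r) :
    ∃ (w : Fin m → Polynomial ℚ),
      w (e l₀) = (Matrix.of (fun k l : Fin r => ((dlt T A)^[k] P) (e l))).det ∧
      (∃ b : Fin r → Polynomial ℚ, ∀ i, w i = ∑ k, b k * ((dlt T A)^[k] P) i) ∧
      ∀ i, ∃ X' Y' : Polynomial ℚ, Y' ≠ 0 ∧ X'.natDegree ≤ d ∧ Y'.natDegree ≤ d ∧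
        w i * Y' = X' * (Matrix.of (fun k l : Fin r => ((dlt T A)^[k] P) (e l))).det := by
  classical
  obtain ⟨MI, hMIdef⟩ : ∃ MI : Matrix (Fin r) (Fin r) (Polynomial ℚ),
    MI = Matrix.of (fun k l : Fin r => ((dlt T A)^[k] P) (e l)) := ⟨_, rfl⟩
  rw [← hMIdef] at hMI ⊢
  let w : Fin m → Polynomial ℚ := fun i => ∑ k, MI.adjugate l₀ k * ((dlt T A)^[k] P) i
  have hwe : ∀ l, w (e l) = if l = l₀ then MI.det else 0 := by
    intro l
    have h1 : (MI.adjugate * MI) l₀ l = w (e l) := by
      rw [Matrix.mul_apply]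
      apply sum_congr rfl
      intro k _
      rw [hMIdef]; rfl
    rw [← h1, Matrix.adjugate_mul, Matrix.smul_apply, Matrix.one_apply]
    by_cases h : l = l₀
    · rw [if_pos h, if_pos h.symm]; simp
    · rw [if_neg h, if_neg (fun h' => h h'.symm)]; simp
  -- the solutions orthogonal to all forms
  let J := {j : Fin m // j ∉ Set.range e}
  let J' := {j : Fin m // j ∉ Set.range a}
  have hcard : Fintype.card J = Fintype.card J' := by
    rw [card_compl e he, card_compl a ha]
  let σ : J ≃ J' := Fintype.equivOfCardEq hcard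
  let Z : Fin m → J' → R := fun i c => Y i c - ∑ l, γ c l • Y i (a l)
  have hZV : ∀ i c, Z i c ∈ V := by
    intro i c
    exact Submodule.sub_mem _ (hV _ _) (Submodule.sum_mem _ (fun l _ =>
      Submodule.smul_mem _ _ (hV _ _)))
  have hMZ : ∀ k c, ∑ i, (((dlt T A)^[k] P) i : R) * Z i c = 0 := by
    intro k c
    have h1 : ∑ i, (((dlt T A)^[k] P) i : R) * Z i c
        = (th T)^[k] (gg P Y c) - ∑ l, γ c l • (th T)^[k] (gg P Y (a l)) := by
      simp only [gg_iter T A Y hY]
      simp only [Z, mul_sub, sum_sub_distrib, mul_sum, smul_sum]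
      congr 1
      rw [sum_comm]
      apply sum_congr rfl
      intro l _
      apply sum_congr rfl
      intro i _
      rw [mul_smul_comm]
    rw [h1, hγ c, th_iter_sum]
    simp only [th_iter_smul, sub_self]
  have hwZ : ∀ c, ∑ i, (w i : R) * Z i c = 0 := by
    intro c
    have h1 : ∀ i, (w i : R) * Z i c
        = ∑ k : Fin r, (MI.adjugate l₀ k : R) * ((((dlt T A)^[k] P) i : R) * Z i c) := by
      intro i
      have : (w i : R) = ∑ k : Fin r, (MI.adjugate l₀ k : R) * (((dlt T A)^[k] P) i : R) := by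
        simp only [w]
        rw [← Polynomial.coeToPowerSeries.ringHom_apply, map_sum]
        simp
      rw [this, sum_mul]
      apply sum_congr rfl
      intro k _
      ring
    simp only [h1]
    rw [sum_comm]
    apply sum_eq_zero
    intro k _
    rw [← mul_sum, hMZ, mul_zero]
  -- the square system
  let S : Matrix J J R := Matrix.of (fun c j => Z j (σ c))
  have hS : S.det ≠ 0 := by
    intro h0
    rw [← Matrix.exists_vecMul_eq_zero_iff] at h0
    obtain ⟨v, hv0, hv⟩ := h0
    let U : Fin m → R := fun i => ∑ c, v c * Z i (σ c)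
    have hUJ : ∀ j : J, U j = 0 := by
      intro j
      have := congrFun hv j
      simpa [Matrix.vecMul, dotProduct, S] using this
    have hMU : ∀ k, ∑ i, (((dlt T A)^[k] P) i : R) * U i = 0 := by
      intro k
      have h1 : ∀ i, (((dlt T A)^[k] P) i : R) * U i
          = ∑ c : J, v c * ((((dlt T A)^[k] P) i : R) * Z i (σ c)) := by
        intro i
        simp only [U, mul_sum]
        apply sum_congr rfl
        intro c _
        ring
      simp only [h1]
      rw [sum_comm]
      apply sum_eq_zero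
      intro c _
      rw [← mul_sum, hMZ, mul_zero]
    have hUe : (fun l => U (e l)) = 0 := by
      have hMIR : (Matrix.of (fun i j => (MI i j : R))).det ≠ 0 := by
        rw [← det_coe]
        simpa using hMI
      apply Matrix.eq_zero_of_mulVec_eq_zero hMIR
      ext1 k
      have h1 := hMU k
      rw [sum_split e he] at h1
      have h2 : ∑ j : {j : Fin m // j ∉ Set.range e}, (((dlt T A)^[k] P) j : R) * U j = 0 := by
        apply sum_eq_zero
        intro j _
        rw [hUJ j, mul_zero]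
      rw [h2, add_zero] at h1
      simp only [Matrix.mulVec, dotProduct, Matrix.of_apply, Pi.zero_apply]
      rw [← h1]
      apply sum_congr rfl
      intro l _
      rw [hMIdef]; rfl
    have hU : ∀ i, U i = 0 := by
      intro i
      by_cases hi : i ∈ Set.range e
      · obtain ⟨l, rfl⟩ := hi
        exact congrFun hUe l
      · exact hUJ ⟨i, hi⟩
    let u : Fin m → R := fun j => ∑ c, v c * ((if j = σ c then 1 else 0)
      - ∑ l, γ (σ c) l • (if j = a l then (1 : R) else 0))
    have hYu : Matrix.mulVec (Matrix.of Y) u = 0 := by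
      ext1 i
      have h1 : ∑ j, Y i j * u j = U i := by
        simp only [u, U, mul_sum]
        rw [sum_comm]
        apply sum_congr rfl
        intro c _
        have h2 : ∀ j, Y i j * (v c * ((if j = σ c then 1 else 0)
            - ∑ l, γ (σ c) l • (if j = a l then (1 : R) else 0)))
            = v c * (Y i j * (if j = σ c then 1 else 0)
              - ∑ l, γ (σ c) l • (Y i j * (if j = a l then (1 : R) else 0))) := by
          intro j
          have h3 : ∑ l, γ (σ c) l • (Y i j * (if j = a l then (1 : R) else 0))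
              = Y i j * ∑ l, γ (σ c) l • (if j = a l then (1 : R) else 0) := by
            rw [mul_sum]
            apply sum_congr rfl
            intro l _
            rw [mul_smul_comm]
          rw [h3]; ring
        simp only [h2]
        rw [← mul_sum, sum_sub_distrib]
        congr 1
        congr 1
        · simp
        · rw [sum_comm]
          apply sum_congr rfl
          intro l _
          rw [← smul_sum]
          simp
      simp only [Matrix.mulVec, dotProduct, Matrix.of_apply, Pi.zero_apply]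
      rw [h1, hU]
    have hu := Matrix.eq_zero_of_mulVec_eq_zero hdet hYu
    apply hv0
    ext1 c₀
    have h1 := congrFun hu (σ c₀)
    simp only [u, Pi.zero_apply] at h1
    have h2 : ∀ c : J, (∑ l, γ (σ c) l • (if ((σ c₀ : J') : Fin m) = a l then (1 : R) else 0)) = 0 := by
      intro c
      apply sum_eq_zero
      intro l _
      rw [if_neg, smul_zero]
      intro h
      exact (σ c₀).2 ⟨l, h.symm⟩
    simp only [h2, sub_zero] at h1
    rw [sum_eq_single c₀] at h1
    · simpa using h1
    · intro c _ hc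
      rw [if_neg, mul_zero]
      intro h
      apply hc
      exact (σ.injective (Subtype.ext h)).symm
    · intro h
      exact absurd (mem_univ c₀) h
  have hSV : S.det ∈ V ^ (m - r) := by
    rw [← card_compl e he]
    exact det_mem_pow V S (fun c j => hZV _ _)
  have hSw : Matrix.mulVec S (fun j => (w j : R)) = fun c => - (MI.det : R) * Z (e l₀) (σ c) := by
    ext1 c
    have h1 := hwZ (σ c)
    rw [sum_split e he] at h1
    have h2 : ∑ l, (w (e l) : R) * Z (e l) (σ c) = (MI.det : R) * Z (e l₀) (σ c) := by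
      rw [sum_eq_single l₀]
      · rw [hwe, if_pos rfl]
      · intro l _ hl
        rw [hwe, if_neg hl]; simp
      · intro h
        exact absurd (mem_univ l₀) h
    rw [h2] at h1
    simp only [Matrix.mulVec, dotProduct, S, Matrix.of_apply]
    have h3 : ∑ j : J, Z j (σ c) * (w j : R)
        = ∑ j : {j : Fin m // j ∉ Set.range e}, (w j : R) * Z j (σ c) :=
      sum_congr rfl (fun j _ => mul_comm _ _)
    rw [h3]
    linear_combination h1
  refine ⟨w, ?_, ⟨fun k => MI.adjugate l₀ k, fun i => rfl⟩, ?_⟩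
  · rw [hwe, if_pos rfl]
  intro i
  by_cases hi : i ∈ Set.range e
  · obtain ⟨l, rfl⟩ := hi
    rw [hwe l]
    by_cases h : l = l₀
    · refine ⟨1, 1, one_ne_zero, by simp, by simp, ?_⟩
      rw [if_pos h]; ring
    · refine ⟨0, 1, one_ne_zero, by simp, by simp, ?_⟩
      rw [if_neg h]; ring
  · have h1 : S.det * (w i : R) = - (MI.det : R) *
        (S.updateCol ⟨i, hi⟩ (fun c => Z (e l₀) (σ c))).det := by
      have h2 : Matrix.cramer S (Matrix.mulVec S (fun j => (w j : R))) ⟨i, hi⟩
          = S.det * (w i : R) := by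
        rw [Matrix.cramer_eq_adjugate_mulVec, Matrix.mulVec_mulVec, Matrix.adjugate_mul]
        simp [Matrix.smul_mulVec]
      rw [← h2, hSw]
      have h3 : (fun c => - (MI.det : R) * Z (e l₀) (σ c))
          = (- (MI.det : R)) • (fun c : J => Z (e l₀) (σ c)) := rfl
      rw [h3, map_smul, Pi.smul_apply, smul_eq_mul, Matrix.cramer_apply]
    have h4 : (S.updateCol ⟨i, hi⟩ (fun c => Z (e l₀) (σ c))).det ∈ V ^ (m - r) := by
      rw [← card_compl e he]
      apply det_mem_pow V
      intro c j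
      rw [Matrix.updateCol_apply]
      split_ifs
      · exact hZV _ _
      · exact hZV _ _
    refine hdd (m - r) (Nat.sub_le _ _) (-(S.updateCol ⟨i, hi⟩ (fun c => Z (e l₀) (σ c))).det)
      (Submodule.neg_mem _ h4) S.det hSV hS (w i) MI.det hMI ?_
    linear_combination - h1

theorem det_fund {m : ℕ} (Y : Fin m → Fin m → R)
    (h : ∀ i j, PowerSeries.coeff 0 (Y i j) = if i = j then 1 else 0) :
    (Matrix.of Y).det ≠ 0 := by
  intro h0
  have h1 := RingHom.map_det (PowerSeries.constantCoeff (R := ℚ)) (Matrix.of Y)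
  rw [h0, map_zero] at h1
  have h2 : (PowerSeries.constantCoeff (R := ℚ)).mapMatrix (Matrix.of Y) = 1 := by
    ext1 i j
    rw [RingHom.mapMatrix_apply, Matrix.map_apply, Matrix.of_apply, Matrix.one_apply,
      ← PowerSeries.coeff_zero_eq_constantCoeff_apply, h]
  rw [h2, Matrix.det_one] at h1
  exact zero_ne_one h1

end Pool.Agent.DGP.Shid

namespace Pool.Agent.DGP

open Shid

theorem Shid_proof (hFu : Stmt_FundM) (hWr : Stmt_Wr) (hB : Stmt_BDeg) (hO : Stmt_OrdB) :
    Stmt_Shid := by
  classical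
  intro m F T A hT0 hF hind
  have hT : T ≠ 0 := by
    rintro rfl
    simp at hT0
  obtain ⟨Y, hY, hY0⟩ := hFu m T A hT0
  have hdet := det_fund Y hY0
  let V : Submodule ℚ R := Submodule.span ℚ (Set.range (fun p : Fin m × Fin m => Y p.1 p.2))
  have hVfg : V.FG := Submodule.fg_span (Set.finite_range _)
  have hVY : ∀ i j, Y i j ∈ V := fun i j => Submodule.subset_span ⟨(i, j), rfl⟩
  obtain ⟨d, hdd⟩ := bdeg_pow hB V hVfg m
  obtain ⟨c', hc'⟩ := hO m F hind (d * m)
  obtain ⟨τ, hτ⟩ : ∃ τ, τ = T.natDegree + ∑ i, ∑ j, (A i j).natDegree := ⟨_, rfl⟩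
  have hTτ : T.natDegree ≤ τ := by omega
  have hAτ : ∀ i j, (A i j).natDegree ≤ τ := by
    intro i j
    have h1 : (A i j).natDegree ≤ ∑ j, (A i j).natDegree :=
      single_le_sum (f := fun j => (A i j).natDegree) (fun _ _ => Nat.zero_le _) (mem_univ j)
    have h2 : ∑ j, (A i j).natDegree ≤ ∑ i, ∑ j, (A i j).natDegree :=
      single_le_sum (f := fun i => ∑ j, (A i j).natDegree) (fun _ _ => Nat.zero_le _) (mem_univ i)
    omega
  refine ⟨m * (m * τ) + c' + m, ?_⟩
  intro N P hdeg hP hW M hM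
  obtain ⟨r, a, e, γ, hr1, hrm, ha, he, hγ, hMI⟩ := key hWr T A hT Y hY hdet P hP hW
  have l₀ : Fin r := ⟨0, hr1⟩
  obtain ⟨w, hwe, ⟨b, hb⟩, hrat⟩ := ratio V d hdd T A Y hVY hY hdet P r a e γ ha he hγ hMI l₀
  obtain ⟨Δ, hΔ⟩ : ∃ Δ : Polynomial ℚ,
    Δ = (Matrix.of (fun k l : Fin r => ((dlt T A)^[k] P) (e l))).det := ⟨_, rfl⟩
  have hΔdeg : Δ.natDegree ≤ r * (N + m * τ) := by
    rw [hΔ]
    apply det_deg
    intro k l
    refine (dlt_iter_deg T A τ hTτ hAτ N P hdeg k (e l)).trans ?_
    have : (k : ℕ) * τ ≤ m * τ := Nat.mul_le_mul_right _ (by omega)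
    omega
  rw [← hΔ] at hMI hwe
  simp only [← hΔ] at hrat
  choose X' Y' hY'0 hX'd hY'd hXY using hrat
  let PP : Polynomial ℚ := ∏ i, Y' i
  have hPi : PP ≠ 0 := prod_ne_zero_iff.2 (fun i _ => hY'0 i)
  let E : Fin m → Polynomial ℚ := fun i => X' i * ∏ i' ∈ univ.erase i, Y' i'
  have hE : ∀ i, Δ * E i = w i * PP := by
    intro i
    have h1 : Y' i * ∏ i' ∈ univ.erase i, Y' i' = PP := mul_prod_erase univ Y' (mem_univ i)
    rw [← h1]
    simp only [E]
    linear_combination (-∏ i' ∈ univ.erase i, Y' i') * hXY i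
  have hEdeg : ∀ i, (E i).natDegree ≤ d * m := by
    intro i
    refine Polynomial.natDegree_mul_le.trans ?_
    have h1 : (∏ i' ∈ univ.erase i, Y' i').natDegree ≤ (m - 1) * d := by
      refine (Polynomial.natDegree_prod_le _ _).trans ?_
      refine (sum_le_card_nsmul _ _ d (fun i' _ => hY'd i')).trans ?_
      rw [card_erase_of_mem (mem_univ i), card_univ, Fintype.card_fin, smul_eq_mul]
    have h2 := hX'd i
    have h3 : (m - 1) * d + d = d * m := by
      have : m = (m - 1) + 1 := by omega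
      calc (m - 1) * d + d = (m - 1 + 1) * d := by ring
        _ = d * m := by rw [← this, mul_comm]
    omega
  have hE0 : E (e l₀) ≠ 0 := by
    intro h0
    have h1 := hE (e l₀)
    rw [h0, mul_zero, hwe] at h1
    exact mul_ne_zero hMI hPi h1.symm
  obtain ⟨j, hj, hjc⟩ := hc' E hEdeg ⟨e l₀, hE0⟩
  have hprod : (Δ : R) * ∑ i, (E i : R) * F i = (PP : R) * ∑ i, (w i : R) * F i := by
    rw [mul_sum, mul_sum]
    apply sum_congr rfl
    intro i _
    have h1 : (Δ : R) * (E i : R) = (w i : R) * (PP : R) := by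
      exact_mod_cast congrArg (fun p : Polynomial ℚ => (p : R)) (hE i)
    linear_combination F i * h1
  have hL : (PowerSeries.X : R) ^ M ∣ ∑ i, (P i : R) * F i := by
    rw [PowerSeries.X_pow_dvd_iff]
    exact hM
  have hdvd : (PowerSeries.X : R) ^ (M - m) ∣ ∑ i, (w i : R) * F i := by
    have h1 : ∑ i, (w i : R) * F i
        = ∑ k : Fin r, (b k : R) * (th T)^[k] (∑ i, (P i : R) * F i) := by
      simp only [th_form_iter T A F hF, mul_sum]
      rw [sum_comm]
      apply sum_congr rfl
      intro i _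
      have h2 : (w i : R) = ∑ k : Fin r, (b k : R) * (((dlt T A)^[k] P) i : R) := by
        rw [hb i, ← Polynomial.coeToPowerSeries.ringHom_apply, map_sum]
        simp
      rw [h2, sum_mul]
      apply sum_congr rfl
      intro k _
      ring
    rw [h1]
    apply dvd_sum
    intro k _
    apply Dvd.dvd.mul_left
    refine (pow_dvd_pow _ ?_).trans (th_iter_dvd T _ M k hL)
    omega
  have hfin := order_le_add (Δ : R) (∑ i, (E i : R) * F i) _ Δ.natDegree j (M - m)
    (by
      rw [Polynomial.coeff_coe, Polynomial.coeff_natDegree]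
      exact Polynomial.leadingCoeff_ne_zero.2 hMI) hjc (hdvd.mul_left _) hprod
  have h1 : r * (N + m * τ) ≤ (m - 1) * (N + m * τ) := Nat.mul_le_mul_right _ (by omega)
  have h2 : (m - 1) * (N + m * τ) = (m - 1) * N + (m - 1) * (m * τ) := by ring
  have h3 : (m - 1) * (m * τ) ≤ m * (m * τ) := Nat.mul_le_mul_right _ (by omega)
  omega

end Pool.Agent.DGP
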