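import Pool.Agent.DGP.Stmts

/-!
DGP, module Sieg: the lemma of Siegel applied to the coefficients of a system of G-functions.
-/

open Finset

namespace Pool.Agent.DGP

namespace Sieg

theorem key {α β : Type} [Fintype α] [Fintype β] (A : Matrix α β ℤ)
    (hn : Fintype.card α < Fintype.card β) (hm : 0 < Fintype.card α) (B : ℝ) (hB : 1 ≤ B)
    (hA : ∀ i j, |(A i j : ℝ)| ≤ B) (e : ℕ)
    (he : Fintype.card α ≤ e * (Fintype.card β - Fintype.card α)) :
    ∃ t : β → ℤ, t ≠ 0 ∧ A.mulVec t = 0 ∧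
      ∀ j, |(t j : ℝ)| ≤ ((Fintype.card β : ℝ) * B) ^ e := by
  obtain ⟨t, ht0, htA, htn⟩ := Int.Matrix.exists_ne_zero_int_vec_norm_le A hn hm
  refine ⟨t, ht0, htA, fun j => ?_⟩
  have h1 : |(t j : ℝ)| ≤ ‖t‖ := by
    have := norm_le_pi_norm t j
    rwa [Int.norm_eq_abs] at this
  refine h1.trans (htn.trans ?_)
  let _ : SeminormedAddCommGroup (Matrix α β ℤ) := Matrix.seminormedAddCommGroup
  have h2 : max 1 ‖A‖ ≤ B := by
    apply max_le hB
    rw [Matrix.norm_le_iff (by linarith)]
    intro i j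
    rw [Int.norm_eq_abs]
    exact hA i j
  have hc : (1 : ℝ) ≤ Fintype.card β := by exact_mod_cast (by omega : 1 ≤ Fintype.card β)
  have h3 : (Fintype.card β : ℝ) * max 1 ‖A‖ ≤ (Fintype.card β : ℝ) * B :=
    mul_le_mul_of_nonneg_left h2 (by linarith)
  have h4 : (1 : ℝ) ≤ (Fintype.card β : ℝ) * B := one_le_mul_of_one_le_of_one_le hc hB
  have hlt : (Fintype.card α : ℝ) < Fintype.card β := by exact_mod_cast hn
  have h5 : ((Fintype.card α : ℝ) / (Fintype.card β - Fintype.card α)) ≤ e := by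
    rw [div_le_iff₀ (by linarith)]
    have : ((Fintype.card β - Fintype.card α : ℕ) : ℝ) =
        (Fintype.card β : ℝ) - Fintype.card α := by
      rw [Nat.cast_sub hn.le]
    rw [← this]
    exact_mod_cast he
  have h6 : 0 ≤ ((Fintype.card α : ℝ) / (Fintype.card β - Fintype.card α)) :=
    div_nonneg (Nat.cast_nonneg _) (by linarith)
  calc ((Fintype.card β : ℝ) * max 1 ‖A‖) ^ ((Fintype.card α : ℝ) /
        (Fintype.card β - Fintype.card α))
      ≤ ((Fintype.card β : ℝ) * B) ^ ((Fintype.card α : ℝ) /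
        (Fintype.card β - Fintype.card α)) := by
        apply Real.rpow_le_rpow _ h3 h6
        exact mul_nonneg (by linarith) (le_trans zero_le_one (le_max_left _ _))
    _ ≤ ((Fintype.card β : ℝ) * B) ^ (e : ℝ) := Real.rpow_le_rpow_of_exponent_le h4 h5
    _ = ((Fintype.card β : ℝ) * B) ^ e := Real.rpow_natCast _ _

/-- the polynomial with given coefficients -/
noncomputable def pol (N : ℕ) (t : Fin (N + 1) → ℤ) : Polynomial ℚ :=
  ∑ l : Fin (N + 1), Polynomial.C (t l : ℚ) * Polynomial.X ^ (l : ℕ)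

theorem pol_coeff (N : ℕ) (t : Fin (N + 1) → ℤ) (l : ℕ) :
    (pol N t).coeff l = if h : l < N + 1 then (t ⟨l, h⟩ : ℚ) else 0 := by
  unfold pol
  rw [Polynomial.finsetSum_coeff]
  simp only [Polynomial.coeff_C_mul_X_pow]
  split_ifs with h
  · rw [Finset.sum_eq_single (⟨l, h⟩ : Fin (N + 1))]
    · simp
    · intro b _ hb
      rw [if_neg]
      intro hl
      apply hb
      exact Fin.ext hl.symm
    · simp
  · apply Finset.sum_eq_zero
    intro b _
    rw [if_neg]
    intro hl
    exact h (hl ▸ b.2)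

theorem pol_deg (N : ℕ) (t : Fin (N + 1) → ℤ) : (pol N t).natDegree ≤ N := by
  apply Polynomial.natDegree_sum_le_of_forall_le
  intro l _
  exact (Polynomial.natDegree_C_mul_X_pow_le _ _).trans (Nat.lt_succ_iff.1 l.2)

theorem pol_coe (N : ℕ) (t : Fin (N + 1) → ℤ) :
    ((pol N t : Polynomial ℚ) : PowerSeries ℚ) =
      ∑ l : Fin (N + 1), PowerSeries.C (t l : ℚ) * PowerSeries.X ^ (l : ℕ) := by
  show Polynomial.coeToPowerSeries.ringHom (pol N t) = _
  unfold pol
  rw [map_sum]
  apply Finset.sum_congr rfl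
  intro l _
  rw [map_mul, map_pow]
  simp only [Polynomial.coeToPowerSeries.ringHom_apply, Polynomial.coe_C, Polynomial.coe_X]

theorem coeff_pol_mul (N : ℕ) (t : Fin (N + 1) → ℤ) (F : PowerSeries ℚ) (j : ℕ) :
    PowerSeries.coeff j (((pol N t : Polynomial ℚ) : PowerSeries ℚ) * F) =
      ∑ l : Fin (N + 1), if (l : ℕ) ≤ j then (t l : ℚ) * PowerSeries.coeff (j - l) F else 0 := by
  rw [pol_coe, Finset.sum_mul, map_sum]
  apply Finset.sum_congr rfl
  intro l _
  rw [mul_assoc, PowerSeries.coeff_C_mul, PowerSeries.coeff_X_pow_mul']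
  split_ifs
  · rfl
  · rw [mul_zero]

end Sieg

open Sieg in
theorem Sieg_proof : Stmt_Sieg := by
  classical
  intro m F T τ e₀ c₀ H hG hm s hs N
  have hD' : N + 1 ≤ s * (N / s + 1) := by
    have h0 := Nat.lt_mul_div_succ N hs
    exact h0
  generalize N / s = D at hD' ⊢
  have hc := hG.one_le
  have hH := hG.two_le
  obtain ⟨d, hd, hdF⟩ := hG.den
  obtain ⟨M, hM⟩ : ∃ M, M = m * (N + 1) - (D + 1) := ⟨_, rfl⟩
  have hβ : 1 ≤ m * (N + 1) := Nat.one_le_iff_ne_zero.2 (by positivity)
  have hB1 : (1 : ℝ) ≤ c₀ ^ 2 * H ^ (2 * (m * (N + 1))) :=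
    one_le_mul_of_one_le_of_one_le (one_le_pow₀ hc) (one_le_pow₀ (by linarith))
  have hB2 : (1 : ℝ) ≤ ((m * (N + 1) : ℕ) * (c₀ ^ 2 * H ^ (2 * (m * (N + 1))))) :=
    one_le_mul_of_one_le_of_one_le (by exact_mod_cast hβ) hB1
  rcases Nat.eq_zero_or_pos M with hM0 | hM0
  · refine ⟨fun _ => 1, ⟨⟨0, hm⟩, one_ne_zero⟩, fun i => by simp, ?_, ?_, ?_⟩
    · intro i l
      rw [Polynomial.coeff_one]
      split_ifs
      · exact ⟨1, by simp⟩
      · exact ⟨0, by simp⟩
    · intro j hj
      omega
    · intro i l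
      have h1 : (1 : ℝ) ≤ ((m * (N + 1) : ℕ) * (c₀ ^ 2 * H ^ (2 * (m * (N + 1))))) ^ (m * s) :=
        one_le_pow₀ hB2
      rw [Polynomial.coeff_one]
      split_ifs
      · simpa using h1
      · have : (0 : ℝ) ≤ ((m * (N + 1) : ℕ) * (c₀ ^ 2 * H ^ (2 * (m * (N + 1))))) ^ (m * s) := by
          linarith
        simpa using this
  · -- divisibility
    have hdd : ∀ j k, j ≤ k → d j ∣ d k := by
      intro j k hjk
      induction k, hjk using Nat.le_induction with
      | base => exact dvd_rfl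
      | succ k _ ih => exact ih.trans (hd k).2.1
    have hint : ∀ (i : Fin m) (j l : ℕ), ∃ a : ℤ,
        (a : ℚ) = if l ≤ j then (d j : ℚ) * PowerSeries.coeff (j - l) (F i) else 0 := by
      intro i j l
      split_ifs with hlj
      · obtain ⟨e, he⟩ := hdd (j - l) j (Nat.sub_le _ _)
        obtain ⟨a, ha⟩ := hdF i (j - l)
        refine ⟨e * a, ?_⟩
        rw [he]
        push_cast
        rw [← ha]
        ring
      · exact ⟨0, by simp⟩
    choose a ha using hint
    have hsize : ∀ (i : Fin m) (j l : ℕ), j < M →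
        |(a i j l : ℝ)| ≤ c₀ ^ 2 * H ^ (2 * (m * (N + 1))) := by
      intro i j l hj
      have h1 : ((a i j l : ℤ) : ℝ) = (((a i j l : ℚ)) : ℝ) := by push_cast; rfl
      rw [h1, ha]
      split_ifs with hlj
      · push_cast
        rw [abs_mul, Nat.abs_cast]
        have h2 := (hd j).2.2
        have h3 := hG.size i (j - l)
        have hH1 : (1 : ℝ) ≤ H := by linarith
        calc (d j : ℝ) * |((PowerSeries.coeff (j - l) (F i) : ℚ) : ℝ)|
            ≤ (c₀ * H ^ j) * (c₀ * H ^ (j - l)) := by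
              apply mul_le_mul h2 h3 (abs_nonneg _)
              positivity
          _ = c₀ ^ 2 * H ^ (j + (j - l)) := by rw [pow_add]; ring
          _ ≤ c₀ ^ 2 * H ^ (2 * (m * (N + 1))) := by
              apply mul_le_mul_of_nonneg_left _ (by positivity)
              apply pow_le_pow_right₀ hH1
              omega
      · rw [Rat.cast_zero, abs_zero]
        linarith
    have hcard : Fintype.card (Fin m × Fin (N + 1)) = m * (N + 1) := by simp
    obtain ⟨t, ht0, htA, htn⟩ := key (α := Fin M) (β := Fin m × Fin (N + 1))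
      (fun j p => a p.1 j p.2) (by simp only [hcard, Fintype.card_fin]; omega)
      (by rw [Fintype.card_fin]; exact hM0) _ hB1 (fun j p => hsize p.1 j p.2 j.2) (m * s)
      (by
        rw [hcard, Fintype.card_fin]
        have h2 : m * (N + 1) - M = D + 1 := by omega
        rw [h2, mul_assoc]
        calc M ≤ m * (N + 1) := by omega
          _ ≤ m * (s * (D + 1)) := Nat.mul_le_mul_left _ hD')
    rw [hcard] at htn
    refine ⟨fun i => pol N (fun l => t (i, l)), ?_, fun i => pol_deg N _, ?_, ?_, ?_⟩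
    · obtain ⟨⟨i, l⟩, hil⟩ := Function.ne_iff.1 ht0
      refine ⟨i, fun h' => hil ?_⟩
      have h : pol N (fun l => t (i, l)) = 0 := h'
      have h1 := pol_coeff N (fun l => t (i, l)) l
      rw [h, Polynomial.coeff_zero, dif_pos l.2] at h1
      have h2 : t (i, l) = 0 := by exact_mod_cast h1.symm
      exact h2
    · intro i l
      rw [pol_coeff]
      split_ifs
      · exact ⟨_, rfl⟩
      · exact ⟨0, by simp⟩
    · intro j hj
      rw [← hM] at hj
      rw [map_sum]
      have h1 := congrFun htA ⟨j, hj⟩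
      have h2 : ∑ p : Fin m × Fin (N + 1), a p.1 j p.2 * t p = 0 := h1
      have h3 : (d j : ℚ) * ∑ i, PowerSeries.coeff j
          (((pol N (fun l => t (i, l)) : Polynomial ℚ) : PowerSeries ℚ) * F i) = 0 := by
        have h4 : ((∑ p : Fin m × Fin (N + 1), a p.1 j p.2 * t p : ℤ) : ℚ) = 0 := by
          rw [h2]; simp
        rw [← h4, Finset.mul_sum]
        push_cast
        rw [Fintype.sum_prod_type]
        apply Finset.sum_congr rfl
        intro i _
        rw [coeff_pol_mul, Finset.mul_sum]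
        apply Finset.sum_congr rfl
        intro l _
        rw [ha]
        split_ifs
        · ring
        · ring
      have h5 : (d j : ℚ) ≠ 0 := by
        have := (hd j).1
        exact_mod_cast (by omega : d j ≠ 0)
      exact (mul_eq_zero.1 h3).resolve_left h5
    · intro i l
      rw [pol_coeff]
      split_ifs with h
      · have := htn (i, ⟨l, h⟩)
        simpa using this
      · have : (0 : ℝ) ≤ ((m * (N + 1) : ℕ) * (c₀ ^ 2 * H ^ (2 * (m * (N + 1))))) ^ (m * s) := by
          have := one_le_pow₀ hB2 (n := m * s)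
          linarith
        simpa using this

end Pool.Agent.DGP
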