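import Pool.Agent.DGP.Stmts

set_option autoImplicit false

/-!
# DGP: the logarithmic singularity of `phi` at `1`
-/

open Filter Topology

namespace Pool.Agent.DGP

namespace Sing

/-- A real analytic function has an analytic primitive. -/
theorem prim {f : ℝ → ℝ} {x0 : ℝ} (hf : AnalyticAt ℝ f x0) :
    ∃ F : ℝ → ℝ, AnalyticAt ℝ F x0 ∧ ∀ᶠ x in 𝓝 x0, HasDerivAt F (f x) x := by
  obtain ⟨p, r, hp⟩ := hf
  obtain ⟨ρ, hρ0, hρ⟩ := ENNReal.lt_iff_exists_nnreal_btwn.mp hp.r_pos
  have hρpos : 0 < ρ := by exact_mod_cast hρ0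
  obtain ⟨C, hC, hb⟩ := p.norm_mul_pow_le_of_lt_radius (lt_of_lt_of_le hρ hp.r_le)
  have hcb : ∀ n, |p.coeff n| * (ρ : ℝ) ^ n ≤ C := by
    intro n
    have := hb n
    rwa [FormalMultilinearSeries.norm_apply_eq_norm_coef, Real.norm_eq_abs] at this
  set δ : ℝ := (ρ : ℝ) / 2 with hδ
  have hδpos : 0 < δ := by rw [hδ]; positivity
  have hu : Summable (fun n : ℕ => C * (1 / 2 : ℝ) ^ n) :=
    (summable_geometric_of_lt_one (by norm_num) (by norm_num)).mul_left C
  have hbound : ∀ n : ℕ, ∀ y : ℝ, |y| ≤ δ → |p.coeff n * y ^ n| ≤ C * (1 / 2 : ℝ) ^ n := by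
    intro n y hy
    rw [abs_mul, abs_pow]
    have h1 : |y| ^ n ≤ δ ^ n := pow_le_pow_left₀ (abs_nonneg _) hy n
    have h2 : δ ^ n = (ρ : ℝ) ^ n * (1 / 2 : ℝ) ^ n := by
      rw [← mul_pow, hδ]; ring
    calc |p.coeff n| * |y| ^ n ≤ |p.coeff n| * ((ρ : ℝ) ^ n * (1 / 2 : ℝ) ^ n) := by
          rw [← h2]; exact mul_le_mul_of_nonneg_left h1 (abs_nonneg _)
      _ = (|p.coeff n| * (ρ : ℝ) ^ n) * (1 / 2 : ℝ) ^ n := by ring
      _ ≤ C * (1 / 2 : ℝ) ^ n := mul_le_mul_of_nonneg_right (hcb n) (by positivity)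
  -- the primitive
  let g : ℕ → ℝ → ℝ := fun n x => p.coeff n / (n + 1) * (x - x0) ^ (n + 1)
  let F : ℝ → ℝ := fun x => ∑' n, g n x
  have hfs : ∀ x, |x - x0| < δ → HasSum (fun n => p.coeff n * (x - x0) ^ n) (f x) := by
    intro x hx
    have hmem : x - x0 ∈ Metric.eball (0 : ℝ) r := by
      have h1 : (x - x0) ∈ Metric.eball (0 : ℝ) (ρ : ENNReal) := by
        rw [Metric.eball_coe, Metric.mem_ball, dist_zero_right, Real.norm_eq_abs]
        linarith [hδ]
      exact Metric.eball_subset_eball hρ.le h1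
    have := hp.hasSum hmem
    simp only [FormalMultilinearSeries.apply_eq_prod_smul_coeff, Finset.prod_const,
      Finset.card_univ, Fintype.card_fin, smul_eq_mul, add_sub_cancel] at this
    simpa only [mul_comm] using this
  have hder : ∀ x ∈ Metric.ball x0 δ, HasDerivAt F (f x) x := by
    intro x hx
    have hx' : |x - x0| < δ := by rwa [Metric.mem_ball, Real.dist_eq] at hx
    have key := hasDerivAt_tsum_of_isPreconnected (u := fun n : ℕ => C * (1 / 2 : ℝ) ^ n)
      (g := g) (g' := fun n x => p.coeff n * (x - x0) ^ n) (t := Metric.ball x0 δ)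
      (y₀ := x0) (y := x) hu Metric.isOpen_ball (convex_ball x0 δ).isPreconnected ?_ ?_
      (Metric.mem_ball_self hδpos) ?_ hx
    · rwa [(hfs x hx').tsum_eq] at key
    · intro n y _
      have h1 : HasDerivAt (fun x : ℝ => (x - x0) ^ (n + 1)) ((n + 1 : ℕ) * (y - x0) ^ n * 1) y :=
        by simpa using ((hasDerivAt_id y).sub_const x0).fun_pow (n + 1)
      have h2 := h1.const_mul (p.coeff n / (n + 1))
      have h3 : (p.coeff n / (n + 1)) * ((n + 1 : ℕ) * (y - x0) ^ n * 1) =
          p.coeff n * (y - x0) ^ n := by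
        have : ((n : ℝ) + 1) ≠ 0 := by positivity
        push_cast
        field_simp
      rw [h3] at h2
      exact h2
    · intro n y hy
      rw [Metric.mem_ball, Real.dist_eq] at hy
      exact hbound n _ hy.le
    · have : (fun n => g n x0) = fun _ => (0 : ℝ) := by
        ext n
        simp [g]
      rw [this]
      exact summable_zero
  refine ⟨F, ?_, ?_⟩
  · -- analyticity
    let d : ℕ → ℝ := fun n => if n = 0 then 0 else p.coeff (n - 1) / n
    refine ⟨FormalMultilinearSeries.ofScalars ℝ d, ENNReal.ofReal δ, ?_, ?_, ?_⟩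
    · show ((δ.toNNReal : NNReal) : ENNReal) ≤ _
      refine FormalMultilinearSeries.le_radius_of_bound _ (C * δ) (fun n => ?_)
      rw [FormalMultilinearSeries.ofScalars_norm, Real.coe_toNNReal δ hδpos.le]
      show |d n| * δ ^ n ≤ C * δ
      rcases n with _ | n
      · simp only [d, if_true, abs_zero, zero_mul]
        positivity
      · simp only [d, Nat.succ_ne_zero, if_false, Nat.add_sub_cancel]
        have h1 := hbound n δ (by rw [abs_of_pos hδpos])
        rw [abs_mul, abs_pow, abs_of_pos hδpos] at h1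
        have h2 : (1 / 2 : ℝ) ^ n ≤ 1 := pow_le_one₀ (by norm_num) (by norm_num)
        have h3 : |p.coeff n| * δ ^ n ≤ C := h1.trans (by nlinarith)
        have h4 : |p.coeff n / ((n + 1 : ℕ) : ℝ)| ≤ |p.coeff n| := by
          rw [abs_div]
          apply div_le_self (abs_nonneg _)
          rw [abs_of_nonneg (by positivity)]
          push_cast
          linarith [Nat.cast_nonneg (α := ℝ) n]
        calc |p.coeff n / ((n + 1 : ℕ) : ℝ)| * δ ^ (n + 1)
            ≤ |p.coeff n| * δ ^ (n + 1) := mul_le_mul_of_nonneg_right h4 (by positivity)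
          _ = (|p.coeff n| * δ ^ n) * δ := by ring
          _ ≤ C * δ := mul_le_mul_of_nonneg_right h3 hδpos.le
    · simpa using hδpos
    · intro y hy
      have hy' : |y| < δ := by
        rw [Metric.eball_ofReal, Metric.mem_ball, dist_zero_right, Real.norm_eq_abs] at hy
        exact hy
      simp only [FormalMultilinearSeries.ofScalars_apply_eq, smul_eq_mul]
      have hs : Summable (fun n => g n (x0 + y)) := by
        refine Summable.of_norm_bounded (g := fun n : ℕ => (C * (1 / 2 : ℝ) ^ n) * |y|)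
          (hu.mul_right _) (fun n => ?_)
        have h1 := hbound n y hy'.le
        simp only [g, add_sub_cancel_left, Real.norm_eq_abs]
        rw [abs_mul] at h1 ⊢
        have h4 : |p.coeff n / ((n : ℝ) + 1)| ≤ |p.coeff n| := by
          rw [abs_div]
          apply div_le_self (abs_nonneg _)
          rw [abs_of_nonneg (by positivity)]
          linarith [Nat.cast_nonneg (α := ℝ) n]
        calc |p.coeff n / ((n : ℝ) + 1)| * |y ^ (n + 1)| ≤ |p.coeff n| * |y ^ (n + 1)| :=
              mul_le_mul_of_nonneg_right h4 (abs_nonneg _)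
          _ = (|p.coeff n| * |y ^ n|) * |y| := by rw [pow_succ, abs_mul]; ring
          _ ≤ _ := mul_le_mul_of_nonneg_right h1 (abs_nonneg _)
      have h5 : HasSum (fun n => d (n + 1) * y ^ (n + 1)) (F (x0 + y)) := by
        have h6 := hs.hasSum
        have h7 : (fun n => g n (x0 + y)) = fun n => d (n + 1) * y ^ (n + 1) := by
          ext n
          simp only [g, d, add_sub_cancel_left, Nat.succ_ne_zero, if_false, Nat.add_sub_cancel]
          push_cast
          ring
        rw [← h7]
        exact h6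
      have h8 := (hasSum_nat_add_iff (f := fun n => d n * y ^ n) 1).mp h5
      simpa [d] using h8
  · exact Filter.eventually_of_mem (Metric.ball_mem_nhds x0 hδpos) hder

end Sing

theorem Sing_proof (hPhiAn : Stmt_PhiAn) (hWron : Stmt_Wron) : Stmt_Sing := by
  -- phi (-t) near 1
  have hneg : ∀ t : ℝ, -1 < t → AnalyticAt ℝ (fun t => phi (-t)) t := by
    intro t ht
    have h1 := (hPhiAn (-t) (by linarith)).1
    exact h1.comp_of_eq (analyticAt_id.neg) rfl
  have hpos : ∀ t : ℝ, -1 < t → 0 < phi (-t) := fun t ht => (hPhiAn (-t) (by linarith)).2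
  set G : ℝ → ℝ := fun t => Real.pi / ((1 + t) * phi (-t) ^ 2) with hG
  have hGan : AnalyticAt ℝ G 1 := by
    rw [hG]
    refine analyticAt_const.div ((analyticAt_const.add analyticAt_id).mul
      ((hneg 1 (by norm_num)).pow 2)) ?_
    have := hpos 1 (by norm_num)
    have h2 : (0 : ℝ) < (1 + 1) * phi (-1) ^ 2 := by positivity
    exact h2.ne'
  have hG1 : 0 < G 1 := by
    have := hpos 1 (by norm_num)
    rw [hG]
    positivity
  have hds : AnalyticAt ℝ (dslope G 1) 1 := by
    obtain ⟨p, hp⟩ := hGan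
    exact ⟨_, hp.has_fpower_series_dslope_fslope⟩
  obtain ⟨H, hH, hH'⟩ := Sing.prim hds
  obtain ⟨η, hη, hball⟩ := Metric.eventually_nhds_iff_ball.mp hH'
  set η' : ℝ := min η 1 with hη'
  have hη'pos : 0 < η' := lt_min hη one_pos
  have hη'1 : η' ≤ 1 := min_le_right _ _
  have hη'η : η' ≤ η := min_le_left _ _
  set ψ : ℝ → ℝ := fun t => phi t / phi (-t) with hψ
  set Φ : ℝ → ℝ := fun t => ψ t + G 1 * Real.log (1 - t) + H t with hΦ
  have hΦ' : ∀ t ∈ Set.Ioo (1 - η') 1, HasDerivAt Φ 0 t := by
    intro t ht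
    have ht1 : t < 1 := ht.2
    have ht0 : -1 < t := by linarith [ht.1]
    have d1 : HasDerivAt phi (deriv phi t) t := (hPhiAn t ht1).1.differentiableAt.hasDerivAt
    have d2 : HasDerivAt (fun t => phi (-t)) (-deriv phi (-t)) t := by
      have h1 : HasDerivAt phi (deriv phi (-t)) (-t) :=
        (hPhiAn (-t) (by linarith)).1.differentiableAt.hasDerivAt
      have h2 := h1.comp t (hasDerivAt_neg t)
      have h3 : deriv phi (-t) * -1 = -deriv phi (-t) := by ring
      rw [h3] at h2
      exact h2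
    have hp := hpos t ht0
    have d3 := d1.div d2 hp.ne'
    have d4 : HasDerivAt (fun t : ℝ => Real.log (1 - t)) (-1 / (1 - t)) t := by
      have := ((hasDerivAt_id t).const_sub 1).log (by simp only [id]; linarith)
      simpa using this
    have d5 : HasDerivAt H (dslope G 1 t) t := by
      apply hball
      rw [Metric.mem_ball, Real.dist_eq, abs_lt]
      constructor <;> linarith [ht.1, ht.2]
    have d6 := (d3.add (d4.const_mul (G 1))).add d5
    have hw := hWron t ht0 ht1
    have hw' : deriv phi t * phi (-t) + phi t * deriv phi (-t) = Real.pi / (1 - t ^ 2) := by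
      simp only [Mt, Matrix.cons_val] at hw
      linear_combination -hw
    have hds1 : dslope G 1 t = (G t - G 1) / (t - 1) := by
      rw [dslope_of_ne _ (by linarith : t ≠ 1), slope_def_field]
    have hne1 : (1 - t) ≠ 0 := by linarith
    have hne2 : (1 + t) ≠ 0 := by linarith
    have hne3 : (t - 1) ≠ 0 := by linarith
    have hne4 : (1 - t ^ 2) ≠ 0 := by
      have : 1 - t ^ 2 = (1 - t) * (1 + t) := by ring
      rw [this]
      exact mul_ne_zero hne1 hne2
    have hzero : (deriv phi t * phi (-t) - phi t * -deriv phi (-t)) / phi (-t) ^ 2 +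
        G 1 * (-1 / (1 - t)) + dslope G 1 t = 0 := by
      have e1 : deriv phi t * phi (-t) - phi t * -deriv phi (-t) = Real.pi / (1 - t ^ 2) := by
        rw [← hw']; ring
      rw [e1, hds1]
      have e2 : Real.pi / (1 - t ^ 2) / phi (-t) ^ 2 = G t / (1 - t) := by
        rw [hG]
        have : 1 - t ^ 2 = (1 - t) * (1 + t) := by ring
        rw [this]
        field_simp
      rw [e2]
      have e3 : (G t - G 1) / (t - 1) = -((G t - G 1) / (1 - t)) := by
        rw [← div_neg, neg_sub]
      rw [e3]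
      ring
    rw [hzero] at d6
    exact d6
  -- Φ is constant
  have hconst : ∀ t ∈ Set.Ioo (1 - η') 1, Φ t = Φ (1 - η' / 2) := by
    intro t ht
    have hc : (1 - η' / 2) ∈ Set.Ioo (1 - η') 1 := ⟨by linarith, by linarith⟩
    refine (isOpen_Ioo.is_const_of_deriv_eq_zero isPreconnected_Ioo ?_ ?_ ht hc)
    · intro x hx
      exact (hΦ' x hx).differentiableAt.differentiableWithinAt
    · intro x hx
      exact (hΦ' x hx).deriv
  refine ⟨fun t => Φ (1 - η' / 2) - H t, -G 1, η', analyticAt_const.sub hH, by linarith, hη'pos,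
    ?_⟩
  intro t ht1 ht2
  have h1 := hconst t ⟨ht1, ht2⟩
  have hp := hpos t (by linarith)
  have h2 : phi t = phi (-t) * ψ t := by
    rw [hψ]
    field_simp
  have h3 : ψ t = -G 1 * Real.log (1 - t) + (Φ (1 - η' / 2) - H t) := by
    rw [← h1, hΦ]
    ring
  rw [← h3]
  exact h2

end Pool.Agent.DGP
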