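import Pool.Agent.DGP.Stmts

set_option autoImplicit false

/-!
# DGP, module StepL: invariance of relations, from the singularity at `t = -1`
-/

namespace Pool.Agent.DGP

namespace StepL

/-- The symmetry. -/
def tau {R : Type} [Neg R] (N : Fin 4 → R) : Fin 4 → R := ![N 1, N 0, -N 3, -N 2]

lemma tau_Mt (t : ℝ) : tau (Mt (-t)) = Mt t := by
  funext i
  fin_cases i <;> simp [tau, Mt]

lemma tau_eR (s : ℝ) (M : Fin 4 → ℝ) : tau (eR s (tau M)) = eL s M := by
  funext i
  fin_cases i <;> simp [tau, eR, eL] <;> ring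

/-- The substitution. -/
noncomputable def sub {σ : Type} (P : MvPolynomial (σ ⊕ Fin 4) ℝ) : MvPolynomial (σ ⊕ Fin 4) ℝ :=
  MvPolynomial.bind₁ (Sum.elim (fun i => MvPolynomial.X (Sum.inl i))
    (tau fun j => MvPolynomial.X (Sum.inr j))) P

lemma eval_sub {σ : Type} (P : MvPolynomial (σ ⊕ Fin 4) ℝ) (x : σ → ℝ) (N : Fin 4 → ℝ) :
    MvPolynomial.eval (Sum.elim x N) (sub P) = MvPolynomial.eval (Sum.elim x (tau N)) P := by
  unfold sub
  rw [← MvPolynomial.coe_aeval_eq_eval, ← MvPolynomial.coe_aeval_eq_eval]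
  show MvPolynomial.aeval _ _ = MvPolynomial.aeval _ _
  rw [MvPolynomial.aeval_bind₁]
  congr 1
  congr 1
  funext j
  rcases j with i | j
  · simp
  · fin_cases j <;> simp [tau]

end StepL

open StepL in
theorem StepL_proof (hR : Stmt_StepR) : Stmt_StepL := by
  intro σ _ t₀ c h1 h2 hc f hf P hP s z hz
  have key := hR σ (-t₀) c (by linarith) (by linarith) hc (fun i w => f i (-w)) (by
    intro i w hw
    have hw' : -w ∈ Set.Icc (-(1 + t₀) / c) ((1 - t₀) / c) := by
      obtain ⟨a, b⟩ := hw
      constructor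
      · have : -(1 + t₀) / c = -((1 - -t₀) / c) := by ring
        rw [this]
        exact neg_le_neg b
      · have : (1 - t₀) / c = -(-(1 + -t₀) / c) := by ring
        rw [this]
        exact neg_le_neg a
    exact (hf i (-w) hw').fun_comp_of_eq analyticAt_id.neg rfl) (sub P) (by
    intro w hw
    have hw' : -w ∈ Set.Ioo (-(1 + t₀) / c) ((1 - t₀) / c) := by
      obtain ⟨a, b⟩ := hw
      constructor
      · have : -(1 + t₀) / c = -((1 - -t₀) / c) := by ring
        rw [this]
        exact neg_lt_neg b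
      · have : (1 - t₀) / c = -(-(1 + -t₀) / c) := by ring
        rw [this]
        exact neg_lt_neg a
    have h3 := hP (-w) hw'
    have h4 : Mt (t₀ + c * -w) = tau (Mt (-t₀ + c * w)) := by
      rw [← tau_Mt]
      congr 2
      ring
    rw [h4] at h3
    rw [eval_sub]
    exact h3) s (-z) (by
    obtain ⟨a, b⟩ := hz
    constructor
    · have : -(1 + -t₀) / c = -((1 - t₀) / c) := by ring
      rw [this]
      exact neg_lt_neg b
    · have : (1 - -t₀) / c = -(-(1 + t₀) / c) := by ring
      rw [this]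
      exact neg_lt_neg a)
  rw [eval_sub] at key
  have h5 : tau (eR s (Mt (-t₀ + c * -z))) = eL s (Mt (t₀ + c * z)) := by
    rw [← tau_eR, ← tau_Mt (t₀ + c * z)]
    have h6 : ∀ N : Fin 4 → ℝ, tau (tau N) = N := by
      intro N
      funext i
      fin_cases i <;> simp [tau]
    rw [h6]
    congr 3
    ring
  rw [h5] at key
  simpa using key

end Pool.Agent.DGP
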