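import Pool.Agent.DGP.Stmts

set_option autoImplicit false

/-!
DGP, module StepR: invariance of the relations, from the singularity at `t = 1`.
-/

open Finset Filter Topology

namespace Pool.Agent.DGP

namespace StepR

lemma ancomp {f g : ℝ → ℝ} {x y : ℝ} (hf : AnalyticAt ℝ f y) (hg : AnalyticAt ℝ g x)
    (h : g x = y) : AnalyticAt ℝ (fun z => f (g z)) x := by
  subst h
  exact AnalyticAt.comp hf hg

/-- Functions of `x` and `L` which become polynomials in `L` with analytic coefficients after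
multiplication by a power of `x`. -/
def Adm (F : ℝ → ℝ → ℝ) : Prop := ∃ (d : ℕ) (p : ℝ → Polynomial ℝ),
  (∀ i, AnalyticAt ℝ (fun x => (p x).coeff i) 0) ∧ (∀ x, (p x).natDegree ≤ d) ∧
  ∀ x, x ≠ 0 → ∀ L, x ^ d * F x L = (p x).eval L

lemma Adm.add {F G : ℝ → ℝ → ℝ} (hF : Adm F) (hG : Adm G) : Adm (fun x L => F x L + G x L) := by
  obtain ⟨d, p, hp, hd, h⟩ := hF
  obtain ⟨e, q, hq, he, k⟩ := hG
  refine ⟨d + e, fun x => Polynomial.C (x ^ e) * p x + Polynomial.C (x ^ d) * q x, ?_, ?_, ?_⟩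
  · intro i
    simp only [Polynomial.coeff_add, Polynomial.coeff_C_mul]
    exact ((analyticAt_id.pow e).mul (hp i)).add ((analyticAt_id.pow d).mul (hq i))
  · intro x
    refine (Polynomial.natDegree_add_le _ _).trans (max_le ?_ ?_)
    · exact (Polynomial.natDegree_C_mul_le _ _).trans ((hd x).trans (Nat.le_add_right _ _))
    · exact (Polynomial.natDegree_C_mul_le _ _).trans ((he x).trans (Nat.le_add_left _ _))
  · intro x hx L
    simp only [Polynomial.eval_add, Polynomial.eval_mul, Polynomial.eval_C]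
    rw [← h x hx L, ← k x hx L]
    ring

lemma Adm.mul {F G : ℝ → ℝ → ℝ} (hF : Adm F) (hG : Adm G) : Adm (fun x L => F x L * G x L) := by
  obtain ⟨d, p, hp, hd, h⟩ := hF
  obtain ⟨e, q, hq, he, k⟩ := hG
  refine ⟨d + e, fun x => p x * q x, ?_, ?_, ?_⟩
  · intro i
    simp only [Polynomial.coeff_mul]
    exact Finset.analyticAt_fun_sum _ fun y _ => (hp y.1).mul (hq y.2)
  · intro x
    exact Polynomial.natDegree_mul_le.trans (add_le_add (hd x) (he x))
  · intro x hx L
    rw [Polynomial.eval_mul, ← h x hx L, ← k x hx L]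
    ring

lemma adm_fun {f : ℝ → ℝ} (hf : AnalyticAt ℝ f 0) : Adm (fun x _ => f x) := by
  refine ⟨0, fun x => Polynomial.C (f x), ?_, ?_, ?_⟩
  · intro i
    simp only [Polynomial.coeff_C]
    split_ifs
    · exact hf
    · exact analyticAt_const
  · intro x
    simp
  · intro x _ L
    simp

lemma adm_L : Adm (fun _ L => L) := by
  refine ⟨1, fun x => Polynomial.C x * Polynomial.X, ?_, ?_, ?_⟩
  · intro i
    simp only [Polynomial.coeff_C_mul]
    exact analyticAt_id.mul analyticAt_const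
  · intro x
    exact (Polynomial.natDegree_C_mul_le _ _).trans Polynomial.natDegree_X_le
  · intro x _ L
    simp

lemma adm_inv : Adm (fun x _ => x⁻¹) := by
  refine ⟨1, fun x => Polynomial.C 1, ?_, ?_, ?_⟩
  · intro i
    simp only [Polynomial.coeff_C]
    exact analyticAt_const
  · intro x
    simp
  · intro x hx L
    simp [hx]

lemma adm_eval {τ : Type} (W : τ → ℝ → ℝ → ℝ) (hW : ∀ i, Adm (W i)) (P : MvPolynomial τ ℝ) :
    Adm (fun x L => MvPolynomial.eval (fun i => W i x L) P) := by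
  induction P using MvPolynomial.induction_on with
  | C a =>
    simp only [MvPolynomial.eval_C]
    exact adm_fun analyticAt_const
  | add p q hp hq =>
    simp only [map_add]
    exact hp.add hq
  | mul_X p i hp =>
    simp only [map_mul, MvPolynomial.eval_X]
    exact hp.mul (hW i)

/-- If an admissible function vanishes at `L = log x`, then it vanishes for all `L`. -/
lemma adm_zero (hLogT : Stmt_LogT) {F : ℝ → ℝ → ℝ} (hF : Adm F)
    (h0 : ∀ᶠ x in 𝓝[>] (0 : ℝ), F x (Real.log x) = 0) :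
    ∀ᶠ x in 𝓝[>] (0 : ℝ), ∀ L, F x L = 0 := by
  obtain ⟨d, p, hp, hd, h⟩ := hF
  have key : ∀ x L, (p x).eval L = ∑ i : Fin (d + 1), (p x).coeff i * L ^ (i : ℕ) := by
    intro x L
    rw [Polynomial.eval_eq_sum_range' (Nat.lt_succ_of_le (hd x)), Finset.sum_range]
  have h1 := hLogT d (fun i x => (p x).coeff i) (fun i => hp i) (by
    filter_upwards [h0, self_mem_nhdsWithin] with x hx hx0
    rw [← key, ← h x (ne_of_gt hx0), hx, mul_zero])
  have h2 : ∀ᶠ x in 𝓝 (0 : ℝ), ∀ i : Fin (d + 1), (p x).coeff i = 0 := eventually_all.mpr h1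
  filter_upwards [nhdsWithin_le_nhds h2, self_mem_nhdsWithin] with x hx hx0 L
  have h3 := h x (ne_of_gt hx0) L
  rw [key] at h3
  simp only [hx, zero_mul, Finset.sum_const_zero] at h3
  exact (mul_eq_zero.mp h3).resolve_left (pow_ne_zero _ (ne_of_gt hx0))

/-- The matrix of values near the singularity, with the logarithm replaced by `L`. -/
noncomputable def W (κ : ℝ) (h : ℝ → ℝ) (x L : ℝ) : Fin 4 → ℝ :=
  ![phi (x - 1) * (κ * L + h (1 - x)), phi (x - 1),
    -deriv phi (x - 1) * (κ * L + h (1 - x)) + phi (x - 1) * (-κ * x⁻¹ + deriv h (1 - x)),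
    -deriv phi (x - 1)]

lemma adm_W (hPhi : Stmt_PhiAn) {κ : ℝ} {h : ℝ → ℝ} (hh : AnalyticAt ℝ h 1) (i : Fin 4) :
    Adm (fun x L => W κ h x L i) := by
  have hphi : AnalyticAt ℝ phi (0 - 1) := (hPhi _ (by norm_num)).1
  have a1 : AnalyticAt ℝ (fun x : ℝ => x - 1) 0 := analyticAt_id.sub analyticAt_const
  have a2 : AnalyticAt ℝ (fun x : ℝ => 1 - x) 0 := analyticAt_const.sub analyticAt_id
  have hh' : AnalyticAt ℝ h (1 - 0) := by simpa using hh
  have b1 : Adm (fun x _ => phi (x - 1)) := adm_fun (ancomp hphi a1 rfl)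
  have b2 : Adm (fun x _ => -deriv phi (x - 1)) := adm_fun (ancomp hphi.deriv a1 rfl).neg
  have b3 : Adm (fun x _ => h (1 - x)) := adm_fun (ancomp hh' a2 rfl)
  have b4 : Adm (fun x _ => deriv h (1 - x)) := adm_fun (ancomp hh'.deriv a2 rfl)
  have b5 : Adm (fun x L => κ * L + h (1 - x)) := ((adm_fun analyticAt_const).mul adm_L).add b3
  have b6 : Adm (fun x _ => -κ * x⁻¹ + deriv h (1 - x)) :=
    ((adm_fun analyticAt_const).mul adm_inv).add b4
  fin_cases i
  · exact b1.mul b5
  · exact b1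
  · exact (b2.mul b5).add (b1.mul b6)
  · exact b2

lemma W_log (hPhi : Stmt_PhiAn) {κ η : ℝ} {h : ℝ → ℝ} (hh : AnalyticAt ℝ h 1) (hη : 0 < η)
    (hs : ∀ t, 1 - η < t → t < 1 → phi t = phi (-t) * (κ * Real.log (1 - t) + h t)) :
    ∀ᶠ x in 𝓝[>] (0 : ℝ), W κ h x (Real.log x) = Mt (1 - x) := by
  have c1 : Continuous fun x : ℝ => 1 - x := by fun_prop
  have e1 : Tendsto (fun x : ℝ => 1 - x) (𝓝 0) (𝓝 1) := by simpa using c1.tendsto 0
  have e2 : ∀ᶠ x in 𝓝 (0 : ℝ), AnalyticAt ℝ h (1 - x) := e1.eventually hh.eventually_analyticAt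
  have e3 : ∀ᶠ x in 𝓝 (0 : ℝ), x < min η 1 := eventually_lt_nhds (lt_min hη one_pos)
  filter_upwards [nhdsWithin_le_nhds e2, nhdsWithin_le_nhds e3, self_mem_nhdsWithin]
    with x hx1 hx2 hx0
  have hx0' : 0 < x := hx0
  have hxη : x < η := hx2.trans_le (min_le_left _ _)
  have hx1' : x < 1 := hx2.trans_le (min_le_right _ _)
  have f0 : phi (1 - x) = phi (x - 1) * (κ * Real.log x + h (1 - x)) := by
    have := hs (1 - x) (by linarith) (by linarith)
    rw [this]
    congr 2
    · congr 1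
      ring
    · rw [sub_sub_cancel]
  have f1 : deriv phi (1 - x) = -deriv phi (x - 1) * (κ * Real.log x + h (1 - x)) +
      phi (x - 1) * (-κ * x⁻¹ + deriv h (1 - x)) := by
    have g1 : HasDerivAt (fun t : ℝ => phi (-t)) (-deriv phi (x - 1)) (1 - x) := by
      have := ((hPhi (x - 1) (by linarith)).1.differentiableAt.hasDerivAt)
      have h2 : HasDerivAt (fun t : ℝ => -t) (-1) (1 - x) := (hasDerivAt_id (1 - x)).neg
      have h3 : HasDerivAt phi (deriv phi (x - 1)) (-(1 - x)) := by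
        rw [neg_sub]
        exact this
      have h4 := h3.comp (1 - x) h2
      rw [mul_neg_one] at h4
      exact h4
    have g2 : HasDerivAt (fun t : ℝ => Real.log (1 - t)) (-x⁻¹) (1 - x) := by
      have h2 : HasDerivAt (fun t : ℝ => 1 - t) (-1) (1 - x) := by
        simpa using (hasDerivAt_id (1 - x)).const_sub 1
      have h3 := h2.log (by rw [sub_sub_cancel]; exact hx0'.ne')
      rw [sub_sub_cancel] at h3
      rw [show -x⁻¹ = -1 / x by ring]
      exact h3
    have g3 : HasDerivAt h (deriv h (1 - x)) (1 - x) := hx1.differentiableAt.hasDerivAt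
    have g4 := g1.mul ((g2.const_mul κ).add g3)
    have g5 : phi =ᶠ[𝓝 (1 - x)] (fun t : ℝ => phi (-t)) *
        ((fun t : ℝ => κ * Real.log (1 - t)) + h) := by
      have : ∀ᶠ t in 𝓝 (1 - x), 1 - η < t ∧ t < 1 :=
        (eventually_gt_nhds (by linarith)).and (eventually_lt_nhds (by linarith))
      filter_upwards [this] with t ht
      simp only [Pi.mul_apply, Pi.add_apply]
      exact hs t ht.1 ht.2
    have g6 := (g4.congr_of_eventuallyEq g5).deriv
    rw [g6]
    simp only [Pi.add_apply, sub_sub_cancel, neg_sub]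
    ring
  unfold W Mt
  rw [← f0, ← f1, neg_sub]

lemma W_shift {κ : ℝ} (hκ : κ ≠ 0) (h : ℝ → ℝ) (x L s : ℝ) :
    W κ h x (L + s / κ) = eR s (W κ h x L) := by
  have e : κ * (L + s / κ) = κ * L + s := by field_simp
  unfold W eR
  rw [e]
  ext i
  fin_cases i <;> simp <;> ring

end StepR

open StepR in
theorem StepR_proof (hLogT : Stmt_LogT) (hSing : Stmt_Sing) (hPhi : Stmt_PhiAn) :
    Stmt_StepR := by
  intro σ _ t₀ c ht0 ht1 hc f hf P hP s
  obtain ⟨h, κ, η, hh, hκ, hη, hs⟩ := hSing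
  have hL : -(1 + t₀) / c < (1 - t₀) / c := by
    rw [div_lt_div_iff_of_pos_right hc]
    linarith
  -- the relation near the right end point, in the coordinate `x`
  have k0 : ((1 - 0 - t₀) / c : ℝ) = (1 - t₀) / c := by ring
  have k1 : ∀ i, AnalyticAt ℝ (fun x : ℝ => f i ((1 - x - t₀) / c)) 0 := by
    intro i
    have h1 : AnalyticAt ℝ (f i) ((1 - 0 - t₀) / c) := by
      rw [k0]
      exact hf i _ ⟨hL.le, le_rfl⟩
    have h2 : AnalyticAt ℝ (fun x : ℝ => (1 - x - t₀) / c) 0 := by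
      have : (fun x : ℝ => (1 - x - t₀) / c) = fun x : ℝ => (1 - x - t₀) * c⁻¹ := by
        ext x
        rw [div_eq_mul_inv]
      rw [this]
      exact ((analyticAt_const.sub analyticAt_id).sub analyticAt_const).mul analyticAt_const
    exact ancomp h1 h2 rfl
  have k2 : Adm (fun x L => MvPolynomial.eval
      (fun o : σ ⊕ Fin 4 => Sum.elim (fun i => f i ((1 - x - t₀) / c)) (W κ h x L) o) P) := by
    refine adm_eval (fun o x L => Sum.elim (fun i => f i ((1 - x - t₀) / c)) (W κ h x L) o) ?_ P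
    rintro (i | i)
    · exact adm_fun (k1 i)
    · exact adm_W hPhi hh i
  have hz : ∀ x : ℝ, t₀ + c * ((1 - x - t₀) / c) = 1 - x := by
    intro x
    field_simp
    ring
  have k3 : ∀ᶠ x in 𝓝[>] (0 : ℝ), (1 - x - t₀) / c ∈ Set.Ioo (-(1 + t₀) / c) ((1 - t₀) / c) := by
    have : ∀ᶠ x in 𝓝 (0 : ℝ), x < 2 := eventually_lt_nhds (by norm_num)
    filter_upwards [nhdsWithin_le_nhds this, self_mem_nhdsWithin] with x hx hx0
    have hx0' : 0 < x := hx0
    constructor
    · rw [div_lt_div_iff_of_pos_right hc]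
      linarith
    · rw [div_lt_div_iff_of_pos_right hc]
      linarith
  have kW := W_log hPhi hh hη hs
  have k4 : ∀ᶠ x in 𝓝[>] (0 : ℝ), MvPolynomial.eval
      (fun o : σ ⊕ Fin 4 => Sum.elim (fun i => f i ((1 - x - t₀) / c))
        (W κ h x (Real.log x)) o) P = 0 := by
    filter_upwards [k3, kW] with x hx hW
    have := hP _ hx
    rw [hz] at this
    rw [hW]
    exact this
  have k5 := adm_zero hLogT k2 k4
  have k6 : ∀ᶠ x in 𝓝[>] (0 : ℝ), MvPolynomial.eval
      (Sum.elim (fun i => f i ((1 - x - t₀) / c))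
        (eR s (Mt (t₀ + c * ((1 - x - t₀) / c))))) P = 0 := by
    filter_upwards [k5, kW] with x hx hW
    have := hx (Real.log x + s / κ)
    rw [hz, ← hW, ← W_shift hκ]
    exact this
  -- identity theorem
  have k7 : ∃ z₁ ∈ Set.Ioo (-(1 + t₀) / c) ((1 - t₀) / c), ∀ᶠ z in 𝓝 z₁, MvPolynomial.eval
      (Sum.elim (fun i => f i z) (eR s (Mt (t₀ + c * z)))) P = 0 := by
    have h1 := k6.and k3
    rw [eventually_nhdsWithin_iff, Metric.eventually_nhds_iff] at h1
    obtain ⟨ε, hε, h2⟩ := h1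
    have h3 : dist (ε / 2) (0 : ℝ) < ε := by
      rw [Real.dist_eq, sub_zero, abs_of_pos (by linarith)]
      linarith
    refine ⟨(1 - ε / 2 - t₀) / c, (h2 h3 (show ε / 2 ∈ Set.Ioi (0 : ℝ) by
      simp only [Set.mem_Ioi]; linarith)).2, ?_⟩
    have h4 : Tendsto (fun z : ℝ => 1 - t₀ - c * z) (𝓝 ((1 - ε / 2 - t₀) / c)) (𝓝 (ε / 2)) := by
      have h5 : Continuous fun z : ℝ => 1 - t₀ - c * z := by fun_prop
      have h6 := h5.tendsto ((1 - ε / 2 - t₀) / c)
      have h7 : 1 - t₀ - c * ((1 - ε / 2 - t₀) / c) = ε / 2 := by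
        field_simp
        ring
      rwa [h7] at h6
    have h5 : ∀ᶠ x in 𝓝 (ε / 2), 0 < x ∧ x < ε :=
      (eventually_gt_nhds (by linarith)).and (eventually_lt_nhds (by linarith))
    filter_upwards [h4.eventually h5] with z hz'
    have h6 : dist (1 - t₀ - c * z) (0 : ℝ) < ε := by
      rw [Real.dist_eq, sub_zero, abs_of_pos hz'.1]
      exact hz'.2
    have h7 := (h2 h6 (show 1 - t₀ - c * z ∈ Set.Ioi (0 : ℝ) from hz'.1)).1
    have h8 : (1 - (1 - t₀ - c * z) - t₀) / c = z := by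
      field_simp
      ring
    rw [h8] at h7
    exact h7
  obtain ⟨z₁, hz₁, hev⟩ := k7
  have k8 : AnalyticOnNhd ℝ (fun z => MvPolynomial.eval
      (Sum.elim (fun i => f i z) (eR s (Mt (t₀ + c * z)))) P)
      (Set.Ioo (-(1 + t₀) / c) ((1 - t₀) / c)) := by
    intro z hz'
    have h1 : t₀ + c * z < 1 := by
      have := (lt_div_iff₀ hc).mp hz'.2
      linarith
    have h2 : -(t₀ + c * z) < 1 := by
      have := (div_lt_iff₀ hc).mp hz'.1
      linarith
    have a0 : AnalyticAt ℝ (fun z : ℝ => t₀ + c * z) z :=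
      analyticAt_const.add (analyticAt_const.mul analyticAt_id)
    have a1 : AnalyticAt ℝ (fun z : ℝ => phi (t₀ + c * z)) z := ancomp (hPhi _ h1).1 a0 rfl
    have a2 : AnalyticAt ℝ (fun z : ℝ => phi (-(t₀ + c * z))) z := ancomp (hPhi _ h2).1 a0.neg rfl
    have a3 : AnalyticAt ℝ (fun z : ℝ => deriv phi (t₀ + c * z)) z := ancomp (hPhi _ h1).1.deriv a0 rfl
    have a4 : AnalyticAt ℝ (fun z : ℝ => -deriv phi (-(t₀ + c * z))) z :=
      (ancomp (hPhi _ h2).1.deriv a0.neg rfl).neg
    have a5 : ∀ o : σ ⊕ Fin 4, AnalyticAt ℝ (fun z => Sum.elim (fun i => f i z)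
        (eR s (Mt (t₀ + c * z))) o) z := by
      rintro (i | i)
      · exact hf i z ⟨hz'.1.le, hz'.2.le⟩
      · fin_cases i
        · exact a1.add (analyticAt_const.mul a2)
        · exact a2
        · exact a3.add (analyticAt_const.mul a4)
        · exact a4
    have := AnalyticAt.aeval_mvPolynomial a5 P
    exact this
  intro z hz'
  have := k8.eqOn_zero_of_preconnected_of_eventuallyEq_zero isPreconnected_Ioo hz₁ hev hz'
  exact this

end Pool.Agent.DGP
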