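import Pool.Agent.DGP.Stmts

set_option autoImplicit false

/-! DGP, module Subs: the substitutions in the period integrals. -/

open Finset

namespace Pool.Agent.DGP.Subs

open MeasureTheory

/-- the quadratic factor -/
def Q (t s : ℝ) : ℝ := 1 + s - t * (1 - s)

theorem Q_eq (t s : ℝ) : Q t s = (1 - t) * (1 - s) + 2 * s := by unfold Q; ring

theorem Q_lower {t s q : ℝ} (_hq0 : 0 < q) (hq1 : q ≤ 1 - t) (hq2 : q ≤ 1) (h0 : 0 ≤ s)
    (h1 : s ≤ 1) : q ≤ Q t s := by
  rw [Q_eq]
  nlinarith [mul_nonneg (sub_nonneg.2 hq1) (sub_nonneg.2 h1)]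

theorem Q_pos {t s : ℝ} (ht : t < 1) (h0 : 0 ≤ s) (h1 : s ≤ 1) : 0 < Q t s := by
  have h : min (1 - t) 1 ≤ Q t s :=
    Q_lower (lt_min (by linarith) one_pos) (min_le_left _ _) (min_le_right _ _) h0 h1
  exact lt_of_lt_of_le (lt_min (by linarith) one_pos) h

/-- the root -/
noncomputable def w (t s : ℝ) : ℝ := √(s * (1 - s) * Q t s)

theorem w_pos {t s : ℝ} (ht : t < 1) (h0 : 0 < s) (h1 : s < 1) : 0 < w t s :=
  Real.sqrt_pos.2 (mul_pos (mul_pos h0 (by linarith)) (Q_pos ht h0.le h1.le))

theorem phi_eq (t : ℝ) : phi t = ∫ s in (0 : ℝ)..1, 1 / w t s := rfl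

/-- the integrable bound -/
noncomputable def bd (s : ℝ) : ℝ := s ^ (-(1 / 2) : ℝ) + (1 - s) ^ (-(1 / 2) : ℝ)

theorem bd_int : IntervalIntegrable bd volume 0 1 := by
  have h1 : IntervalIntegrable (fun s : ℝ => s ^ (-(1 / 2) : ℝ)) volume 0 1 :=
    intervalIntegral.intervalIntegrable_rpow' (by norm_num)
  have h2 : IntervalIntegrable (fun s : ℝ => s ^ (-(1 / 2) : ℝ)) volume 1 0 :=
    intervalIntegral.intervalIntegrable_rpow' (by norm_num)
  have h3 : IntervalIntegrable (fun s : ℝ => (1 - s) ^ (-(1 / 2) : ℝ)) volume 0 1 := by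
    have h4 := h2.comp_sub_left 1 (by simp)
    simpa using h4
  exact h1.add h3

theorem rpow_half {x : ℝ} (hx : 0 < x) : x ^ (-(1 / 2) : ℝ) = 1 / √x := by
  rw [Real.rpow_neg hx.le, ← Real.sqrt_eq_rpow, one_div]

theorem inv_w_le {t s q : ℝ} (hq0 : 0 < q) (hq1 : q ≤ 1 - t) (hq2 : q ≤ 1) (h0 : 0 < s)
    (h1 : s < 1) : 1 / w t s ≤ (1 / √q) * bd s := by
  have hs : 0 < √s := Real.sqrt_pos.2 h0
  have hs' : 0 < √(1 - s) := Real.sqrt_pos.2 (by linarith)
  have hq : 0 < √q := Real.sqrt_pos.2 hq0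
  have hQ := Q_lower hq0 hq1 hq2 h0.le h1.le
  have hQ' : √q ≤ √(Q t s) := Real.sqrt_le_sqrt hQ
  have hw : w t s = √s * √(1 - s) * √(Q t s) := by
    unfold w
    rw [Real.sqrt_mul (mul_nonneg h0.le (by linarith)), Real.sqrt_mul h0.le]
  unfold bd
  rw [rpow_half h0, rpow_half (by linarith : (0:ℝ) < 1 - s), hw]
  have h2 : 1 ≤ √s + √(1 - s) := by
    have e1 := Real.sq_sqrt h0.le
    have e2 := Real.sq_sqrt (by linarith : (0:ℝ) ≤ 1 - s)
    nlinarith [mul_pos hs hs']
  have h3 : 1 / √s + 1 / √(1 - s) = (√s + √(1 - s)) / (√s * √(1 - s)) := by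
    field_simp
    ring
  rw [h3]
  calc 1 / (√s * √(1 - s) * √(Q t s)) ≤ 1 / (√s * √(1 - s) * √q) := by
        apply one_div_le_one_div_of_le (by positivity)
        exact mul_le_mul_of_nonneg_left hQ' (by positivity)
    _ = 1 / √q * (1 / (√s * √(1 - s))) := by field_simp
    _ ≤ 1 / √q * ((√s + √(1 - s)) / (√s * √(1 - s))) := by
        apply mul_le_mul_of_nonneg_left _ (by positivity)
        exact div_le_div_of_nonneg_right h2 (by positivity)

theorem ae_Ioo : ∀ᵐ s : ℝ ∂volume, s ∈ Set.uIoc (0 : ℝ) 1 → 0 < s ∧ s < 1 := by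
  filter_upwards [Measure.ae_ne volume (1 : ℝ)] with s hs h
  rw [Set.uIoc_of_le zero_le_one] at h
  exact ⟨h.1, lt_of_le_of_ne h.2 hs⟩

theorem meas_w (t : ℝ) : Measurable (fun s => w t s) := by
  unfold w Q
  fun_prop

/-- integrability of 1/w times a bounded function -/
theorem int_w {t : ℝ} (ht : t < 1) (g : ℝ → ℝ) (hg : Measurable g) (C : ℝ)
    (hC : ∀ s, 0 < s → s < 1 → |g s| ≤ C) :
    IntervalIntegrable (fun s => g s * (1 / w t s)) volume 0 1 := by
  set q := min (1 - t) 1 with hqd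
  have hq0 : 0 < q := lt_min (by linarith) one_pos
  have hb : IntervalIntegrable (fun s => (C * (1 / √q)) * bd s) volume 0 1 := bd_int.const_mul _
  have hm : Measurable (fun s => g s * (1 / w t s)) := hg.mul (measurable_const.div (meas_w t))
  refine hb.mono_fun' hm.aestronglyMeasurable ?_
  rw [Filter.EventuallyLE, ae_restrict_iff' measurableSet_uIoc]
  filter_upwards [ae_Ioo] with s hs h
  obtain ⟨h0, h1⟩ := hs h
  have h2 := inv_w_le hq0 (min_le_left (1 - t) 1) (min_le_right _ _) h0 h1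
  have h3 := w_pos ht h0 h1
  have h4 := hC s h0 h1
  rw [Real.norm_eq_abs, abs_mul, abs_of_pos (one_div_pos.2 h3), mul_assoc]
  have h5 : 0 ≤ C := (abs_nonneg _).trans h4
  exact mul_le_mul h4 h2 (one_div_pos.2 h3).le h5

/-- derivative of phi -/
theorem phi_deriv {t : ℝ} (ht : t < 1) :
    HasDerivAt phi (∫ s in (0 : ℝ)..1, (1 - s) / (2 * Q t s) * (1 / w t s)) t := by
  obtain ⟨q, hq⟩ : ∃ q, q = min ((1 - t) / 2) 1 := ⟨_, rfl⟩
  have hq0 : 0 < q := by rw [hq]; exact lt_min (by linarith) one_pos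
  have hq2 : q ≤ 1 := by rw [hq]; exact min_le_right _ _
  have hq1 : q ≤ (1 - t) / 2 := by rw [hq]; exact min_le_left _ _
  have hball : ∀ x ∈ Metric.ball t ((1 - t) / 2), q ≤ 1 - x := by
    intro x hx
    rw [Metric.mem_ball, Real.dist_eq, abs_lt] at hx
    linarith [hx.2]
  have h := intervalIntegral.hasDerivAt_integral_of_dominated_loc_of_deriv_le (μ := volume)
    (a := 0) (b := 1) (F := fun x s => 1 / w x s)
    (F' := fun x s => (1 - s) / (2 * Q x s) * (1 / w x s)) (x₀ := t)
    (s := Metric.ball t ((1 - t) / 2)) (bound := fun s => (1 / (2 * q) * (1 / √q)) * bd s)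
    (Metric.ball_mem_nhds t (by linarith))
    (Filter.Eventually.of_forall (fun x => (measurable_const.div (meas_w x)).aestronglyMeasurable))
    (by simpa using int_w ht (fun _ => 1) measurable_const 1 (fun s _ _ => by simp))
    (by
      refine Measurable.aestronglyMeasurable ?_
      refine Measurable.mul ?_ (measurable_const.div (meas_w t))
      unfold Q
      fun_prop)
    (by
      filter_upwards [ae_Ioo] with s hs h x hx
      obtain ⟨h0, h1⟩ := hs h
      have hx1 := hball x hx
      have h2 := inv_w_le hq0 hx1 hq2 h0 h1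
      have h3 := w_pos (by linarith : x < 1) h0 h1
      have h4 := Q_lower hq0 hx1 hq2 h0.le h1.le
      have h5 : 0 < Q x s := lt_of_lt_of_le hq0 h4
      rw [Real.norm_eq_abs, abs_of_nonneg (by
        have : 0 ≤ 1 - s := by linarith
        positivity), mul_assoc]
      have h6 : (1 - s) / (2 * Q x s) ≤ 1 / (2 * q) := by
        rw [div_le_div_iff₀ (by positivity) (by positivity)]
        nlinarith
      exact mul_le_mul h6 h2 (one_div_pos.2 h3).le (by positivity))
    (bd_int.const_mul _)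
    (by
      filter_upwards [ae_Ioo] with s hs h x hx
      obtain ⟨h0, h1⟩ := hs h
      have hx1 := hball x hx
      have hx2 : x < 1 := by linarith
      have h5 : 0 < Q x s := Q_pos hx2 h0.le h1.le
      have h3 := w_pos hx2 h0 h1
      have hA : 0 < s * (1 - s) * Q x s := mul_pos (mul_pos h0 (by linarith)) h5
      have hd : HasDerivAt (fun y => s * (1 - s) * Q y s) (s * (1 - s) * (-(1 - s))) x := by
        unfold Q
        have e1 : HasDerivAt (fun y : ℝ => y * (1 - s)) (1 * (1 - s)) x :=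
          (hasDerivAt_id x).mul_const _
        have e2 : HasDerivAt (fun y : ℝ => 1 + s - y * (1 - s)) (-(1 * (1 - s))) x :=
          e1.const_sub _
        have e3 := e2.const_mul (s * (1 - s))
        simpa using e3
      have hw := (hd.sqrt hA.ne').inv h3.ne'
      have hw2 : √(s * (1 - s) * Q x s) ^ 2 = s * (1 - s) * Q x s := Real.sq_sqrt hA.le
      have e4 : (fun x => 1 / w x s) = fun y => (√(s * (1 - s) * Q y s))⁻¹ := by
        funext y
        rw [one_div]; rfl
      rw [e4]
      have hw4 : HasDerivAt (fun y => (√(s * (1 - s) * Q y s))⁻¹) _ x := hw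
      refine hw4.congr_deriv ?_
      rw [hw2]
      have hw3 : 0 < √(s * (1 - s) * Q x s) := h3
      have e5 : w x s = √(s * (1 - s) * Q x s) := rfl
      rw [e5]
      have h6 : 0 < 1 - s := by linarith
      field_simp)
  exact h.2

/-- integration of the total derivative -/
theorem total {t : ℝ} (h0t : -1 < t) (ht : t < 1) :
    ∫ s in (0 : ℝ)..1, s * (1 / w t s) =
      (1 - t) * ∫ s in (0 : ℝ)..1, (1 - s) / Q t s * (1 / w t s) := by
  have hI1 : IntervalIntegrable (fun s => s * (1 / w t s)) volume 0 1 :=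
    int_w ht (fun s => s) measurable_id 1 (fun s h0 h1 => by rw [abs_of_pos h0]; exact h1.le)
  obtain ⟨q, hq⟩ : ∃ q, q = min (1 - t) 1 := ⟨_, rfl⟩
  have hq0 : 0 < q := by rw [hq]; exact lt_min (by linarith) one_pos
  have hq2 : q ≤ 1 := by rw [hq]; exact min_le_right _ _
  have hq1 : q ≤ 1 - t := by rw [hq]; exact min_le_left _ _
  have hI2 : IntervalIntegrable (fun s => (1 - s) / Q t s * (1 / w t s)) volume 0 1 := by
    refine int_w ht (fun s => (1 - s) / Q t s) ?_ (1 / q) ?_
    · unfold Q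
      fun_prop
    · intro s h0 h1
      have h4 := Q_lower hq0 hq1 hq2 h0.le h1.le
      have h5 : 0 < Q t s := lt_of_lt_of_le hq0 h4
      rw [abs_of_nonneg (div_nonneg (by linarith) h5.le), div_le_div_iff₀ h5 hq0]
      nlinarith
  have hG := intervalIntegral.integral_eq_sub_of_hasDerivAt_of_le (a := 0) (b := 1)
    (f := fun s => w t s / Q t s)
    (f' := fun s => -(1 / 2) * (s * (1 / w t s) - (1 - t) * ((1 - s) / Q t s * (1 / w t s))))
    zero_le_one
    (by
      refine ContinuousOn.div ?_ ?_ ?_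
      · unfold w Q
        fun_prop
      · unfold Q
        fun_prop
      · intro s hs
        exact (Q_pos ht hs.1 hs.2).ne')
    (by
      intro s hs
      obtain ⟨h0, h1⟩ := hs
      have h5 : 0 < Q t s := Q_pos ht h0.le h1.le
      have h3 := w_pos ht h0 h1
      have hA : 0 < s * (1 - s) * Q t s := mul_pos (mul_pos h0 (by linarith)) h5
      have hQd : HasDerivAt (fun y => Q t y) (1 + t) s := by
        have e1 : (fun y => Q t y) = fun y => (1 - t) + (1 + t) * y := by
          funext y; unfold Q; ring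
        rw [e1]
        have := ((hasDerivAt_id s).const_mul (1 + t)).const_add (1 - t)
        simpa using this
      have hP : HasDerivAt (fun y : ℝ => y * (1 - y)) (1 - 2 * s) s := by
        have h7 := (hasDerivAt_id s).mul ((hasDerivAt_id s).const_sub 1)
        have h8 : HasDerivAt (fun y : ℝ => y * (1 - y)) _ s := h7
        refine h8.congr_deriv ?_
        simp only [id]
        ring
      have hd : HasDerivAt (fun y : ℝ => y * (1 - y) * Q t y) _ s := hP.mul hQd
      have hw : HasDerivAt (fun y : ℝ => √(y * (1 - y) * Q t y) / Q t y) _ s :=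
        (hd.sqrt hA.ne').div hQd h5.ne'
      have hw2 : √(s * (1 - s) * Q t s) ^ 2 = s * (1 - s) * Q t s := Real.sq_sqrt hA.le
      have hw3 : 0 < √(s * (1 - s) * Q t s) := h3
      have hw4 : HasDerivAt (fun y : ℝ => w t y / Q t y) _ s := hw
      refine hw4.congr_deriv ?_
      have e5 : w t s = √(s * (1 - s) * Q t s) := rfl
      rw [e5]
      generalize √(s * (1 - s) * Q t s) = r at *
      have e6 : Q t s = 1 + s - t * (1 - s) := rfl
      generalize Q t s = y at *
      rw [div_eq_iff (by positivity)]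
      field_simp
      rw [hw2]
      subst e6
      ring)
    ((hI1.sub (hI2.const_mul _)).const_mul _)
  have e0 : w t 0 = 0 := by unfold w; simp
  have e1 : w t 1 = 0 := by unfold w; simp
  rw [intervalIntegral.integral_const_mul, intervalIntegral.integral_sub hI1 (hI2.const_mul _),
    intervalIntegral.integral_const_mul, e0, e1, zero_div, zero_div] at hG
  linarith [hG]

/-- the substitution in the first period -/
theorem subst (t : ℝ) (h0t : -1 < t) (g : ℝ → ℝ) :
    ∫ x in (-1 : ℝ)..t, g x / √((x ^ 2 - 1) * (x - t)) =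
      ∫ s in (0 : ℝ)..1, g (t - (1 + t) * s) * (1 / w t s) := by
  have hc : (1 + t) ≠ 0 := by linarith
  have h1 := intervalIntegral.integral_comp_sub_mul (a := 0) (b := 1)
    (fun x => g x / √((x ^ 2 - 1) * (x - t))) hc t
  have e1 : t - (1 + t) * 1 = -1 := by ring
  have e2 : t - (1 + t) * 0 = t := by ring
  rw [e1, e2, smul_eq_mul] at h1
  have h2 : ∫ x in (-1 : ℝ)..t, g x / √((x ^ 2 - 1) * (x - t)) =
      (1 + t) * ∫ x in (0 : ℝ)..1, g (t - (1 + t) * x) /
        √(((t - (1 + t) * x) ^ 2 - 1) * ((t - (1 + t) * x) - t)) := by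
    rw [h1]
    field_simp
  rw [h2, ← intervalIntegral.integral_const_mul]
  refine intervalIntegral.integral_congr ?_
  intro s _
  have h3 : ((t - (1 + t) * s) ^ 2 - 1) * ((t - (1 + t) * s) - t) =
      (1 + t) ^ 2 * (s * (1 - s) * Q t s) := by
    unfold Q; ring
  show (1 + t) * (g (t - (1 + t) * s) /
    √(((t - (1 + t) * s) ^ 2 - 1) * ((t - (1 + t) * s) - t))) = _
  rw [h3, Real.sqrt_mul (sq_nonneg _), Real.sqrt_sq (by linarith)]
  show _ = g (t - (1 + t) * s) * (1 / √(s * (1 - s) * Q t s))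
  rw [← mul_div_assoc, mul_div_mul_left _ _ hc]
  ring

theorem pA_eq {t : ℝ} (h0t : -1 < t) : pA t = phi t := by
  have h := subst t h0t (fun _ => 1)
  unfold pA
  rw [h, phi_eq]
  simp

theorem qA_eq {t : ℝ} (h0t : -1 < t) (ht : t < 1) :
    qA t = t * phi t - 2 * (1 - t ^ 2) * deriv phi t := by
  have h := subst t h0t (fun x => x)
  unfold qA
  rw [h, (phi_deriv ht).deriv, phi_eq]
  have hI1 : IntervalIntegrable (fun s => s * (1 / w t s)) volume 0 1 :=
    int_w ht (fun s => s) measurable_id 1 (fun s h0 h1 => by rw [abs_of_pos h0]; exact h1.le)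
  have hI0 : IntervalIntegrable (fun s => 1 / w t s) volume 0 1 := by
    simpa using int_w ht (fun _ => 1) measurable_const 1 (fun s _ _ => by simp)
  have e1 : (∫ s in (0 : ℝ)..1, (t - (1 + t) * s) * (1 / w t s)) =
      t * (∫ s in (0 : ℝ)..1, 1 / w t s) - (1 + t) * ∫ s in (0 : ℝ)..1, s * (1 / w t s) := by
    rw [← intervalIntegral.integral_const_mul, ← intervalIntegral.integral_const_mul,
      ← intervalIntegral.integral_sub (hI0.const_mul _) (hI1.const_mul _)]
    refine intervalIntegral.integral_congr ?_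
    intro s _
    show (t - (1 + t) * s) * (1 / w t s) = t * (1 / w t s) - (1 + t) * (s * (1 / w t s))
    ring
  have e2 : (∫ s in (0 : ℝ)..1, (1 - s) / (2 * Q t s) * (1 / w t s)) =
      (1 / 2) * ∫ s in (0 : ℝ)..1, (1 - s) / Q t s * (1 / w t s) := by
    rw [← intervalIntegral.integral_const_mul]
    refine intervalIntegral.integral_congr ?_
    intro s _
    show (1 - s) / (2 * Q t s) * (1 / w t s) = 1 / 2 * ((1 - s) / Q t s * (1 / w t s))
    rw [show (1 - s) / (2 * Q t s) = 1 / 2 * ((1 - s) / Q t s) by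
      rw [mul_comm 2 (Q t s), ← div_div]; ring]
    ring
  rw [e1, e2, total h0t ht]
  ring

theorem flip (t : ℝ) (g : ℝ → ℝ) :
    ∫ x in t..(1 : ℝ), g x / √((1 - x ^ 2) * (x - t)) =
      ∫ x in (-1 : ℝ)..(-t), g (-x) / √((x ^ 2 - 1) * (x - -t)) := by
  have h := intervalIntegral.integral_comp_neg (a := -1) (b := -t)
    (fun x => g x / √((1 - x ^ 2) * (x - t)))
  rw [neg_neg, neg_neg] at h
  rw [← h]
  refine intervalIntegral.integral_congr ?_
  intro x _
  show g (-x) / √((1 - (-x) ^ 2) * (-x - t)) = g (-x) / √((x ^ 2 - 1) * (x - -t))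
  congr 2
  ring

end Pool.Agent.DGP.Subs

namespace Pool.Agent.DGP

open Subs

theorem Subs_proof : Stmt_Subs := by
  intro t h0 h1
  have hB : pB t = pA (-t) := by
    have h := Subs.flip t (fun _ => 1)
    exact h
  have hQ : qB t = - qA (-t) := by
    have h := Subs.flip t (fun x => x)
    unfold qB qA
    rw [h, ← intervalIntegral.integral_neg]
    refine intervalIntegral.integral_congr ?_
    intro x _
    show -x / √((x ^ 2 - 1) * (x - -t)) = -(x / √((x ^ 2 - 1) * (x - -t)))
    ring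
  refine ⟨pA_eq h0, ?_, qA_eq h0 h1, ?_⟩
  · rw [hB]; exact pA_eq (by linarith)
  · rw [hQ, qA_eq (by linarith : -1 < -t) (by linarith : -t < 1)]
    ring

end Pool.Agent.DGP
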