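import Pool.Agent.DGP.Stmts

set_option autoImplicit false

/-!
Products of systems of `G`-functions.
-/

open Finset

namespace Pool.Agent.DGP

namespace Tens

lemma isZ_mul {x y : ℚ} (hx : IsZ x) (hy : IsZ y) : IsZ (x * y) := by
  obtain ⟨a, rfl⟩ := hx
  obtain ⟨b, rfl⟩ := hy
  exact ⟨a * b, by push_cast; ring⟩

lemma isZ_nat (n : ℕ) : IsZ (n : ℚ) := ⟨n, by push_cast; rfl⟩

lemma isZ_sum {α : Type} (s : Finset α) (f : α → ℚ) (h : ∀ i ∈ s, IsZ (f i)) :
    IsZ (∑ i ∈ s, f i) := by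
  classical
  induction s using Finset.induction_on with
  | empty => exact ⟨0, by simp⟩
  | insert a s ha ih =>
    rw [Finset.sum_insert ha]
    obtain ⟨x, hx⟩ := h a (Finset.mem_insert_self _ _)
    obtain ⟨y, hy⟩ := ih (fun i hi => h i (Finset.mem_insert_of_mem hi))
    exact ⟨x + y, by rw [hx, hy]; push_cast; ring⟩

lemma isZ_dvd {a b : ℕ} {x : ℚ} (h : a ∣ b) (hx : IsZ (a * x)) : IsZ (b * x) := by
  obtain ⟨c, rfl⟩ := h
  have h2 : ((a * c : ℕ) : ℚ) * x = c * (a * x) := by push_cast; ring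
  rw [h2]
  exact isZ_mul (isZ_nat c) hx

lemma dvd_chain {q : ℕ → ℕ} (h : ∀ k, q k ∣ q (k + 1)) {a b : ℕ} (hab : a ≤ b) : q a ∣ q b := by
  induction b, hab using Nat.le_induction with
  | base => exact dvd_rfl
  | succ n hn ih => exact ih.trans (h n)

lemma hd_mul (k : ℕ) (f g : PowerSeries ℚ) :
    hd k (f * g) = ∑ ab ∈ antidiagonal k, hd ab.1 f * hd ab.2 g := by
  ext i
  set f' := PowerSeries.trunc (i + k + 1) f with hf'
  set g' := PowerSeries.trunc (i + k + 1) g with hg'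
  have hf : ∀ j, j ≤ i + k → f'.coeff j = PowerSeries.coeff j f := by
    intro j hj
    rw [hf', PowerSeries.coeff_trunc, if_pos (by omega)]
  have hg : ∀ j, j ≤ i + k → g'.coeff j = PowerSeries.coeff j g := by
    intro j hj
    rw [hg', PowerSeries.coeff_trunc, if_pos (by omega)]
  have h1 : PowerSeries.coeff i (hd k (f * g)) = (Polynomial.hasseDeriv k (f' * g')).coeff i := by
    rw [Polynomial.hasseDeriv_coeff, hd, PowerSeries.coeff_mk, PowerSeries.coeff_mul,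
      Polynomial.coeff_mul]
    congr 1
    refine Finset.sum_congr rfl fun x hx => ?_
    rw [HasAntidiagonal.mem_antidiagonal] at hx
    rw [hf _ (by omega), hg _ (by omega)]
  rw [h1, Polynomial.hasseDeriv_mul, Polynomial.finsetSum_coeff, map_sum]
  refine Finset.sum_congr rfl fun ab hab => ?_
  rw [HasAntidiagonal.mem_antidiagonal] at hab
  rw [Polynomial.coeff_mul, PowerSeries.coeff_mul]
  refine Finset.sum_congr rfl fun x hx => ?_
  rw [HasAntidiagonal.mem_antidiagonal] at hx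
  rw [Polynomial.hasseDeriv_coeff, Polynomial.hasseDeriv_coeff, hd, hd, PowerSeries.coeff_mk,
    PowerSeries.coeff_mk, hf _ (by omega), hg _ (by omega)]

lemma hd_one (k : ℕ) : hd k (1 : PowerSeries ℚ) = if k = 0 then 1 else 0 := by
  ext i
  rw [hd, PowerSeries.coeff_mk, PowerSeries.coeff_one]
  split_ifs with h1 h2 h2
  · subst h2
    have : i = 0 := by omega
    subst this
    simp
  · omega
  · subst h2
    rw [PowerSeries.coeff_one, if_neg (by omega)]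
    simp
  · simp

/-- The bound for the coefficients of a product of polynomials. -/
lemma coeff_mul_le (P Q : Polynomial ℚ) (D : ℕ) (A B : ℝ) (hA : 0 ≤ A) (hB : 0 ≤ B)
    (hD : P.natDegree ≤ D) (hP : ∀ u, |(P.coeff u : ℝ)| ≤ A) (hQ : ∀ u, |(Q.coeff u : ℝ)| ≤ B)
    (l : ℕ) : |((P * Q).coeff l : ℝ)| ≤ (D + 1) * (A * B) := by
  rw [Polynomial.coeff_mul, Finset.Nat.sum_antidiagonal_eq_sum_range_succ
    (fun u v => P.coeff u * Q.coeff v)]
  push_cast
  have h1 : ∀ u ∈ range (l + 1), |(P.coeff u : ℝ) * (Q.coeff (l - u) : ℝ)| ≤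
      if u ∈ range (D + 1) then A * B else 0 := by
    intro u _
    split_ifs with h
    · rw [abs_mul]
      exact mul_le_mul (hP u) (hQ _) (abs_nonneg _) hA
    · have : P.coeff u = 0 := by
        apply Polynomial.coeff_eq_zero_of_natDegree_lt
        rw [Finset.mem_range] at h
        omega
      rw [this]
      simp
  calc |∑ u ∈ range (l + 1), (P.coeff u : ℝ) * (Q.coeff (l - u) : ℝ)|
      ≤ ∑ u ∈ range (l + 1), |(P.coeff u : ℝ) * (Q.coeff (l - u) : ℝ)| :=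
        Finset.abs_sum_le_sum_abs _ _
    _ ≤ ∑ u ∈ range (l + 1), if u ∈ range (D + 1) then A * B else 0 := Finset.sum_le_sum h1
    _ = ∑ u ∈ (range (l + 1)).filter (fun u => u ∈ range (D + 1)), A * B := by
        rw [Finset.sum_filter]
    _ = (((range (l + 1)).filter (fun u => u ∈ range (D + 1))).card : ℝ) * (A * B) := by
        rw [Finset.sum_const, nsmul_eq_mul]
    _ ≤ (D + 1) * (A * B) := by
        apply mul_le_mul_of_nonneg_right _ (mul_nonneg hA hB)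
        have h2 : ((range (l + 1)).filter (fun u => u ∈ range (D + 1))).card ≤ D + 1 := by
          calc _ ≤ (range (D + 1)).card := Finset.card_le_card (by
                intro u hu
                exact (Finset.mem_filter.mp hu).2)
            _ = D + 1 := Finset.card_range _
        exact_mod_cast h2

/-- Systems with polynomial factors in the bounds. -/
structure PS {ι : Type} [Fintype ι] (G : ι → PowerSeries ℚ) (T : Polynomial ℚ)
    (τ e p : ℕ) (c H Q : ℝ) : Prop where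
  one_le : 1 ≤ c
  sys : ∃ (B : ℕ → ι → ι → Polynomial ℚ) (q : ℕ → ℕ),
    (∀ k i, (T : PowerSeries ℚ) ^ k * hd k (G i) = ∑ j, (B k i j : PowerSeries ℚ) * G j) ∧
    (∀ k i j, (B k i j).natDegree ≤ τ * k + e) ∧
    (∀ k i j l, |((B k i j).coeff l : ℝ)| ≤ c * (k + 1) ^ p * H ^ k) ∧
    (∀ k, 1 ≤ q k ∧ q k ∣ q (k + 1) ∧ (q k : ℝ) ≤ c * Q ^ k) ∧
    (∀ k i j l, IsZ (q k * (B k i j).coeff l))
  size : ∀ i j, |((PowerSeries.coeff j (G i) : ℚ) : ℝ)| ≤ c * (j + 1) ^ p * H ^ j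
  den : ∃ d : ℕ → ℕ, (∀ j, 1 ≤ d j ∧ d j ∣ d (j + 1) ∧ (d j : ℝ) ≤ c * Q ^ j) ∧
    ∀ i j, IsZ (d j * PowerSeries.coeff j (G i))

lemma PS.mul {ι κ : Type} [Fintype ι] [Fintype κ] {F : ι → PowerSeries ℚ} {G : κ → PowerSeries ℚ}
    {T : Polynomial ℚ} {τ e₁ e₂ p₁ p₂ : ℕ} {c₁ c₂ H Q₁ Q₂ : ℝ} (hH : 0 ≤ H) (hQ₁ : 0 ≤ Q₁)
    (hQ₂ : 0 ≤ Q₂) (h₁ : PS F T τ e₁ p₁ c₁ H Q₁) (h₂ : PS G T τ e₂ p₂ c₂ H Q₂) :
    PS (fun x : ι × κ => F x.1 * G x.2) T τ (e₁ + e₂) (p₁ + p₂ + 2)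
      ((τ + e₁ + 1) * (c₁ * c₂)) H (Q₁ * Q₂) := by
  have hc1 := h₁.one_le
  have hc2 := h₂.one_le
  have hc1' : 0 ≤ c₁ := by linarith
  have hc2' : 0 ≤ c₂ := by linarith
  have hcc : 1 ≤ c₁ * c₂ := by nlinarith
  have hτ : (1 : ℝ) ≤ (τ + e₁ + 1 : ℝ) := by
    have h1 : (0 : ℝ) ≤ τ := Nat.cast_nonneg _
    have h2 : (0 : ℝ) ≤ e₁ := Nat.cast_nonneg _
    linarith
  have hcle : c₁ * c₂ ≤ (τ + e₁ + 1) * (c₁ * c₂) := by nlinarith
  obtain ⟨B₁, q₁, hB₁, hdeg₁, hco₁, hq₁, hz₁⟩ := h₁.sys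
  obtain ⟨B₂, q₂, hB₂, hdeg₂, hco₂, hq₂, hz₂⟩ := h₂.sys
  obtain ⟨d₁, hd₁, hdz₁⟩ := h₁.den
  obtain ⟨d₂, hd₂, hdz₂⟩ := h₂.den
  refine ⟨by nlinarith, ?_, ?_, ?_⟩
  · refine ⟨fun k x y => ∑ ab ∈ antidiagonal k, B₁ ab.1 x.1 y.1 * B₂ ab.2 x.2 y.2,
      fun k => q₁ k * q₂ k, ?_, ?_, ?_, ?_, ?_⟩
    · rintro k ⟨i, j⟩
      show (T : PowerSeries ℚ) ^ k * hd k (F i * G j) = _
      rw [hd_mul, Finset.mul_sum]
      have h3 : ∀ ab ∈ antidiagonal k, (T : PowerSeries ℚ) ^ k * (hd ab.1 (F i) * hd ab.2 (G j)) =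
          ∑ y : ι × κ, ((B₁ ab.1 i y.1 * B₂ ab.2 j y.2 : Polynomial ℚ) : PowerSeries ℚ) *
            (F y.1 * G y.2) := by
        intro ab hab
        rw [HasAntidiagonal.mem_antidiagonal] at hab
        rw [← hab, pow_add]
        calc (T : PowerSeries ℚ) ^ ab.1 * (T : PowerSeries ℚ) ^ ab.2 *
              (hd ab.1 (F i) * hd ab.2 (G j))
            = ((T : PowerSeries ℚ) ^ ab.1 * hd ab.1 (F i)) *
              ((T : PowerSeries ℚ) ^ ab.2 * hd ab.2 (G j)) := by ring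
          _ = _ := by
            rw [hB₁, hB₂, Finset.sum_mul_sum, Fintype.sum_prod_type]
            refine Finset.sum_congr rfl fun x _ => Finset.sum_congr rfl fun y _ => ?_
            rw [Polynomial.coe_mul]
            ring
      rw [Finset.sum_congr rfl h3, Finset.sum_comm]
      refine Finset.sum_congr rfl fun y _ => ?_
      rw [← Finset.sum_mul]
      congr 1
      rw [← Polynomial.coeToPowerSeries.ringHom_apply, map_sum]
      rfl
    · rintro k x y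
      refine (Polynomial.natDegree_sum_le_of_forall_le _ _ ?_)
      intro ab hab
      rw [HasAntidiagonal.mem_antidiagonal] at hab
      refine (Polynomial.natDegree_mul_le).trans ?_
      have h3 := hdeg₁ ab.1 x.1 y.1
      have h4 := hdeg₂ ab.2 x.2 y.2
      have h5 : τ * k = τ * ab.1 + τ * ab.2 := by rw [← hab]; ring
      omega
    · rintro k x y l
      rw [Polynomial.finsetSum_coeff]
      push_cast
      have h3 : ∀ ab ∈ antidiagonal k,
          |((B₁ ab.1 x.1 y.1 * B₂ ab.2 x.2 y.2).coeff l : ℝ)| ≤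
            ((τ + e₁ + 1) * (k + 1)) * ((c₁ * c₂) * (k + 1) ^ (p₁ + p₂) * H ^ k) := by
        intro ab hab
        rw [HasAntidiagonal.mem_antidiagonal] at hab
        have ha : (ab.1 : ℝ) ≤ k := by exact_mod_cast (by omega : ab.1 ≤ k)
        have hb : (ab.2 : ℝ) ≤ k := by exact_mod_cast (by omega : ab.2 ≤ k)
        have h0a : (0 : ℝ) ≤ ab.1 := Nat.cast_nonneg _
        have h0b : (0 : ℝ) ≤ ab.2 := Nat.cast_nonneg _
        have h0k : (0 : ℝ) ≤ k := Nat.cast_nonneg _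
        have h4 := coeff_mul_le (B₁ ab.1 x.1 y.1) (B₂ ab.2 x.2 y.2) (τ * ab.1 + e₁)
          (c₁ * (ab.1 + 1) ^ p₁ * H ^ ab.1) (c₂ * (ab.2 + 1) ^ p₂ * H ^ ab.2)
          (by positivity) (by positivity) (hdeg₁ _ _ _) (hco₁ _ _ _) (hco₂ _ _ _) l
        refine h4.trans ?_
        have h5 : (((τ * ab.1 + e₁ : ℕ) : ℝ) + 1) ≤ (τ + e₁ + 1) * (k + 1) := by
          push_cast
          have h6 : (0 : ℝ) ≤ τ := Nat.cast_nonneg _
          have h7 : (0 : ℝ) ≤ e₁ := Nat.cast_nonneg _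
          nlinarith [mul_nonneg h6 h0k, mul_nonneg h7 h0k, mul_le_mul_of_nonneg_left ha h6]
        have h8 : (c₁ * ((ab.1 : ℝ) + 1) ^ p₁ * H ^ ab.1) * (c₂ * ((ab.2 : ℝ) + 1) ^ p₂ * H ^ ab.2)
            ≤ (c₁ * c₂) * (k + 1) ^ (p₁ + p₂) * H ^ k := by
          have h9 : ((ab.1 : ℝ) + 1) ^ p₁ ≤ ((k : ℝ) + 1) ^ p₁ :=
            pow_le_pow_left₀ (by linarith) (by linarith) _
          have h10 : ((ab.2 : ℝ) + 1) ^ p₂ ≤ ((k : ℝ) + 1) ^ p₂ :=
            pow_le_pow_left₀ (by linarith) (by linarith) _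
          have h11 : H ^ k = H ^ ab.1 * H ^ ab.2 := by rw [← hab, pow_add]
          rw [h11, pow_add]
          have h12 : ((ab.1 : ℝ) + 1) ^ p₁ * ((ab.2 : ℝ) + 1) ^ p₂ ≤
              ((k : ℝ) + 1) ^ p₁ * ((k : ℝ) + 1) ^ p₂ :=
            mul_le_mul h9 h10 (by positivity) (by positivity)
          have h13 : 0 ≤ (c₁ * c₂) * (H ^ ab.1 * H ^ ab.2) := by positivity
          calc (c₁ * ((ab.1 : ℝ) + 1) ^ p₁ * H ^ ab.1) * (c₂ * ((ab.2 : ℝ) + 1) ^ p₂ * H ^ ab.2)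
              = ((c₁ * c₂) * (H ^ ab.1 * H ^ ab.2)) *
                (((ab.1 : ℝ) + 1) ^ p₁ * ((ab.2 : ℝ) + 1) ^ p₂) := by ring
            _ ≤ ((c₁ * c₂) * (H ^ ab.1 * H ^ ab.2)) *
                (((k : ℝ) + 1) ^ p₁ * ((k : ℝ) + 1) ^ p₂) := mul_le_mul_of_nonneg_left h12 h13
            _ = _ := by ring
        exact mul_le_mul h5 h8 (by positivity) (by positivity)
      refine (Finset.abs_sum_le_sum_abs _ _).trans ((Finset.sum_le_sum h3).trans ?_)
      rw [Finset.sum_const, Finset.Nat.card_antidiagonal, nsmul_eq_mul]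
      push_cast
      apply le_of_eq
      rw [pow_add _ (p₁ + p₂) 2]
      ring
    · intro k
      refine ⟨Nat.mul_pos (hq₁ k).1 (hq₂ k).1, mul_dvd_mul (hq₁ k).2.1 (hq₂ k).2.1, ?_⟩
      push_cast
      calc (q₁ k : ℝ) * q₂ k ≤ (c₁ * Q₁ ^ k) * (c₂ * Q₂ ^ k) :=
            mul_le_mul (hq₁ k).2.2 (hq₂ k).2.2 (Nat.cast_nonneg _) (by positivity)
        _ = (c₁ * c₂) * (Q₁ * Q₂) ^ k := by rw [mul_pow]; ring
        _ ≤ _ := mul_le_mul_of_nonneg_right hcle (by positivity)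
    · rintro k x y l
      rw [Polynomial.finsetSum_coeff, Finset.mul_sum]
      refine isZ_sum _ _ fun ab hab => ?_
      rw [HasAntidiagonal.mem_antidiagonal] at hab
      rw [Polynomial.coeff_mul, Finset.mul_sum]
      refine isZ_sum _ _ fun uv _ => ?_
      have h3 : IsZ ((q₁ k : ℚ) * (B₁ ab.1 x.1 y.1).coeff uv.1) :=
        isZ_dvd (dvd_chain (fun k => (hq₁ k).2.1) (by omega)) (hz₁ _ _ _ _)
      have h4 : IsZ ((q₂ k : ℚ) * (B₂ ab.2 x.2 y.2).coeff uv.2) :=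
        isZ_dvd (dvd_chain (fun k => (hq₂ k).2.1) (by omega)) (hz₂ _ _ _ _)
      have h5 := isZ_mul h3 h4
      have h6 : ((q₁ k * q₂ k : ℕ) : ℚ) *
          ((B₁ ab.1 x.1 y.1).coeff uv.1 * (B₂ ab.2 x.2 y.2).coeff uv.2) =
          (q₁ k : ℚ) * (B₁ ab.1 x.1 y.1).coeff uv.1 * ((q₂ k : ℚ) *
            (B₂ ab.2 x.2 y.2).coeff uv.2) := by push_cast; ring
      rw [h6]
      exact h5
  · rintro ⟨i, i'⟩ j
    show |((PowerSeries.coeff j (F i * G i') : ℚ) : ℝ)| ≤ _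
    rw [PowerSeries.coeff_mul]
    push_cast
    have h3 : ∀ ab ∈ antidiagonal j,
        |((PowerSeries.coeff ab.1 (F i) : ℚ) : ℝ) * ((PowerSeries.coeff ab.2 (G i') : ℚ) : ℝ)| ≤
          (c₁ * c₂) * (j + 1) ^ (p₁ + p₂) * H ^ j := by
      intro ab hab
      rw [HasAntidiagonal.mem_antidiagonal] at hab
      have ha : (ab.1 : ℝ) ≤ j := by exact_mod_cast (by omega : ab.1 ≤ j)
      have hb : (ab.2 : ℝ) ≤ j := by exact_mod_cast (by omega : ab.2 ≤ j)
      have h0a : (0 : ℝ) ≤ ab.1 := Nat.cast_nonneg _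
      have h0b : (0 : ℝ) ≤ ab.2 := Nat.cast_nonneg _
      have h0k : (0 : ℝ) ≤ j := Nat.cast_nonneg _
      rw [abs_mul]
      have h9 : ((ab.1 : ℝ) + 1) ^ p₁ ≤ ((j : ℝ) + 1) ^ p₁ :=
        pow_le_pow_left₀ (by linarith) (by linarith) _
      have h10 : ((ab.2 : ℝ) + 1) ^ p₂ ≤ ((j : ℝ) + 1) ^ p₂ :=
        pow_le_pow_left₀ (by linarith) (by linarith) _
      have h11 : H ^ j = H ^ ab.1 * H ^ ab.2 := by rw [← hab, pow_add]
      have h12 : ((ab.1 : ℝ) + 1) ^ p₁ * ((ab.2 : ℝ) + 1) ^ p₂ ≤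
          ((j : ℝ) + 1) ^ p₁ * ((j : ℝ) + 1) ^ p₂ :=
        mul_le_mul h9 h10 (by positivity) (by positivity)
      have h13 : 0 ≤ (c₁ * c₂) * (H ^ ab.1 * H ^ ab.2) := by positivity
      rw [h11, pow_add]
      calc _ ≤ (c₁ * ((ab.1 : ℝ) + 1) ^ p₁ * H ^ ab.1) * (c₂ * ((ab.2 : ℝ) + 1) ^ p₂ * H ^ ab.2) :=
            mul_le_mul (h₁.size _ _) (h₂.size _ _) (abs_nonneg _) (by positivity)
        _ = ((c₁ * c₂) * (H ^ ab.1 * H ^ ab.2)) *
              (((ab.1 : ℝ) + 1) ^ p₁ * ((ab.2 : ℝ) + 1) ^ p₂) := by ring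
        _ ≤ ((c₁ * c₂) * (H ^ ab.1 * H ^ ab.2)) *
              (((j : ℝ) + 1) ^ p₁ * ((j : ℝ) + 1) ^ p₂) := mul_le_mul_of_nonneg_left h12 h13
        _ = _ := by ring
    refine (Finset.abs_sum_le_sum_abs _ _).trans ((Finset.sum_le_sum h3).trans ?_)
    rw [Finset.sum_const, Finset.Nat.card_antidiagonal, nsmul_eq_mul]
    push_cast
    have h0k : (0 : ℝ) ≤ j := Nat.cast_nonneg _
    have h14 : (0 : ℝ) ≤ (j + 1) ^ (p₁ + p₂) * H ^ j := by positivity
    rw [pow_add _ (p₁ + p₂) 2]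
    calc ((j : ℝ) + 1) * (c₁ * c₂ * (j + 1) ^ (p₁ + p₂) * H ^ j)
        = ((c₁ * c₂) * (j + 1)) * ((j + 1) ^ (p₁ + p₂) * H ^ j) := by ring
      _ ≤ (((τ + e₁ + 1) * (c₁ * c₂)) * (j + 1) ^ 2) * ((j + 1) ^ (p₁ + p₂) * H ^ j) := by
          apply mul_le_mul_of_nonneg_right _ h14
          apply mul_le_mul hcle _ (by positivity) (by positivity)
          nlinarith
      _ = _ := by ring
  · refine ⟨fun j => d₁ j * d₂ j, fun k => ?_, ?_⟩
    · refine ⟨Nat.mul_pos (hd₁ k).1 (hd₂ k).1, mul_dvd_mul (hd₁ k).2.1 (hd₂ k).2.1, ?_⟩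
      push_cast
      calc (d₁ k : ℝ) * d₂ k ≤ (c₁ * Q₁ ^ k) * (c₂ * Q₂ ^ k) :=
            mul_le_mul (hd₁ k).2.2 (hd₂ k).2.2 (Nat.cast_nonneg _) (by positivity)
        _ = (c₁ * c₂) * (Q₁ * Q₂) ^ k := by rw [mul_pow]; ring
        _ ≤ _ := mul_le_mul_of_nonneg_right hcle (by positivity)
    · rintro ⟨i, i'⟩ j
      show IsZ (((d₁ j * d₂ j : ℕ) : ℚ) * PowerSeries.coeff j (F i * G i'))
      rw [PowerSeries.coeff_mul, Finset.mul_sum]
      refine isZ_sum _ _ fun ab hab => ?_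
      rw [HasAntidiagonal.mem_antidiagonal] at hab
      have h3 : IsZ ((d₁ j : ℚ) * PowerSeries.coeff ab.1 (F i)) :=
        isZ_dvd (dvd_chain (fun k => (hd₁ k).2.1) (by omega)) (hdz₁ _ _)
      have h4 : IsZ ((d₂ j : ℚ) * PowerSeries.coeff ab.2 (G i')) :=
        isZ_dvd (dvd_chain (fun k => (hd₂ k).2.1) (by omega)) (hdz₂ _ _)
      have h5 := isZ_mul h3 h4
      have h6 : ((d₁ j * d₂ j : ℕ) : ℚ) *
          (PowerSeries.coeff ab.1 (F i) * PowerSeries.coeff ab.2 (G i')) =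
          (d₁ j : ℚ) * PowerSeries.coeff ab.1 (F i) * ((d₂ j : ℚ) *
            PowerSeries.coeff ab.2 (G i')) := by push_cast; ring
      rw [h6]
      exact h5

/-- Change of the index set. -/
lemma PS.reindex {ι κ : Type} [Fintype ι] [Fintype κ] {F : ι → PowerSeries ℚ}
    {T : Polynomial ℚ} {τ e p : ℕ} {c H Q : ℝ} (h : PS F T τ e p c H Q) (φ : κ ≃ ι) :
    PS (fun x : κ => F (φ x)) T τ e p c H Q := by
  obtain ⟨B, q, hB, hdeg, hco, hq, hz⟩ := h.sys
  obtain ⟨d, hd, hdz⟩ := h.den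
  refine ⟨h.one_le, ⟨fun k i j => B k (φ i) (φ j), q, ?_, fun k i j => hdeg _ _ _,
    fun k i j l => hco _ _ _ _, hq, fun k i j l => hz _ _ _ _⟩, fun i j => h.size _ _,
    ⟨d, hd, fun i j => hdz _ _⟩⟩
  intro k i
  rw [hB]
  exact (Fintype.sum_equiv φ _ _ (fun x => rfl)).symm

lemma tens_ps {ι : Type} [Fintype ι] {G : ι → PowerSeries ℚ} {T : Polynomial ℚ} {τ e₀ : ℕ}
    {c₀ H : ℝ} (h : GSys G T τ e₀ c₀ H) (E : ℕ) :
    ∃ (e p : ℕ) (c : ℝ), PS (tens G E) T τ e p c H (H ^ E) := by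
  have hH : 0 ≤ H := by linarith [h.two_le]
  have hps : PS G T τ e₀ 0 c₀ H H := by
    obtain ⟨B, q, hB, hdeg, hco, hq, hz⟩ := h.sys
    obtain ⟨d, hd, hdz⟩ := h.den
    refine ⟨h.one_le, ⟨B, q, hB, hdeg, ?_, hq, hz⟩, ?_, ⟨d, hd, hdz⟩⟩
    · intro k i j l
      simpa using hco k i j l
    · intro i j
      simpa using h.size i j
  induction E with
  | zero =>
    refine ⟨0, 0, 1, ⟨le_rfl, ⟨fun k _ _ => if k = 0 then 1 else 0, fun _ => 1, ?_, ?_, ?_, ?_, ?_⟩,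
      ?_, ⟨fun _ => 1, ?_, ?_⟩⟩⟩
    · intro k i
      simp only [tens, Finset.univ_eq_empty, Finset.prod_empty, mul_one, hd_one]
      split_ifs with hk
      · subst hk
        simp
      · simp
    · intro k i j
      dsimp only
      split_ifs <;> simp
    · intro k i j l
      dsimp only
      split_ifs with hk
      · subst hk
        rw [Polynomial.coeff_one]
        split_ifs <;> simp
      · simp
        positivity
    · intro k
      simp
    · intro k i j l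
      dsimp only
      split_ifs with hk
      · rw [Polynomial.coeff_one]
        split_ifs
        · exact ⟨1, by simp⟩
        · exact ⟨0, by simp⟩
      · exact ⟨0, by simp⟩
    · intro i j
      simp only [tens, Finset.univ_eq_empty, Finset.prod_empty, PowerSeries.coeff_one]
      split_ifs with hj
      · subst hj
        simp
      · simp
        positivity
    · intro j
      simp
    · intro i j
      simp only [tens, Finset.univ_eq_empty, Finset.prod_empty, PowerSeries.coeff_one]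
      split_ifs with hj
      · exact ⟨1, by simp⟩
      · exact ⟨0, by simp⟩
  | succ E ih =>
    obtain ⟨e, p, c, hE⟩ := ih
    have h2 := (PS.mul hH hH (pow_nonneg hH E) hps hE).reindex
      (Fin.consEquiv (fun _ : Fin (E + 1) => ι)).symm
    refine ⟨e₀ + e, 0 + p + 2, (τ + e₀ + 1) * (c₀ * c), ?_⟩
    convert h2 using 1
    · funext w
      simp only [tens, Fin.prod_univ_succ]
      rfl
    · rw [pow_succ]; ring

/-- Polynomials are bounded by exponentials. -/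
lemma poly_le_exp (p : ℕ) : ∃ C : ℝ, 1 ≤ C ∧ ∀ k : ℕ, ((k : ℝ) + 1) ^ p ≤ C * 2 ^ k := by
  have h := tendsto_pow_const_div_const_pow_of_one_lt p (one_lt_two : (1 : ℝ) < 2)
  have h2 : Filter.Tendsto (fun k : ℕ => ((k : ℝ) + 1) ^ p / 2 ^ (k + 1)) Filter.atTop (nhds 0) := by
    have := h.comp (Filter.tendsto_add_atTop_nat 1)
    refine this.congr fun k => ?_
    simp
  obtain ⟨C, hC⟩ := h2.bddAbove_range
  refine ⟨max 1 (2 * C), le_max_left _ _, fun k => ?_⟩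
  have h3 : ((k : ℝ) + 1) ^ p / 2 ^ (k + 1) ≤ C := hC ⟨k, rfl⟩
  rw [div_le_iff₀ (by positivity)] at h3
  calc ((k : ℝ) + 1) ^ p ≤ C * 2 ^ (k + 1) := h3
    _ = (2 * C) * 2 ^ k := by rw [pow_succ]; ring
    _ ≤ _ := mul_le_mul_of_nonneg_right (le_max_right _ _) (by positivity)

end Tens

open Tens in
theorem Tens_proof : Stmt_Tens := by
  intro ι _ G T τ e₀ c₀ H h E
  obtain ⟨e, p, c, hE⟩ := tens_ps h E
  obtain ⟨C, hC1, hC⟩ := poly_le_exp p
  have hH2 := h.two_le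
  have hH : 0 ≤ H := by linarith
  have hH1 : 1 ≤ H := by linarith
  have hc := hE.one_le
  have hc0 : 0 ≤ c := by linarith
  have hpow : H ≤ H ^ (E + 2) := by
    calc H = H ^ 1 := (pow_one H).symm
      _ ≤ H ^ (E + 2) := pow_le_pow_right₀ hH1 (by omega)
  have hbd : ∀ k : ℕ, c * ((k : ℝ) + 1) ^ p * H ^ k ≤ (c * C) * (H ^ (E + 2)) ^ k := by
    intro k
    have h1 : (2 : ℝ) ^ k ≤ H ^ k := pow_le_pow_left₀ (by norm_num) hH2 k
    have h2 : H ^ k * H ^ k ≤ (H ^ (E + 2)) ^ k := by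
      rw [← mul_pow]
      apply pow_le_pow_left₀ (by positivity)
      calc H * H = H ^ 2 := (sq H).symm
        _ ≤ H ^ (E + 2) := pow_le_pow_right₀ hH1 (by omega)
    calc c * ((k : ℝ) + 1) ^ p * H ^ k ≤ c * (C * 2 ^ k) * H ^ k := by
          apply mul_le_mul_of_nonneg_right _ (by positivity)
          exact mul_le_mul_of_nonneg_left (hC k) hc0
      _ = (c * C) * (2 ^ k * H ^ k) := by ring
      _ ≤ (c * C) * (H ^ k * H ^ k) := by
          apply mul_le_mul_of_nonneg_left _ (by positivity)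
          exact mul_le_mul_of_nonneg_right h1 (by positivity)
      _ ≤ _ := mul_le_mul_of_nonneg_left h2 (by positivity)
  have hbd2 : ∀ k : ℕ, c * (H ^ E) ^ k ≤ (c * C) * (H ^ (E + 2)) ^ k := by
    intro k
    apply mul_le_mul _ _ (by positivity) (by positivity)
    · nlinarith
    · apply pow_le_pow_left₀ (by positivity)
      exact pow_le_pow_right₀ hH1 (by omega)
  obtain ⟨B, q, hB, hdeg, hco, hq, hz⟩ := hE.sys
  obtain ⟨d, hd, hdz⟩ := hE.den
  refine ⟨e, c * C, ⟨by nlinarith, by linarith, h.T_int, h.T_zero, h.T_deg, h.T_size.trans hpow,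
    ⟨B, q, hB, hdeg, fun k i j l => (hco k i j l).trans (hbd k),
      fun k => ⟨(hq k).1, (hq k).2.1, (hq k).2.2.trans (hbd2 k)⟩, hz⟩,
    fun i j => (hE.size i j).trans (hbd j),
    ⟨d, fun k => ⟨(hd k).1, (hd k).2.1, (hd k).2.2.trans (hbd2 k)⟩, hdz⟩⟩⟩

end Pool.Agent.DGP
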