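import Pool.Agent.DGP.Stmts

set_option autoImplicit false

/-! DGP, THMB: all functional relations are consequences of the Legendre relations. -/

open Finset Set

namespace Pool.Agent.DGP

namespace ThmB

open MvPolynomial

/-- polynomials of analytic functions are analytic -/
theorem an_eval {σ : Type} (P : MvPolynomial σ ℝ) (f : ℝ → σ → ℝ) (z : ℝ)
    (hf : ∀ i, AnalyticAt ℝ (fun x => f x i) z) : AnalyticAt ℝ (fun x => eval (f x) P) z := by
  induction P using MvPolynomial.induction_on with
  | C a =>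
    simp only [eval_C]
    exact analyticAt_const
  | add p q hp hq =>
    simp only [map_add]
    exact hp.add hq
  | mul_X p i hp =>
    simp only [map_mul, eval_X]
    exact hp.mul (hf i)

/-- substitution of rational functions -/
theorem ratsub {σ τ : Type} (u : MvPolynomial σ ℝ) (w : τ → MvPolynomial σ ℝ)
    (P : MvPolynomial (σ ⊕ τ) ℝ) : ∃ (n : ℕ) (Q : MvPolynomial σ ℝ), ∀ x : σ → ℝ, eval x u ≠ 0 →
      eval x Q = (eval x u) ^ n * eval (Sum.elim x (fun i => eval x (w i) / eval x u)) P := by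
  induction P using MvPolynomial.induction_on with
  | C a =>
    refine ⟨0, C a, fun x _ => ?_⟩
    simp
  | add p q hp hq =>
    obtain ⟨n1, Q1, h1⟩ := hp
    obtain ⟨n2, Q2, h2⟩ := hq
    refine ⟨n1 + n2, u ^ n2 * Q1 + u ^ n1 * Q2, fun x hx => ?_⟩
    rw [map_add, map_mul, map_mul, map_pow, map_pow, h1 x hx, h2 x hx, map_add]
    ring
  | mul_X p i hp =>
    obtain ⟨n, Q, h⟩ := hp
    rcases i with i | i
    · refine ⟨n, Q * X i, fun x hx => ?_⟩
      rw [map_mul, map_mul, eval_X, eval_X, h x hx, Sum.elim_inl]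
      ring
    · refine ⟨n + 1, Q * w i, fun x hx => ?_⟩
      rw [map_mul, map_mul, eval_X, h x hx, Sum.elim_inr, pow_succ]
      field_simp

/-- analyticity of `Mt` -/
theorem an_Mt (hPhi : Stmt_PhiAn) (t : ℝ) (h1 : -1 < t) (h2 : t < 1) (i : Fin 4) :
    AnalyticAt ℝ (fun x => Mt x i) t := by
  have a1 : AnalyticAt ℝ phi t := (hPhi t h2).1
  have a2 : AnalyticAt ℝ phi (-t) := (hPhi (-t) (by linarith)).1
  have a3 : AnalyticAt ℝ (fun x : ℝ => -x) t := analyticAt_id.neg
  have b1 : AnalyticAt ℝ (fun x => phi (-x)) t := a2.comp_of_eq a3 rfl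
  have b2 : AnalyticAt ℝ (fun x => - deriv phi (-x)) t := (a2.deriv.comp_of_eq a3 rfl).neg
  fin_cases i
  · exact a1
  · exact b1
  · exact a1.deriv
  · exact b2

theorem an_Mt' (hPhi : Stmt_PhiAn) (t₀ c z : ℝ) (h1 : -1 < t₀ + c * z) (h2 : t₀ + c * z < 1)
    (i : Fin 4) : AnalyticAt ℝ (fun x => Mt (t₀ + c * x) i) z := by
  have a3 : AnalyticAt ℝ (fun x : ℝ => t₀ + c * x) z :=
    analyticAt_const.add (analyticAt_const.mul analyticAt_id)
  exact (an_Mt hPhi (t₀ + c * z) h1 h2 i).comp_of_eq a3 rfl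

/-- vanishing on an interval -/
theorem ident (F : ℝ → ℝ) (a b ε : ℝ) (ha : a < 0) (hb : 0 < b) (hε : 0 < ε)
    (hF : ∀ z ∈ Ioo a b, AnalyticAt ℝ F z) (h0 : ∀ z ∈ Ioo 0 ε, F z = 0) :
    ∀ z ∈ Ioo a b, F z = 0 := by
  have hz0 : min ε b / 2 ∈ Ioo a b := by
    have h1 : 0 < min ε b := lt_min hε hb
    have h2 : min ε b ≤ b := min_le_right _ _
    constructor <;> linarith
  have h3 : F =ᶠ[nhds (min ε b / 2)] (fun _ => 0) := by
    have h1 : 0 < min ε b := lt_min hε hb
    have h2 : min ε b ≤ ε := min_le_left _ _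
    have h4 : Ioo 0 ε ∈ nhds (min ε b / 2) := Ioo_mem_nhds (by linarith) (by linarith)
    filter_upwards [h4] with z hz
    exact h0 z hz
  have h4 := AnalyticOnNhd.eqOn_of_preconnected_of_eventuallyEq (f := F) (g := fun _ => 0)
    (U := Ioo a b) hF (fun _ _ => analyticAt_const) isPreconnected_Ioo hz0 h3
  exact fun z hz => h4 hz

theorem main (hOrb : Stmt_Orb) (hPhi : Stmt_PhiAn) (t₀ : ℝ) (ht1 : -1 < t₀) (ht2 : t₀ < 1) :
    ∀ (n : ℕ) (κ : Type) [Fintype κ], Fintype.card κ = n → ∀ c : κ → ℝ, (∀ k, 0 < c k) →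
    Function.Injective c → ∀ P : MvPolynomial (Option (κ × Fin 4)) ℝ,
    (∃ ε : ℝ, 0 < ε ∧ ∀ z ∈ Ioo 0 ε,
      eval (fun o => o.elim z (fun p => Mt (t₀ + c p.1 * z) p.2)) P = 0) →
    ∀ z : ℝ, (∀ k, -1 < t₀ + c k * z ∧ t₀ + c k * z < 1) → ∀ N : κ → Fin 4 → ℝ,
      (∀ k, N k 0 * N k 3 - N k 1 * N k 2 = - Real.pi / (1 - (t₀ + c k * z) ^ 2)) →
      eval (fun o => o.elim z (fun p => N p.1 p.2)) P = 0 := by
  classical
  intro n
  induction n with
  | zero =>
    intro κ _ hκ c _ _ P hP z _ N _
    have he : IsEmpty κ := Fintype.card_eq_zero_iff.mp hκ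
    obtain ⟨ε, hε, h⟩ := hP
    have h1 : ∀ (x : ℝ) (g : κ × Fin 4 → ℝ),
        (fun o : Option (κ × Fin 4) => o.elim x g) = fun o => o.elim x (fun p => N p.1 p.2) := by
      intro x g
      funext o
      rcases o with _ | p
      · rfl
      · exact (he.false p.1).elim
    have h2 := ident (fun x => eval (fun o : Option (κ × Fin 4) => o.elim x (fun p => N p.1 p.2)) P)
      (-(|z| + 1)) (|z| + 1) ε (by have := abs_nonneg z; linarith) (by positivity) hε (by
        intro x _
        apply an_eval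
        intro o
        rcases o with _ | p
        · exact analyticAt_id
        · exact analyticAt_const) (by
        intro x hx
        have h3 := h x hx
        rw [h1] at h3
        exact h3)
    exact h2 z (by
      have := abs_lt.mp (lt_add_one |z|)
      exact this)
  | succ n ih =>
    intro κ _ hκ c hc hinj P hP z hz N hN
    obtain ⟨ε, hε, hP⟩ := hP
    have hne : Nonempty κ := Fintype.card_pos_iff.mp (by omega)
    obtain ⟨k₀, hk₀⟩ := Finite.exists_max c
    have hκ' : Fintype.card {k : κ // k ≠ k₀} = n := by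
      have := Set.card_ne_eq k₀
      have h2 : Fintype.card {k : κ // k ≠ k₀} = Fintype.card κ - 1 := this
      omega
    let σ : Type := Option ({k : κ // k ≠ k₀} × Fin 4)
    let ren : Option (κ × Fin 4) → σ ⊕ Fin 4 := fun o => o.elim (Sum.inl none)
      (fun p => if h : p.1 = k₀ then Sum.inr p.2 else Sum.inl (some (⟨p.1, h⟩, p.2)))
    let P' : MvPolynomial (σ ⊕ Fin 4) ℝ := rename ren P
    have evP : ∀ (x : ℝ) (M : κ → Fin 4 → ℝ),
        eval (Sum.elim (fun o : σ => o.elim x (fun p => M p.1 p.2)) (M k₀)) P' =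
          eval (fun o => o.elim x (fun p => M p.1 p.2)) P := by
      intro x M
      change eval _ (rename ren P) = _
      rw [eval_rename]
      congr 2
      funext o
      rcases o with _ | ⟨k, i⟩
      · rfl
      · by_cases h : k = k₀
        · subst h
          have h3 : ren (some (k, i)) = Sum.inr i := dif_pos rfl
          simp only [Function.comp_apply, h3, Sum.elim_inr]
          rfl
        · have h3 : ren (some (k, i)) = Sum.inl (some (⟨k, h⟩, i)) := dif_neg h
          simp only [Function.comp_apply, h3, Sum.elim_inl]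
          rfl
    have hc₀ := hc k₀
    have hlt : ∀ k, k ≠ k₀ → c k < c k₀ := fun k hk =>
      lt_of_le_of_ne (hk₀ k) (fun h => hk (hinj h))
    have hlo : ∀ x, -(1 + t₀) / c k₀ ≤ x → -(1 + t₀) ≤ c k₀ * x := by
      intro x hx
      rw [div_le_iff₀ hc₀] at hx
      linarith
    have hhi : ∀ x, x ≤ (1 - t₀) / c k₀ → c k₀ * x ≤ 1 - t₀ := by
      intro x hx
      rw [le_div_iff₀ hc₀] at hx
      linarith
    have inner : ∀ k, k ≠ k₀ → ∀ x, -(1 + t₀) / c k₀ ≤ x → x ≤ (1 - t₀) / c k₀ →
        -1 < t₀ + c k * x ∧ t₀ + c k * x < 1 := by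
      intro k hk x h1 h2
      have h3 := hlo x h1
      have h4 := hhi x h2
      have h5 := hlt k hk
      have h6 := hc k
      rcases lt_trichotomy x 0 with hx | hx | hx
      · have h7 : c k₀ * x < c k * x := mul_lt_mul_of_neg_right h5 hx
        have h8 : c k * x < 0 := mul_neg_of_pos_of_neg h6 hx
        constructor <;> linarith
      · rw [hx, mul_zero]
        constructor <;> linarith
      · have h7 : c k * x < c k₀ * x := mul_lt_mul_of_pos_right h5 hx
        have h8 : 0 < c k * x := mul_pos h6 hx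
        constructor <;> linarith
    have inner0 : ∀ x ∈ Ioo (-(1 + t₀) / c k₀) ((1 - t₀) / c k₀), ∀ k,
        -1 < t₀ + c k * x ∧ t₀ + c k * x < 1 := by
      intro x hx k
      by_cases hk : k = k₀
      · subst hk
        have h1 := hx.1
        have h2 := hx.2
        rw [div_lt_iff₀ hc₀] at h1
        rw [lt_div_iff₀ hc₀] at h2
        constructor <;> linarith
      · exact inner k hk x hx.1.le hx.2.le
    let f : σ → ℝ → ℝ := fun o x => o.elim x (fun p => Mt (t₀ + c p.1 * x) p.2)
    have hlo0 : -(1 + t₀) / c k₀ < 0 := div_neg_of_neg_of_pos (by linarith) hc₀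
    have hhi0 : 0 < (1 - t₀) / c k₀ := div_pos (by linarith) hc₀
    have hP1 : ∀ x ∈ Ioo (-(1 + t₀) / c k₀) ((1 - t₀) / c k₀),
        eval (fun o => o.elim x (fun p => Mt (t₀ + c p.1 * x) p.2)) P = 0 := by
      refine ident (fun x => eval (fun o : Option (κ × Fin 4) =>
        o.elim x (fun p => Mt (t₀ + c p.1 * x) p.2)) P) _ _ ε hlo0 hhi0 hε ?_ hP
      intro x hx
      apply an_eval
      intro o
      rcases o with _ | p
      · exact analyticAt_id
      · exact an_Mt' hPhi t₀ (c p.1) x (inner0 x hx p.1).1 (inner0 x hx p.1).2 p.2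
    have hO := hOrb σ t₀ (c k₀) ht1 ht2 hc₀ f (by
      intro o x hx
      rcases o with _ | p
      · exact analyticAt_id
      · have h3 := inner p.1.1 p.1.2 x hx.1 hx.2
        exact an_Mt' hPhi t₀ (c p.1.1) x h3.1 h3.2 p.2) P' (by
      intro x hx
      have h3 := evP x (fun k => Mt (t₀ + c k * x))
      rw [hP1 x hx] at h3
      exact h3)
    -- the key statement
    have hU0 : 1 - (t₀ + c k₀ * z) ^ 2 ≠ 0 := by
      have h3 := hz k₀
      have h4 : 0 < (1 - (t₀ + c k₀ * z)) * (1 + (t₀ + c k₀ * z)) :=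
        mul_pos (by linarith) (by linarith)
      have h5 : 1 - (t₀ + c k₀ * z) ^ 2 = (1 - (t₀ + c k₀ * z)) * (1 + (t₀ + c k₀ * z)) := by ring
      rw [h5]
      exact h4.ne'
    have key : ∀ a b d : ℝ, a ≠ 0 →
        eval (Sum.elim (fun o : σ => o.elim z (fun p => N p.1 p.2))
          ![a, b, d, (-Real.pi / (1 - (t₀ + c k₀ * z) ^ 2) + b * d) / a]) P' = 0 := by
      intro a b d ha
      let u : MvPolynomial σ ℝ := 1 - (C t₀ + C (c k₀) * X none) ^ 2
      let w : Fin 4 → MvPolynomial σ ℝ :=
        ![C a * u, C b * u, C d * u, C (1 / a) * (C (-Real.pi) + C (b * d) * u)]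
      obtain ⟨m, Q, hQ⟩ := ratsub u w P'
      have hu : ∀ x : σ → ℝ, eval x u = 1 - (t₀ + c k₀ * x none) ^ 2 := by
        intro x
        simp [u]
      have hw : ∀ x : σ → ℝ, eval x u ≠ 0 → (fun i => eval x (w i) / eval x u) =
          ![a, b, d, (-Real.pi / (1 - (t₀ + c k₀ * x none) ^ 2) + b * d) / a] := by
        intro x hx
        funext i
        fin_cases i
        · change eval x (C a * u) / eval x u = a
          rw [map_mul, eval_C]
          field_simp
        · change eval x (C b * u) / eval x u = b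
          rw [map_mul, eval_C]
          field_simp
        · change eval x (C d * u) / eval x u = d
          rw [map_mul, eval_C]
          field_simp
        · change eval x (C (1 / a) * (C (-Real.pi) + C (b * d) * u)) / eval x u =
            (-Real.pi / (1 - (t₀ + c k₀ * x none) ^ 2) + b * d) / a
          rw [← hu x, map_mul, map_add, map_mul, eval_C, eval_C, eval_C]
          field_simp
      have hQ1 : ∀ x ∈ Ioo 0 ((1 - t₀) / c k₀),
          eval (fun o : σ => o.elim x (fun p => Mt (t₀ + c p.1 * x) p.2)) Q = 0 := by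
        intro x hx
        have hx' : x ∈ Ioo (-(1 + t₀) / c k₀) ((1 - t₀) / c k₀) := ⟨by linarith [hx.1], hx.2⟩
        have h3 := inner0 x hx' k₀
        have hux : eval (fun o : σ => o.elim x (fun p => Mt (t₀ + c p.1 * x) p.2)) u =
            1 - (t₀ + c k₀ * x) ^ 2 := hu _
        have hne0 : 1 - (t₀ + c k₀ * x) ^ 2 ≠ 0 := by
          have h4 : 0 < (1 - (t₀ + c k₀ * x)) * (1 + (t₀ + c k₀ * x)) :=
            mul_pos (by linarith) (by linarith)
          have h5 : 1 - (t₀ + c k₀ * x) ^ 2 = (1 - (t₀ + c k₀ * x)) * (1 + (t₀ + c k₀ * x)) := by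
            ring
          rw [h5]
          exact h4.ne'
        have hne1 : eval (fun o : σ => o.elim x (fun p => Mt (t₀ + c p.1 * x) p.2)) u ≠ 0 := by
          rw [hux]
          exact hne0
        rw [hQ _ hne1, hw _ hne1]
        have h6 := hO x hx' ![a, b, d, (-Real.pi / (1 - (t₀ + c k₀ * x) ^ 2) + b * d) / a] (by
          change a * ((-Real.pi / (1 - (t₀ + c k₀ * x) ^ 2) + b * d) / a) - b * d = _
          field_simp
          ring)
        have h7 : eval (Sum.elim (fun o : σ => o.elim x (fun p => Mt (t₀ + c p.1 * x) p.2))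
            ![a, b, d, (-Real.pi / (1 - (t₀ + c k₀ * x) ^ 2) + b * d) / a]) P' = 0 := h6
        change _ * eval (Sum.elim (fun o : σ => o.elim x (fun p => Mt (t₀ + c p.1 * x) p.2))
            ![a, b, d, (-Real.pi / (1 - (t₀ + c k₀ * x) ^ 2) + b * d) / a]) P' = 0
        rw [h7, mul_zero]
      have h8 := ih {k : κ // k ≠ k₀} hκ' (fun k => c k.1) (fun k => hc k.1)
        (fun k l h => Subtype.ext (hinj h)) Q ⟨_, hhi0, hQ1⟩ z (fun k => hz k.1)
        (fun k => N k.1) (fun k => hN k.1)
      have hne1 : eval (fun o : σ => o.elim z (fun p => N p.1 p.2)) u ≠ 0 := by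
        rw [hu]
        exact hU0
      rw [hQ _ hne1, hw _ hne1] at h8
      rcases mul_eq_zero.mp h8 with h9 | h9
      · exact absurd h9 (pow_ne_zero _ hne1)
      · exact h9
    rw [← evP z N]
    have hNk := hN k₀
    by_cases h0 : N k₀ 0 = 0
    · have hb : N k₀ 1 ≠ 0 := by
        intro h1
        rw [h0, h1] at hNk
        have h2 : -Real.pi / (1 - (t₀ + c k₀ * z) ^ 2) ≠ 0 :=
          div_ne_zero (neg_ne_zero.mpr Real.pi_ne_zero) hU0
        apply h2
        rw [← hNk]
        ring
      let r : ℝ := -Real.pi / (1 - (t₀ + c k₀ * z) ^ 2)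
      let G : ℝ → ℝ := fun s => eval (Sum.elim (fun o : σ => o.elim z (fun p => N p.1 p.2))
        ![s, N k₀ 1, (s * N k₀ 3 - r) / N k₀ 1, N k₀ 3]) P'
      have hG1 : ∀ s, s ≠ 0 → G s = 0 := by
        intro s hs
        have h3 := key s (N k₀ 1) ((s * N k₀ 3 - r) / N k₀ 1) hs
        have h4 : (-Real.pi / (1 - (t₀ + c k₀ * z) ^ 2) + N k₀ 1 * ((s * N k₀ 3 - r) / N k₀ 1)) / s =
            N k₀ 3 := by
          change (r + N k₀ 1 * ((s * N k₀ 3 - r) / N k₀ 1)) / s = N k₀ 3
          rw [mul_div_cancel₀ _ hb]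
          field_simp
          ring
        rw [h4] at h3
        exact h3
      have hG2 : ContinuousAt G 0 := by
        refine AnalyticAt.continuousAt (𝕜 := ℝ) ?_
        apply an_eval
        intro o
        rcases o with o | i
        · exact analyticAt_const
        · fin_cases i
          · exact analyticAt_id
          · exact analyticAt_const
          · change AnalyticAt ℝ (fun s => (s * N k₀ 3 - r) / N k₀ 1) 0
            exact ((analyticAt_id.mul analyticAt_const).sub analyticAt_const).div analyticAt_const hb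
          · exact analyticAt_const
      have hG3 : G 0 = 0 := by
        have h5 : Filter.Tendsto G (nhdsWithin 0 {0}ᶜ) (nhds (G 0)) :=
          hG2.tendsto.mono_left nhdsWithin_le_nhds
        have h6 : Filter.Tendsto G (nhdsWithin 0 {0}ᶜ) (nhds 0) := by
          apply Filter.Tendsto.congr' _ tendsto_const_nhds
          filter_upwards [self_mem_nhdsWithin] with s hs
          exact (hG1 s hs).symm
        exact tendsto_nhds_unique h5 h6
      have h7 : N k₀ = ![0, N k₀ 1, (0 * N k₀ 3 - r) / N k₀ 1, N k₀ 3] := by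
        funext i
        fin_cases i
        · exact h0
        · rfl
        · change N k₀ 2 = (0 * N k₀ 3 - r) / N k₀ 1
          rw [eq_div_iff hb]
          rw [h0] at hNk
          change N k₀ 2 * N k₀ 1 = 0 * N k₀ 3 - (-Real.pi / (1 - (t₀ + c k₀ * z) ^ 2))
          rw [← hNk]
          ring
        · rfl
      rw [h7]
      exact hG3
    · have h3 := key (N k₀ 0) (N k₀ 1) (N k₀ 2) h0
      have h7 : N k₀ = ![N k₀ 0, N k₀ 1, N k₀ 2,
          (-Real.pi / (1 - (t₀ + c k₀ * z) ^ 2) + N k₀ 1 * N k₀ 2) / N k₀ 0] := by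
        funext i
        fin_cases i
        · rfl
        · rfl
        · rfl
        · change N k₀ 3 = (-Real.pi / (1 - (t₀ + c k₀ * z) ^ 2) + N k₀ 1 * N k₀ 2) / N k₀ 0
          rw [eq_div_iff h0, ← hNk]
          ring
      rw [h7]
      exact h3

end ThmB

theorem ThmB_proof (hOrb : Stmt_Orb) (hPhi : Stmt_PhiAn) : Stmt_ThmB := by
  intro t₀ h1 h2 K c hc hinj P hP z hz N hN
  exact ThmB.main hOrb hPhi t₀ h1 h2 K (Fin K) (Fintype.card_fin K) c hc hinj P hP z hz N hN

end Pool.Agent.DGP
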