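import Pool.Agent.DGP.Stmts

set_option autoImplicit false

/-! DGP, module Val: evaluation of power series. -/

open Finset

namespace Pool.Agent.DGP

namespace Val

/-- The terms of the series. -/
noncomputable def tm (f : PowerSeries ℚ) (x : ℝ) (j : ℕ) : ℝ :=
  ((PowerSeries.coeff j f : ℚ) : ℝ) * x ^ j

theorem norm_tm (f : PowerSeries ℚ) (x : ℝ) (j : ℕ) :
    ‖tm f x j‖ = |((PowerSeries.coeff j f : ℚ) : ℝ)| * |x| ^ j := by
  rw [tm, norm_mul, norm_pow, Real.norm_eq_abs, Real.norm_eq_abs]

theorem conv_iff (f : PowerSeries ℚ) (x : ℝ) : Conv f x ↔ Summable (fun j => ‖tm f x j‖) := by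
  unfold Conv
  simp only [norm_tm]

theorem tm_mul (f g : PowerSeries ℚ) (x : ℝ) (n : ℕ) :
    tm (f * g) x n = ∑ p ∈ antidiagonal n, tm f x p.1 * tm g x p.2 := by
  unfold tm
  rw [PowerSeries.coeff_mul, Rat.cast_sum, Finset.sum_mul]
  refine Finset.sum_congr rfl ?_
  intro p hp
  rw [HasAntidiagonal.mem_antidiagonal] at hp
  rw [← hp, pow_add]
  push_cast
  ring

theorem tm_add (f g : PowerSeries ℚ) (x : ℝ) (n : ℕ) :
    tm (f + g) x n = tm f x n + tm g x n := by
  unfold tm
  rw [map_add]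
  push_cast
  ring

theorem conv_mul {f g : PowerSeries ℚ} {x : ℝ} (hf : Conv f x) (hg : Conv g x) :
    Conv (f * g) x ∧ val (f * g) x = val f x * val g x := by
  rw [conv_iff] at hf hg
  constructor
  · rw [conv_iff]
    have h := summable_norm_sum_mul_antidiagonal_of_summable_norm hf hg
    refine h.congr ?_
    intro n
    rw [tm_mul]
  · have h := tsum_mul_tsum_eq_tsum_sum_antidiagonal_of_summable_norm hf hg
    change ∑' j, tm (f * g) x j = (∑' j, tm f x j) * ∑' j, tm g x j
    rw [h]
    refine tsum_congr ?_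
    intro n
    rw [tm_mul]

theorem conv_add {f g : PowerSeries ℚ} {x : ℝ} (hf : Conv f x) (hg : Conv g x) :
    Conv (f + g) x ∧ val (f + g) x = val f x + val g x := by
  rw [conv_iff] at hf hg
  constructor
  · rw [conv_iff]
    refine Summable.of_nonneg_of_le (fun _ => norm_nonneg _) ?_ (hf.add hg)
    intro n
    rw [tm_add]
    exact norm_add_le _ _
  · change ∑' j, tm (f + g) x j = (∑' j, tm f x j) + ∑' j, tm g x j
    rw [← hf.of_norm.tsum_add hg.of_norm]
    refine tsum_congr ?_
    intro n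
    rw [tm_add]

theorem tm_poly (p : Polynomial ℚ) (x : ℝ) (j : ℕ) (hj : j ∉ range (p.natDegree + 1)) :
    tm (p : PowerSeries ℚ) x j = 0 := by
  unfold tm
  rw [Polynomial.coeff_coe, Polynomial.coeff_eq_zero_of_natDegree_lt]
  · simp
  · rw [mem_range] at hj
    omega

theorem conv_poly (p : Polynomial ℚ) (x : ℝ) :
    Conv p x ∧ val p x = Polynomial.aeval x p := by
  constructor
  · rw [conv_iff]
    refine summable_of_ne_finset_zero (s := range (p.natDegree + 1)) ?_
    intro j hj
    rw [tm_poly p x j hj, norm_zero]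
  · change ∑' j, tm (p : PowerSeries ℚ) x j = _
    rw [tsum_eq_sum (s := range (p.natDegree + 1)) (fun j hj => tm_poly p x j hj),
      Polynomial.aeval_eq_sum_range]
    refine Finset.sum_congr rfl ?_
    intro j _
    unfold tm
    rw [Polynomial.coeff_coe, Algebra.smul_def]
    rfl

theorem conv_bound (f : PowerSeries ℚ) (x c H : ℝ) (hH : 0 ≤ H)
    (hb : ∀ j, |((PowerSeries.coeff j f : ℚ) : ℝ)| ≤ c * H ^ j) (h1 : H * |x| < 1) :
    Conv f x := by
  unfold Conv
  have h2 : Summable (fun j : ℕ => c * (H * |x|) ^ j) :=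
    (summable_geometric_of_lt_one (mul_nonneg hH (abs_nonneg x)) h1).mul_left c
  refine Summable.of_nonneg_of_le (fun _ => by positivity) ?_ h2
  intro j
  calc |((PowerSeries.coeff j f : ℚ) : ℝ)| * |x| ^ j ≤ (c * H ^ j) * |x| ^ j :=
        mul_le_mul_of_nonneg_right (hb j) (by positivity)
    _ = c * (H * |x|) ^ j := by rw [mul_pow]; ring

end Val

theorem Val_proof : Stmt_Val := by
  intro x
  refine ⟨?_, ?_, ?_⟩
  · intro f g hf hg
    have h1 := Val.conv_mul hf hg
    have h2 := Val.conv_add hf hg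
    exact ⟨h1.1, h1.2, h2.1, h2.2⟩
  · intro p
    exact Val.conv_poly p x
  · intro f c H hH hb h1
    exact Val.conv_bound f x c H hH hb h1

end Pool.Agent.DGP
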