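import Pool.Agent.DGP.Stmts

set_option autoImplicit false

open Finset

namespace Pool.Agent.DGP

namespace Word

lemma word_mon {σ : Type} (E : ℕ) : ∀ s : σ →₀ ℕ, (s.sum fun _ k => k) ≤ E →
    ∃ w : Fin E → Option σ,
      ∏ e, ((w e).elim 1 MvPolynomial.X : MvPolynomial σ ℚ) = MvPolynomial.monomial s 1 := by
  classical
  induction E with
  | zero =>
    intro s hs
    refine ⟨fun e => none, ?_⟩
    have hs0 : s = 0 := by
      ext i
      by_contra hi
      have hi' : s i ≠ 0 := hi
      have h1 : s i ≤ s.sum fun _ k => k :=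
        Finset.single_le_sum (f := fun i => s i) (fun _ _ => Nat.zero_le _)
          (Finsupp.mem_support_iff.2 hi')
      omega
    subst hs0
    simp
  | succ E ih =>
    intro s hs
    by_cases h0 : s = 0
    · subst h0
      refine ⟨fun e => none, ?_⟩
      simp
    · obtain ⟨i, hi⟩ := Finsupp.ne_iff.1 h0
      have hi' : s i ≠ 0 := hi
      have hle : Finsupp.single i 1 ≤ s := by
        rw [Finsupp.single_le_iff]
        omega
      have hdec : s = Finsupp.single i 1 + (s - Finsupp.single i 1) :=
        (add_tsub_cancel_of_le hle).symm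
      have hsum : (s.sum fun _ k => k) = 1 + ((s - Finsupp.single i 1).sum fun _ k => k) := by
        conv_lhs => rw [hdec]
        rw [Finsupp.sum_add_index' (fun _ => rfl) (fun _ _ _ => rfl),
          Finsupp.sum_single_index rfl]
      obtain ⟨w, hw⟩ := ih (s - Finsupp.single i 1) (by omega)
      refine ⟨Fin.cons (some i) w, ?_⟩
      rw [Fin.prod_univ_succ]
      simp only [Fin.cons_zero, Fin.cons_succ, Option.elim_some]
      rw [hw, MvPolynomial.X, MvPolynomial.monomial_mul, one_mul, ← hdec]

end Word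

theorem Word_proof : Stmt_Word := by
  classical
  intro σ _ E Q hQ
  have h1 : ∀ s : σ →₀ ℕ, ∃ w : Fin E → Option σ, s ∈ Q.support →
      ∏ e, ((w e).elim 1 MvPolynomial.X : MvPolynomial σ ℚ) = MvPolynomial.monomial s 1 := by
    intro s
    by_cases hs : s ∈ Q.support
    · obtain ⟨w, hw⟩ := Word.word_mon E s ((MvPolynomial.le_totalDegree hs).trans hQ)
      exact ⟨w, fun _ => hw⟩
    · exact ⟨fun _ => none, fun h => absurd h hs⟩
  choose W hW using h1
  refine ⟨fun w => ∑ s ∈ Q.support with W s = w, Q.coeff s, ?_⟩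
  have h2 : ∀ w : Fin E → Option σ,
      MvPolynomial.C (∑ s ∈ Q.support with W s = w, Q.coeff s) *
        ∏ e, ((w e).elim 1 MvPolynomial.X : MvPolynomial σ ℚ) =
      ∑ s ∈ Q.support with W s = w, MvPolynomial.monomial s (Q.coeff s) := by
    intro w
    rw [map_sum, Finset.sum_mul]
    refine Finset.sum_congr rfl fun s hs => ?_
    rw [Finset.mem_filter] at hs
    rw [← hs.2, hW s hs.1, MvPolynomial.C_mul_monomial, mul_one]
  simp_rw [h2]
  rw [Finset.sum_fiberwise]
  exact MvPolynomial.as_sum Q

end Pool.Agent.DGP
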