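import Pool.Agent.DGP.Stmts

set_option autoImplicit false

/-!
Wronskians of power series: if `g 0, ..., g (s-1)` are linearly independent over `ℚ`, then
the determinant of the normalised derivatives does not vanish.
-/

open Finset PowerSeries

namespace Pool.Agent.DGP

namespace Wr

/-- The Euler operator. -/
noncomputable def eu (f : PowerSeries ℚ) : PowerSeries ℚ :=
  PowerSeries.mk (fun i => (i : ℚ) * PowerSeries.coeff i f)

theorem coeff_eu (f : PowerSeries ℚ) (i : ℕ) :
    PowerSeries.coeff i (eu f) = (i : ℚ) * PowerSeries.coeff i f := by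
  simp [eu]

theorem eu_add (f g : PowerSeries ℚ) : eu (f + g) = eu f + eu g := by
  ext i; simp [coeff_eu, mul_add]

theorem eu_sum {ι : Type} (s : Finset ι) (f : ι → PowerSeries ℚ) :
    eu (∑ i ∈ s, f i) = ∑ i ∈ s, eu (f i) := by
  ext n
  simp [coeff_eu, Finset.mul_sum, map_sum]

theorem eu_mul (f g : PowerSeries ℚ) : eu (f * g) = eu f * g + f * eu g := by
  ext n
  rw [coeff_eu, map_add, PowerSeries.coeff_mul, PowerSeries.coeff_mul, PowerSeries.coeff_mul,
    Finset.mul_sum, ← Finset.sum_add_distrib]
  refine Finset.sum_congr rfl fun p hp => ?_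
  rw [coeff_eu, coeff_eu]
  have h : p.1 + p.2 = n := Finset.HasAntidiagonal.mem_antidiagonal.1 hp
  have h' : (n : ℚ) = (p.1 : ℚ) + (p.2 : ℚ) := by rw [← h]; push_cast; ring
  rw [h']; ring

theorem eu_zero : eu 0 = 0 := by
  ext i; simp [coeff_eu]

/-- `X D (hd k f) = (k+1) X hd (k+1) f`. -/
theorem eu_hd (k : ℕ) (f : PowerSeries ℚ) :
    eu (hd k f) = PowerSeries.C ((k : ℚ) + 1) * (PowerSeries.X * hd (k + 1) f) := by
  ext n
  rw [coeff_eu, PowerSeries.coeff_C_mul]
  rcases n with _ | n
  · simp
  · rw [PowerSeries.coeff_succ_X_mul]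
    simp only [hd, PowerSeries.coeff_mk]
    have h1 : n + 1 + k = n + (k + 1) := by ring
    rw [h1]
    have h2 : (n + (k + 1)).choose (k + 1) * (k + 1) = (n + (k + 1)).choose k * (n + 1) := by
      rw [Nat.choose_succ_right_eq]
      congr 1
      omega
    have h3 : (((n + (k + 1)).choose (k + 1) : ℕ) : ℚ) * ((k : ℚ) + 1)
        = (((n + (k + 1)).choose k : ℕ) : ℚ) * ((n : ℚ) + 1) := by exact_mod_cast h2
    push_cast
    linear_combination (-(PowerSeries.coeff (n + (k + 1)) f)) * h3

theorem prop_of_eu (a b : PowerSeries ℚ) (ha : a ≠ 0) (h : a * eu b = eu a * b) :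
    ∃ l : ℚ, b = PowerSeries.C l * a := by
  classical
  have hea : ∃ m, PowerSeries.coeff m a ≠ 0 := by
    by_contra hcon
    push Not at hcon
    exact ha (PowerSeries.ext (by simpa using hcon))
  set m := Nat.find hea with hm
  have hm1 : PowerSeries.coeff m a ≠ 0 := Nat.find_spec hea
  have hm2 : ∀ i < m, PowerSeries.coeff i a = 0 := fun i hi => by
    have := Nat.find_min hea hi
    simpa using this
  refine ⟨PowerSeries.coeff m b / PowerSeries.coeff m a, ?_⟩
  set l := PowerSeries.coeff m b / PowerSeries.coeff m a with hl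
  by_contra hne
  set c := b - PowerSeries.C l * a with hc
  have hc0 : c ≠ 0 := fun h0 => hne (sub_eq_zero.1 h0)
  have heu : eu c = eu b - PowerSeries.C l * eu a := by
    ext n
    simp only [hc, coeff_eu, map_sub, PowerSeries.coeff_C_mul]
    ring
  have hrel : a * eu c = eu a * c := by
    rw [heu, hc]
    linear_combination h
  have hcm : PowerSeries.coeff m c = 0 := by
    rw [hc, map_sub, PowerSeries.coeff_C_mul, hl, div_mul_cancel₀ _ hm1, sub_self]
  have hec : ∃ m, PowerSeries.coeff m c ≠ 0 := by
    by_contra hcon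
    push Not at hcon
    exact hc0 (PowerSeries.ext (by simpa using hcon))
  set n := Nat.find hec with hn
  have hn1 : PowerSeries.coeff n c ≠ 0 := Nat.find_spec hec
  have hn2 : ∀ i < n, PowerSeries.coeff i c = 0 := fun i hi => by
    have := Nat.find_min hec hi
    simpa using this
  have hnm : n ≠ m := fun h0 => hn1 (h0 ▸ hcm)
  have h1 := congrArg (PowerSeries.coeff (m + n)) hrel
  rw [PowerSeries.coeff_mul, PowerSeries.coeff_mul,
    Finset.sum_eq_single (m, n), Finset.sum_eq_single (m, n)] at h1
  · simp only [coeff_eu] at h1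
    have h2 : ((n : ℚ) - m) * (PowerSeries.coeff m a * PowerSeries.coeff n c) = 0 := by
      linear_combination h1
    rcases mul_eq_zero.1 h2 with h3 | h3
    · apply hnm
      have : (n : ℚ) = m := by linarith
      exact_mod_cast this
    · exact (mul_ne_zero hm1 hn1) h3
  · intro p hp hpne
    have hs : p.1 + p.2 = m + n := Finset.HasAntidiagonal.mem_antidiagonal.1 hp
    rcases lt_or_ge p.1 m with h | h
    · rw [coeff_eu, hm2 _ h, mul_zero, zero_mul]
    · rcases lt_or_ge p.2 n with h' | h'
      · rw [hn2 _ h', mul_zero]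
      · exact absurd (Prod.ext (by simp only; omega) (by simp only; omega)) hpne
  · intro hnot
    exact absurd (Finset.HasAntidiagonal.mem_antidiagonal.2 (show (m, n).1 + (m, n).2 = m + n from rfl)) hnot
  · intro p hp hpne
    have hs : p.1 + p.2 = m + n := Finset.HasAntidiagonal.mem_antidiagonal.1 hp
    rcases lt_or_ge p.1 m with h | h
    · rw [hm2 _ h, zero_mul]
    · rcases lt_or_ge p.2 n with h' | h'
      · rw [coeff_eu, hn2 _ h', mul_zero, mul_zero]
      · exact absurd (Prod.ext (by simp only; omega) (by simp only; omega)) hpne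
  · intro hnot
    exact absurd (Finset.HasAntidiagonal.mem_antidiagonal.2 (show (m, n).1 + (m, n).2 = m + n from rfl)) hnot

theorem hd_zero (f : PowerSeries ℚ) : hd 0 f = f := by
  ext i; simp [hd]

end Wr

open Wr in
theorem Wr_proof : Stmt_Wr := by
  intro s
  induction s with
  | zero => intro g _; simp
  | succ s ih =>
    intro g hg hdet
    obtain ⟨c, hc0, hc⟩ := Matrix.exists_mulVec_eq_zero_iff.2 hdet
    have hrel : ∀ k : Fin (s + 1), ∑ j, hd k (g j) * c j = 0 := fun k => by
      have := congrFun hc k
      simpa [Matrix.mulVec, dotProduct] using this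
    have hW : Matrix.det (Matrix.of (fun k j : Fin s => hd k (g j.succ))) ≠ 0 :=
      ih (fun j => g j.succ) (hg.comp Fin.succ (Fin.succ_injective s))
    have hinj : ∀ v : Fin s → PowerSeries ℚ,
        (∀ k : Fin s, ∑ j, hd k (g j.succ) * v j = 0) → v = 0 := fun v hv => by
      apply Matrix.eq_zero_of_mulVec_eq_zero hW
      funext k
      simpa [Matrix.mulVec, dotProduct] using hv k
    have hrel' : ∀ k : Fin s, ∑ j, hd k (g j) * eu (c j) = 0 := fun k => by
      have h1 := congrArg eu (hrel k.castSucc)
      rw [eu_sum, eu_zero] at h1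
      have h2 : ∀ j, eu (hd (k.castSucc : ℕ) (g j) * c j)
          = PowerSeries.C ((k : ℚ) + 1) * PowerSeries.X * (hd (k + 1 : ℕ) (g j) * c j)
            + hd k (g j) * eu (c j) := fun j => by
        rw [eu_mul, eu_hd]
        simp only [Fin.val_castSucc]
        ring
      rw [Finset.sum_congr rfl (fun j _ => h2 j), Finset.sum_add_distrib, ← Finset.mul_sum] at h1
      have h3 := hrel k.succ
      rw [Fin.val_succ] at h3
      rw [h3, mul_zero, zero_add] at h1
      exact h1
    have hc00 : c 0 ≠ 0 := fun h0 => by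
      have h1 : (fun j : Fin s => c j.succ) = 0 := hinj _ fun k => by
        have h2 := hrel k.castSucc
        rw [Fin.sum_univ_succ, h0, mul_zero, zero_add] at h2
        simpa using h2
      apply hc0
      funext j
      refine Fin.cases h0 (fun j => ?_) j
      exact congrFun h1 j
    have hprop : ∀ j : Fin s, ∃ l : ℚ, c j.succ = PowerSeries.C l * c 0 := fun j => by
      apply prop_of_eu _ _ hc00
      have h1 : (fun j : Fin s => c 0 * eu (c j.succ) - eu (c 0) * c j.succ) = 0 :=
        hinj _ fun k => by
          have h2 := hrel k.castSucc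
          have h3 := hrel' k
          rw [Fin.sum_univ_succ] at h2 h3
          simp only [Fin.val_castSucc] at h2
          have h4 : ∑ j : Fin s, hd k (g j.succ) * (c 0 * eu (c j.succ) - eu (c 0) * c j.succ)
              = c 0 * ∑ j : Fin s, hd k (g j.succ) * eu (c j.succ)
                - eu (c 0) * ∑ j : Fin s, hd k (g j.succ) * c j.succ := by
            rw [Finset.mul_sum, Finset.mul_sum, ← Finset.sum_sub_distrib]
            exact Finset.sum_congr rfl fun j _ => by ring
          rw [h4]
          linear_combination c 0 * h3 - eu (c 0) * h2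
      exact sub_eq_zero.1 (congrFun h1 j)
    choose l hl using hprop
    have h1 := hrel 0
    rw [Fin.sum_univ_succ] at h1
    simp only [Fin.val_zero, hd_zero] at h1
    have h2 : c 0 * (g 0 + ∑ j : Fin s, PowerSeries.C (l j) * g j.succ) = 0 := by
      rw [mul_add, Finset.mul_sum]
      have h3 : ∑ j : Fin s, c 0 * (PowerSeries.C (l j) * g j.succ)
          = ∑ j : Fin s, g j.succ * c j.succ :=
        Finset.sum_congr rfl fun j _ => by rw [hl j]; ring
      rw [h3]
      linear_combination h1
    rcases mul_eq_zero.1 h2 with h3 | h3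
    · exact hc00 h3
    · rw [Fintype.linearIndependent_iff] at hg
      have h4 := hg (Fin.cons 1 l) (by
        rw [Fin.sum_univ_succ]
        simp only [Fin.cons_zero, one_smul, Fin.cons_succ]
        have h5 : ∑ j : Fin s, l j • g j.succ = ∑ j : Fin s, PowerSeries.C (l j) * g j.succ :=
          Finset.sum_congr rfl fun j _ => PowerSeries.smul_eq_C_mul _ _
        rw [h5]; exact h3) 0
      simp at h4

end Pool.Agent.DGP
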