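import Pool.Agent.DGP.Stmts

set_option autoImplicit false

/-!
DGP, module Wron: the Wronskian (Legendre relation).
-/

namespace Pool.Agent.DGP

namespace Wron

/-- the normalised Wronskian -/
noncomputable def W (t : ℝ) : ℝ :=
  (1 - t ^ 2) * (phi t * (-deriv phi (-t)) - phi (-t) * deriv phi t)

theorem hasDeriv (hPhi : Stmt_PhiAn) {t : ℝ} (ht : t < 1) : HasDerivAt phi (deriv phi t) t :=
  (hPhi t ht).1.differentiableAt.hasDerivAt

theorem hasDeriv2 (hPhi : Stmt_PhiAn) {t : ℝ} (ht : t < 1) :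
    HasDerivAt (deriv phi) (deriv (deriv phi) t) t :=
  (hPhi t ht).1.deriv.differentiableAt.hasDerivAt

theorem hasDerivW (hOde : Stmt_Ode) (hPhi : Stmt_PhiAn) {t : ℝ} (h1 : -1 < t) (h2 : t < 1) :
    HasDerivAt W 0 t := by
  have a1 := hasDeriv hPhi h2
  have a2 := hasDeriv2 hPhi h2
  have b1 := (hasDeriv hPhi (t := -t) (by linarith)).comp t (hasDerivAt_neg t)
  have b2 := (hasDeriv2 hPhi (t := -t) (by linarith)).comp t (hasDerivAt_neg t)
  have p : HasDerivAt (fun t : ℝ => 1 - t ^ 2) (-(2 * t)) t := by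
    have := ((hasDerivAt_id t).pow 2).const_sub 1
    simpa using this
  have h := p.mul ((a1.mul b2.neg).sub (b1.mul a2))
  have o1 := hOde t h1 h2
  have o2 := hOde (-t) (by linarith) (by linarith)
  have h' : HasDerivAt W _ t := h
  refine h'.congr_deriv ?_
  · simp only [Function.comp, Pi.mul_apply, Pi.neg_apply, Pi.sub_apply]
    have e1 : deriv (deriv phi) t * (1 - t ^ 2) = 2 * t * deriv phi t + phi t / 4 := by
      linear_combination o1
    have e2 : deriv (deriv phi) (-t) * (1 - t ^ 2) = -(2 * t * deriv phi (-t)) + phi (-t) / 4 := by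
      linear_combination o2
    linear_combination phi t * e2 - phi (-t) * e1

end Wron

open Wron

theorem Wron_proof (hOde : Stmt_Ode) (hPhi : Stmt_PhiAn) (hLeg : Stmt_Leg0) : Stmt_Wron := by
  intro t h1 h2
  have hd : ∀ x ∈ Set.Ioo (-1 : ℝ) 1, HasDerivAt W 0 x := fun x hx =>
    hasDerivW hOde hPhi hx.1 hx.2
  have hW : W t = W 0 := by
    refine isOpen_Ioo.is_const_of_deriv_eq_zero isPreconnected_Ioo
      (s := Set.Ioo (-1 : ℝ) 1) ?_ ?_ ⟨h1, h2⟩ ⟨by norm_num, by norm_num⟩
    · exact fun x hx => (hd x hx).differentiableAt.differentiableWithinAt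
    · exact fun x hx => (hd x hx).deriv
  have h0 : W 0 = -Real.pi := by
    unfold W
    rw [neg_zero]
    have := hLeg
    unfold Stmt_Leg0 at this
    linear_combination (-2) * this
  have hne : 1 - t ^ 2 ≠ 0 := by nlinarith
  rw [h0] at hW
  show phi t * (-deriv phi (-t)) - phi (-t) * deriv phi t = - Real.pi / (1 - t ^ 2)
  rw [eq_div_iff hne, ← hW]
  unfold W
  ring

end Pool.Agent.DGP
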