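import Pool.Agent.DGP.A0
import Pool.Agent.DGP.AA
import Pool.Agent.DGP.BDeg
import Pool.Agent.DGP.Base
import Pool.Agent.DGP.DSum
import Pool.Agent.DGP.Der
import Pool.Agent.DGP.ElA
import Pool.Agent.DGP.Elim
import Pool.Agent.DGP.Exc
import Pool.Agent.DGP.Full
import Pool.Agent.DGP.FundM
import Pool.Agent.DGP.IndR
import Pool.Agent.DGP.Lcm
import Pool.Agent.DGP.Leg0
import Pool.Agent.DGP.LogT
import Pool.Agent.DGP.Main
import Pool.Agent.DGP.Mono
import Pool.Agent.DGP.Ode
import Pool.Agent.DGP.Orb
import Pool.Agent.DGP.OrdB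
import Pool.Agent.DGP.PhiAn
import Pool.Agent.DGP.PolAr
import Pool.Agent.DGP.Ser
import Pool.Agent.DGP.Shid
import Pool.Agent.DGP.Sieg
import Pool.Agent.DGP.Sing
import Pool.Agent.DGP.Span
import Pool.Agent.DGP.StepL
import Pool.Agent.DGP.StepR
import Pool.Agent.DGP.Subs
import Pool.Agent.DGP.Tens
import Pool.Agent.DGP.ThmB
import Pool.Agent.DGP.Val
import Pool.Agent.DGP.Word
import Pool.Agent.DGP.Wr
import Pool.Agent.DGP.Wron

set_option autoImplicit false

/-!
The assembly of the modules.
-/

namespace Pool.Agent.DGP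

theorem shid : Stmt_Shid := Shid_proof FundM_proof Wr_proof BDeg_proof OrdB_proof

theorem span : Stmt_Span := Span_proof shid

theorem aa : Stmt_AA := AA_proof (A0_proof Sieg_proof Der_proof span Val_proof) Val_proof

theorem full_system : Stmt_Full :=
  Full_proof (Base_proof (PolAr_proof Lcm_proof)) Mono_proof DSum_proof Tens_proof

theorem ode : Stmt_Ode := Ode_proof PhiAn_proof

theorem wron : Stmt_Wron := Wron_proof ode PhiAn_proof (Leg0_proof Subs_proof)

theorem ser : Stmt_Ser := Ser_proof PhiAn_proof ode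

theorem stepR : Stmt_StepR := StepR_proof LogT_proof (Sing_proof PhiAn_proof wron) PhiAn_proof

theorem thmB : Stmt_ThmB := ThmB_proof (Orb_proof stepR (StepL_proof stepR) wron) PhiAn_proof

theorem indR : Stmt_IndR := IndR_proof aa full_system thmB ser Val_proof Word_proof wron

theorem main_statement : MainStatement :=
  Main_proof indR (Exc_proof Subs_proof wron ser) (Elim_proof ElA_proof)

end Pool.Agent.DGP
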