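import Pool.Agent.DGP.Stmts

set_option autoImplicit false

/-!
Module `NF`: from relations with coefficients in a number field to relations with rational
coefficients.
-/

open Finset

namespace Pool.Agent.DGP

namespace NF

section Norm

variable {σ τ' : Type} {L : Type} [Field L] [Algebra ℚ L] {d : ℕ} (b : Module.Basis (Fin d) ℚ L)

/-- The combination of polynomials with rational coefficients with the coefficients `b j`. -/
noncomputable def comb (c : Fin d → MvPolynomial σ ℚ) : MvPolynomial σ L :=
  ∑ j, MvPolynomial.C (b j) * MvPolynomial.map (algebraMap ℚ L) (c j)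

theorem coeff_comb (c : Fin d → MvPolynomial σ ℚ) (s : σ →₀ ℕ) :
    MvPolynomial.coeff s (comb b c) = ∑ j, MvPolynomial.coeff s (c j) • b j := by
  unfold comb
  rw [MvPolynomial.coeff_sum]
  apply Finset.sum_congr rfl
  intro j _
  rw [MvPolynomial.coeff_C_mul, MvPolynomial.coeff_map, Algebra.smul_def, mul_comm]

theorem exists_comb (P : MvPolynomial σ L) : ∃ c : Fin d → MvPolynomial σ ℚ,
    comb b c = P ∧ ∀ j, (c j).totalDegree ≤ P.totalDegree := by
  classical
  refine ⟨fun j => ∑ s ∈ P.support, MvPolynomial.monomial s (b.repr (P.coeff s) j), ?_, ?_⟩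
  · ext s
    rw [coeff_comb]
    have h1 : ∀ j, MvPolynomial.coeff s
        (∑ s ∈ P.support, MvPolynomial.monomial s (b.repr (P.coeff s) j))
        = b.repr (P.coeff s) j := by
      intro j
      rw [MvPolynomial.coeff_sum]
      simp only [MvPolynomial.coeff_monomial]
      rw [Finset.sum_ite_eq']
      split_ifs with h2
      · rfl
      · rw [MvPolynomial.notMem_support_iff.mp h2]
        simp
    simp only [h1]
    exact b.sum_repr _
  · intro j
    apply MvPolynomial.totalDegree_finsetSum_le
    intro s hs
    refine le_trans (MvPolynomial.totalDegree_monomial_le _ _) ?_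
    exact MvPolynomial.le_totalDegree hs

theorem comb_eq_zero (w : Fin d → MvPolynomial σ ℚ) (h : comb b w = 0) : w = 0 := by
  funext j
  ext s
  have h1 := coeff_comb b w s
  rw [h, MvPolynomial.coeff_zero] at h1
  have h2 := Fintype.linearIndependent_iff.mp b.linearIndependent
    (fun j => MvPolynomial.coeff s (w j)) h1.symm j
  simpa using h2

/-- The matrix of the multiplication by `comb b c`. -/
noncomputable def mat (c : Fin d → MvPolynomial σ ℚ) :
    Matrix (Fin d) (Fin d) (MvPolynomial σ ℚ) :=
  fun l k => ∑ j, c j * MvPolynomial.C (Algebra.leftMulMatrix b (b j) l k)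

theorem mul_basis (x : L) (k : Fin d) :
    ∑ l, (Algebra.leftMulMatrix b x l k) • b l = x * b k := by
  have h1 : ∀ l, Algebra.leftMulMatrix b x l k = b.repr (x * b k) l := by
    intro l
    rw [Algebra.leftMulMatrix_eq_repr_mul]
  simp only [h1]
  exact b.sum_repr _

theorem comb_mul (c w : Fin d → MvPolynomial σ ℚ) :
    comb b c * comb b w = comb b (Matrix.mulVec (mat b c) w) := by
  unfold comb
  rw [Finset.sum_mul_sum]
  have h1 : ∀ j k, MvPolynomial.C (b j) * MvPolynomial.map (algebraMap ℚ L) (c j)
      * (MvPolynomial.C (b k) * MvPolynomial.map (algebraMap ℚ L) (w k))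
      = ∑ l, MvPolynomial.C (b l) * (MvPolynomial.map (algebraMap ℚ L)
          (c j * MvPolynomial.C (Algebra.leftMulMatrix b (b j) l k) * w k)) := by
    intro j k
    have h2 : (MvPolynomial.C (b j) * MvPolynomial.C (b k) : MvPolynomial σ L)
        = ∑ l, MvPolynomial.C (b l)
          * MvPolynomial.C (algebraMap ℚ L (Algebra.leftMulMatrix b (b j) l k)) := by
      rw [← map_mul, ← mul_basis b (b j) k, map_sum]
      apply Finset.sum_congr rfl
      intro l _
      rw [Algebra.smul_def, map_mul, mul_comm]
    calc MvPolynomial.C (b j) * MvPolynomial.map (algebraMap ℚ L) (c j)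
          * (MvPolynomial.C (b k) * MvPolynomial.map (algebraMap ℚ L) (w k))
        = (MvPolynomial.C (b j) * MvPolynomial.C (b k))
          * (MvPolynomial.map (algebraMap ℚ L) (c j) * MvPolynomial.map (algebraMap ℚ L) (w k)) := by
          ring
      _ = _ := by
          rw [h2, Finset.sum_mul]
          apply Finset.sum_congr rfl
          intro l _
          rw [map_mul, map_mul, MvPolynomial.map_C]
          ring
  simp only [h1]
  have h3 : ∀ l, (Matrix.mulVec (mat b c) w) l
      = ∑ k, ∑ j, c j * MvPolynomial.C (Algebra.leftMulMatrix b (b j) l k) * w k := by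
    intro l
    simp only [Matrix.mulVec, dotProduct, mat, Finset.sum_mul]
  simp only [h3, map_sum, Finset.mul_sum]
  rw [Finset.sum_comm]
  rw [Finset.sum_congr rfl (fun k _ => Finset.sum_comm)]
  rw [Finset.sum_comm]

theorem totalDegree_det_le {n : ℕ} (M : Matrix (Fin n) (Fin n) (MvPolynomial σ ℚ)) (D : ℕ)
    (h : ∀ i j, (M i j).totalDegree ≤ D) : M.det.totalDegree ≤ n * D := by
  rw [Matrix.det_apply]
  apply MvPolynomial.totalDegree_finsetSum_le
  intro p _
  refine le_trans (MvPolynomial.totalDegree_smul_le _ _) ?_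
  refine le_trans (MvPolynomial.totalDegree_finset_prod _ _) ?_
  calc ∑ i, (M (p i) i).totalDegree ≤ ∑ _i : Fin n, D := Finset.sum_le_sum (fun i _ => h _ _)
    _ = n * D := by simp

theorem norm_exists [Algebra L ℂ] [FiniteDimensional ℚ L]
    (P : MvPolynomial σ L) : ∃ N : MvPolynomial σ ℚ,
    N.totalDegree ≤ Module.finrank ℚ L * P.totalDegree ∧
    (∀ x : σ → ℂ, MvPolynomial.aeval x P = (0 : ℂ) → MvPolynomial.aeval x N = (0 : ℂ)) ∧
    (∀ ψ : σ → MvPolynomial τ' ℚ, MvPolynomial.bind₁ ψ N = 0 →
      MvPolynomial.bind₁ (fun s => MvPolynomial.map (algebraMap ℚ L) (ψ s)) P = 0) := by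
  classical
  set b := Module.finBasis ℚ L with hb
  obtain ⟨c, hc, hdeg⟩ := exists_comb b P
  refine ⟨(mat b c).det, ?_, ?_, ?_⟩
  · apply totalDegree_det_le
    intro l k
    unfold mat
    apply MvPolynomial.totalDegree_finsetSum_le
    intro j _
    refine le_trans (MvPolynomial.totalDegree_mul _ _) ?_
    rw [MvPolynomial.totalDegree_C, add_zero]
    exact hdeg j
  · intro x hx
    have h1 : MvPolynomial.aeval x (mat b c).det
        = ((MvPolynomial.aeval x : MvPolynomial σ ℚ →ₐ[ℚ] ℂ).mapMatrix (mat b c)).det :=
      AlgHom.map_det _ _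
    rw [h1]
    apply Matrix.exists_vecMul_eq_zero_iff.mp
    have hne : Nonempty (Fin (Module.finrank ℚ L)) := b.index_nonempty
    refine ⟨fun k => algebraMap L ℂ (b k), ?_, ?_⟩
    · intro h2
      obtain ⟨k⟩ := hne
      have h3 := congrFun h2 k
      exact b.ne_zero k ((map_eq_zero (algebraMap L ℂ)).mp h3)
    · funext k
      have h2 : MvPolynomial.aeval x P
          = ∑ j, algebraMap L ℂ (b j) * MvPolynomial.aeval x (c j) := by
        rw [← hc]
        unfold comb
        rw [map_sum]
        apply Finset.sum_congr rfl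
        intro j _
        rw [map_mul, MvPolynomial.aeval_C]
        congr 1
        rw [MvPolynomial.aeval_def, MvPolynomial.eval₂_map, MvPolynomial.aeval_def]
        congr 1
        exact Subsingleton.elim _ _
      have h3 : ∀ j, ∑ l, algebraMap L ℂ (b l)
          * ((Algebra.leftMulMatrix b (b j) l k : ℚ) : ℂ)
          = algebraMap L ℂ (b j) * algebraMap L ℂ (b k) := by
        intro j
        rw [← map_mul, ← mul_basis b (b j) k, map_sum]
        apply Finset.sum_congr rfl
        intro l _
        rw [Algebra.smul_def, map_mul, mul_comm]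
        congr 1
        simp
      have h4 : Matrix.vecMul (fun k => algebraMap L ℂ (b k))
          ((MvPolynomial.aeval x : MvPolynomial σ ℚ →ₐ[ℚ] ℂ).mapMatrix (mat b c)) k
          = MvPolynomial.aeval x P * algebraMap L ℂ (b k) := by
        rw [h2, Finset.sum_mul]
        simp only [Matrix.vecMul, dotProduct, AlgHom.mapMatrix_apply, Matrix.map_apply, mat,
          map_sum, map_mul, MvPolynomial.aeval_C, Finset.mul_sum]
        rw [Finset.sum_comm]
        apply Finset.sum_congr rfl
        intro j _
        have h5 : algebraMap L ℂ (b j) * MvPolynomial.aeval x (c j) * algebraMap L ℂ (b k)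
            = MvPolynomial.aeval x (c j) * (algebraMap L ℂ (b j) * algebraMap L ℂ (b k)) := by
          ring
        rw [h5, ← h3 j, Finset.mul_sum]
        apply Finset.sum_congr rfl
        intro l _
        simp only [eq_ratCast]
        ring
      rw [h4, hx, zero_mul]
      rfl
  · intro ψ hψ
    have h1 : MvPolynomial.bind₁ ψ (mat b c).det
        = ((MvPolynomial.bind₁ ψ).mapMatrix (mat b c)).det := AlgHom.map_det _ _
    rw [h1] at hψ
    obtain ⟨w, hw0, hw⟩ := Matrix.exists_mulVec_eq_zero_iff.mpr hψ
    have h2 : (MvPolynomial.bind₁ ψ).mapMatrix (mat b c)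
        = mat b (fun j => MvPolynomial.bind₁ ψ (c j)) := by
      ext1 l k
      simp only [AlgHom.mapMatrix_apply, Matrix.map_apply, mat, map_sum, map_mul,
        MvPolynomial.bind₁_C_right]
    have h3 : MvPolynomial.bind₁ (fun s => MvPolynomial.map (algebraMap ℚ L) (ψ s)) P
        = comb b (fun j => MvPolynomial.bind₁ ψ (c j)) := by
      rw [← hc]
      unfold comb
      rw [map_sum]
      apply Finset.sum_congr rfl
      intro j _
      rw [map_mul, MvPolynomial.bind₁_C_right, ← MvPolynomial.map_bind₁]
    have h4 := comb_mul b (fun j => MvPolynomial.bind₁ ψ (c j)) w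
    rw [← h2, hw, ← h3] at h4
    have h5 : comb b (0 : Fin (Module.finrank ℚ L) → MvPolynomial τ' ℚ) = 0 := by
      unfold comb
      simp
    rw [h5] at h4
    rcases mul_eq_zero.mp h4 with h6 | h6
    · exact h6
    · exact absurd (comb_eq_zero b w h6) hw0

end Norm

end NF

end Pool.Agent.DGP
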