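import Pool.Agent.DGP.Stmts

set_option autoImplicit false

open Finset

namespace Pool.Agent.DGP.A0

/-- Selection of vectors. -/
lemma sel (d : ℕ) (a : Fin d → ℚ) (ha : a ≠ 0) (r : ℕ → Fin d → ℚ) (K : ℕ)
    (hspan : ∀ b : Fin d → ℚ, (∀ k ≤ K, ∑ i, r k i * b i = 0) → ∀ i, b i = 0) :
    ∀ j : ℕ, j + 1 ≤ d → ∃ k : Fin j → ℕ, (∀ i, k i ≤ K) ∧
      LinearIndependent ℚ (Fin.snoc (fun i => r (k i)) a : Fin (j + 1) → Fin d → ℚ) := by
  intro j
  induction j with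
  | zero =>
    intro _
    refine ⟨Fin.elim0, fun i => i.elim0, ?_⟩
    have : (Fin.snoc (fun i => r (Fin.elim0 i)) a : Fin 1 → Fin d → ℚ) = fun _ => a := by
      funext i
      fin_cases i
      simp [Fin.snoc]
    rw [this]
    exact LinearIndependent.of_subsingleton (ι := Fin 1) (0 : Fin 1) ha
  | succ j ih =>
    intro hj
    obtain ⟨k, hk, hli⟩ := ih (by omega)
    set W := Submodule.span ℚ (Set.range (Fin.snoc (fun i => r (k i)) a :
      Fin (j + 1) → Fin d → ℚ)) with hW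
    have hdim : Module.finrank ℚ W = j + 1 := by
      rw [hW, finrank_span_eq_card hli]; simp
    have hlt : W < ⊤ := by
      apply lt_top_iff_ne_top.2
      intro h
      rw [h, finrank_top] at hdim
      simp at hdim
      omega
    obtain ⟨f, hf, hWf⟩ := Submodule.exists_le_ker_of_lt_top W hlt
    have hex : ∃ k0 ≤ K, r k0 ∉ W := by
      by_contra hcon
      push Not at hcon
      apply hf
      have hz := hspan (fun i => f (fun j => if i = j then 1 else 0)) (fun k hk => by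
        have h1 := hWf (hcon k hk)
        rw [LinearMap.mem_ker, LinearMap.pi_apply_eq_sum_univ] at h1
        simpa [smul_eq_mul] using h1)
      apply LinearMap.ext
      intro x
      rw [LinearMap.pi_apply_eq_sum_univ]
      simp only [LinearMap.zero_apply]
      apply Finset.sum_eq_zero
      intro i _
      have h2 := hz i
      rw [h2, smul_zero]
    obtain ⟨k0, hk0, hk0W⟩ := hex
    refine ⟨Fin.cons k0 k, ?_, ?_⟩
    · intro i
      refine Fin.cases ?_ ?_ i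
      · simpa using hk0
      · intro i
        simpa using hk i
    · have h4 : (Fin.snoc (fun i => r ((Fin.cons k0 k : Fin (j + 1) → ℕ) i)) a :
          Fin (j + 2) → Fin d → ℚ) = Fin.cons (r k0) (Fin.snoc (fun i => r (k i)) a) := by
        rw [Fin.cons_snoc_eq_snoc_cons]
        congr 1
        funext i
        refine Fin.cases ?_ ?_ i <;> simp
      rw [h4, linearIndependent_finCons]
      exact ⟨hli, hk0W⟩

lemma sel' (p : ℕ) (a : Fin (p + 2) → ℚ) (ha : a ≠ 0) (r : ℕ → Fin (p + 2) → ℚ) (K : ℕ)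
    (hspan : ∀ b : Fin (p + 2) → ℚ, (∀ k ≤ K, ∑ i, r k i * b i = 0) → ∀ i, b i = 0) :
    ∃ k : Fin (p + 1) → ℕ, (∀ i, k i ≤ K) ∧
      Matrix.det (Matrix.of (Fin.snoc (fun i => r (k i)) a : Fin (p + 2) → Fin (p + 2) → ℚ)) ≠ 0 := by
  obtain ⟨k, hk, hli⟩ := sel (p + 2) a ha r K hspan (p + 1) (by omega)
  refine ⟨k, hk, ?_⟩
  have h1 : LinearIndependent ℚ (Matrix.of (Fin.snoc (fun i => r (k i)) a :
    Fin (p + 2) → Fin (p + 2) → ℚ)).row := hli
  rw [Matrix.linearIndependent_rows_iff_isUnit, Matrix.isUnit_iff_isUnit_det] at h1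
  exact h1.ne_zero

/-- Determinants, bounds by rows. -/
lemma detb {d : ℕ} (B : Matrix (Fin d) (Fin d) ℝ) (β : Fin d → ℝ)
    (h : ∀ i j, |B i j| ≤ β i) : |B.det| ≤ d.factorial * ∏ i, β i := by
  rw [Matrix.det_apply]
  refine (Finset.abs_sum_le_sum_abs _ _).trans ?_
  have h1 : ∀ σ ∈ (Finset.univ : Finset (Equiv.Perm (Fin d))),
      |Equiv.Perm.sign σ • ∏ i, B (σ i) i| ≤ ∏ i, β i := by
    intro σ _
    have h2 : |Equiv.Perm.sign σ • ∏ i, B (σ i) i| = ∏ i, |B (σ i) i| := by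
      rcases Int.units_eq_one_or (Equiv.Perm.sign σ) with h | h <;> simp [h, Finset.abs_prod]
    rw [h2, ← Equiv.prod_comp σ β]
    exact Finset.prod_le_prod (fun i _ => abs_nonneg _) (fun i _ => h _ _)
  refine (Finset.sum_le_sum h1).trans ?_
  simp [Fintype.card_perm]

lemma detZ {d : ℕ} (B : Matrix (Fin d) (Fin d) ℚ) (h : ∀ i j, IsZ (B i j)) (h0 : B.det ≠ 0) :
    (1 : ℝ) ≤ |((B.det : ℚ) : ℝ)| := by
  choose b hb using h
  have h1 : B = (Matrix.of b).map (Int.castRingHom ℚ) := by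
    ext i j
    simp [hb]
  have h2 : B.det = (((Matrix.of b).det : ℤ) : ℚ) := by
    rw [h1, ← RingHom.mapMatrix_apply, ← RingHom.map_det]
    simp
  rw [h2] at h0 ⊢
  have h3 : (Matrix.of b).det ≠ 0 := by
    intro h
    apply h0
    rw [h]
    simp
  have h4 := Int.one_le_abs h3
  have h5 : ((1 : ℤ) : ℝ) ≤ ((|(Matrix.of b).det| : ℤ) : ℝ) := by exact_mod_cast h4
  simpa using h5

lemma cram (p : ℕ) (B : Matrix (Fin (p + 2)) (Fin (p + 2)) ℚ) (hint : ∀ i j, IsZ (B i j))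
    (hdet : B.det ≠ 0) (y : Fin (p + 2) → ℝ) (A Y Z : ℝ) (hA0 : 0 ≤ A) (hY0 : 0 ≤ Y)
    (hA : ∀ j, |((B (Fin.last (p + 1)) j : ℚ) : ℝ)| ≤ A)
    (hY : ∀ (i : Fin (p + 1)) j, |((B i.castSucc j : ℚ) : ℝ)| ≤ Y)
    (h0 : ∑ j, ((B (Fin.last (p + 1)) j : ℚ) : ℝ) * y j = 0)
    (hZ : ∀ i : Fin (p + 1), |∑ j, ((B i.castSucc j : ℚ) : ℝ) * y j| ≤ Z) (i0 : Fin (p + 2)) :
    |y i0| ≤ (p + 1) * (((p + 2).factorial * (A * Y ^ p)) * Z) := by
  set B' : Matrix (Fin (p + 2)) (Fin (p + 2)) ℝ := B.map (Rat.castHom ℝ) with hB'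
  have hBd : B'.det = ((B.det : ℚ) : ℝ) := by
    rw [hB', ← RingHom.mapMatrix_apply, ← RingHom.map_det]
    simp
  have h1 : (1 : ℝ) ≤ |B'.det| := by
    rw [hBd]
    exact detZ B hint hdet
  have h2 : B'.adjugate.mulVec (B'.mulVec y) = B'.det • y := by
    rw [Matrix.mulVec_mulVec, Matrix.adjugate_mul, Matrix.smul_mulVec, Matrix.one_mulVec]
  have h3 : B'.det * y i0 = ∑ i, B'.adjugate i0 i * (B'.mulVec y) i := by
    have := congrFun h2 i0
    simp only [Pi.smul_apply, smul_eq_mul] at this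
    rw [← this]
    rfl
  have hlast : (B'.mulVec y) (Fin.last (p + 1)) = 0 := by
    rw [← h0]
    rfl
  have hadj : ∀ i : Fin (p + 1), |B'.adjugate i0 i.castSucc| ≤ (p + 2).factorial * (A * Y ^ p) := by
    intro i
    rw [Matrix.adjugate_apply]
    set β : Fin (p + 2) → ℝ := Fin.snoc (fun l : Fin (p + 1) => if l = i then 1 else Y) A with hβ
    have h4 := detb (B'.updateRow i.castSucc (Pi.single i0 1)) β (by
      intro l j
      refine Fin.lastCases ?_ ?_ l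
      · rw [Matrix.updateRow_ne (Fin.castSucc_ne_last i).symm]
        simp only [hβ, Fin.snoc_last]
        exact hA j
      · intro l
        simp only [hβ, Fin.snoc_castSucc]
        by_cases hl : l = i
        · subst hl
          rw [Matrix.updateRow_self]
          simp only [if_true]
          by_cases hj : j = i0
          · subst hj; simp
          · simp [hj]
        · rw [Matrix.updateRow_ne (by simpa using hl)]
          simp only [if_neg hl]
          exact hY l j)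
    refine h4.trans (le_of_eq ?_)
    congr 1
    rw [Fin.prod_univ_castSucc]
    simp only [hβ, Fin.snoc_castSucc, Fin.snoc_last]
    rw [Finset.prod_ite]
    simp only [Finset.prod_const_one, one_mul, Finset.prod_const]
    rw [mul_comm]
    congr 2
    rw [Finset.filter_ne' Finset.univ i, Finset.card_erase_of_mem (Finset.mem_univ _)]
    simp
  have hZ0 : 0 ≤ Z := (abs_nonneg _).trans (hZ 0)
  calc |y i0| = 1 * |y i0| := (one_mul _).symm
    _ ≤ |B'.det| * |y i0| := mul_le_mul_of_nonneg_right h1 (abs_nonneg _)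
    _ = |∑ i, B'.adjugate i0 i * (B'.mulVec y) i| := by rw [← abs_mul, h3]
    _ = |∑ i : Fin (p + 1), B'.adjugate i0 i.castSucc * (B'.mulVec y) i.castSucc| := by
        rw [Fin.sum_univ_castSucc, hlast, mul_zero, add_zero]
    _ ≤ ∑ i : Fin (p + 1), |B'.adjugate i0 i.castSucc * (B'.mulVec y) i.castSucc| :=
        Finset.abs_sum_le_sum_abs _ _
    _ ≤ ∑ i : Fin (p + 1), ((p + 2).factorial * (A * Y ^ p)) * Z := by
        apply Finset.sum_le_sum
        intro i _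
        rw [abs_mul]
        exact mul_le_mul (hadj i) (hZ i) (abs_nonneg _) (by positivity)
    _ = (p + 1) * (((p + 2).factorial * (A * Y ^ p)) * Z) := by
        simp



/-! ### Power series -/

lemma val_bd (f : PowerSeries ℚ) (c h x : ℝ) (d : ℕ) (hc : 0 ≤ c) (hh : 0 ≤ h) (hx : 0 ≤ x)
    (hf : ∀ j, |((PowerSeries.coeff j f : ℚ) : ℝ)| ≤ c * h ^ j)
    (h0 : ∀ j < d, PowerSeries.coeff j f = 0) (h2 : 2 * (h * x) ≤ 1) :
    |val f x| ≤ 2 * c * (2 * (h * x)) ^ d := by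
  have h3 : HasSum (fun n : ℕ => (c * (2 * (h * x)) ^ d) * ((1 : ℝ) / 2) ^ n)
      ((c * (2 * (h * x)) ^ d) * 2) := hasSum_geometric_two.mul_left _
  have h4 := tsum_of_norm_bounded (f := fun j => ((PowerSeries.coeff j f : ℚ) : ℝ) * x ^ j) h3 (by
    intro j
    by_cases hj : j < d
    · rw [h0 j hj]
      simp only [Rat.cast_zero, zero_mul, norm_zero]
      positivity
    · push Not at hj
      rw [Real.norm_eq_abs, abs_mul, abs_of_nonneg (pow_nonneg hx j)]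
      calc |((PowerSeries.coeff j f : ℚ) : ℝ)| * x ^ j ≤ (c * h ^ j) * x ^ j :=
            mul_le_mul_of_nonneg_right (hf j) (pow_nonneg hx j)
        _ = c * (2 * (h * x)) ^ j * (1 / 2) ^ j := by
            rw [mul_pow, mul_pow]
            have : (2 : ℝ) ^ j * (1 / 2) ^ j = 1 := by
              rw [← mul_pow]; norm_num
            calc c * h ^ j * x ^ j = c * h ^ j * x ^ j * 1 := (mul_one _).symm
              _ = c * h ^ j * x ^ j * ((2 : ℝ) ^ j * (1 / 2) ^ j) := by rw [this]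
              _ = _ := by ring
        _ ≤ c * (2 * (h * x)) ^ d * (1 / 2) ^ j := by
            apply mul_le_mul_of_nonneg_right _ (by positivity)
            apply mul_le_mul_of_nonneg_left _ hc
            exact pow_le_pow_of_le_one (by positivity) h2 hj)
  rw [Real.norm_eq_abs] at h4
  unfold val
  refine h4.trans (le_of_eq (by ring))

lemma coeff_mul_bd (P : Polynomial ℚ) (f : PowerSeries ℚ) (N : ℕ) (X c h : ℝ) (hX : 0 ≤ X)
    (hc : 0 ≤ c) (hh : 1 ≤ h) (hd : P.natDegree ≤ N) (hP : ∀ l, |(P.coeff l : ℝ)| ≤ X)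
    (hf : ∀ j, |((PowerSeries.coeff j f : ℚ) : ℝ)| ≤ c * h ^ j) (j : ℕ) :
    |((PowerSeries.coeff j ((P : PowerSeries ℚ) * f) : ℚ) : ℝ)| ≤ (N + 1) * (X * (c * h ^ j)) := by
  rw [PowerSeries.coeff_mul]
  rw [Finset.Nat.sum_antidiagonal_eq_sum_range_succ_mk]
  push_cast
  refine (Finset.abs_sum_le_sum_abs _ _).trans ?_
  have h1 : ∀ a ∈ range j.succ, |((P.coeff a : ℚ) : ℝ) *
      ((PowerSeries.coeff (j - a) f : ℚ) : ℝ)| ≤ if a ≤ N then X * (c * h ^ j) else 0 := by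
    intro a ha
    rw [Finset.mem_range] at ha
    rw [abs_mul]
    split_ifs with haN
    · apply mul_le_mul (hP a) _ (abs_nonneg _) hX
      refine (hf _).trans ?_
      apply mul_le_mul_of_nonneg_left _ hc
      exact pow_le_pow_right₀ hh (Nat.sub_le _ _)
    · rw [Polynomial.coeff_eq_zero_of_natDegree_lt (by omega)]
      simp
  refine (Finset.sum_le_sum h1).trans ?_
  rw [Finset.sum_ite]
  simp only [Finset.sum_const_zero, add_zero, Finset.sum_const, nsmul_eq_mul]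
  apply mul_le_mul_of_nonneg_right _ (by positivity)
  have h2 : (Finset.filter (fun a => a ≤ N) (range j.succ)).card ≤ N + 1 := by
    calc _ ≤ (range (N + 1)).card := by
          apply Finset.card_le_card
          intro a ha
          rw [Finset.mem_filter] at ha
          rw [Finset.mem_range]
          omega
      _ = N + 1 := Finset.card_range _
  exact_mod_cast h2

lemma coeff_sum_bd (m : ℕ) (P : Fin m → Polynomial ℚ) (F : Fin m → PowerSeries ℚ) (N : ℕ)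
    (X c h : ℝ) (hX : 0 ≤ X) (hc : 0 ≤ c) (hh : 1 ≤ h) (hd : ∀ i, (P i).natDegree ≤ N)
    (hP : ∀ i l, |((P i).coeff l : ℝ)| ≤ X)
    (hf : ∀ i j, |((PowerSeries.coeff j (F i) : ℚ) : ℝ)| ≤ c * h ^ j) (j : ℕ) :
    |((PowerSeries.coeff j (∑ i, (P i : PowerSeries ℚ) * F i) : ℚ) : ℝ)|
      ≤ m * ((N + 1) * (X * (c * h ^ j))) := by
  rw [map_sum]
  push_cast
  refine (Finset.abs_sum_le_sum_abs _ _).trans ?_
  refine (Finset.sum_le_sum (fun i _ => coeff_mul_bd (P i) (F i) N X c h hX hc hh (hd i) (hP i)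
    (hf i) j)).trans ?_
  simp

lemma coeff_hd_bd (f : PowerSeries ℚ) (c h : ℝ)
    (hf : ∀ j, |((PowerSeries.coeff j f : ℚ) : ℝ)| ≤ c * h ^ j) (k j : ℕ) :
    |((PowerSeries.coeff j (hd k f) : ℚ) : ℝ)| ≤ (c * (2 * h) ^ k) * (2 * h) ^ j := by
  unfold hd
  rw [PowerSeries.coeff_mk]
  push_cast
  rw [abs_mul]
  have h1 : |((((j + k).choose k : ℕ)) : ℝ)| ≤ 2 ^ (j + k) := by
    rw [abs_of_nonneg (by positivity)]
    exact_mod_cast Nat.choose_le_two_pow (j + k) k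
  calc _ ≤ (2 : ℝ) ^ (j + k) * (c * h ^ (j + k)) :=
        mul_le_mul h1 (hf _) (abs_nonneg _) (by positivity)
    _ = _ := by
      rw [mul_pow, mul_pow, pow_add, pow_add]; ring

lemma coeff_hd_zero (f : PowerSeries ℚ) (M k : ℕ) (h0 : ∀ j < M, PowerSeries.coeff j f = 0) :
    ∀ j < M - k, PowerSeries.coeff j (hd k f) = 0 := by
  intro j hj
  unfold hd
  rw [PowerSeries.coeff_mk, h0 _ (by omega), mul_zero]

lemma val_sum (hVal : Stmt_Val) (x : ℝ) {ι : Type} (s : Finset ι) (f : ι → PowerSeries ℚ)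
    (hf : ∀ i, Conv (f i) x) :
    Conv (∑ i ∈ s, f i) x ∧ val (∑ i ∈ s, f i) x = ∑ i ∈ s, val (f i) x := by
  classical
  induction s using Finset.induction_on with
  | empty =>
    have h := (hVal x).2.1 0
    rw [Polynomial.coe_zero] at h
    simp only [Finset.sum_empty]
    exact ⟨h.1, by rw [h.2]; simp⟩
  | insert i s hi ih =>
    rw [Finset.sum_insert hi, Finset.sum_insert hi]
    have h := (hVal x).1 (f i) (∑ i ∈ s, f i) (hf i) ih.1
    exact ⟨h.2.2.1, by rw [h.2.2.2, ih.2]⟩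

/-! ### Values of polynomials -/

lemma eval_bd (p : Polynomial ℚ) (D : ℕ) (hD : p.natDegree ≤ D) (B : ℝ)
    (hp : ∀ l, |(p.coeff l : ℝ)| ≤ B) (x : ℝ) (hx : 0 ≤ x) (hx1 : x ≤ 1) :
    |Polynomial.aeval x p| ≤ (D + 1) * B := by
  rw [Polynomial.aeval_eq_sum_range' (n := D + 1) (by omega)]
  refine (Finset.abs_sum_le_sum_abs _ _).trans ?_
  have hB : 0 ≤ B := (abs_nonneg _).trans (hp 0)
  have h1 : ∀ i ∈ range (D + 1), |p.coeff i • x ^ i| ≤ B := by
    intro i _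
    rw [Rat.smul_def, abs_mul, abs_of_nonneg (pow_nonneg hx i)]
    calc _ ≤ B * 1 := mul_le_mul (hp i) (pow_le_one₀ hx hx1) (pow_nonneg hx i) hB
      _ = B := mul_one B
  refine (Finset.sum_le_sum h1).trans ?_
  simp

lemma evalT_bd (T : Polynomial ℚ) (τ : ℕ) (hD : T.natDegree ≤ τ) (H : ℝ)
    (hT : ∑ i ∈ range (τ + 1), |(T.coeff i : ℝ)| ≤ H) (x : ℝ) (hx : 0 ≤ x) (hx1 : x ≤ 1) :
    |Polynomial.aeval x T| ≤ H := by
  rw [Polynomial.aeval_eq_sum_range' (n := τ + 1) (by omega)]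
  refine (Finset.abs_sum_le_sum_abs _ _).trans ?_
  refine le_trans ?_ hT
  apply Finset.sum_le_sum
  intro i _
  rw [Rat.smul_def, abs_mul, abs_of_nonneg (pow_nonneg hx i)]
  calc _ ≤ |(T.coeff i : ℝ)| * 1 :=
        mul_le_mul_of_nonneg_left (pow_le_one₀ hx hx1) (abs_nonneg _)
    _ = _ := mul_one _

lemma isZ_sum {ι : Type} (s : Finset ι) (f : ι → ℚ) (h : ∀ i ∈ s, IsZ (f i)) :
    IsZ (∑ i ∈ s, f i) := by
  classical
  induction s using Finset.induction_on with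
  | empty => exact ⟨0, by simp⟩
  | insert i s hi ih =>
    rw [Finset.sum_insert hi]
    obtain ⟨a, ha⟩ := h i (Finset.mem_insert_self _ _)
    obtain ⟨b, hb⟩ := ih (fun j hj => h j (Finset.mem_insert_of_mem hj))
    exact ⟨a + b, by rw [ha, hb]; push_cast; ring⟩

lemma isZ_mul {a b : ℚ} (ha : IsZ a) (hb : IsZ b) : IsZ (a * b) := by
  obtain ⟨a', ha⟩ := ha
  obtain ⟨b', hb⟩ := hb
  exact ⟨a' * b', by rw [ha, hb]; push_cast; ring⟩

lemma eval_isZ (p : Polynomial ℚ) (D : ℕ) (hD : p.natDegree ≤ D) (q n : ℕ) (hn : 1 ≤ n)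
    (hq : ∀ l, IsZ (q * p.coeff l)) : IsZ ((q : ℚ) * (n : ℚ) ^ D * p.eval (1 / (n : ℚ))) := by
  rw [Polynomial.eval_eq_sum_range' (n := D + 1) (by omega), Finset.mul_sum]
  apply isZ_sum
  intro l hl
  rw [Finset.mem_range] at hl
  have hn0 : (n : ℚ) ≠ 0 := by positivity
  have h1 : (n : ℚ) ^ D * (1 / (n : ℚ)) ^ l = (n : ℚ) ^ (D - l) := by
    rw [one_div, inv_pow]
    have : (n : ℚ) ^ D = (n : ℚ) ^ (D - l) * (n : ℚ) ^ l := by
      rw [← pow_add]; congr 1; omega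
    rw [this, mul_assoc, mul_inv_cancel₀ (pow_ne_zero _ hn0), mul_one]
  have h2 : (q : ℚ) * (n : ℚ) ^ D * (p.coeff l * (1 / (n : ℚ)) ^ l)
      = (q * p.coeff l) * (n : ℚ) ^ (D - l) := by
    rw [← h1]; ring
  rw [h2]
  exact isZ_mul (hq l) ⟨(n : ℤ) ^ (D - l), by push_cast; rfl⟩

/-! ### Growth -/

/-- Bounded by a constant times a power of `t + 1` times `A ^ t`. -/
def Gr (A : ℝ) (f : ℕ → ℝ) : Prop := ∃ (C : ℝ) (E : ℕ), 0 ≤ C ∧
  ∀ t, 0 ≤ f t ∧ f t ≤ C * ((t : ℝ) + 1) ^ E * A ^ t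

lemma Gr.mul {A B : ℝ} {f g : ℕ → ℝ} (hA : 0 ≤ A) (hf : Gr A f) (hg : Gr B g) :
    Gr (A * B) (fun t => f t * g t) := by
  obtain ⟨C, E, hC, h⟩ := hf
  obtain ⟨C', E', hC', h'⟩ := hg
  refine ⟨C * C', E + E', mul_nonneg hC hC', fun t => ⟨mul_nonneg (h t).1 (h' t).1, ?_⟩⟩
  calc f t * g t ≤ (C * ((t : ℝ) + 1) ^ E * A ^ t) * (C' * ((t : ℝ) + 1) ^ E' * B ^ t) :=
        mul_le_mul (h t).2 (h' t).2 (h' t).1 (by positivity)
    _ = _ := by rw [mul_pow, pow_add]; ring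

lemma Gr.pow {A : ℝ} {f : ℕ → ℝ} (hA : 0 ≤ A) (hf : Gr A f) (k : ℕ) :
    Gr (A ^ k) (fun t => f t ^ k) := by
  induction k with
  | zero => exact ⟨1, 0, zero_le_one, fun t => by simp⟩
  | succ k ih =>
    have := ih.mul (by positivity) hf
    simpa only [pow_succ] using this

lemma Gr.const (c : ℝ) (hc : 0 ≤ c) : Gr 1 (fun _ => c) :=
  ⟨c, 0, hc, fun t => by simp [hc]⟩

lemma Gr.lin (a b : ℝ) (ha : 0 ≤ a) (hb : 0 ≤ b) : Gr 1 (fun t => a * (t : ℝ) + b) :=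
  ⟨a + b, 1, by positivity, fun t => ⟨by positivity, by
    rw [one_pow, mul_one, pow_one]
    nlinarith [mul_nonneg hb (Nat.cast_nonneg t : (0 : ℝ) ≤ t)]⟩⟩

lemma Gr.exp (x : ℝ) (hx : 0 ≤ x) (a b : ℕ) : Gr (x ^ a) (fun t => x ^ (a * t + b)) :=
  ⟨x ^ b, 0, by positivity, fun t => ⟨by positivity, le_of_eq (by
    simp only [pow_add, pow_mul, pow_zero, mul_one]; ring)⟩⟩

lemma Gr.zero {A : ℝ} {f : ℕ → ℝ} (hA : 0 ≤ A) (hA1 : A < 1) (hf : Gr A f) :
    Filter.Tendsto f Filter.atTop (nhds 0) := by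
  obtain ⟨C, E, hC, h⟩ := hf
  have h1 : Filter.Tendsto (fun t : ℕ => C * ((t : ℝ) + 1) ^ E * A ^ t) Filter.atTop (nhds 0) := by
    have h2 : Filter.Tendsto (fun t : ℕ => ((t : ℝ)) ^ E * ((A + 1) / 2) ^ t) Filter.atTop
        (nhds 0) := tendsto_pow_const_mul_const_pow_of_abs_lt_one E (by
          rw [abs_of_nonneg (by linarith)]; linarith)
    have h3 := (Filter.tendsto_add_atTop_iff_nat 1).2 h2
    have h4 := h3.const_mul (C * (2 / (A + 1)))
    rw [mul_zero] at h4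
    refine squeeze_zero (fun t => by positivity) (fun t => ?_) h4
    have h5 : A ^ t ≤ ((A + 1) / 2) ^ t := pow_le_pow_left₀ hA (by linarith) t
    calc C * ((t : ℝ) + 1) ^ E * A ^ t ≤ C * ((t : ℝ) + 1) ^ E * ((A + 1) / 2) ^ t :=
          mul_le_mul_of_nonneg_left h5 (by positivity)
      _ = _ := by
        push_cast
        rw [pow_succ]
        field_simp
  exact squeeze_zero (fun t => (h t).1) (fun t => (h t).2) h1

/-! ### The bounds -/

/-- Bound for the coefficients of `P`. -/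
noncomputable def Xf (m s : ℕ) (c₀ H : ℝ) (t : ℕ) : ℝ :=
  ((m * (s * t + 1) : ℕ) * (c₀ ^ 2 * H ^ (2 * (m * (s * t + 1))))) ^ (m * s)

/-- Bound for the rows. -/
noncomputable def Yf (m s τ e₀ c₁ : ℕ) (c₀ H n : ℝ) (t : ℕ) : ℝ :=
  ((c₀ * H ^ (t + c₁)) * n ^ (s * t + τ * (t + c₁) + e₀)) *
    (((s * t + τ * (t + c₁) + e₀ : ℕ) + 1) *
      (m * ((t + c₁ : ℕ) + 1) * ((s * t : ℕ) + 1) * 2 ^ (s * t) * Xf m s c₀ H t * c₀ *
        H ^ (t + c₁)))

/-- Bound for the small products. -/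
noncomputable def Zf (m s τ e₀ c₁ : ℕ) (c₀ H n : ℝ) (t : ℕ) : ℝ :=
  ((c₀ * H ^ (t + c₁)) * n ^ (s * t + τ * (t + c₁) + e₀)) *
    (H ^ (t + c₁) * (2 * ((m * (((s * t : ℕ) + 1) * (Xf m s c₀ H t * c₀))) * (2 * H) ^ (t + c₁)) *
      ((4 * H) ^ (m * (s * t + 1) - (t + 1)) * n ^ (t + c₁) *
        (1 / n) ^ (m * (s * t + 1) - (t + 1)))))

lemma bound (hSieg : Stmt_Sieg) (hDer : Stmt_Der) (hSpan : Stmt_Span) (hVal : Stmt_Val)
    (p τ e₀ : ℕ) (F : Fin (p + 2) → PowerSeries ℚ) (T : Polynomial ℚ) (c₀ H : ℝ)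
    (hG : GSys F T τ e₀ c₀ H) (hI : Indep F) (n : ℕ) (hn1 : 1 ≤ n) (hn : 4 * H ≤ n)
    (hT : T.eval (1 / (n : ℚ)) ≠ 0) (a : Fin (p + 2) → ℚ) (ha : a ≠ 0) (haZ : ∀ i, IsZ (a i))
    (hrel : ∑ i, (a i : ℝ) * val (F i) (1 / n) = 0) (A : ℝ) (hA : ∀ i, |(a i : ℝ)| ≤ A)
    (s : ℕ) (hs : 3 ≤ s) : ∃ c₁ : ℕ, ∀ t ≥ c₁, ∀ i0, |val (F i0) (1 / n)| ≤
      (p + 1) * (((p + 2).factorial * (A * (Yf (p + 2) s τ e₀ c₁ c₀ H n t) ^ p)) *
        Zf (p + 2) s τ e₀ c₁ c₀ H n t) := by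
  obtain ⟨c₁, hc₁⟩ := hSpan (p + 2) F T τ e₀ c₀ H hG hI s (by omega)
  refine ⟨c₁, fun t ht i0 => ?_⟩
  have hH2 := hG.two_le
  have hc0 := hG.one_le
  have hnR : (1 : ℝ) ≤ n := by exact_mod_cast hn1
  have hn0 : (0 : ℝ) < n := by linarith
  have hx0 : (0 : ℝ) ≤ 1 / n := by positivity
  have hx1 : (1 : ℝ) / n ≤ 1 := by rw [div_le_one hn0]; exact hnR
  have hNs : s * t / s = t := Nat.mul_div_cancel_left t (by omega)
  obtain ⟨P, hP0, hPd, hPZ, hPv, hPb⟩ := hSieg (p + 2) F T τ e₀ c₀ H hG (by omega) s (by omega)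
    (s * t)
  rw [hNs] at hPv
  set X := Xf (p + 2) s c₀ H t with hX
  have hPb' : ∀ i l, |((P i).coeff l : ℝ)| ≤ X := hPb
  have hX0 : 0 ≤ X := (abs_nonneg _).trans (hPb' 0 0)
  obtain ⟨R, q, hR, hRd, hq, hRZ, hRb⟩ := hDer (p + 2) F T τ e₀ c₀ H hG (s * t) P X hPd hPZ hPb'
  have hle : c₁ ≤ s * t := by nlinarith
  have hsp := hc₁ (s * t) hle P hP0 hPd (by rw [hNs]; exact hPv) R hR (1 / (n : ℚ))
    (by positivity) hT
  rw [hNs] at hsp
  obtain ⟨k, hk, hdet⟩ := sel' p a ha (fun k i => (R k i).eval (1 / (n : ℚ))) (t + c₁) hsp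
  set sc : ℕ → ℚ := fun k => (q k : ℚ) * (n : ℚ) ^ (s * t + τ * k + e₀) with hsc
  set B : Matrix (Fin (p + 2)) (Fin (p + 2)) ℚ :=
    Matrix.of (fun i j => (Fin.snoc (fun i => sc (k i)) 1 : Fin (p + 2) → ℚ) i *
      (Matrix.of (Fin.snoc (fun i j => (R (k i) j).eval (1 / (n : ℚ))) a :
        Fin (p + 2) → Fin (p + 2) → ℚ)) i j) with hB
  have hBc : ∀ (i : Fin (p + 1)) j, B i.castSucc j = sc (k i) * (R (k i) j).eval (1 / (n : ℚ)) := by
    intro i j
    simp [hB]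
  have hBl : ∀ j, B (Fin.last (p + 1)) j = a j := by
    intro j
    simp [hB]
  have hscne : ∀ k, sc k ≠ 0 := by
    intro k
    rw [hsc]
    have h1 : (1 : ℕ) ≤ q k := (hq k).1
    positivity
  have hBdet : B.det ≠ 0 := by
    rw [hB, Matrix.det_mul_column]
    apply mul_ne_zero _ hdet
    rw [Finset.prod_ne_zero_iff]
    intro i _
    refine Fin.lastCases ?_ ?_ i
    · simp
    · intro i
      simpa using hscne (k i)
  have hBZ : ∀ i j, IsZ (B i j) := by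
    intro i j
    refine Fin.lastCases ?_ ?_ i
    · rw [hBl]; exact haZ j
    · intro i
      rw [hBc]
      exact eval_isZ (R (k i) j) _ (hRd (k i) j) (q (k i)) n hn1 (fun l => hRZ _ _ l)
  have hA0 : 0 ≤ A := (abs_nonneg _).trans (hA 0)
  have hscR : ∀ i, ((sc (k i) : ℚ) : ℝ) ≤ (c₀ * H ^ (t + c₁)) * (n : ℝ) ^ (s * t + τ * (t + c₁) + e₀)
      := by
    intro i
    rw [hsc]
    push_cast
    have h1 : (q (k i) : ℝ) ≤ c₀ * H ^ (t + c₁) := (hq (k i)).2.trans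
      (mul_le_mul_of_nonneg_left (pow_le_pow_right₀ (by linarith) (hk i)) (by linarith))
    have h2 : (n : ℝ) ^ (s * t + τ * k i + e₀) ≤ (n : ℝ) ^ (s * t + τ * (t + c₁) + e₀) := by
      apply pow_le_pow_right₀ hnR
      have := Nat.mul_le_mul_left τ (hk i)
      omega
    exact mul_le_mul h1 h2 (by positivity) (by positivity)
  have hsc0 : ∀ i, (0 : ℝ) ≤ ((sc (k i) : ℚ) : ℝ) := by
    intro i
    rw [hsc]
    push_cast
    positivity
  have hXc : 0 ≤ Yf (p + 2) s τ e₀ c₁ c₀ H n t := by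
    unfold Yf
    rw [← hX]
    positivity
  have hcast : ∀ r : Polynomial ℚ, ((r.eval (1 / (n : ℚ)) : ℚ) : ℝ) = Polynomial.aeval (1 / (n : ℝ)) r := by
    intro r
    rw [Polynomial.aeval_eq_sum_range, Polynomial.eval_eq_sum_range]
    push_cast
    apply Finset.sum_congr rfl
    intro i _
    rw [Rat.smul_def]
  refine cram p B hBZ hBdet (fun i => val (F i) (1 / n)) A _ _ hA0 hXc ?_ ?_ ?_ ?_ i0
  · intro j
    rw [hBl]
    exact hA j
  · intro i j
    rw [hBc]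
    push_cast
    rw [abs_mul, abs_of_nonneg (hsc0 i)]
    unfold Yf
    rw [← hX]
    apply mul_le_mul (hscR i) _ (abs_nonneg _) (by positivity)
    rw [hcast]
    refine (eval_bd _ _ (hRd (k i) j) _ (hRb (k i) j) _ hx0 hx1).trans ?_
    have hk1 : ((k i : ℕ) : ℝ) ≤ ((t + c₁ : ℕ) : ℝ) := by exact_mod_cast hk i
    have h2 : ((s * t + τ * k i + e₀ : ℕ) : ℝ) ≤ ((s * t + τ * (t + c₁) + e₀ : ℕ) : ℝ) := by
      have := Nat.mul_le_mul_left τ (hk i)
      exact_mod_cast (by omega : s * t + τ * k i + e₀ ≤ s * t + τ * (t + c₁) + e₀)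
    have h3 : H ^ (k i) ≤ H ^ (t + c₁) := pow_le_pow_right₀ (by linarith) (hk i)
    have h4 : ((p + 2 : ℕ) : ℝ) * ((k i : ℝ) + 1) * ((s * t : ℕ) + 1) * 2 ^ (s * t) * X * c₀
        ≤ ((p + 2 : ℕ) : ℝ) * (((t + c₁ : ℕ) : ℝ) + 1) * ((s * t : ℕ) + 1) * 2 ^ (s * t) * X * c₀ := by
      gcongr
    have h5 : 0 ≤ ((p + 2 : ℕ) : ℝ) * ((k i : ℝ) + 1) * ((s * t : ℕ) + 1) * 2 ^ (s * t) * X * c₀ := by
      positivity
    apply mul_le_mul _ _ _ _
    · linarith
    · exact mul_le_mul h4 h3 (by positivity) (h5.trans h4)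
    · positivity
    · positivity
  · rw [← hrel]
    apply Finset.sum_congr rfl
    intro j _
    rw [hBl]
  · intro i
    set L := ∑ i, (P i : PowerSeries ℚ) * F i with hL
    have hLb : ∀ j, |((PowerSeries.coeff j L : ℚ) : ℝ)|
        ≤ (((p + 2 : ℕ) : ℝ) * (((s * t : ℕ) + 1) * (X * c₀))) * H ^ j := by
      intro j
      refine (coeff_sum_bd (p + 2) P F (s * t) X c₀ H hX0 (by linarith) (by linarith) hPd hPb'
        hG.size j).trans (le_of_eq (by ring))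
    set cL := ((p + 2 : ℕ) : ℝ) * (((s * t : ℕ) + 1) * (X * c₀)) with hcL
    have hcL0 : 0 ≤ cL := by positivity
    have hhd := coeff_hd_bd L cL H hLb (k i)
    have hHn : H * |(1 : ℝ) / n| < 1 := by
      rw [abs_of_nonneg hx0, mul_one_div, div_lt_one hn0]
      linarith
    have hHn2 : (2 * H) * |(1 : ℝ) / n| < 1 := by
      rw [abs_of_nonneg hx0, mul_one_div, div_lt_one hn0]
      linarith
    have hFc : ∀ j, Conv (F j) (1 / n) := fun j =>
      (hVal (1 / n)).2.2 (F j) c₀ H (by linarith) (hG.size j) hHn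
    have hHc : Conv (hd (k i) L) (1 / n) :=
      (hVal (1 / n)).2.2 _ _ (2 * H) (by linarith) hhd hHn2
    have hpol := (hVal (1 / (n : ℝ))).2.1
    have hsum : ∑ j, ((B i.castSucc j : ℚ) : ℝ) * val (F j) (1 / n)
        = ((sc (k i) : ℚ) : ℝ) * ((Polynomial.aeval (1 / (n : ℝ)) T) ^ (k i) *
          val (hd (k i) L) (1 / n)) := by
      have h1 : val (∑ j, (R (k i) j : PowerSeries ℚ) * F j) (1 / n)
          = ∑ j, Polynomial.aeval (1 / (n : ℝ)) (R (k i) j) * val (F j) (1 / n) := by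
        rw [(val_sum hVal (1 / (n : ℝ)) Finset.univ (fun j => (R (k i) j : PowerSeries ℚ) * F j)
          (fun j => ((hVal (1 / n)).1 _ _ (hpol (R (k i) j)).1 (hFc j)).1)).2]
        apply Finset.sum_congr rfl
        intro j _
        rw [((hVal (1 / n)).1 _ _ (hpol (R (k i) j)).1 (hFc j)).2.1, (hpol _).2]
      have h2 : val ((T : PowerSeries ℚ) ^ (k i) * hd (k i) L) (1 / n)
          = (Polynomial.aeval (1 / (n : ℝ)) T) ^ (k i) * val (hd (k i) L) (1 / n) := by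
        rw [← Polynomial.coe_pow, ((hVal (1 / n)).1 _ _ (hpol (T ^ (k i))).1 hHc).2.1, (hpol _).2,
          map_pow]
      rw [← h2, hR, h1, Finset.mul_sum]
      apply Finset.sum_congr rfl
      intro j _
      rw [hBc]
      push_cast
      rw [hcast]
      ring
    rw [hsum, abs_mul, abs_of_nonneg (hsc0 i)]
    unfold Zf
    rw [← hX]
    apply mul_le_mul (hscR i) _ (abs_nonneg _) (by positivity)
    rw [abs_mul, abs_pow]
    have hT1 : |Polynomial.aeval (1 / (n : ℝ)) T| ^ (k i) ≤ H ^ (t + c₁) :=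
      (pow_le_pow_left₀ (abs_nonneg _) (evalT_bd T τ hG.T_deg H hG.T_size _ hx0 hx1) _).trans
        (pow_le_pow_right₀ (by linarith) (hk i))
    apply mul_le_mul hT1 _ (abs_nonneg _) (by positivity)
    have hv := val_bd (hd (k i) L) (cL * (2 * H) ^ (k i)) (2 * H) (1 / n)
      ((p + 2) * (s * t + 1) - (t + 1) - k i) (by positivity) (by positivity) hx0 hhd
      (coeff_hd_zero L _ (k i) hPv) (by
        rw [mul_one_div, ← mul_div_assoc, div_le_one hn0]
        linarith)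
    have hMk : k i ≤ (p + 2) * (s * t + 1) - (t + 1) := by
      have h1 := hk i
      have h2 : 3 * t ≤ s * t := Nat.mul_le_mul_right t hs
      have h3 : 2 * (s * t + 1) ≤ (p + 2) * (s * t + 1) := Nat.mul_le_mul_right _ (by omega)
      omega
    obtain ⟨d, hd1⟩ := Nat.exists_eq_add_of_le hMk
    set M := (p + 2) * (s * t + 1) - (t + 1) with hM
    have hMd : M - k i = d := by omega
    rw [hMd] at hv
    refine hv.trans ?_
    rw [mul_assoc 2 (cL * (2 * H) ^ (k i)), mul_assoc 2 (cL * (2 * H) ^ (t + c₁))]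
    apply mul_le_mul_of_nonneg_left _ (by norm_num)
    have h6 : (2 * H) ^ (k i) ≤ (2 * H) ^ (t + c₁) := pow_le_pow_right₀ (by linarith) (hk i)
    apply mul_le_mul (mul_le_mul_of_nonneg_left h6 hcL0) _ (by positivity) (by positivity)
    have h7 : (2 * (2 * H * (1 / (n : ℝ)))) ^ d = (4 * H) ^ d * ((n : ℝ) ^ (k i) * (1 / (n : ℝ)) ^ M) := by
      rw [hd1, pow_add, ← mul_assoc ((n : ℝ) ^ (k i)), ← mul_pow ((n : ℝ)) (1 / (n : ℝ)),
        mul_one_div_cancel hn0.ne', one_pow, one_mul, ← mul_pow]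
      congr 1
      ring
    rw [h7, mul_assoc ((4 * H) ^ M)]
    have h8 : (4 * H) ^ d ≤ (4 * H) ^ M := pow_le_pow_right₀ (by linarith) (by omega)
    have h9 : (n : ℝ) ^ (k i) ≤ (n : ℝ) ^ (t + c₁) := pow_le_pow_right₀ hnR (hk i)
    apply mul_le_mul h8 _ (by positivity) (by positivity)
    exact mul_le_mul_of_nonneg_right h9 (by positivity)

/-! ### Growth of the bounds -/

lemma Gr.congr {A B : ℝ} {f g : ℕ → ℝ} (h : Gr A f) (hAB : A = B) (hfg : ∀ t, f t = g t) :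
    Gr B g := by
  have : f = g := funext hfg
  rw [← hAB, ← this]
  exact h

lemma grX (m s : ℕ) (c₀ H : ℝ) (hH : 0 ≤ H) :
    Gr ((H ^ (2 * (m * s))) ^ (m * s)) (Xf m s c₀ H) := by
  have h1 := ((Gr.lin ((m * s : ℕ) : ℝ) (m : ℝ) (by positivity) (by positivity)).mul zero_le_one
    ((Gr.const (c₀ ^ 2) (by positivity)).mul zero_le_one (Gr.exp H hH (2 * (m * s)) (2 * m)))).pow
    (by positivity) (m * s)
  refine h1.congr (by ring) (fun t => ?_)
  unfold Xf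
  congr 1
  push_cast
  have : 2 * (m * s) * t + 2 * m = 2 * (m * (s * t + 1)) := by ring
  rw [this]
  ring

lemma grY (m s τ e₀ c₁ : ℕ) (c₀ H n : ℝ) (hc : 0 ≤ c₀) (hH : 0 ≤ H) (hn : 0 ≤ n) :
    Gr ((H * n ^ (s + τ)) * (2 ^ s * ((H ^ (2 * (m * s))) ^ (m * s)) * H))
      (Yf m s τ e₀ c₁ c₀ H n) := by
  have h1 := (((Gr.const c₀ hc).mul zero_le_one (Gr.exp H hH 1 c₁)).mul (by positivity)
    (Gr.exp n hn (s + τ) (τ * c₁ + e₀))).mul (by positivity)
    (((((((Gr.lin ((s + τ : ℕ) : ℝ) ((τ * c₁ + e₀ + 1 : ℕ) : ℝ) (by positivity) (by positivity)).mul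
    zero_le_one (Gr.const (m : ℝ) (by positivity))).mul (by positivity)
    (Gr.lin 1 ((c₁ + 1 : ℕ) : ℝ) (by positivity) (by positivity))).mul (by positivity)
    (Gr.lin (s : ℝ) 1 (by positivity) (by positivity))).mul (by positivity)
    (Gr.exp 2 (by norm_num) s 0)).mul (by positivity) (grX m s c₀ H hH)).mul (by positivity)
    ((Gr.const c₀ hc).mul zero_le_one (Gr.exp H hH 1 c₁)))
  refine h1.congr (by ring) (fun t => ?_)
  unfold Yf
  have h2 : (s + τ) * t + (τ * c₁ + e₀) = s * t + τ * (t + c₁) + e₀ := by ring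
  have h3 : 1 * t + c₁ = t + c₁ := by ring
  rw [h2, h3]
  push_cast
  ring

lemma grZ (m s τ e₀ c₁ : ℕ) (c₀ H n : ℝ) (hc : 0 ≤ c₀) (hH : 0 ≤ H) (hn : 0 ≤ n)
    (hm : 1 ≤ m) (hs : 1 ≤ s) :
    Gr ((H * n ^ (s + τ)) * (H * (((H ^ (2 * (m * s))) ^ (m * s)) * (2 * H) *
      ((4 * H) ^ (m * s - 1) * n * (1 / n) ^ (m * s - 1)))))
      (Zf m s τ e₀ c₁ c₀ H n) := by
  have h1 := (((Gr.const c₀ hc).mul zero_le_one (Gr.exp H hH 1 c₁)).mul (by positivity)
    (Gr.exp n hn (s + τ) (τ * c₁ + e₀))).mul (by positivity)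
    ((Gr.exp H hH 1 c₁).mul (by positivity)
    (((Gr.const (2 * (m : ℝ) * c₀) (by positivity)).mul zero_le_one
    (((Gr.lin (s : ℝ) 1 (by positivity) (by positivity)).mul zero_le_one (grX m s c₀ H hH)).mul
    (by positivity) (Gr.exp (2 * H) (by positivity) 1 c₁))).mul (by positivity)
    (((Gr.exp (4 * H) (by positivity) (m * s - 1) (m - 1)).mul (by positivity)
    (Gr.exp n hn 1 c₁)).mul (by positivity)
    (Gr.exp (1 / n) (by positivity) (m * s - 1) (m - 1)))))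
  refine h1.congr (by ring) (fun t => ?_)
  unfold Zf
  have h2 : (s + τ) * t + (τ * c₁ + e₀) = s * t + τ * (t + c₁) + e₀ := by ring
  have h3 : 1 * t + c₁ = t + c₁ := by ring
  have h4 : (m * s - 1) * t + (m - 1) = m * (s * t + 1) - (t + 1) := by
    have h5 : 1 ≤ m * s := Nat.mul_le_mul hm hs
    obtain ⟨u, hu⟩ := Nat.exists_eq_add_of_le h5
    obtain ⟨v, hv⟩ := Nat.exists_eq_add_of_le hm
    have h6 : m * (s * t + 1) = (m * s) * t + m := by ring
    rw [h6, hu]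
    have h7 : (1 + u) * t = t + u * t := by ring
    rw [h7]
    have h8 : 1 + u - 1 = u := by omega
    rw [h8]
    omega
  rw [h2, h3, h4]
  push_cast
  ring

lemma base_le (p τ s N : ℕ) (hs : s = (p + 1) * τ + 3) (H n : ℝ) (hH : 2 ≤ H)
    (hN : N = (s + 2 * ((p + 2) * s) * ((p + 2) * s) + 2) * p +
      (2 + 2 * ((p + 2) * s) * ((p + 2) * s) + 2 + 3 * ((p + 2) * s - 1)))
    (hn : H ^ (N + 1) ≤ n) :
    ((H * n ^ (s + τ)) * (2 ^ s * ((H ^ (2 * ((p + 2) * s))) ^ ((p + 2) * s)) * H)) ^ p *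
    ((H * n ^ (s + τ)) * (H * (((H ^ (2 * ((p + 2) * s))) ^ ((p + 2) * s)) * (2 * H) *
      ((4 * H) ^ ((p + 2) * s - 1) * n * (1 / n) ^ ((p + 2) * s - 1))))) ≤ 1 / 2 := by
  have hH0 : 0 < H := by linarith
  have hn0 : 0 < n := lt_of_lt_of_le (by positivity) hn
  have hexp : (p + 2) * s - 1 = ((s + τ) * p + (s + τ) + 1) + 1 := by
    have : (p + 2) * s = ((s + τ) * p + (s + τ) + 1) + 1 + 1 := by
      rw [hs]; ring
    omega
  set u := (p + 2) * s with hu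
  have h1 : ((H * n ^ (s + τ)) * (2 ^ s * ((H ^ (2 * u)) ^ u) * H)) ^ p *
    ((H * n ^ (s + τ)) * (H * (((H ^ (2 * u)) ^ u) * (2 * H) *
      ((4 * H) ^ (u - 1) * n * (1 / n) ^ (u - 1)))))
    = ((2 ^ s * (H * H * H ^ (2 * u * u))) ^ p * (H * H * H ^ (2 * u * u) * (2 * H) *
      (4 * H) ^ (u - 1))) * (n ^ ((s + τ) * p + (s + τ) + 1) * (1 / n) ^ (u - 1)) := by
    have hw : n ^ ((s + τ) * p + (s + τ) + 1) = (n ^ (s + τ)) ^ p * n ^ (s + τ) * n := by
      rw [pow_succ n, pow_add n, pow_mul n]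
    rw [hw, pow_mul H (2 * u) u]
    generalize n ^ (s + τ) = w
    generalize (H ^ (2 * u)) ^ u = v
    generalize (4 * H) ^ (u - 1) = v1
    generalize (1 / n) ^ (u - 1) = v2
    generalize (2 : ℝ) ^ s = v3
    ring
  rw [h1]
  have h2 : n ^ ((s + τ) * p + (s + τ) + 1) * (1 / n) ^ (u - 1) = 1 / n := by
    rw [hexp, pow_succ (1 / n), ← mul_assoc, ← mul_pow, mul_one_div_cancel hn0.ne', one_pow,
      one_mul]
  rw [h2]
  have h3 : (2 : ℝ) ^ s * (H * H * H ^ (2 * u * u)) ≤ H ^ (s + 2 * u * u + 2) := by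
    have : H ^ (s + 2 * u * u + 2) = H ^ s * (H * H * H ^ (2 * u * u)) := by ring
    rw [this]
    apply mul_le_mul_of_nonneg_right _ (by positivity)
    exact pow_le_pow_left₀ (by norm_num) hH s
  have h4 : (4 * H) ≤ H ^ 3 := by nlinarith [mul_self_nonneg (H - 2)]
  have h5 : (2 * H) ≤ H ^ 2 := by nlinarith
  have h6 : (2 ^ s * (H * H * H ^ (2 * u * u))) ^ p * (H * H * H ^ (2 * u * u) * (2 * H) *
      (4 * H) ^ (u - 1)) ≤ H ^ N := by
    have h7 : H ^ N = (H ^ (s + 2 * u * u + 2)) ^ p * (H * H * H ^ (2 * u * u) * H ^ 2 *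
      (H ^ 3) ^ (u - 1)) := by
      rw [hN, pow_add, pow_mul, pow_add, pow_add, pow_add, pow_mul]
      ring
    rw [h7]
    gcongr
  calc _ ≤ H ^ N * (1 / n) := mul_le_mul_of_nonneg_right h6 (by positivity)
    _ ≤ H ^ N * (1 / H ^ (N + 1)) := by
        apply mul_le_mul_of_nonneg_left _ (by positivity)
        exact one_div_le_one_div_of_le (by positivity) hn
    _ = 1 / H := by
        rw [pow_succ]; field_simp
    _ ≤ 1 / 2 := one_div_le_one_div_of_le (by norm_num) hH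

lemma main (hSieg : Stmt_Sieg) (hDer : Stmt_Der) (hSpan : Stmt_Span) (hVal : Stmt_Val)
    (p τ : ℕ) : ∃ κ : ℕ, ∀ (F : Fin (p + 2) → PowerSeries ℚ) (T : Polynomial ℚ) (e₀ : ℕ)
    (c₀ H : ℝ), GSys F T τ e₀ c₀ H → Indep F → ∀ n : ℕ, H ^ κ ≤ n →
    T.eval (1 / (n : ℚ)) ≠ 0 → (∃ i, val (F i) (1 / n) ≠ 0) →
    ∀ a : Fin (p + 2) → ℚ, ∑ i, (a i : ℝ) * val (F i) (1 / n) = 0 → ∀ i, a i = 0 := by
  set s := (p + 1) * τ + 3 with hs
  set N := (s + 2 * ((p + 2) * s) * ((p + 2) * s) + 2) * p +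
      (2 + 2 * ((p + 2) * s) * ((p + 2) * s) + 2 + 3 * ((p + 2) * s - 1)) with hN
  refine ⟨N + 1, fun F T e₀ c₀ H hG hI n hn hT hex a hrel => ?_⟩
  by_contra hcon
  have hane : a ≠ 0 := fun h => hcon (fun i => by rw [h]; rfl)
  have hH2 := hG.two_le
  have hc0 := hG.one_le
  obtain ⟨i0, hi0⟩ := hex
  have h3 : H ^ 3 ≤ n := (pow_le_pow_right₀ (by linarith) (by omega)).trans hn
  have h4 : 4 * H ≤ n := by nlinarith [mul_self_nonneg (H - 2)]
  have hn1 : 1 ≤ n := by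
    have : (1 : ℝ) ≤ n := by linarith
    exact_mod_cast this
  -- clear denominators
  set D : ℕ := ∏ i, (a i).den with hD
  have hD0 : D ≠ 0 := by
    rw [hD, Finset.prod_ne_zero_iff]
    intro i _
    exact (a i).den_nz
  have haZ : ∀ i, IsZ ((D : ℚ) * a i) := by
    intro i
    obtain ⟨c, hc⟩ := Finset.dvd_prod_of_mem (fun i => (a i).den) (Finset.mem_univ i)
    refine ⟨c * (a i).num, ?_⟩
    have h5 : D = (a i).den * c := hc
    rw [h5]
    push_cast
    calc ((a i).den : ℚ) * c * a i = c * (a i * (a i).den) := by ring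
      _ = c * (a i).num := by rw [Rat.mul_den_eq_num]
  have ha' : (fun i => (D : ℚ) * a i) ≠ 0 := by
    intro h
    apply hane
    funext i
    have h6 := congrFun h i
    simp only [Pi.zero_apply, mul_eq_zero, Nat.cast_eq_zero] at h6
    exact h6.resolve_left hD0
  have hrel' : ∑ i, (((D : ℚ) * a i : ℚ) : ℝ) * val (F i) (1 / n) = 0 := by
    push_cast
    have : ∀ i, (D : ℝ) * (a i : ℝ) * val (F i) (1 / n) = (D : ℝ) * ((a i : ℝ) * val (F i) (1 / n)) :=
      fun i => by ring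
    rw [Finset.sum_congr rfl (fun i _ => this i), ← Finset.mul_sum, hrel, mul_zero]
  set A : ℝ := ∑ i, |(((D : ℚ) * a i : ℚ) : ℝ)| with hA
  have hAi : ∀ i, |(((D : ℚ) * a i : ℚ) : ℝ)| ≤ A := fun i =>
    Finset.single_le_sum (f := fun i => |(((D : ℚ) * a i : ℚ) : ℝ)|)
      (fun i _ => abs_nonneg _) (Finset.mem_univ i)
  have hA0 : 0 ≤ A := Finset.sum_nonneg (fun i _ => abs_nonneg _)
  obtain ⟨c₁, hc₁⟩ := bound hSieg hDer hSpan hVal p τ e₀ F T c₀ H hG hI n hn1 h4 hT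
    (fun i => (D : ℚ) * a i) ha' haZ hrel' A hAi s (by omega)
  have hgr := (Gr.const ((p : ℝ) + 1) (by positivity)).mul zero_le_one
    (((Gr.const (((p + 2).factorial : ℕ) : ℝ) (by positivity)).mul zero_le_one
    ((Gr.const A hA0).mul zero_le_one ((grY (p + 2) s τ e₀ c₁ c₀ H n (by linarith) (by linarith)
      (by positivity)).pow (by positivity) p))).mul (by positivity)
    (grZ (p + 2) s τ e₀ c₁ c₀ H n (by linarith) (by linarith) (by positivity) (by omega)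
      (by omega)))
  have hb := base_le p τ s N hs H n hH2 hN hn
  have hz := hgr.zero (by positivity) (by
    rw [one_mul, one_mul, one_mul]
    exact lt_of_le_of_lt hb (by norm_num))
  have hfin : |val (F i0) (1 / n)| ≤ 0 :=
    ge_of_tendsto hz (Filter.eventually_atTop.2 ⟨c₁, fun t ht => hc₁ t ht i0⟩)
  exact hi0 (abs_eq_zero.1 (le_antisymm hfin (abs_nonneg _)))

end Pool.Agent.DGP.A0

namespace Pool.Agent.DGP

theorem A0_proof (hSieg : Stmt_Sieg) (hDer : Stmt_Der) (hSpan : Stmt_Span) (hVal : Stmt_Val) :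
    Stmt_A0 := by
  intro m τ
  rcases m with _ | _ | p
  · exact ⟨0, fun F T e₀ c₀ H _ _ n _ _ _ a _ i => i.elim0⟩
  · refine ⟨0, fun F T e₀ c₀ H _ _ n _ _ hex a hrel i => ?_⟩
    obtain ⟨i0, hi0⟩ := hex
    have e0 : i0 = 0 := Fin.fin_one_eq_zero i0
    have e1 : i = 0 := Fin.fin_one_eq_zero i
    subst e0
    subst e1
    have hrel' : ∑ i : Fin 1, (a i : ℝ) * val (F i) (1 / n) = 0 := hrel
    rw [Fin.sum_univ_one] at hrel'
    have := (mul_eq_zero.1 hrel').resolve_right hi0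
    exact_mod_cast this
  · exact A0.main hSieg hDer hSpan hVal p τ

end Pool.Agent.DGP
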