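import Mathlib

set_option autoImplicit false

/-!
The degree `≤ D` part of the Grothendieck period conjecture for products of elliptic curves
`E_t : y² = (x² - 1)(x - t)`: definitions.
-/

open Finset

namespace Pool.Agent.DGP

/-! ### The periods -/

/-- Half the real period of `y² = (x² - 1)(x - t)`, `-1 < t < 1`. -/
noncomputable def pA (t : ℝ) : ℝ := ∫ x in (-1 : ℝ)..t, 1 / √((x ^ 2 - 1) * (x - t))

/-- Half the imaginary period (divided by `i`). -/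
noncomputable def pB (t : ℝ) : ℝ := ∫ x in t..(1 : ℝ), 1 / √((1 - x ^ 2) * (x - t))

/-- The quasi-period (second kind) belonging to `pA`. -/
noncomputable def qA (t : ℝ) : ℝ := ∫ x in (-1 : ℝ)..t, x / √((x ^ 2 - 1) * (x - t))

/-- The quasi-period (second kind) belonging to `pB`. -/
noncomputable def qB (t : ℝ) : ℝ := ∫ x in t..(1 : ℝ), x / √((1 - x ^ 2) * (x - t))

/-- The period matrix of `E_t`. -/
noncomputable def per (t : ℝ) : Fin 4 → ℝ := ![pA t, pB t, qA t, qB t]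

/-- The point `(lam, N_1, ..., N_g)`. -/
def tpt {g : ℕ} {F : Type} (lam : F) (N : Fin g → Fin 4 → F) : Option (Fin g × Fin 4) → F
  | none => lam
  | some p => N p.1 p.2

/-- The point `(lam, N_1, ..., N_g)` lies on the torsor `det N_i = lam` for all `i`. -/
def OnT {g : ℕ} (lam : ℂ) (N : Fin g → Fin 4 → ℂ) : Prop :=
  lam ≠ 0 ∧ ∀ i, N i 0 * N i 3 - N i 1 * N i 2 = lam

/-- The polynomial `P` vanishes at the period point of `E_{t_1} × ... × E_{t_g}`, but not on the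
whole torsor. -/
def IsRel {g : ℕ} (D : ℕ) (t : Fin g → ℝ) (P : MvPolynomial (Option (Fin g × Fin 4)) ℚ) : Prop :=
  P.totalDegree ≤ D ∧
  MvPolynomial.aeval (tpt (2 * Real.pi) (fun i => per (t i))) P = (0 : ℝ) ∧
  ∃ (lam : ℂ) (N : Fin g → Fin 4 → ℂ), OnT lam N ∧ MvPolynomial.aeval (tpt lam N) P ≠ 0

/-- The main theorem. -/
def MainStatement : Prop := ∀ t₀ : ℚ, -1 < t₀ → t₀ < 1 → ∀ g D : ℕ, ∃ δ : ℝ, 0 < δ ∧
  ∃ n₀ : ℕ, ∀ n : ℕ, n₀ ≤ n → ∃ S : Finset ℚ, S.card ≤ 4 * g ∧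
    ∀ r : Fin g → ℚ, Function.Injective r →
      (∀ i, 0 < r i ∧ r i ∉ S ∧ ((r i).num : ℝ) ≤ (n : ℝ) ^ δ ∧ ((r i).den : ℝ) ≤ (n : ℝ) ^ δ) →
      ∀ P, ¬ IsRel D (fun i => (t₀ : ℝ) + (r i : ℝ) / n) P

/-! ### The function `phi` and the matrix of its values -/

/-- `pA t = phi t`, `pB t = phi (-t)`. -/
noncomputable def phi (t : ℝ) : ℝ := ∫ s in (0 : ℝ)..1, 1 / √(s * (1 - s) * (1 + s - t * (1 - s)))

/-- Values and derivatives of `A = phi t` and `B = phi (-t)`: `(A, B, A', B')`. -/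
noncomputable def Mt (t : ℝ) : Fin 4 → ℝ := ![phi t, phi (-t), deriv phi t, - deriv phi (-t)]

/-! ### Power series -/

/-- The value of a power series with rational coefficients at a real number. -/
noncomputable def val (f : PowerSeries ℚ) (x : ℝ) : ℝ :=
  ∑' j, ((PowerSeries.coeff j f : ℚ) : ℝ) * x ^ j

/-- Normalised derivatives `D^k f / k!`. -/
noncomputable def hd (k : ℕ) (f : PowerSeries ℚ) : PowerSeries ℚ :=
  PowerSeries.mk (fun i => ((i + k).choose k : ℚ) * PowerSeries.coeff (i + k) f)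

/-- A rational number is an integer. -/
def IsZ (x : ℚ) : Prop := ∃ a : ℤ, x = a

/-- No relation with polynomial coefficients. -/
def Indep {m : ℕ} (F : Fin m → PowerSeries ℚ) : Prop :=
  ∀ P : Fin m → Polynomial ℚ, ∑ i, (P i : PowerSeries ℚ) * F i = 0 → ∀ i, P i = 0

/-- A system of `G`-functions, with explicit bounds. -/
structure GSys {ι : Type} [Fintype ι] (G : ι → PowerSeries ℚ) (T : Polynomial ℚ)
    (τ e₀ : ℕ) (c₀ H : ℝ) : Prop where
  one_le : 1 ≤ c₀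
  two_le : 2 ≤ H
  T_int : ∀ i, IsZ (T.coeff i)
  T_zero : T.coeff 0 ≠ 0
  T_deg : T.natDegree ≤ τ
  T_size : ∑ i ∈ range (τ + 1), |(T.coeff i : ℝ)| ≤ H
  sys : ∃ (B : ℕ → ι → ι → Polynomial ℚ) (q : ℕ → ℕ),
    (∀ k i, (T : PowerSeries ℚ) ^ k * hd k (G i) = ∑ j, (B k i j : PowerSeries ℚ) * G j) ∧
    (∀ k i j, (B k i j).natDegree ≤ τ * k + e₀) ∧
    (∀ k i j l, |((B k i j).coeff l : ℝ)| ≤ c₀ * H ^ k) ∧
    (∀ k, 1 ≤ q k ∧ q k ∣ q (k + 1) ∧ (q k : ℝ) ≤ c₀ * H ^ k) ∧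
    (∀ k i j l, IsZ (q k * (B k i j).coeff l))
  size : ∀ i j, |((PowerSeries.coeff j (G i) : ℚ) : ℝ)| ≤ c₀ * H ^ j
  den : ∃ d : ℕ → ℕ, (∀ j, 1 ≤ d j ∧ d j ∣ d (j + 1) ∧ (d j : ℝ) ≤ c₀ * H ^ j) ∧
    ∀ i j, IsZ (d j * PowerSeries.coeff j (G i))

/-! ### The base system -/

/-- The Taylor coefficients at `t₀` of the solution of `(1-t²)y'' - 2ty' - y/4 = 0` with
`y(t₀) = a`, `y'(t₀) = b`. -/
def yc (t₀ a b : ℚ) : ℕ → ℚ
  | 0 => a
  | 1 => b
  | (j + 2) => (2 * t₀ * (j + 1) ^ 2 * yc t₀ a b (j + 1) + ((2 * j + 1) ^ 2 / 4) * yc t₀ a b j) /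
      ((1 - t₀ ^ 2) * (j + 1) * (j + 2))

/-- `U`, `V`, `U'`, `V'`. -/
noncomputable def UV (t₀ : ℚ) : Fin 4 → PowerSeries ℚ :=
  ![PowerSeries.mk (yc t₀ 1 0), PowerSeries.mk (yc t₀ 0 1),
    hd 1 (PowerSeries.mk (yc t₀ 1 0)), hd 1 (PowerSeries.mk (yc t₀ 0 1))]

/-- The base system rescaled: `U(cz), V(cz), U'(cz), V'(cz)`. -/
noncomputable def base (t₀ : ℚ) (c : ℕ) (i : Fin 4) : PowerSeries ℚ :=
  PowerSeries.rescale (c : ℚ) (UV t₀ i)

open Polynomial in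
/-- The denominator of the rescaled base system, `den² (1 - (t₀ + cz)²)`. -/
noncomputable def Tb (t₀ : ℚ) (c : ℕ) : Polynomial ℚ :=
  C ((t₀.den : ℚ) ^ 2) - (C (t₀.num : ℚ) + C ((t₀.den : ℚ) * c) * X) ^ 2

/-- The full system: `1` and the rescaled base systems for `c_1, ..., c_K`. -/
noncomputable def full (t₀ : ℚ) {K : ℕ} (c : Fin K → ℕ) : Option (Fin K × Fin 4) → PowerSeries ℚ
  | none => 1
  | some p => base t₀ (c p.1) p.2

/-- Products of `E` elements. -/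
noncomputable def tens {ι : Type} (G : ι → PowerSeries ℚ) (E : ℕ) (w : Fin E → ι) :
    PowerSeries ℚ := ∏ e, G (w e)

/-- The polynomial operator `δ`: `T (P · F)' = (δ P) · F` if `T F' = A F`. -/
noncomputable def dlt {m : ℕ} (T : Polynomial ℚ) (A : Fin m → Fin m → Polynomial ℚ)
    (P : Fin m → Polynomial ℚ) : Fin m → Polynomial ℚ :=
  fun i => T * Polynomial.derivative (P i) + ∑ j, P j * A j i

end Pool.Agent.DGP
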