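import Pool.Agent.DGP.Defs

set_option autoImplicit false

/-!
The period matrix as a complex matrix, and the statement of the main theorem for relations with
coefficients in number fields.
-/

namespace Pool.Agent.DGP

/-- The period matrix of `E_t : y² = (x² - 1)(x - t)`, `-1 < t < 1`, for the basis `dx/2y`,
`x dx/2y` of `H¹_dR` and the basis of `H_1` given by the loops around `[-1, t]` and `[t, 1]`. -/
noncomputable def perC (t : ℝ) : Fin 4 → ℂ :=
  ![(pA t : ℂ), Complex.I * pB t, (qA t : ℂ), Complex.I * qB t]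

/-- The main theorem, for all relations of degree `≤ D` with coefficients in number fields of
degree `≤ D`. -/
def NFStatement : Prop := ∀ t₀ : ℚ, -1 < t₀ → t₀ < 1 → ∀ g D : ℕ, ∃ δ : ℝ, 0 < δ ∧
  ∃ n₀ : ℕ, ∀ n : ℕ, n₀ ≤ n → ∃ S : Finset ℚ, S.card ≤ 4 * g ∧
    ∀ r : Fin g → ℚ, Function.Injective r →
      (∀ i, 0 < r i ∧ r i ∉ S ∧ ((r i).num : ℝ) ≤ (n : ℝ) ^ δ ∧ ((r i).den : ℝ) ≤ (n : ℝ) ^ δ) →
      ∀ L : IntermediateField ℚ ℂ, FiniteDimensional ℚ L → Module.finrank ℚ L ≤ D →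
      ∀ P : MvPolynomial (Option (Fin g × Fin 4)) L, P.totalDegree ≤ D →
        (MvPolynomial.aeval (tpt (2 * (Real.pi : ℂ) * Complex.I)
            (fun i => perC ((t₀ : ℝ) + (r i : ℝ) / n))) P = (0 : ℂ) ↔
          ∀ (lam : ℂ) (N : Fin g → Fin 4 → ℂ), OnT lam N →
            MvPolynomial.aeval (tpt lam N) P = (0 : ℂ))

end Pool.Agent.DGP
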