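import Pool.Agent.DGP.NF
import Pool.Agent.DGP.NFDefs

set_option autoImplicit false

/-!
Module `NF2`: the torsor is the image of a polynomial map; the main theorem for relations with
coefficients in number fields.
-/

open Finset

namespace Pool.Agent.DGP

namespace NF

/-! ### The parametrisation of the torsor -/

open MvPolynomial in
/-- The parametrisation of the matrices of determinant `l`. -/
noncomputable def ent {R : Type} [CommRing R] (l a b c d : R) : Fin 4 → R :=
  ![l * ((1 + a * b) * (1 + c * d) + a * d), l * ((1 + a * b) * c + a), b * (1 + c * d) + d,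
    b * c + 1]

theorem ent_det {R : Type} [CommRing R] (l a b c d : R) :
    ent l a b c d 0 * ent l a b c d 3 - ent l a b c d 1 * ent l a b c d 2 = l := by
  show (l * ((1 + a * b) * (1 + c * d) + a * d)) * (b * c + 1)
    - (l * ((1 + a * b) * c + a)) * (b * (1 + c * d) + d) = l
  ring

theorem ent_map {R R' : Type} [CommRing R] [CommRing R'] (f : R →+* R') (l a b c d : R)
    (j : Fin 4) : f (ent l a b c d j) = ent (f l) (f a) (f b) (f c) (f d) j := by
  fin_cases j <;> simp [ent]

theorem ent_surj (l : ℂ) (N : Fin 4 → ℂ) (hl : l ≠ 0) (hN : N 0 * N 3 - N 1 * N 2 = l) :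
    ∃ y : Fin 4 → ℂ, ∀ j, ent l (y 0) (y 1) (y 2) (y 3) j = N j := by
  by_cases h3 : N 3 = 0
  · have h12 : N 1 * N 2 = - l := by rw [h3] at hN; linear_combination - hN
    have h2 : N 2 ≠ 0 := by
      intro h
      rw [h, mul_zero] at h12
      exact hl (by linear_combination h12)
    -- a = (N0 / l - 1) / N2, b = N2, c = N1 / l, d = 0
    refine ⟨![(N 0 / l - 1) / N 2, N 2, N 1 / l, 0], ?_⟩
    intro j
    fin_cases j
    · show l * ((1 + (N 0 / l - 1) / N 2 * N 2) * (1 + N 1 / l * 0)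
        + (N 0 / l - 1) / N 2 * 0) = N 0
      field_simp
      ring
    · show l * ((1 + (N 0 / l - 1) / N 2 * N 2) * (N 1 / l) + (N 0 / l - 1) / N 2) = N 1
      field_simp
      linear_combination (N 0 - l) * h12
    · show N 2 * (1 + N 1 / l * 0) + 0 = N 2
      ring
    · show N 2 * (N 1 / l) + 1 = N 3
      rw [h3]
      field_simp
      linear_combination h12
  · -- b = 1, c = N3 - 1, d = (N2 - 1) / N3, a = (N1 / l - (N3 - 1)) / N3
    refine ⟨![(N 1 / l - (N 3 - 1)) / N 3, 1, N 3 - 1, (N 2 - 1) / N 3], ?_⟩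
    intro j
    fin_cases j
    · show l * ((1 + (N 1 / l - (N 3 - 1)) / N 3 * 1) * (1 + (N 3 - 1) * ((N 2 - 1) / N 3))
        + (N 1 / l - (N 3 - 1)) / N 3 * ((N 2 - 1) / N 3)) = N 0
      field_simp
      linear_combination (- N 3) * hN
    · show l * ((1 + (N 1 / l - (N 3 - 1)) / N 3 * 1) * (N 3 - 1)
        + (N 1 / l - (N 3 - 1)) / N 3) = N 1
      field_simp
      ring
    · show 1 * (1 + (N 3 - 1) * ((N 2 - 1) / N 3)) + (N 2 - 1) / N 3 = N 2
      field_simp
      ring
    · show 1 * (N 3 - 1) + 1 = N 3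
      ring

/-- The polynomial parametrisation of the torsor. -/
noncomputable def psi (g : ℕ) :
    Option (Fin g × Fin 4) → MvPolynomial (Option (Fin g × Fin 4)) ℚ
  | none => MvPolynomial.X none
  | some p => ent (MvPolynomial.X none) (MvPolynomial.X (some (p.1, 0)))
      (MvPolynomial.X (some (p.1, 1))) (MvPolynomial.X (some (p.1, 2)))
      (MvPolynomial.X (some (p.1, 3))) p.2

theorem aeval_psi {g : ℕ} (y : Option (Fin g × Fin 4) → ℂ) :
    (fun s => MvPolynomial.aeval y (psi g s)) = tpt (y none)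
      (fun i => ent (y none) (y (some (i, 0))) (y (some (i, 1))) (y (some (i, 2)))
        (y (some (i, 3)))) := by
  funext s
  cases s with
  | none => simp [psi, tpt]
  | some p =>
    have h1 := ent_map (MvPolynomial.aeval y : MvPolynomial (Option (Fin g × Fin 4)) ℚ →ₐ[ℚ] ℂ).toRingHom
      (MvPolynomial.X none) (MvPolynomial.X (some (p.1, 0)))
      (MvPolynomial.X (some (p.1, 1))) (MvPolynomial.X (some (p.1, 2)))
      (MvPolynomial.X (some (p.1, 3))) p.2
    simp only [AlgHom.toRingHom_eq_coe, RingHom.coe_coe, MvPolynomial.aeval_X] at h1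
    exact h1

theorem psi_onT {g : ℕ} (y : Option (Fin g × Fin 4) → ℂ) (hy : y none ≠ 0) :
    OnT (y none) (fun i => ent (y none) (y (some (i, 0))) (y (some (i, 1))) (y (some (i, 2)))
        (y (some (i, 3)))) :=
  ⟨hy, fun _ => ent_det _ _ _ _ _⟩

/-- A polynomial which does not vanish on the torsor gives a nonzero polynomial. -/
theorem bind_ne_zero {g : ℕ} {L : Type} [Field L] [Algebra ℚ L] [Algebra L ℂ]
    (P : MvPolynomial (Option (Fin g × Fin 4)) L) (lam : ℂ) (N : Fin g → Fin 4 → ℂ)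
    (h : OnT lam N) (hP : MvPolynomial.aeval (tpt lam N) P ≠ (0 : ℂ)) :
    MvPolynomial.bind₁ (fun s => MvPolynomial.map (algebraMap ℚ L) (psi g s)) P ≠ 0 := by
  intro h0
  apply hP
  choose y hy using fun i => ent_surj lam (N i) h.1 (h.2 i)
  let z : Option (Fin g × Fin 4) → ℂ := fun o => o.elim lam (fun p => y p.1 p.2)
  have h1 : tpt lam N = fun s => MvPolynomial.aeval z (psi g s) := by
    rw [aeval_psi]
    funext s
    cases s with
    | none => rfl
    | some p => exact (hy p.1 p.2).symm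
  have h2 : ∀ q : MvPolynomial (Option (Fin g × Fin 4)) ℚ,
      MvPolynomial.aeval z (MvPolynomial.map (algebraMap ℚ L) q) = MvPolynomial.aeval z q := by
    intro q
    rw [MvPolynomial.aeval_def, MvPolynomial.eval₂_map, MvPolynomial.aeval_def]
    congr 1
    exact Subsingleton.elim _ _
  have h3 := congrArg (MvPolynomial.aeval z : MvPolynomial (Option (Fin g × Fin 4)) L →ₐ[L] ℂ) h0
  rw [MvPolynomial.aeval_bind₁, map_zero] at h3
  simp only [h2] at h3
  rw [h1]
  exact h3

/-- A nonzero polynomial gives a polynomial which does not vanish on the torsor. -/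
theorem exists_point {g : ℕ} (N : MvPolynomial (Option (Fin g × Fin 4)) ℚ)
    (h : MvPolynomial.bind₁ (psi g) N ≠ 0) :
    ∃ (lam : ℂ) (M : Fin g → Fin 4 → ℂ), OnT lam M ∧
      MvPolynomial.aeval (tpt lam M) N ≠ (0 : ℂ) := by
  have h1 : (MvPolynomial.X none * MvPolynomial.bind₁ (psi g) N :
      MvPolynomial (Option (Fin g × Fin 4)) ℚ) ≠ 0 :=
    mul_ne_zero (MvPolynomial.X_ne_zero _) h
  have h2 : ∃ y : Option (Fin g × Fin 4) → ℚ,
      MvPolynomial.eval y (MvPolynomial.X none * MvPolynomial.bind₁ (psi g) N) ≠ 0 := by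
    by_contra h3
    push Not at h3
    apply h1
    apply MvPolynomial.funext
    intro y
    rw [h3 y, map_zero]
  obtain ⟨y, hy⟩ := h2
  rw [map_mul, MvPolynomial.eval_X] at hy
  have hy1 : y none ≠ 0 := left_ne_zero_of_mul hy
  have hy2 := right_ne_zero_of_mul hy
  let z : Option (Fin g × Fin 4) → ℂ := fun s => (y s : ℂ)
  have hz : z none ≠ 0 := by
    show ((y none : ℚ) : ℂ) ≠ 0
    exact_mod_cast hy1
  refine ⟨_, _, psi_onT z hz, ?_⟩
  rw [← aeval_psi, ← MvPolynomial.aeval_bind₁]
  have h4 : MvPolynomial.aeval z (MvPolynomial.bind₁ (psi g) N)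
      = ((MvPolynomial.eval y (MvPolynomial.bind₁ (psi g) N) : ℚ) : ℂ) := by
    have h5 := MvPolynomial.aeval_algebraMap_apply (A := ℚ) (B := ℂ) y
      (MvPolynomial.bind₁ (psi g) N)
    simp only [eq_ratCast] at h5
    rw [MvPolynomial.aeval_eq_eval] at h5
    exact h5
  rw [h4]
  exact_mod_cast hy2

/-- The degree after a linear substitution. -/
theorem totalDegree_bind_le {σ : Type} {R : Type} [CommRing R] (f : σ → MvPolynomial σ R)
    (hf : ∀ s, (f s).totalDegree ≤ 1) (P : MvPolynomial σ R) :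
    (MvPolynomial.bind₁ f P).totalDegree ≤ P.totalDegree := by
  classical
  have h1 : MvPolynomial.bind₁ f P
      = ∑ s ∈ P.support, MvPolynomial.C (P.coeff s) * ∏ i ∈ s.support, f i ^ s i := by
    rw [← MvPolynomial.aeval_eq_bind₁, MvPolynomial.aeval_def, MvPolynomial.eval₂_eq]
    rfl
  rw [h1]
  apply MvPolynomial.totalDegree_finsetSum_le
  intro s hs
  refine le_trans (MvPolynomial.totalDegree_mul _ _) ?_
  rw [MvPolynomial.totalDegree_C, zero_add]
  refine le_trans (MvPolynomial.totalDegree_finsetProd _ _) ?_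
  have h2 : ∑ i ∈ s.support, s i ≤ P.totalDegree := MvPolynomial.le_totalDegree hs
  refine le_trans (Finset.sum_le_sum (fun i _ => ?_)) h2
  refine le_trans (MvPolynomial.totalDegree_pow _ _) ?_
  calc s i * (f i).totalDegree ≤ s i * 1 := Nat.mul_le_mul_left _ (hf i)
    _ = s i := mul_one _

/-- The scaling between the real and the complex period matrices. -/
noncomputable def kap {g : ℕ} : Option (Fin g × Fin 4) → ℂ
  | none => Complex.I
  | some p => (![1, Complex.I, 1, Complex.I] : Fin 4 → ℂ) p.2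

/-- The field `ℚ(i)`. -/
noncomputable def QI : IntermediateField ℚ ℂ := IntermediateField.adjoin ℚ {Complex.I}

theorem I_mem : Complex.I ∈ QI := IntermediateField.mem_adjoin_simple_self ℚ Complex.I

instance : FiniteDimensional ℚ QI := by
  apply IntermediateField.adjoin.finiteDimensional
  refine ⟨Polynomial.X ^ 2 + 1, ?_, ?_⟩
  · monicity!
  · simp

theorem kap_mem {g : ℕ} (s : Option (Fin g × Fin 4)) : kap s ∈ QI := by
  cases s with
  | none => exact I_mem
  | some p =>
    obtain ⟨i, j⟩ := p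
    fin_cases j
    · exact QI.one_mem
    · exact I_mem
    · exact QI.one_mem
    · exact I_mem

/-- The rescaled polynomial. -/
noncomputable def resc {g : ℕ} (N : MvPolynomial (Option (Fin g × Fin 4)) ℚ) :
    MvPolynomial (Option (Fin g × Fin 4)) QI :=
  MvPolynomial.bind₁ (fun s => MvPolynomial.C ⟨kap s, kap_mem s⟩ * MvPolynomial.X s)
    (MvPolynomial.map (algebraMap ℚ QI) N)

theorem resc_deg {g : ℕ} (N : MvPolynomial (Option (Fin g × Fin 4)) ℚ) :
    (resc N).totalDegree ≤ N.totalDegree := by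
  unfold resc
  refine le_trans (totalDegree_bind_le _ ?_ _) ?_
  · intro s
    refine le_trans (MvPolynomial.totalDegree_mul _ _) ?_
    rw [MvPolynomial.totalDegree_C, MvPolynomial.totalDegree_X]
  · apply Finset.sup_mono
    exact MvPolynomial.support_map_subset _ _

theorem resc_eval {g : ℕ} (N : MvPolynomial (Option (Fin g × Fin 4)) ℚ)
    (x : Option (Fin g × Fin 4) → ℂ) :
    MvPolynomial.aeval x (resc N) = MvPolynomial.aeval (fun s => kap s * x s) N := by
  unfold resc
  rw [MvPolynomial.aeval_bind₁, MvPolynomial.aeval_def, MvPolynomial.eval₂_map,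
    MvPolynomial.aeval_def]
  have h1 : (fun s => MvPolynomial.aeval x
      (MvPolynomial.C (⟨kap s, kap_mem s⟩ : QI) * MvPolynomial.X s : MvPolynomial _ QI))
      = fun s => kap s * x s := by
    funext s
    rw [map_mul, MvPolynomial.aeval_C, MvPolynomial.aeval_X]
    rfl
  rw [h1]
  congr 1

/-- Legendre's relation. -/
theorem legendre (hSubs : Stmt_Subs) (hWron : Stmt_Wron) (t : ℝ) (h1 : -1 < t) (h2 : t < 1) :
    pA t * qB t - pB t * qA t = 2 * Real.pi := by
  obtain ⟨h3, h4, h5, h6⟩ := hSubs t h1 h2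
  have h7 : phi t * (- deriv phi (-t)) - phi (-t) * deriv phi t = - Real.pi / (1 - t ^ 2) :=
    hWron t h1 h2
  have h8 : (0 : ℝ) < 1 - t ^ 2 := by nlinarith
  rw [eq_div_iff h8.ne'] at h7
  rw [h3, h4, h5, h6]
  linear_combination (-2) * h7

theorem per_onT (hSubs : Stmt_Subs) (hWron : Stmt_Wron) {g : ℕ} (t : Fin g → ℝ)
    (h1 : ∀ i, -1 < t i) (h2 : ∀ i, t i < 1) :
    OnT (2 * (Real.pi : ℂ) * Complex.I) (fun i => perC (t i)) := by
  refine ⟨?_, ?_⟩
  · exact mul_ne_zero (mul_ne_zero two_ne_zero (by exact_mod_cast Real.pi_pos.ne')) Complex.I_ne_zero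
  · intro i
    have h3 := legendre hSubs hWron (t i) (h1 i) (h2 i)
    have h4 : (pA (t i) : ℂ) * qB (t i) - pB (t i) * qA (t i) = 2 * Real.pi := by
      exact_mod_cast congrArg (fun x : ℝ => (x : ℂ)) h3
    show (pA (t i) : ℂ) * (Complex.I * qB (t i)) - Complex.I * pB (t i) * qA (t i) = _
    linear_combination Complex.I * h4

end NF

open NF in
theorem NF_proof (hMain : MainStatement) (hSubs : Stmt_Subs) (hWron : Stmt_Wron) :
    NFStatement := by
  intro t₀ h1 h2 g D
  obtain ⟨δ, hδ, n₁, hn₁⟩ := hMain t₀ h1 h2 g (Module.finrank ℚ QI * (D * D))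
  have h1' : (-1 : ℝ) < (t₀ : ℝ) := by exact_mod_cast h1
  have h2' : (t₀ : ℝ) < 1 := by exact_mod_cast h2
  set ρ : ℝ := 1 - t₀ with hρd
  have hρ : 0 < ρ := by linarith
  refine ⟨min δ (1 / 2), lt_min hδ (by norm_num), max n₁ (⌈1 / ρ ^ 2⌉₊ + 2), ?_⟩
  intro n hn
  have hnn₁ : n₁ ≤ n := le_trans (le_max_left _ _) hn
  have hn2 : ⌈1 / ρ ^ 2⌉₊ + 2 ≤ n := le_trans (le_max_right _ _) hn
  have hn1 : (1 : ℝ) ≤ n := by
    have : 1 ≤ n := by omega
    exact_mod_cast this
  have hnpos : (0 : ℝ) < n := by linarith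
  have hnρ : 1 / ρ ^ 2 < n := by
    have h3 : (⌈1 / ρ ^ 2⌉₊ : ℝ) + 2 ≤ n := by exact_mod_cast hn2
    have h4 := Nat.le_ceil (1 / ρ ^ 2)
    linarith
  obtain ⟨S, hS, hn₁'⟩ := hn₁ n hnn₁
  refine ⟨S, hS, ?_⟩
  intro r hr hrb L hL hLD P hPD
  -- the points lie in the interval
  have hr1 : ∀ i, -1 < (t₀ : ℝ) + (r i : ℝ) / n := by
    intro i
    have h3 : (0 : ℝ) < (r i : ℝ) := by exact_mod_cast (hrb i).1
    have h4 : (0 : ℝ) < (r i : ℝ) / n := div_pos h3 hnpos
    linarith
  have hr2 : ∀ i, (t₀ : ℝ) + (r i : ℝ) / n < 1 := by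
    intro i
    obtain ⟨h3, _, h4, h5⟩ := hrb i
    have h6 : ((r i : ℚ) : ℝ) ≤ ((r i).num : ℝ) := by
      have h7 : ((r i : ℚ) : ℝ) = ((r i).num : ℝ) / ((r i).den : ℝ) := by
        exact_mod_cast congrArg (fun x : ℚ => (x : ℝ)) (Rat.num_div_den (r i)).symm
      rw [h7]
      apply div_le_self
      · have : 0 < (r i).num := Rat.num_pos.mpr h3
        exact_mod_cast this.le
      · exact_mod_cast (r i).den_pos
    have h8 : (n : ℝ) ^ (min δ (1 / 2)) ≤ (n : ℝ) ^ (1 / 2 : ℝ) :=
      Real.rpow_le_rpow_of_exponent_le hn1 (min_le_right _ _)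
    have h9 : (n : ℝ) ^ (1 / 2 : ℝ) = √n := by rw [Real.sqrt_eq_rpow]
    have h10 : ((r i : ℚ) : ℝ) ≤ √n := by linarith
    have h11 : 1 < ρ * √n := by
      have h12 : 1 < ρ ^ 2 * n := by
        rw [div_lt_iff₀ (by positivity)] at hnρ
        linarith
      have h13 : (ρ * √n) ^ 2 = ρ ^ 2 * n := by
        rw [mul_pow, Real.sq_sqrt hnpos.le]
      by_contra h14
      push Not at h14
      have h15 : (ρ * √n) ^ 2 ≤ 1 := by
        apply pow_le_one₀ (by positivity) h14
      linarith
    have h16 : √n * √n = n := Real.mul_self_sqrt hnpos.le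
    have h17 : 0 < √n := Real.sqrt_pos.mpr hnpos
    have h18 : (r i : ℝ) / n < ρ := by
      rw [div_lt_iff₀ hnpos]
      nlinarith
    linarith
  constructor
  · intro hP lam M hM
    by_contra hne
    -- first norm: from `L` to `ℚ`
    obtain ⟨N₁, hN₁d, hN₁z, hN₁b⟩ := norm_exists (τ' := Option (Fin g × Fin 4)) P
    have h3 : MvPolynomial.bind₁ (psi g) N₁ ≠ 0 := by
      intro h4
      exact bind_ne_zero P lam M hM hne (hN₁b (psi g) h4)
    obtain ⟨lam₁, M₁, hM₁, hne₁⟩ := exists_point N₁ h3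
    have h5 := hN₁z _ hP
    -- the rescaling and the second norm: from `ℚ(i)` to `ℚ`
    obtain ⟨N₂, hN₂d, hN₂z, hN₂b⟩ :=
      norm_exists (τ' := Option (Fin g × Fin 4)) (resc N₁)
    have h6 : MvPolynomial.bind₁ (psi g) N₂ ≠ 0 := by
      intro h4
      refine bind_ne_zero (resc N₁) (lam₁ / Complex.I)
        (fun i => ![M₁ i 0, M₁ i 1 / Complex.I, M₁ i 2, M₁ i 3 / Complex.I]) ?_ ?_
        (hN₂b (psi g) h4)
      · refine ⟨div_ne_zero hM₁.1 Complex.I_ne_zero, fun i => ?_⟩
        have h7 := hM₁.2 i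
        show M₁ i 0 * (M₁ i 3 / Complex.I) - M₁ i 1 / Complex.I * M₁ i 2 = lam₁ / Complex.I
        rw [← h7]
        ring
      · rw [resc_eval]
        have h7 : (fun s => kap s * tpt (lam₁ / Complex.I)
            (fun i => ![M₁ i 0, M₁ i 1 / Complex.I, M₁ i 2, M₁ i 3 / Complex.I]) s)
            = tpt lam₁ M₁ := by
          funext s
          cases s with
          | none => exact mul_div_cancel₀ _ Complex.I_ne_zero
          | some p =>
            obtain ⟨i, j⟩ := p
            fin_cases j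
            · exact one_mul _
            · exact mul_div_cancel₀ _ Complex.I_ne_zero
            · exact one_mul _
            · exact mul_div_cancel₀ _ Complex.I_ne_zero
        rw [h7]
        exact hne₁
    obtain ⟨lam₂, M₂, hM₂, hne₂⟩ := exists_point N₂ h6
    have hrb' : ∀ i, 0 < r i ∧ r i ∉ S ∧ ((r i).num : ℝ) ≤ (n : ℝ) ^ δ
        ∧ ((r i).den : ℝ) ≤ (n : ℝ) ^ δ := by
      intro i
      obtain ⟨a1, a2, a3, a4⟩ := hrb i
      have a5 : (n : ℝ) ^ (min δ (1 / 2)) ≤ (n : ℝ) ^ δ :=
        Real.rpow_le_rpow_of_exponent_le hn1 (min_le_left _ _)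
      exact ⟨a1, a2, le_trans a3 a5, le_trans a4 a5⟩
    refine hn₁' r hr hrb' N₂ ⟨?_, ?_, lam₂, M₂, hM₂, hne₂⟩
    · refine le_trans hN₂d ?_
      apply Nat.mul_le_mul_left
      refine le_trans (resc_deg N₁) ?_
      exact le_trans hN₁d (Nat.mul_le_mul hLD hPD)
    · have h8 : MvPolynomial.aeval (fun s => ((tpt (2 * Real.pi)
          (fun i => per ((t₀ : ℝ) + (r i : ℝ) / n)) s : ℝ) : ℂ)) (resc N₁) = (0 : ℂ) := by
        rw [resc_eval]
        have h9 : (fun s => kap s * ((tpt (2 * Real.pi)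
            (fun i => per ((t₀ : ℝ) + (r i : ℝ) / n)) s : ℝ) : ℂ))
            = tpt (2 * (Real.pi : ℂ) * Complex.I)
              (fun i => perC ((t₀ : ℝ) + (r i : ℝ) / n)) := by
          funext s
          cases s with
          | none =>
            show Complex.I * ((2 * Real.pi : ℝ) : ℂ) = 2 * (Real.pi : ℂ) * Complex.I
            push_cast
            ring
          | some p =>
            obtain ⟨i, j⟩ := p
            fin_cases j
            · exact one_mul _
            · rfl
            · exact one_mul _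
            · rfl
        rw [h9]
        exact h5
      have h9 := hN₂z _ h8
      have h10 := MvPolynomial.aeval_algebraMap_apply (A := ℝ) (B := ℂ)
        (tpt (2 * Real.pi) (fun i => per ((t₀ : ℝ) + (r i : ℝ) / n))) N₂
      simp only [Complex.coe_algebraMap] at h10
      have h11 : (fun s => ((tpt (2 * Real.pi)
          (fun i => per ((t₀ : ℝ) + (r i : ℝ) / n)) s : ℝ) : ℂ))
          = Complex.ofReal ∘ (tpt (2 * Real.pi)
          (fun i => per ((t₀ : ℝ) + (r i : ℝ) / n))) := rfl
      rw [h11, h10] at h9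
      exact_mod_cast h9
  · intro h
    exact h _ _ (per_onT hSubs hWron _ hr1 hr2)

end Pool.Agent.DGP
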