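import Pool.Agent.DGP.Assembly
import Pool.Agent.DGP.NF2

set_option autoImplicit false

/-!
The Grothendieck period conjecture up to degree `D`, for all relations of degree `≤ D` with
coefficients in number fields of degree `≤ D`, for products of elliptic curves
`E_t : y² = (x² - 1)(x - t)`.
-/

namespace Pool.Agent.DGP.DegreePartOld

open Pool.Agent.DGP

/-- Let `t₀ ∈ (-1, 1)` be rational. For all `g`, `D` there are `δ > 0` and `n₀` such that for every
`n ≥ n₀` there is a set `S` of at most `4g` rationals with the following property: if `r_1, ..., r_g`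
are different positive rationals outside `S`, with numerators and denominators at most `n^δ`, then
a polynomial `P` of degree at most `D`, with coefficients in a number field of degree at most `D`,
vanishes at `(2πi, M(t_1), ..., M(t_g))`, `t_i = t₀ + r_i/n`, if and only if it vanishes on the
whole torsor `det N_i = λ ≠ 0`. -/
theorem result : ∀ t₀ : ℚ, -1 < t₀ → t₀ < 1 → ∀ g D : ℕ, ∃ δ : ℝ, 0 < δ ∧
    ∃ n₀ : ℕ, ∀ n : ℕ, n₀ ≤ n → ∃ S : Finset ℚ, S.card ≤ 4 * g ∧
      ∀ r : Fin g → ℚ, Function.Injective r →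
        (∀ i, 0 < r i ∧ r i ∉ S ∧ ((r i).num : ℝ) ≤ (n : ℝ) ^ δ ∧
          ((r i).den : ℝ) ≤ (n : ℝ) ^ δ) →
        ∀ L : IntermediateField ℚ ℂ, FiniteDimensional ℚ L → Module.finrank ℚ L ≤ D →
        ∀ P : MvPolynomial (Option (Fin g × Fin 4)) L, P.totalDegree ≤ D →
          (MvPolynomial.aeval (tpt (2 * (Real.pi : ℂ) * Complex.I)
              (fun i => perC ((t₀ : ℝ) + (r i : ℝ) / n))) P = (0 : ℂ) ↔
            ∀ (lam : ℂ) (N : Fin g → Fin 4 → ℂ), OnT lam N →
              MvPolynomial.aeval (tpt lam N) P = (0 : ℂ)) :=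
  NF_proof main_statement Subs_proof wron

end Pool.Agent.DGP.DegreePartOld
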