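import Pool.Agent.DGP.Stmts

set_option autoImplicit false

/-!
DGP, module OrdB: combinations with coefficients of bounded degree have bounded order.
-/

open Finset

namespace Pool.Agent.DGP

namespace OrdB

/-- Polynomials with given coefficients. -/
noncomputable def par {m d : ℕ} (v : Fin m → Fin (d + 1) → ℚ) (i : Fin m) : Polynomial ℚ :=
  ∑ l : Fin (d + 1), Polynomial.monomial (l : ℕ) (v i l)

lemma par_add {m d : ℕ} (v w : Fin m → Fin (d + 1) → ℚ) (i : Fin m) :
    par (v + w) i = par v i + par w i := by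
  simp only [par, Pi.add_apply, map_add, Finset.sum_add_distrib]

lemma par_smul {m d : ℕ} (a : ℚ) (v : Fin m → Fin (d + 1) → ℚ) (i : Fin m) :
    par (a • v) i = Polynomial.C a * par v i := by
  simp only [par, Pi.smul_apply, smul_eq_mul, Finset.mul_sum, Polynomial.C_mul_monomial]

lemma par_coeff {m d : ℕ} (P : Fin m → Polynomial ℚ) (hP : ∀ i, (P i).natDegree ≤ d)
    (i : Fin m) : par (fun (i : Fin m) (l : Fin (d + 1)) => (P i).coeff (l : ℕ)) i = P i := by
  conv_rhs => rw [(P i).as_sum_range' (d + 1) (Nat.lt_succ_of_le (hP i))]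
  rw [par, Fin.sum_univ_eq_sum_range (fun l : ℕ => Polynomial.monomial l ((P i).coeff l))]

/-- The combination. -/
noncomputable def comb {m : ℕ} (F : Fin m → PowerSeries ℚ) {d : ℕ}
    (v : Fin m → Fin (d + 1) → ℚ) : PowerSeries ℚ :=
  ∑ i, (par v i : PowerSeries ℚ) * F i

lemma comb_add {m : ℕ} (F : Fin m → PowerSeries ℚ) {d : ℕ} (v w : Fin m → Fin (d + 1) → ℚ) :
    comb F (v + w) = comb F v + comb F w := by
  simp only [comb, par_add, Polynomial.coe_add, add_mul, Finset.sum_add_distrib]

lemma comb_smul {m : ℕ} (F : Fin m → PowerSeries ℚ) {d : ℕ} (a : ℚ)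
    (v : Fin m → Fin (d + 1) → ℚ) : comb F (a • v) = PowerSeries.C a * comb F v := by
  simp only [comb, par_smul, Polynomial.coe_mul, Polynomial.coe_C, Finset.mul_sum, mul_assoc]

/-- Vectors with vanishing first coefficients. -/
noncomputable def W {m : ℕ} (F : Fin m → PowerSeries ℚ) (d c : ℕ) :
    Submodule ℚ (Fin m → Fin (d + 1) → ℚ) where
  carrier := {v | ∀ j ≤ c, PowerSeries.coeff j (comb F v) = 0}
  add_mem' := by
    intro v w hv hw j hj
    rw [comb_add, map_add, hv j hj, hw j hj, add_zero]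
  zero_mem' := by
    intro j _
    have h : comb F (0 : Fin m → Fin (d + 1) → ℚ) = 0 := by
      have := comb_smul F (0 : ℚ) (0 : Fin m → Fin (d + 1) → ℚ)
      rw [smul_zero, map_zero, zero_mul] at this
      exact this
    rw [h, map_zero]
  smul_mem' := by
    intro a v hv j hj
    rw [comb_smul, PowerSeries.coeff_C_mul, hv j hj, mul_zero]

end OrdB

open OrdB in
theorem OrdB_proof : Stmt_OrdB := by
  intro m F hF d
  obtain ⟨c, hc⟩ := IsArtinian.monotone_stabilizes
    (⟨fun c => OrderDual.toDual (W F d c), fun a b hab v hv j hj => hv j (hj.trans hab)⟩ :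
      ℕ →o (Submodule ℚ (Fin m → Fin (d + 1) → ℚ))ᵒᵈ)
  refine ⟨c, fun P hP hne => ?_⟩
  by_contra hcon
  push Not at hcon
  obtain ⟨i, hi⟩ := hne
  apply hi
  refine hF P ?_ i
  have hcomb : comb F (fun (i : Fin m) (l : Fin (d + 1)) => (P i).coeff (l : ℕ)) =
      ∑ i, (P i : PowerSeries ℚ) * F i := by
    unfold comb
    exact Finset.sum_congr rfl (fun i _ => by rw [par_coeff P hP i])
  have hmem : (fun (i : Fin m) (l : Fin (d + 1)) => (P i).coeff (l : ℕ)) ∈ W F d c := by
    intro j hj
    rw [hcomb]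
    exact hcon j hj
  ext j
  rw [map_zero, ← hcomb]
  have h1 : W F d c = W F d (max c j) := by
    have := hc (max c j) (le_max_left _ _)
    exact this
  rw [h1] at hmem
  exact hmem j (le_max_right _ _)

end Pool.Agent.DGP
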