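import Pool.Agent.DGP.Defs

set_option autoImplicit false

/-!
The degree `≤ D` part of the Grothendieck period conjecture for products of elliptic curves:
the statements of the modules.
-/

open Finset

namespace Pool.Agent.DGP

/-! ### Part I: values of G-functions (Siegel, Shidlovskii) -/

/-- Fundamental matrix at a regular point. -/
def Stmt_FundM : Prop := ∀ (m : ℕ) (T : Polynomial ℚ) (A : Fin m → Fin m → Polynomial ℚ),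
  T.coeff 0 ≠ 0 → ∃ Y : Fin m → Fin m → PowerSeries ℚ,
    (∀ i j, (T : PowerSeries ℚ) * hd 1 (Y i j) = ∑ l, (A i l : PowerSeries ℚ) * Y l j) ∧
    ∀ i j, PowerSeries.coeff 0 (Y i j) = if i = j then 1 else 0

/-- Wronskians. -/
def Stmt_Wr : Prop := ∀ (s : ℕ) (g : Fin s → PowerSeries ℚ), LinearIndependent ℚ g →
  Matrix.det (Matrix.of (fun k j : Fin s => hd k (g j))) ≠ 0

/-- Rational functions which are quotients of combinations of given functions with constant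
coefficients have bounded degree. -/
def Stmt_BDeg : Prop := ∀ (p : ℕ) (φ : Fin p → PowerSeries ℚ), ∃ d : ℕ,
  ∀ (a b : Fin p → ℚ) (X Y : Polynomial ℚ), Y ≠ 0 →
    (Y : PowerSeries ℚ) * ∑ i, PowerSeries.C (a i) * φ i
      = (X : PowerSeries ℚ) * ∑ i, PowerSeries.C (b i) * φ i →
    ∑ i, PowerSeries.C (b i) * φ i ≠ 0 →
    ∃ X' Y' : Polynomial ℚ, Y' ≠ 0 ∧ X'.natDegree ≤ d ∧ Y'.natDegree ≤ d ∧ X * Y' = X' * Y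

/-- Combinations with coefficients of bounded degree have bounded order. -/
def Stmt_OrdB : Prop := ∀ (m : ℕ) (F : Fin m → PowerSeries ℚ), Indep F → ∀ d : ℕ, ∃ c : ℕ,
  ∀ P : Fin m → Polynomial ℚ, (∀ i, (P i).natDegree ≤ d) → (∃ i, P i ≠ 0) →
    ∃ j ≤ c, PowerSeries.coeff j (∑ i, (P i : PowerSeries ℚ) * F i) ≠ 0

/-- Shidlovskii's lemma. -/
def Stmt_Shid : Prop := ∀ (m : ℕ) (F : Fin m → PowerSeries ℚ) (T : Polynomial ℚ)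
  (A : Fin m → Fin m → Polynomial ℚ), T.coeff 0 ≠ 0 →
  (∀ i, (T : PowerSeries ℚ) * hd 1 (F i) = ∑ j, (A i j : PowerSeries ℚ) * F j) → Indep F →
  ∃ c : ℕ, ∀ (N : ℕ) (P : Fin m → Polynomial ℚ), (∀ i, (P i).natDegree ≤ N) → (∃ i, P i ≠ 0) →
    Matrix.det (Matrix.of (fun k i : Fin m => ((dlt T A)^[k] P) i)) = 0 →
    ∀ M : ℕ, (∀ j < M, PowerSeries.coeff j (∑ i, (P i : PowerSeries ℚ) * F i) = 0) →
      M ≤ (m - 1) * N + c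

/-- Siegel's lemma. -/
def Stmt_Sieg : Prop := ∀ (m : ℕ) (F : Fin m → PowerSeries ℚ) (T : Polynomial ℚ) (τ e₀ : ℕ)
  (c₀ H : ℝ), GSys F T τ e₀ c₀ H → 1 ≤ m → ∀ s : ℕ, 1 ≤ s → ∀ N : ℕ,
  ∃ P : Fin m → Polynomial ℚ, (∃ i, P i ≠ 0) ∧ (∀ i, (P i).natDegree ≤ N) ∧
    (∀ i l, IsZ ((P i).coeff l)) ∧
    (∀ j < m * (N + 1) - (N / s + 1),
      PowerSeries.coeff j (∑ i, (P i : PowerSeries ℚ) * F i) = 0) ∧
    ∀ i l, |((P i).coeff l : ℝ)|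
      ≤ ((m * (N + 1) : ℕ) * (c₀ ^ 2 * H ^ (2 * (m * (N + 1))))) ^ (m * s)

/-- The derived forms. -/
def Stmt_Der : Prop := ∀ (m : ℕ) (F : Fin m → PowerSeries ℚ) (T : Polynomial ℚ) (τ e₀ : ℕ)
  (c₀ H : ℝ), GSys F T τ e₀ c₀ H → ∀ (N : ℕ) (P : Fin m → Polynomial ℚ) (X : ℝ),
  (∀ i, (P i).natDegree ≤ N) → (∀ i l, IsZ ((P i).coeff l)) →
  (∀ i l, |((P i).coeff l : ℝ)| ≤ X) →
  ∃ (R : ℕ → Fin m → Polynomial ℚ) (q : ℕ → ℕ),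
    (∀ k, (T : PowerSeries ℚ) ^ k * hd k (∑ i, (P i : PowerSeries ℚ) * F i)
      = ∑ i, (R k i : PowerSeries ℚ) * F i) ∧
    (∀ k i, (R k i).natDegree ≤ N + τ * k + e₀) ∧
    (∀ k, 1 ≤ q k ∧ (q k : ℝ) ≤ c₀ * H ^ k) ∧ (∀ k i l, IsZ (q k * (R k i).coeff l)) ∧
    ∀ k i l, |((R k i).coeff l : ℝ)| ≤ m * (k + 1) * (N + 1) * 2 ^ N * X * c₀ * H ^ k

/-- The derived forms span. -/
def Stmt_Span : Prop := ∀ (m : ℕ) (F : Fin m → PowerSeries ℚ) (T : Polynomial ℚ) (τ e₀ : ℕ)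
  (c₀ H : ℝ), GSys F T τ e₀ c₀ H → Indep F → ∀ s : ℕ, 2 ≤ s → ∃ c₁ : ℕ, ∀ N ≥ c₁,
  ∀ P : Fin m → Polynomial ℚ, (∃ i, P i ≠ 0) → (∀ i, (P i).natDegree ≤ N) →
  (∀ j < m * (N + 1) - (N / s + 1),
    PowerSeries.coeff j (∑ i, (P i : PowerSeries ℚ) * F i) = 0) →
  ∀ R : ℕ → Fin m → Polynomial ℚ,
    (∀ k, (T : PowerSeries ℚ) ^ k * hd k (∑ i, (P i : PowerSeries ℚ) * F i)
      = ∑ i, (R k i : PowerSeries ℚ) * F i) →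
    ∀ x : ℚ, x ≠ 0 → T.eval x ≠ 0 → ∀ b : Fin m → ℚ,
      (∀ k ≤ N / s + c₁, ∑ i, (R k i).eval x * b i = 0) → ∀ i, b i = 0

/-- Evaluation of power series. -/
def Conv (f : PowerSeries ℚ) (x : ℝ) : Prop :=
  Summable (fun j => |((PowerSeries.coeff j f : ℚ) : ℝ)| * |x| ^ j)

def Stmt_Val : Prop := ∀ x : ℝ,
  (∀ f g, Conv f x → Conv g x → Conv (f * g) x ∧ val (f * g) x = val f x * val g x ∧
    Conv (f + g) x ∧ val (f + g) x = val f x + val g x) ∧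
  (∀ p : Polynomial ℚ, Conv p x ∧ val p x = Polynomial.aeval x p) ∧
  (∀ (f : PowerSeries ℚ) (c H : ℝ), 0 ≤ H →
    (∀ j, |((PowerSeries.coeff j f : ℚ) : ℝ)| ≤ c * H ^ j) → H * |x| < 1 → Conv f x)

/-- Linear independence of the values at `1/n`. -/
def Stmt_A0 : Prop := ∀ m τ : ℕ, ∃ κ : ℕ, ∀ (F : Fin m → PowerSeries ℚ) (T : Polynomial ℚ)
  (e₀ : ℕ) (c₀ H : ℝ), GSys F T τ e₀ c₀ H → Indep F → ∀ n : ℕ, H ^ κ ≤ n →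
  T.eval (1 / (n : ℚ)) ≠ 0 → (∃ i, val (F i) (1 / n) ≠ 0) →
  ∀ a : Fin m → ℚ, ∑ i, (a i : ℝ) * val (F i) (1 / n) = 0 → ∀ i, a i = 0

/-- Every relation between the values at `1/n` is a specialisation of a functional relation. -/
def Stmt_AA : Prop := ∀ (ι : Type) [Fintype ι] (τ : ℕ), ∃ κ : ℕ, ∀ (G : ι → PowerSeries ℚ)
  (T : Polynomial ℚ) (e₀ : ℕ) (c₀ H : ℝ), GSys G T τ e₀ c₀ H → (∃ i, G i = 1) →
  ∀ n : ℕ, H ^ κ ≤ n → T.eval (1 / (n : ℚ)) ≠ 0 →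
  ∀ a : ι → ℚ, ∑ i, (a i : ℝ) * val (G i) (1 / n) = 0 →
  ∃ ρ : ι → Polynomial ℚ, ∑ i, (ρ i : PowerSeries ℚ) * G i = 0 ∧
    ∀ i, (ρ i).eval (1 / (n : ℚ)) = a i

/-! ### Part II: the system -/

/-- Monotonicity in the parameters. -/
def Stmt_Mono : Prop := ∀ (ι : Type) [Fintype ι] (G : ι → PowerSeries ℚ) (T : Polynomial ℚ)
  (τ e₀ τ' e₀' : ℕ) (c₀ H c₀' H' : ℝ), GSys G T τ e₀ c₀ H → τ ≤ τ' → e₀ ≤ e₀' → c₀ ≤ c₀' →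
  H ≤ H' → GSys G T τ' e₀' c₀' H'

/-- Products. -/
def Stmt_Tens : Prop := ∀ (ι : Type) [Fintype ι] (G : ι → PowerSeries ℚ) (T : Polynomial ℚ)
  (τ e₀ : ℕ) (c₀ H : ℝ), GSys G T τ e₀ c₀ H → ∀ E : ℕ, ∃ (e₀' : ℕ) (c₀' : ℝ),
  GSys (tens G E) T τ e₀' c₀' (H ^ (E + 2))

/-- Direct sums, together with the constant function. -/
def Stmt_DSum : Prop := ∀ (K : ℕ) (G : Fin K → Fin 4 → PowerSeries ℚ) (T : Fin K → Polynomial ℚ)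
  (τ e₀ : ℕ) (c₀ H : ℝ), 1 ≤ c₀ → 2 ≤ H → (∀ k, GSys (G k) (T k) τ e₀ c₀ H) →
  ∃ (e₀' : ℕ) (c₀' : ℝ),
  GSys (fun o : Option (Fin K × Fin 4) => o.elim 1 (fun p => G p.1 p.2)) (∏ k, T k)
    (τ * K) e₀' c₀' (H ^ (K + 1))

/-- The least common multiple of `1, ..., n`. -/
def Stmt_Lcm : Prop := ∃ C : ℕ, ∀ n : ℕ, (Finset.Icc 1 n).lcm id ≤ C ^ n

open Polynomial in
/-- The polynomials `(1-t²)^j α_{j+1}(t)`, where `y^{(j)} / j! = α_j y + β_j y'`. -/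
noncomputable def pc (a b : Polynomial ℚ) : ℕ → Polynomial ℚ
  | 0 => a
  | 1 => b
  | (j + 2) => C (2 * (j + 2 : ℚ) ^ 2 / ((j + 3) * (j + 2))) * X * pc a b (j + 1)
      + C ((2 * j + 3 : ℚ) ^ 2 / 4 / ((j + 3) * (j + 2))) * (1 - X ^ 2) * pc a b j

/-- `(1-t²)^j α_{j+1}(t)`. -/
noncomputable def pa : ℕ → Polynomial ℚ := pc 0 (Polynomial.C (1 / 8))

/-- `(1-t²)^j β_{j+1}(t)`. -/
noncomputable def pb : ℕ → Polynomial ℚ := pc 1 Polynomial.X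

/-- Arithmetic of the polynomials. -/
def Stmt_PolAr : Prop := ∃ C : ℕ, ∃ q : ℕ → ℕ,
  (∀ j, 1 ≤ q j ∧ q j ∣ q (j + 1) ∧ q j ≤ C ^ (j + 1)) ∧
  ∀ j, (pa j).natDegree ≤ j ∧ (pb j).natDegree ≤ j ∧
    ∀ l, IsZ (q j * (pa j).coeff l) ∧ IsZ (q j * (pb j).coeff l) ∧
      |(pa j).coeff l| ≤ (C : ℚ) ^ (j + 1) ∧ |(pb j).coeff l| ≤ (C : ℚ) ^ (j + 1)

/-- The base system. -/
def Stmt_Base : Prop := ∀ t₀ : ℚ, -1 < t₀ → t₀ < 1 → ∃ C : ℕ, ∀ c : ℕ, 1 ≤ c →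
  ∃ (e₀ : ℕ) (c₀ : ℝ), GSys (base t₀ c) (Tb t₀ c) 2 e₀ c₀ (C * c ^ 3)

/-- The full system. -/
def Stmt_Full : Prop := ∀ t₀ : ℚ, -1 < t₀ → t₀ < 1 → ∀ K E : ℕ, ∃ C e : ℕ,
  ∀ (c : Fin K → ℕ) (b : ℕ), 1 ≤ b → (∀ k, 1 ≤ c k ∧ c k ≤ b) → ∃ (e₀ : ℕ) (c₀ : ℝ),
  GSys (tens (full t₀ c) E) (∏ k, Tb t₀ (c k)) (2 * K) e₀ c₀ (C * b ^ e)

/-! ### Part III: analysis of the integrals -/

/-- The substitution. -/
def Stmt_Subs : Prop := ∀ t : ℝ, -1 < t → t < 1 → pA t = phi t ∧ pB t = phi (-t) ∧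
  qA t = t * phi t - 2 * (1 - t ^ 2) * deriv phi t ∧
  qB t = t * phi (-t) + 2 * (1 - t ^ 2) * deriv phi (-t)

/-- Analyticity. -/
def Stmt_PhiAn : Prop := ∀ t : ℝ, t < 1 → AnalyticAt ℝ phi t ∧ 0 < phi t

/-- The differential equation. -/
def Stmt_Ode : Prop := ∀ t : ℝ, -1 < t → t < 1 →
  (1 - t ^ 2) * deriv (deriv phi) t - 2 * t * deriv phi t - phi t / 4 = 0

/-- Legendre's relation at `0` (Beta integrals). -/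
def Stmt_Leg0 : Prop := phi 0 * deriv phi 0 = Real.pi / 2

/-- The Wronskian (Legendre's relation). -/
def Stmt_Wron : Prop := ∀ t : ℝ, -1 < t → t < 1 →
  Mt t 0 * Mt t 3 - Mt t 1 * Mt t 2 = - Real.pi / (1 - t ^ 2)

/-- The singularity at `1`. -/
def Stmt_Sing : Prop := ∃ (h : ℝ → ℝ) (κ η : ℝ), AnalyticAt ℝ h 1 ∧ κ ≠ 0 ∧ 0 < η ∧
  ∀ t, 1 - η < t → t < 1 → phi t = phi (-t) * (κ * Real.log (1 - t) + h t)

/-- The Taylor expansions at `t₀`. -/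
def Stmt_Ser : Prop := ∀ t₀ : ℚ, -1 < t₀ → t₀ < 1 → ∃ ρ : ℝ, 0 < ρ ∧ ∀ w : ℝ, |w| < ρ →
  (∀ i, Conv (UV t₀ i) w) ∧ 0 < val (UV t₀ 0) w ∧
  Mt (t₀ + w) 0 = val (UV t₀ 0) w * Mt t₀ 0 + val (UV t₀ 1) w * Mt t₀ 2 ∧
  Mt (t₀ + w) 1 = val (UV t₀ 0) w * Mt t₀ 1 + val (UV t₀ 1) w * Mt t₀ 3 ∧
  Mt (t₀ + w) 2 = val (UV t₀ 2) w * Mt t₀ 0 + val (UV t₀ 3) w * Mt t₀ 2 ∧
  Mt (t₀ + w) 3 = val (UV t₀ 2) w * Mt t₀ 1 + val (UV t₀ 3) w * Mt t₀ 3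

/-! ### Part IV: functional relations -/

/-- The logarithm is transcendental over germs of analytic functions. -/
def Stmt_LogT : Prop := ∀ (d : ℕ) (a : Fin (d + 1) → ℝ → ℝ), (∀ i, AnalyticAt ℝ (a i) 0) →
  (∀ᶠ x in nhdsWithin (0 : ℝ) (Set.Ioi 0), ∑ i, a i x * Real.log x ^ (i : ℕ) = 0) →
  ∀ i, ∀ᶠ x in nhds (0 : ℝ), a i x = 0

/-- Right multiplication by elementary matrices. -/
def eR (s : ℝ) (M : Fin 4 → ℝ) : Fin 4 → ℝ := ![M 0 + s * M 1, M 1, M 2 + s * M 3, M 3]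

def eL (s : ℝ) (M : Fin 4 → ℝ) : Fin 4 → ℝ := ![M 0, M 1 + s * M 0, M 2, M 3 + s * M 2]

/-- Invariance of relations, from the singularity at `t = 1`. -/
def Stmt_StepR : Prop := ∀ (σ : Type) [Finite σ] (t₀ c : ℝ), -1 < t₀ → t₀ < 1 → 0 < c →
  ∀ (f : σ → ℝ → ℝ), (∀ i, ∀ z ∈ Set.Icc (-(1 + t₀) / c) ((1 - t₀) / c), AnalyticAt ℝ (f i) z) →
  ∀ P : MvPolynomial (σ ⊕ Fin 4) ℝ,
  (∀ z ∈ Set.Ioo (-(1 + t₀) / c) ((1 - t₀) / c),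
    MvPolynomial.eval (Sum.elim (fun i => f i z) (Mt (t₀ + c * z))) P = 0) →
  ∀ s : ℝ, ∀ z ∈ Set.Ioo (-(1 + t₀) / c) ((1 - t₀) / c),
    MvPolynomial.eval (Sum.elim (fun i => f i z) (eR s (Mt (t₀ + c * z)))) P = 0

/-- Invariance of relations, from the singularity at `t = -1`. -/
def Stmt_StepL : Prop := ∀ (σ : Type) [Finite σ] (t₀ c : ℝ), -1 < t₀ → t₀ < 1 → 0 < c →
  ∀ (f : σ → ℝ → ℝ), (∀ i, ∀ z ∈ Set.Icc (-(1 + t₀) / c) ((1 - t₀) / c), AnalyticAt ℝ (f i) z) →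
  ∀ P : MvPolynomial (σ ⊕ Fin 4) ℝ,
  (∀ z ∈ Set.Ioo (-(1 + t₀) / c) ((1 - t₀) / c),
    MvPolynomial.eval (Sum.elim (fun i => f i z) (Mt (t₀ + c * z))) P = 0) →
  ∀ s : ℝ, ∀ z ∈ Set.Ioo (-(1 + t₀) / c) ((1 - t₀) / c),
    MvPolynomial.eval (Sum.elim (fun i => f i z) (eL s (Mt (t₀ + c * z)))) P = 0

/-- The relations hold on the whole orbit. -/
def Stmt_Orb : Prop := ∀ (σ : Type) [Finite σ] (t₀ c : ℝ), -1 < t₀ → t₀ < 1 → 0 < c →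
  ∀ (f : σ → ℝ → ℝ), (∀ i, ∀ z ∈ Set.Icc (-(1 + t₀) / c) ((1 - t₀) / c), AnalyticAt ℝ (f i) z) →
  ∀ P : MvPolynomial (σ ⊕ Fin 4) ℝ,
  (∀ z ∈ Set.Ioo (-(1 + t₀) / c) ((1 - t₀) / c),
    MvPolynomial.eval (Sum.elim (fun i => f i z) (Mt (t₀ + c * z))) P = 0) →
  ∀ z ∈ Set.Ioo (-(1 + t₀) / c) ((1 - t₀) / c), ∀ N : Fin 4 → ℝ,
    N 0 * N 3 - N 1 * N 2 = - Real.pi / (1 - (t₀ + c * z) ^ 2) →
    MvPolynomial.eval (Sum.elim (fun i => f i z) N) P = 0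

/-- All functional relations are consequences of the Legendre relations. -/
def Stmt_ThmB : Prop := ∀ t₀ : ℝ, -1 < t₀ → t₀ < 1 → ∀ (K : ℕ) (c : Fin K → ℝ),
  (∀ k, 0 < c k) → Function.Injective c → ∀ P : MvPolynomial (Option (Fin K × Fin 4)) ℝ,
  (∃ ε : ℝ, 0 < ε ∧ ∀ z ∈ Set.Ioo 0 ε,
    MvPolynomial.eval (fun o => o.elim z (fun p => Mt (t₀ + c p.1 * z) p.2)) P = 0) →
  ∀ z : ℝ, (∀ k, -1 < t₀ + c k * z ∧ t₀ + c k * z < 1) → ∀ N : Fin K → Fin 4 → ℝ,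
    (∀ k, N k 0 * N k 3 - N k 1 * N k 2 = - Real.pi / (1 - (t₀ + c k * z) ^ 2)) →
    MvPolynomial.eval (fun o => o.elim z (fun p => N p.1 p.2)) P = 0

/-! ### Part V: elimination of the constants -/

/-- Polynomials of bounded degree as combinations of words. -/
def Stmt_Word : Prop := ∀ (σ : Type) [Fintype σ] (E : ℕ) (Q : MvPolynomial σ ℚ),
  Q.totalDegree ≤ E → ∃ a : (Fin E → Option σ) → ℚ,
    Q = ∑ w, MvPolynomial.C (a w) * ∏ e, (w e).elim 1 MvPolynomial.X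

/-- The values `U, V, U'`. -/
noncomputable def xv (t₀ : ℚ) (w : ℝ) : Fin 3 → ℝ :=
  ![val (UV t₀ 0) w, val (UV t₀ 1) w, val (UV t₀ 2) w]

/-- The values of the solutions with rational Taylor coefficients satisfy no relation of bounded
degree. -/
def Stmt_IndR : Prop := ∀ t₀ : ℚ, -1 < t₀ → t₀ < 1 → ∀ K E : ℕ, ∃ δ : ℝ, 0 < δ ∧
  ∃ n₀ : ℕ, ∀ n : ℕ, n₀ ≤ n → ∀ r : Fin K → ℚ, Function.Injective r →
    (∀ i, 0 < r i ∧ ((r i).num : ℝ) ≤ (n : ℝ) ^ δ ∧ ((r i).den : ℝ) ≤ (n : ℝ) ^ δ) →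
    ∀ Q : MvPolynomial (Fin K × Fin 3) ℚ, Q ≠ 0 → Q.totalDegree ≤ E →
      MvPolynomial.aeval (fun p => xv t₀ ((r p.1 : ℝ) / n) p.2) Q ≠ (0 : ℝ)

/-- A relation between the periods gives a relation between the constants and the values of the
solutions. -/
def Stmt_Exc : Prop := ∀ g D : ℕ, ∃ D' : ℕ, ∀ t₀ : ℚ, -1 < t₀ → t₀ < 1 → ∃ ρ : ℝ, 0 < ρ ∧
  ∀ w : Fin g → ℚ, (∀ i, 0 < w i ∧ (w i : ℝ) < ρ) →
  ∀ P : MvPolynomial (Option (Fin g × Fin 4)) ℚ, IsRel D (fun i => (t₀ : ℝ) + w i) P →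
  ∃ S : MvPolynomial (Fin 4 ⊕ (Fin g × Fin 3)) ℚ, S.totalDegree ≤ D' ∧
    MvPolynomial.aeval (Sum.elim (Mt t₀) (fun p => xv t₀ (w p.1) p.2)) S = (0 : ℝ) ∧
    ∃ y : Fin g × Fin 3 → ℝ, MvPolynomial.aeval (Sum.elim (Mt t₀) y) S ≠ 0

/-- Choice of a variable and a leading coefficient. -/
def Stmt_ElA : Prop := ∀ (q a D : ℕ) (θ : Fin q → ℝ) (x : Fin a → ℝ)
  (S : MvPolynomial (Fin q ⊕ Fin a) ℚ), S.totalDegree ≤ D →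
  MvPolynomial.aeval (Sum.elim θ x) S = (0 : ℝ) →
  (∃ y : Fin a → ℝ, MvPolynomial.aeval (Sum.elim θ y) S ≠ 0) →
  ∃ (l : Fin a) (J : ℕ) (c : ℕ → MvPolynomial (Fin q ⊕ Fin a) ℚ), 1 ≤ J ∧ J ≤ D ∧
    (∀ j, (c j).totalDegree ≤ D ∧ Sum.inr l ∉ (c j).vars) ∧
    MvPolynomial.aeval (Sum.elim θ x) (c J) ≠ (0 : ℝ) ∧
    ∑ j ∈ range (J + 1), MvPolynomial.aeval (Sum.elim θ x) (c j) * x l ^ j = (0 : ℝ)

/-- Elimination of `q` constants from `q + 1` relations in disjoint sets of variables. -/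
def Stmt_Elim : Prop := ∀ (q a D : ℕ), ∃ E : ℕ, ∀ (θ : Fin q → ℝ) (x : Fin (q + 1) → Fin a → ℝ)
  (S : Fin (q + 1) → MvPolynomial (Fin q ⊕ Fin a) ℚ), (∀ i, (S i).totalDegree ≤ D) →
  (∀ i, MvPolynomial.aeval (Sum.elim θ (x i)) (S i) = (0 : ℝ)) →
  (∀ i, ∃ y : Fin a → ℝ, MvPolynomial.aeval (Sum.elim θ y) (S i) ≠ 0) →
  ∃ Q : MvPolynomial (Fin (q + 1) × Fin a) ℚ, Q ≠ 0 ∧ Q.totalDegree ≤ E ∧
    MvPolynomial.aeval (fun p => x p.1 p.2) Q = (0 : ℝ)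

end Pool.Agent.DGP
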